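import Pool.Agent.H63.SX.Fin1
import Pool.Agent.ROT.Pert

/-!
# SX-33: transfer to the Euclidean plane

`bridge`: with `A' i = pt (A i)`, `B' j = pt (B j)`, `h j = ((B j 0)² + (B j 1)²) / 2` and
`t' = pt t`: `∑ i, ‖A i - (B (π i) + t)‖² = ∑ i, ((A i 0 - t 0)² + (A i 1 - t 1)²) + 2 val A' B' h t' π`
(`Pool.Agent.ROT.Pert_norm`), and the first sum does not depend on `π`.  So every `π` in the
set of the problem is in `So A' B' h` (`Set.ncard_le_ncard` into the coe of the finset,
`Set.ncard_coe_finset`).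
`main`: `bound_gen`, `bound_col`; `Collinear ℝ (Set.range A)` gives a point `p` and a vector `v` with
`A i = r i • v + p` (`collinear_iff_exists_forall_eq_smul_vadd`).
-/

set_option autoImplicit false

namespace Pool.Agent.H63.SX

open Pool.Agent.ROT (cr dt rot pt Sopt)

theorem fin2_eq {m n : ℕ} (A : Fin m → EuclideanSpace ℝ (Fin 2))
    (B : Fin n → EuclideanSpace ℝ (Fin 2)) (t : EuclideanSpace ℝ (Fin 2)) (π : Fin m ↪ Fin n) :
    ∑ i, ‖A i - (B (π i) + t)‖ ^ 2 = ∑ i, ((A i 0 - t 0) ^ 2 + (A i 1 - t 1) ^ 2) +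
      2 * val (fun i => pt (A i)) (fun j => pt (B j)) (fun j => ((B j 0) ^ 2 + (B j 1) ^ 2) / 2)
        (pt t) π := by
  unfold val
  rw [Finset.mul_sum, ← Finset.sum_add_distrib]
  refine Finset.sum_congr rfl fun i _ => ?_
  simp only [Pool.Agent.ROT.Pert_norm, PiLp.sub_apply, PiLp.add_apply, dt, pt, Prod.fst_sub,
    Prod.snd_sub]
  ring

theorem bridge {m n : ℕ} (A : Fin m → EuclideanSpace ℝ (Fin 2))
    (B : Fin n → EuclideanSpace ℝ (Fin 2)) :
    (Sopt A B).ncard ≤ (So (fun i => pt (A i)) (fun j => pt (B j))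
      (fun j => ((B j 0) ^ 2 + (B j 1) ^ 2) / 2)).card := by
  rw [← Set.ncard_coe_finset]
  refine Set.ncard_le_ncard ?_ (Finset.finite_toSet _)
  rintro π ⟨t, ht⟩
  rw [Finset.mem_coe, mem_So]
  refine ⟨pt t, fun σ hσ => ?_⟩
  have := ht σ hσ
  rw [fin2_eq, fin2_eq] at this
  linarith

theorem main {m n : ℕ} (h1 : 1 ≤ m) (h2 : m ≤ n) (A : Fin m → EuclideanSpace ℝ (Fin 2))
    (B : Fin n → EuclideanSpace ℝ (Fin 2)) :
    ((Sopt A B).ncard : ℝ) ≤ (n : ℝ) ^ 4 * Real.exp (50000 * √(m * (1 + Real.log m) ^ 3)) ∧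
      (Collinear ℝ (Set.range A) →
        ((Sopt A B).ncard : ℝ) ≤ (n : ℝ) ^ 4 * Real.exp (20 * (1 + Real.log m) ^ 2)) := by
  have hb : ((Sopt A B).ncard : ℝ) ≤ ((So (fun i => pt (A i)) (fun j => pt (B j))
      (fun j => ((B j 0) ^ 2 + (B j 1) ^ 2) / 2)).card : ℝ) := by exact_mod_cast bridge A B
  constructor
  · have h3 := bound_gen (fun i => pt (A i)) (fun j => pt (B j))
      (fun j => ((B j 0) ^ 2 + (B j 1) ^ 2) / 2) (by rw [Fintype.card_fin]; exact h1)
      (by rw [Fintype.card_fin, Fintype.card_fin]; exact h2)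
    rw [Fintype.card_fin, Fintype.card_fin] at h3
    exact hb.trans h3
  · intro hcol
    obtain ⟨p0, v, hv⟩ := (collinear_iff_exists_forall_eq_smul_vadd _).1 hcol
    choose r hr using fun i => hv (A i) (Set.mem_range_self i)
    have h3 := bound_col (fun i => pt (A i)) (fun j => pt (B j))
      (fun j => ((B j 0) ^ 2 + (B j 1) ^ 2) / 2) (by rw [Fintype.card_fin]; exact h1)
      (by rw [Fintype.card_fin, Fintype.card_fin]; exact h2) (pt p0) (pt v) r (by
        intro i
        show pt (A i) = pt p0 + r i • pt v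
        rw [hr i]
        simp only [pt, vadd_eq_add, PiLp.add_apply, PiLp.smul_apply, smul_eq_mul]
        refine Prod.ext ?_ ?_
        · show r i * v 0 + p0 0 = p0 0 + r i * v 0
          ring
        · show r i * v 1 + p0 1 = p0 1 + r i * v 1
          ring)
    rw [Fintype.card_fin, Fintype.card_fin] at h3
    exact hb.trans h3

end Pool.Agent.H63.SX
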