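import Pool.Agent.H63.SX.Defs

/-!
# SX-28: reduction to `m²` sites

Let `m = card α ≥ 1`, `n = card β`, and `w a b t = h b - <A a - t, B b>` (an affine function of
`t`).  Let `π` be the unique optimum at `t`.  For every `a` the set
`{b' | w a b' t ≤ w a (π a) t}` has at most `m` elements: every `b' ≠ π a` in it is in the range
of `π` (otherwise changing the value of `π` at `a` to `b'` gives a matching `≠ π` that is not more
expensive), so the set is contained in the range of `π`.
Let `Nb a t = {b | #{b' | w a b' t ≤ w a b t} ≤ m}`; it contains `π a`, and it has at most `m`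
elements: if it is nonempty let `b` be an element with maximal `w a b t`; then
`Nb a t ⊆ {b' | w a b' t ≤ w a b t}`.  Let `J t` be the union of the `Nb a t` over `a`; so
`card (J t) ≤ m²`.
`J t` is determined by the set `σ t = {(a,b,b') | 0 < w a b' t - w a b t}`, because
`w a b' t ≤ w a b t` iff `(a,b,b') ∉ σ t`.  By `Pool.Agent.ROT.vc` (with `ι = α × β × β`,
`L = m n²`; the function `w a b' t - w a b t` has the form `c + dt t v`: `v = B b' - B b`) the
number of sets `σ t` is at most `1 + L + L.choose 2` (take for `T` the finite set of all these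
sets, as a subset of `Finset (α × β × β)`).

For every `π ∈ So A B h` choose `t π`.  Its range is in `J (t π)`, and its corestriction to
`J (t π)` is the unique optimum at `t π` for the restricted problem (a competitor
`α ↪ {b // b ∈ J}` composed with the inclusion is an embedding `α ↪ β`, with the same value).  So
for every possible set `J`, of at most `m²` elements, the number of `π` with `J (t π) = J` is at
most `X`.  The number of sets `J` is at most `1 + L + L.choose 2`.
-/

set_option autoImplicit false

namespace Pool.Agent.H63.SX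

open Pool.Agent.ROT (cr dt rot)

private noncomputable def nw {α β : Type} (A : α → ℝ × ℝ) (B : β → ℝ × ℝ) (h : β → ℝ) (a : α)
    (b : β) (t : ℝ × ℝ) : ℝ := h b - dt (A a - t) (B b)

open Classical in
private noncomputable def Nb {α β : Type} [Fintype α] [Fintype β] (A : α → ℝ × ℝ)
    (B : β → ℝ × ℝ) (h : β → ℝ) (a : α) (t : ℝ × ℝ) : Finset β :=
  Finset.univ.filter fun b =>
    (Finset.univ.filter fun b' => nw A B h a b' t ≤ nw A B h a b t).card ≤ Fintype.card α

open Classical in
private noncomputable def JJ {α β : Type} [Fintype α] [Fintype β] (A : α → ℝ × ℝ)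
    (B : β → ℝ × ℝ) (h : β → ℝ) (t : ℝ × ℝ) : Finset β :=
  Finset.univ.biUnion fun a => Nb A B h a t

private theorem Nb_card {α β : Type} [Fintype α] [Fintype β] (A : α → ℝ × ℝ)
    (B : β → ℝ × ℝ) (h : β → ℝ) (a : α) (t : ℝ × ℝ) :
    (Nb A B h a t).card ≤ Fintype.card α := by
  classical
  by_cases hne : (Nb A B h a t).Nonempty
  · obtain ⟨b, hb, hmax⟩ := Finset.exists_max_image (Nb A B h a t) (fun b => nw A B h a b t) hne
    have hb' := hb
    simp only [Nb, Finset.mem_filter, Finset.mem_univ, true_and] at hb'
    refine le_trans (Finset.card_le_card ?_) hb'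
    intro b' hb'
    simp only [Finset.mem_filter, Finset.mem_univ, true_and]
    exact hmax b' hb'
  · rw [Finset.not_nonempty_iff_eq_empty.mp hne]
    simp

private theorem JJ_card {α β : Type} [Fintype α] [Fintype β] (A : α → ℝ × ℝ)
    (B : β → ℝ × ℝ) (h : β → ℝ) (t : ℝ × ℝ) :
    (JJ A B h t).card ≤ Fintype.card α ^ 2 := by
  classical
  have := Finset.card_biUnion_le_card_mul (Finset.univ : Finset α) (fun a => Nb A B h a t)
    (Fintype.card α) (fun a _ => Nb_card A B h a t)
  rw [Finset.card_univ] at this
  rw [pow_two]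
  exact this

private theorem mem_JJ {α β : Type} [Fintype α] [Fintype β] {A : α → ℝ × ℝ}
    {B : β → ℝ × ℝ} {h : β → ℝ} {t : ℝ × ℝ} {a : α} {b : β} (hb : b ∈ Nb A B h a t) :
    b ∈ JJ A B h t := by
  classical
  unfold JJ
  exact Finset.mem_biUnion.mpr ⟨a, Finset.mem_univ a, hb⟩

private theorem mem_Nb {α β : Type} [Fintype α] [Fintype β] {A : α → ℝ × ℝ}
    {B : β → ℝ × ℝ} {h : β → ℝ} {t : ℝ × ℝ} {π : α ↪ β} (hπ : Uo A B h t π) (a : α) :
    π a ∈ Nb A B h a t := by
  classical
  simp only [Nb, Finset.mem_filter, Finset.mem_univ, true_and]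
  have hsub : (Finset.univ.filter fun b' => nw A B h a b' t ≤ nw A B h a (π a) t)
      ⊆ Finset.univ.image π := by
    intro b' hb'
    simp only [Finset.mem_filter, Finset.mem_univ, true_and] at hb'
    simp only [Finset.mem_image, Finset.mem_univ, true_and]
    by_contra hr
    push Not at hr
    let σ : α ↪ β := ⟨fun x => if x = a then b' else π x, by
      intro x y hxy
      simp only at hxy
      by_cases hx : x = a
      · by_cases hy : y = a
        · rw [hx, hy]
        · rw [if_pos hx, if_neg hy] at hxy
          exact absurd hxy.symm (hr y)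
      · by_cases hy : y = a
        · rw [if_neg hx, if_pos hy] at hxy
          exact absurd hxy (hr x)
        · rw [if_neg hx, if_neg hy] at hxy
          exact π.injective hxy⟩
    have hσa : σ a = b' := by simp [σ]
    have hσx : ∀ x, x ≠ a → σ x = π x := fun x hx => by simp [σ, hx]
    have hne : σ ≠ π := by
      intro he
      apply hr a
      rw [← he, hσa]
    have hlt := hπ σ hne
    have e1 : val A B h t π = nw A B h a (π a) t
        + ∑ x ∈ Finset.univ.erase a, (h (π x) - dt (A x - t) (B (π x))) := by
      rw [val, ← Finset.add_sum_erase Finset.univ _ (Finset.mem_univ a)]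
      rfl
    have e2 : val A B h t σ = nw A B h a b' t
        + ∑ x ∈ Finset.univ.erase a, (h (π x) - dt (A x - t) (B (π x))) := by
      rw [val, ← Finset.add_sum_erase Finset.univ _ (Finset.mem_univ a), hσa]
      congr 1
      refine Finset.sum_congr rfl fun x hx => ?_
      rw [hσx x (Finset.ne_of_mem_erase hx)]
    linarith
  refine le_trans (Finset.card_le_card hsub) ?_
  refine le_trans Finset.card_image_le ?_
  rw [Finset.card_univ]

private theorem JJ_congr {α β : Type} [Fintype α] [Fintype β] {A : α → ℝ × ℝ}
    {B : β → ℝ × ℝ} {h : β → ℝ} {t t' : ℝ × ℝ}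
    (H : ∀ a b b', nw A B h a b' t ≤ nw A B h a b t ↔ nw A B h a b' t' ≤ nw A B h a b t') :
    JJ A B h t = JJ A B h t' := by
  classical
  unfold JJ
  congr 1
  funext a
  unfold Nb
  congr 1
  funext b
  have : (Finset.univ.filter fun b' => nw A B h a b' t ≤ nw A B h a b t)
      = (Finset.univ.filter fun b' => nw A B h a b' t' ≤ nw A B h a b t') := by
    ext b'
    simp only [Finset.mem_filter, Finset.mem_univ, true_and]
    exact H a b b'
  rw [this]

theorem near_red {α β : Type} [Fintype α] [Fintype β] [DecidableEq β] (A : α → ℝ × ℝ)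
    (B : β → ℝ × ℝ) (h : β → ℝ) (hm : 1 ≤ Fintype.card α) (X : ℝ)
    (hX : ∀ J : Finset β, J.card ≤ Fintype.card α ^ 2 →
      ((So A (fun b : {b // b ∈ J} => B b) (fun b : {b // b ∈ J} => h b)).card : ℝ) ≤ X) :
    ((So A B h).card : ℝ) ≤ (1 + Fintype.card α * Fintype.card β ^ 2 +
      (Fintype.card α * Fintype.card β ^ 2).choose 2 : ℕ) * X := by
  classical
  have hX0 : 0 ≤ X := le_trans (Nat.cast_nonneg _) (hX ∅ (by simp))
  -- choice of the points
  have hch : ∀ π : α ↪ β, ∃ t : ℝ × ℝ, π ∈ So A B h → Uo A B h t π := by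
    intro π
    by_cases hπ : π ∈ So A B h
    · obtain ⟨t, ht⟩ := mem_So.mp hπ
      exact ⟨t, fun _ => ht⟩
    · exact ⟨0, fun h' => absurd h' hπ⟩
  choose tt htt using hch
  set F : (α ↪ β) → Finset β := fun π => JJ A B h (tt π) with hF
  set T : Finset (Finset β) := (So A B h).image F with hT
  -- the fibres
  have hfib : ∀ S ∈ T, (((So A B h).filter fun π => F π = S).card : ℝ) ≤ X := by
    intro S hS
    obtain ⟨π0, -, rfl⟩ := Finset.mem_image.mp hS
    set S := F π0 with hSdef
    have hScard : S.card ≤ Fintype.card α ^ 2 := JJ_card A B h (tt π0)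
    refine le_trans ?_ (hX S hScard)
    rw [Nat.cast_le]
    let Gm : (α ↪ {b // b ∈ S}) → (α ↪ β) := fun σ => σ.trans (Function.Embedding.subtype _)
    have hsub : ((So A B h).filter fun π => F π = S) ⊆
        (So A (fun b : {b // b ∈ S} => B b) (fun b : {b // b ∈ S} => h b)).image Gm := by
      intro π hπ
      rw [Finset.mem_filter] at hπ
      obtain ⟨hπ1, hπ2⟩ := hπ
      have hU := htt π hπ1
      have hmem : ∀ a, π a ∈ S := by
        intro a
        rw [← hπ2]
        exact mem_JJ (mem_Nb hU a)
      let σ : α ↪ {b // b ∈ S} := ⟨fun a => ⟨π a, hmem a⟩, by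
        intro x y hxy
        exact π.injective (Subtype.ext_iff.mp hxy)⟩
      have hGσ : Gm σ = π := by
        ext a; rfl
      rw [Finset.mem_image]
      refine ⟨σ, mem_So.mpr ⟨tt π, ?_⟩, hGσ⟩
      intro σ' hσ'
      have hne : Gm σ' ≠ π := by
        intro he
        apply hσ'
        ext a
        have : Gm σ' a = π a := by rw [he]
        exact this
      exact hU (Gm σ') hne
    exact le_trans (Finset.card_le_card hsub) Finset.card_image_le
  -- the number of sets
  have hTc : T.card ≤ 1 + Fintype.card α * Fintype.card β ^ 2 +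
      (Fintype.card α * Fintype.card β ^ 2).choose 2 := by
    have hrep : ∀ S : Finset β, ∃ t : ℝ × ℝ, S ∈ T → JJ A B h t = S := by
      intro S
      by_cases hS : S ∈ T
      · obtain ⟨π, -, hπ⟩ := Finset.mem_image.mp hS
        exact ⟨tt π, fun _ => hπ⟩
      · exact ⟨0, fun h' => absurd h' hS⟩
    choose ts hts using hrep
    have hv := ROT.vc (ι := α × β × β)
      (fun i => h i.2.2 - h i.2.1 - dt (A i.1) (B i.2.2 - B i.2.1))
      (fun i => B i.2.2 - B i.2.1) T ts (by
        intro S hS S' hS' hne
        by_contra hcon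
        push Not at hcon
        apply hne
        rw [← hts S hS, ← hts S' hS']
        refine JJ_congr fun a b b' => ?_
        have h1 := hcon (a, b, b')
        simp only at h1
        have key : ∀ t : ℝ × ℝ, h b' - h b - dt (A a) (B b' - B b) + dt t (B b' - B b)
            = nw A B h a b' t - nw A B h a b t := by
          intro t
          simp only [nw, dt, Prod.fst_sub, Prod.snd_sub]; ring
        rw [key, key, sub_pos, sub_pos] at h1
        rw [← not_lt, ← not_lt]
        exact not_congr h1)
    have hcard : Fintype.card (α × β × β) = Fintype.card α * Fintype.card β ^ 2 := by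
      rw [Fintype.card_prod, Fintype.card_prod]; ring
    rw [hcard] at hv
    exact hv
  have hsum : ((So A B h).card : ℝ) = ∑ S ∈ T, (((So A B h).filter fun π => F π = S).card : ℝ) := by
    rw [← Nat.cast_sum]
    congr 1
    exact Finset.card_eq_sum_card_image F (So A B h)
  rw [hsum]
  calc ∑ S ∈ T, (((So A B h).filter fun π => F π = S).card : ℝ) ≤ ∑ S ∈ T, X :=
        Finset.sum_le_sum hfib
    _ = (T.card : ℝ) * X := by rw [Finset.sum_const, nsmul_eq_mul]
    _ ≤ _ := mul_le_mul_of_nonneg_right (Nat.cast_le.mpr hTc) hX0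

end Pool.Agent.H63.SX
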