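import Pool.Agent.ROT.Base
import Pool.Agent.ROT.VC

/-!
# SX: subexponential bound for unique optimal translated partial matchings (MP_bd0985_co)

Definitions (helper63).

Plane geometry in coordinates (`cr` = cross product, `dt` = dot product, `rot` = rotation by 90
degrees, all from `Pool.Agent.ROT.Base`, with their lemmas `dt_rot`, `cr_add_left`, ...).

A problem consists of `A : α → ℝ × ℝ`, `B : β → ℝ × ℝ`, `h : β → ℝ`; the value of a matching
`π : α ↪ β` at the translation `t` is `∑ a, (h (π a) - <A a - t, B (π a)>)`.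
-/

set_option autoImplicit false

namespace Pool.Agent.H63.SX

open Pool.Agent.ROT (cr dt rot)

section Matchings

variable {α β : Type}

/-- Value of the matching `π` at the translation `t`. -/
noncomputable def val [Fintype α] (A : α → ℝ × ℝ) (B : β → ℝ × ℝ) (h : β → ℝ) (t : ℝ × ℝ)
    (π : α ↪ β) : ℝ :=
  ∑ a, (h (π a) - dt (A a - t) (B (π a)))

/-- `π` is the unique optimal matching at `t`. -/
def Uo [Fintype α] (A : α → ℝ × ℝ) (B : β → ℝ × ℝ) (h : β → ℝ) (t : ℝ × ℝ) (π : α ↪ β) : Prop :=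
  ∀ σ : α ↪ β, σ ≠ π → val A B h t π < val A B h t σ

open Classical in
/-- The finite set of all unique optimal matchings. -/
noncomputable def So [Fintype α] [Fintype β] (A : α → ℝ × ℝ) (B : β → ℝ × ℝ) (h : β → ℝ) :
    Finset (α ↪ β) :=
  Finset.univ.filter fun π => ∃ t, Uo A B h t π

lemma mem_So [Fintype α] [Fintype β] {A : α → ℝ × ℝ} {B : β → ℝ × ℝ} {h : β → ℝ} {π : α ↪ β} :
    π ∈ So A B h ↔ ∃ t, Uo A B h t π := by
  simp [So]

end Matchings

section Parity

open Classical in
/-- Parity of the number of crossings of the segment from `p` to `q` with the open positive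
`x`-axis (with the convention that the points of the axis are below it). -/
noncomputable def eps (p q : ℝ × ℝ) : ZMod 2 :=
  if (0 < p.2 ∧ ¬ 0 < q.2 ∧ 0 < cr q p) ∨ (0 < q.2 ∧ ¬ 0 < p.2 ∧ 0 < cr p q) then 1 else 0

/-- The origin-relative point `b` lies inside of the counterclockwise triangle `D`. -/
def InTri (D : Fin 3 → ℝ × ℝ) (b : ℝ × ℝ) : Prop :=
  0 < cr (D 0 - b) (D 1 - b) ∧ 0 < cr (D 1 - b) (D 2 - b) ∧ 0 < cr (D 2 - b) (D 0 - b)

end Parity

section Diagrams

variable {V : Type}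

/-- The affine function of the site `v`. -/
def ell (b : V → ℝ × ℝ) (g : V → ℝ) (v : V) (y : ℝ × ℝ) : ℝ := dt y (b v) - g v

/-- `y` is an inner point of the common edge of the cells of `u` and `v`. -/
def IsE (b : V → ℝ × ℝ) (g : V → ℝ) (u v : V) (y : ℝ × ℝ) : Prop :=
  ell b g u y = ell b g v y ∧ ∀ w, w ≠ u → w ≠ v → ell b g w y < ell b g u y

/-- `y` is the common point of the cells of `u`, `v` and `w`. -/
def IsT (b : V → ℝ × ℝ) (g : V → ℝ) (u v w : V) (y : ℝ × ℝ) : Prop :=
  ell b g u y = ell b g v y ∧ ell b g u y = ell b g w y ∧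
    ∀ x, x ≠ u → x ≠ v → x ≠ w → ell b g x y < ell b g u y

/-- Adjacency of cells. -/
def Gr (b : V → ℝ × ℝ) (g : V → ℝ) : SimpleGraph V where
  Adj u v := u ≠ v ∧ ∃ y, IsE b g u v y
  symm := by
    refine ⟨?_⟩
    rintro u v ⟨h, y, h1, h2⟩
    exact ⟨h.symm, y, h1.symm, fun w hw hw' => by rw [← h1]; exact h2 w hw' hw⟩
  loopless := ⟨fun _ h => h.1 rfl⟩

/-- Generic position: no three sites are collinear and no four functions are equal at a point. -/
structure Ge (b : V → ℝ × ℝ) (g : V → ℝ) : Prop where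
  ncol : ∀ i j k, i ≠ j → j ≠ k → i ≠ k → cr (b j - b i) (b k - b i) ≠ 0
  quad : ∀ i j k l y, i ≠ j → i ≠ k → i ≠ l → j ≠ k → j ≠ l → k ≠ l →
    ell b g i y = ell b g j y → ell b g i y = ell b g k y → ell b g i y ≠ ell b g l y

/-- The three sites `D i` form a counterclockwise triangle that contains all other sites. -/
structure Hull (D : Fin 3 → V) (b : V → ℝ × ℝ) : Prop where
  inj : Function.Injective D
  ori : 0 < cr (b (D 1) - b (D 0)) (b (D 2) - b (D 0))
  ins : ∀ v, (∀ i, v ≠ D i) → InTri (fun i => b (D i)) (b v)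

/-- The point `y v` lies in the open cell of `v`. -/
def Conf (b y : V → ℝ × ℝ) (g : V → ℝ) : Prop :=
  ∀ v w, w ≠ v → ell b g w (y v) < ell b g v (y v)

variable [Fintype V] [DecidableEq V]

open Classical in
/-- The triangles (triples of sites whose cells have a common point). -/
noncomputable def tris (b : V → ℝ × ℝ) (g : V → ℝ) : Finset (Finset V) :=
  Finset.univ.filter fun τ => ∃ u v w, u ≠ v ∧ v ≠ w ∧ u ≠ w ∧ τ = {u, v, w} ∧
    ∃ y, IsT b g u v w y

lemma mem_tris {b : V → ℝ × ℝ} {g : V → ℝ} {τ : Finset V} :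
    τ ∈ tris b g ↔ ∃ u v w, u ≠ v ∧ v ≠ w ∧ u ≠ w ∧ τ = {u, v, w} ∧ ∃ y, IsT b g u v w y := by
  simp [tris]

/-- An injective ranking of the vertices. -/
noncomputable def rk (v : V) : ℕ := (Fintype.equivFin V v).val

omit [DecidableEq V] in
lemma rk_inj {u v : V} (h : rk u = rk v) : u = v :=
  (Fintype.equivFin V).injective (Fin.val_injective h)

/-- Sum of a symmetric function over the unordered pairs in `τ`. -/
noncomputable def fsum (φ : V → V → ZMod 2) (τ : Finset V) : ZMod 2 :=
  ∑ u ∈ τ, ∑ v ∈ τ, if rk u < rk v then φ u v else 0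

omit [Fintype V] [DecidableEq V] in
/-- Sum of a function over a list of pairs. -/
def lsum (φ : V → V → ZMod 2) (L : List (V × V)) : ZMod 2 := (L.map fun e => φ e.1 e.2).sum

omit [Fintype V] [DecidableEq V] in
/-- The list of pairs is a cycle modulo 2. -/
def Cyc (L : List (V × V)) : Prop := ∀ η : V → ZMod 2, lsum (fun u v => η u + η v) L = 0

/-- The vertices different from `D 0`, `D 1`, `D 2`. -/
def real (D : Fin 3 → V) : Finset V := Finset.univ.filter fun v => ∀ i, v ≠ D i

lemma mem_real {D : Fin 3 → V} {v : V} : v ∈ real D ↔ ∀ i, v ≠ D i := by simp [real]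

open Classical in
/-- A triangulated sphere (the faces are `T`; the triangle `D 0, D 1, D 2` is the outer face) with
a mod 2 intersection form `P`. -/
structure Pl (G : SimpleGraph V) (T : Finset (Finset V)) (D : Fin 3 → V)
    (P : V → V → V → ZMod 2) : Prop where
  inj : Function.Injective D
  conn : G.Connected
  card3 : ∀ τ ∈ T, τ.card = 3
  adj_of : ∀ τ ∈ T, ∀ u ∈ τ, ∀ v ∈ τ, u ≠ v → G.Adj u v
  two : ∀ u v, G.Adj u v → (T.filter fun τ => u ∈ τ ∧ v ∈ τ).card = 2
  outer : {D 0, D 1, D 2} ∈ T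
  symmP : ∀ c u v, P c u v = P c v u
  inner : ∀ τ ∈ T, τ ≠ {D 0, D 1, D 2} → ∀ c, (∀ i, c ≠ D i) → c ∉ τ → fsum (P c) τ = 0
  out : ∀ c, (∀ i, c ≠ D i) → fsum (P c) {D 0, D 1, D 2} = 1
  sparse : ∀ W : Finset V, ((W ×ˢ W).filter fun e => G.Adj e.1 e.2).card ≤ 12 * (W.card + 3)

open Classical in
/-- The vertices off the cycle `L` that are inside of it. -/
noncomputable def inside (D : Fin 3 → V) (P : V → V → V → ZMod 2) (L : List (V × V)) : Finset V :=
  (real D).filter fun c => (∀ e ∈ L, e.1 ≠ c ∧ e.2 ≠ c) ∧ lsum (P c) L = 1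

end Diagrams

end Pool.Agent.H63.SX
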