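import Pool.Agent.H63.SX.Defs

/-!
# SX-11: generic weights

For distinct `i j k l` let `u = b j - b i`, `v = b k - b i`, `w = b l - b i` and
`Λ g = cr v w * (g j - g i) + cr w u * (g k - g i) + cr u v * (g l - g i)`, a linear functional of
`g`.  If the four functions of `i j k l` are equal at a point `y`, then
`<y,u> = g j - g i`, `<y,v> = g k - g i`, `<y,w> = g l - g i`, and the identity
`cr v w • u + cr w u • v + cr u v • w = 0` gives `Λ g = 0`.  So it is enough to find `g` with
`Λ g ≠ 0` for all quadruples of distinct vertices that satisfies the strict inequalities of `K`.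

(1) There is `h : V → ℝ` with `Λ h ≠ 0` for all quadruples: take `h v = s ^ (e v)`, where
`e : V ≃ Fin N` (`Fintype.equivFin`), for a suitable real `s`.  `Λ h` is the value at `s` of a
polynomial whose coefficient at `X ^ (e l)` is `cr u v ≠ 0` (since `e l` is different from
`e i, e j, e k`), so it is not the zero polynomial and has finitely many roots; the union of the
root sets over all quadruples is finite, choose `s` outside (`Set.Infinite`/`Finset` of roots,
`Set.Finite.exists_notMem` for the infinite type `ℝ`).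
(Alternatively: finitely many proper subspaces do not cover `V → ℝ`, or a Baire or
measure argument, or induction.)
(2) Take `g = g0 + ε h`.  `Λ g = Λ g0 + ε Λ h` vanishes for at most one `ε`, for each of the finitely
many quadruples.  Every inequality in `K` is strict at `ε = 0` and both sides are affine in `ε`, so
all of them hold for `0 < ε < ε0` (finite set).  Choose `ε ∈ (0, ε0)` outside of the finite set of
bad values (`(Set.Ioo_infinite ..).exists_notMem_finite` or similar).
-/

set_option autoImplicit false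

namespace Pool.Agent.H63.SX

open Pool.Agent.ROT (cr dt rot)

/-- The linear functional of a quadruple. -/
def genLam {V : Type} (b : V → ℝ × ℝ) (q : V × V × V × V) (g : V → ℝ) : ℝ :=
  cr (b q.2.2.1 - b q.1) (b q.2.2.2 - b q.1) * (g q.2.1 - g q.1) +
  cr (b q.2.2.2 - b q.1) (b q.2.1 - b q.1) * (g q.2.2.1 - g q.1) +
  cr (b q.2.1 - b q.1) (b q.2.2.1 - b q.1) * (g q.2.2.2 - g q.1)

/-- The linear functional of a quadruple, as a linear map. -/
def genLamL {V : Type} (b : V → ℝ × ℝ) (q : V × V × V × V) : Module.Dual ℝ (V → ℝ) where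
  toFun g := genLam b q g
  map_add' g h := by simp only [genLam, Pi.add_apply]; ring
  map_smul' c g := by simp only [genLam, Pi.smul_apply, smul_eq_mul, RingHom.id_apply]; ring

lemma genLamL_apply {V : Type} (b : V → ℝ × ℝ) (q : V × V × V × V) (g : V → ℝ) :
    genLamL b q g = genLam b q g := rfl

lemma genLam_zero {V : Type} (b : V → ℝ × ℝ) (g : V → ℝ) (i j k l : V) (y : ℝ × ℝ)
    (h1 : ell b g i y = ell b g j y) (h2 : ell b g i y = ell b g k y)
    (h3 : ell b g i y = ell b g l y) : genLam b (i, j, k, l) g = 0 := by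
  have e1 : g j - g i = Pool.Agent.ROT.dt y (b j) - Pool.Agent.ROT.dt y (b i) := by
    simp only [ell] at h1; linarith
  have e2 : g k - g i = Pool.Agent.ROT.dt y (b k) - Pool.Agent.ROT.dt y (b i) := by
    simp only [ell] at h2; linarith
  have e3 : g l - g i = Pool.Agent.ROT.dt y (b l) - Pool.Agent.ROT.dt y (b i) := by
    simp only [ell] at h3; linarith
  simp only [genLam]
  rw [e1, e2, e3]
  simp only [Pool.Agent.ROT.cr, Pool.Agent.ROT.dt, Prod.fst_sub, Prod.snd_sub]
  ring

lemma exists_h {V : Type} [Fintype V] (b : V → ℝ × ℝ)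
    (hn : ∀ i j k, i ≠ j → j ≠ k → i ≠ k → cr (b j - b i) (b k - b i) ≠ 0) :
    ∃ h : V → ℝ, ∀ i j k l, i ≠ j → i ≠ k → i ≠ l → j ≠ k → j ≠ l → k ≠ l →
      genLam b (i, j, k, l) h ≠ 0 := by
  classical
  let ι := {q : V × V × V × V // q.1 ≠ q.2.1 ∧ q.1 ≠ q.2.2.1 ∧ q.1 ≠ q.2.2.2 ∧
    q.2.1 ≠ q.2.2.1 ∧ q.2.1 ≠ q.2.2.2 ∧ q.2.2.1 ≠ q.2.2.2}
  obtain ⟨h, hh⟩ := Module.Dual.exists_forall_ne_zero_of_forall_exists
    (fun q : ι => genLamL b q.1) (by
      rintro ⟨⟨i, j, k, l⟩, h1, h2, h3, h4, h5, h6⟩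
      refine ⟨Pi.single l 1, ?_⟩
      simp only [genLamL_apply, genLam]
      simp only [ne_eq] at h1 h2 h3 h4 h5 h6
      rw [Pi.single_eq_of_ne h3, Pi.single_eq_of_ne h5, Pi.single_eq_of_ne h6, Pi.single_eq_same]
      have := hn i j k h1 h4 h2
      simpa using this)
  refine ⟨h, fun i j k l h1 h2 h3 h4 h5 h6 => ?_⟩
  exact hh ⟨(i, j, k, l), h1, h2, h3, h4, h5, h6⟩

theorem gen_g {V : Type} [Fintype V] (b : V → ℝ × ℝ)
    (hn : ∀ i j k, i ≠ j → j ≠ k → i ≠ k → cr (b j - b i) (b k - b i) ≠ 0) (g0 : V → ℝ)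
    (K : Set (V × V × (ℝ × ℝ))) (hKf : K.Finite)
    (hK : ∀ x ∈ K, ell b g0 x.1 x.2.2 < ell b g0 x.2.1 x.2.2) :
    ∃ g, Ge b g ∧ ∀ x ∈ K, ell b g x.1 x.2.2 < ell b g x.2.1 x.2.2 := by
  classical
  obtain ⟨h, hh⟩ := exists_h b hn
  have hev : ∀ᶠ ε in nhds (0 : ℝ), ∀ x ∈ K,
      ell b (g0 + ε • h) x.1 x.2.2 < ell b (g0 + ε • h) x.2.1 x.2.2 := by
    rw [Filter.eventually_all_finite hKf]
    intro x hx
    have c1 : Continuous fun ε : ℝ => ell b (g0 + ε • h) x.1 x.2.2 := by
      simp only [ell, Pi.add_apply, Pi.smul_apply, smul_eq_mul]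
      fun_prop
    have c2 : Continuous fun ε : ℝ => ell b (g0 + ε • h) x.2.1 x.2.2 := by
      simp only [ell, Pi.add_apply, Pi.smul_apply, smul_eq_mul]
      fun_prop
    apply c1.continuousAt.eventually_lt c2.continuousAt
    simpa using hK x hx
  rw [Metric.eventually_nhds_iff] at hev
  obtain ⟨δ, hδ, hev⟩ := hev
  have hbad : (Set.range fun q : V × V × V × V => -(genLam b q g0) / genLam b q h).Finite :=
    Set.finite_range _
  obtain ⟨ε, hε⟩ := ((Set.Ioo_infinite hδ).sdiff hbad).nonempty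
  refine ⟨g0 + ε • h, ⟨hn, ?_⟩, ?_⟩
  · intro i j k l y h1 h2 h3 h4 h5 h6 e1 e2 e3
    have hz := genLam_zero b (g0 + ε • h) i j k l y e1 e2 e3
    rw [← genLamL_apply, map_add, map_smul, genLamL_apply, genLamL_apply, smul_eq_mul] at hz
    apply hε.2
    refine ⟨(i, j, k, l), ?_⟩
    have hne := hh i j k l h1 h2 h3 h4 h5 h6
    simp only
    rw [div_eq_iff hne]
    linarith
  · apply hev
    rw [Real.dist_eq, sub_zero, abs_of_pos hε.1.1]
    exact hε.1.2

end Pool.Agent.H63.SX
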