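import Pool.Agent.H63.SX.Defs

/-!
# SX-12: the cells of the three outer sites contain far away points

Let `θ = rot (b (D (i+2)) - b (D (i+1)))`, so `<θ, w> = cr (b (D (i+2)) - b (D (i+1))) w`
(`dt_rot`).  Claim: `<θ, b (D i) - b v> > 0` for all `v ≠ D i`.  Write `d j = b (D j)`,
`Δ = cr (d 1 - d 0) (d 2 - d 0) > 0`; `Δ` is invariant under cyclic shifts of the indices (expand).
 - `v = D (i+1)` or `v = D (i+2)`: the value is `Δ`.
 - `v` not among the `D j`: with `q j = d j - b v`:
   `cr (d (i+2) - d (i+1)) (d i - b v) = cr (q (i+2) - q (i+1)) (q i)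
   = cr (q (i+2)) (q i) + cr (q i) (q (i+1)) > 0` by `InTri`.
(Do the three values `i = 0, 1, 2` separately: `fin_cases i` or `Fin.forall_fin_succ`.)

Then `ell (D i) (R θ - t) - ell v (R θ - t) = R <θ, b (D i) - b v> - <t, b (D i) - b v> - g (D i)
+ g v`, which is positive for all large `R`; take the maximum over the finitely many `i`, `v`.
-/

set_option autoImplicit false

namespace Pool.Agent.H63.SX

open Pool.Agent.ROT (cr dt rot)

theorem hull_dir {V : Type} {D : Fin 3 → V} {b : V → ℝ × ℝ} (hH : Hull D b) (i : Fin 3) {v : V}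
    (hv : v ≠ D i) : 0 < dt (rot (b (D (i + 2)) - b (D (i + 1)))) (b (D i) - b v) := by
  rw [ROT.dt_rot]
  have ho := hH.ori
  by_cases hi : ∀ j, v ≠ D j
  · obtain ⟨h1, h2, h3⟩ := hH.ins v hi
    simp only at h1 h2 h3
    fin_cases i
    · have e : cr (b (D ((0 : Fin 3) + 2)) - b (D ((0 : Fin 3) + 1))) (b (D 0) - b v)
          = cr (b (D 2) - b v) (b (D 0) - b v) + cr (b (D 0) - b v) (b (D 1) - b v) := by
        rw [show (0 : Fin 3) + 2 = 2 from rfl, show (0 : Fin 3) + 1 = 1 from rfl]
        simp only [cr, Prod.fst_sub, Prod.snd_sub]; ring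
      simp only [Fin.zero_eta, Fin.mk_one, Fin.reduceFinMk] at *
      rw [e]; linarith
    · have e : cr (b (D ((1 : Fin 3) + 2)) - b (D ((1 : Fin 3) + 1))) (b (D 1) - b v)
          = cr (b (D 0) - b v) (b (D 1) - b v) + cr (b (D 1) - b v) (b (D 2) - b v) := by
        rw [show (1 : Fin 3) + 2 = 0 from rfl, show (1 : Fin 3) + 1 = 2 from rfl]
        simp only [cr, Prod.fst_sub, Prod.snd_sub]; ring
      simp only [Fin.zero_eta, Fin.mk_one, Fin.reduceFinMk] at *
      rw [e]; linarith
    · have e : cr (b (D ((2 : Fin 3) + 2)) - b (D ((2 : Fin 3) + 1))) (b (D 2) - b v)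
          = cr (b (D 1) - b v) (b (D 2) - b v) + cr (b (D 2) - b v) (b (D 0) - b v) := by
        rw [show (2 : Fin 3) + 2 = 1 from rfl, show (2 : Fin 3) + 1 = 0 from rfl]
        simp only [cr, Prod.fst_sub, Prod.snd_sub]; ring
      simp only [Fin.zero_eta, Fin.mk_one, Fin.reduceFinMk] at *
      rw [e]; linarith
  · push Not at hi
    obtain ⟨j, rfl⟩ := hi
    have hji : j ≠ i := fun h => hv (by rw [h])
    have e : cr (b (D (i + 2)) - b (D (i + 1))) (b (D i) - b (D j))
        = cr (b (D 1) - b (D 0)) (b (D 2) - b (D 0)) := by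
      fin_cases i <;> fin_cases j <;>
        simp only [Fin.zero_eta, Fin.mk_one, Fin.reduceFinMk, ne_eq, not_true_eq_false,
          Fin.reduceAdd, Fin.isValue, zero_add] at hji ⊢ <;>
        simp only [cr, Prod.fst_sub, Prod.snd_sub] <;> ring
    rw [e]; exact ho

theorem far {V : Type} [Fintype V] {D : Fin 3 → V} {b : V → ℝ × ℝ} (hH : Hull D b) (g : V → ℝ)
    (t : ℝ × ℝ) : ∃ R0 : ℝ, ∀ R : ℝ, R0 ≤ R → ∀ i : Fin 3, ∀ v, v ≠ D i →
      ell b g v (R • rot (b (D (i + 2)) - b (D (i + 1))) - t) <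
        ell b g (D i) (R • rot (b (D (i + 2)) - b (D (i + 1))) - t) := by
  have key : ∀ i : Fin 3, ∀ v, v ≠ D i → ∀ᶠ R : ℝ in Filter.atTop,
      ell b g v (R • rot (b (D (i + 2)) - b (D (i + 1))) - t) <
        ell b g (D i) (R • rot (b (D (i + 2)) - b (D (i + 1))) - t) := by
    intro i v hv
    have hm := hull_dir hH i hv
    set θ := rot (b (D (i + 2)) - b (D (i + 1))) with hθ
    set m := dt θ (b (D i) - b v) with hmdef
    have ht : Filter.Tendsto (fun R : ℝ => R * m) Filter.atTop Filter.atTop :=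
      Filter.tendsto_id.atTop_mul_const hm
    filter_upwards [ht.eventually_gt_atTop (dt t (b (D i) - b v) + g (D i) - g v)] with R hR
    have e : ell b g (D i) (R • θ - t) - ell b g v (R • θ - t)
        = R * m - (dt t (b (D i) - b v) + g (D i) - g v) := by
      rw [hmdef]
      simp only [ell, dt, Prod.fst_sub, Prod.snd_sub, Prod.smul_fst, Prod.smul_snd, smul_eq_mul]
      ring
    linarith
  have h2 : ∀ᶠ R : ℝ in Filter.atTop, ∀ i : Fin 3, ∀ v, v ≠ D i →
      ell b g v (R • rot (b (D (i + 2)) - b (D (i + 1))) - t) <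
        ell b g (D i) (R • rot (b (D (i + 2)) - b (D (i + 1))) - t) := by
    rw [Filter.eventually_all]
    intro i
    rw [Filter.eventually_all]
    intro v
    by_cases hv : v = D i
    · exact Filter.Eventually.of_forall fun R h => absurd hv h
    · filter_upwards [key i v hv] with R hR _ using hR
  exact Filter.eventually_atTop.mp h2

end Pool.Agent.H63.SX
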