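import Pool.Agent.H63.SX.Edge
import Pool.Agent.H63.SX.Far

/-!
# SX-17: the adjacency graph is connected

Let `θ = rot (b (D 2) - b (D 1))`; by `hull_dir` (`i = 0`) `<θ, b (D 0) - b v> > 0` for all
`v ≠ D 0`.

Step: every `u ≠ D 0` has a neighbour `v` with `<θ, b v> > <θ, b u>`.  Let `y0 = y u` (a point of
the open cell of `u`), `f x λ = ell x (y0 + λ θ) - ell u (y0 + λ θ) = f x 0 + λ <θ, b x - b u>`,
`f x 0 < 0` for `x ≠ u`.  Let `Z = {x | <θ, b x - b u> > 0}`; it contains `D 0`.  Let `v ∈ Z`
minimise `- f x 0 / <θ, b x - b u>`, let `λ > 0` be the minimum and `z = y0 + λ θ`.  Then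
`f x λ ≤ 0` for all `x` (for `x ∉ Z` the slope is `≤ 0`) and `f v λ = 0`.  If `f x λ < 0` for all
`x ≠ u, v` then `IsE b g u v z`.  Otherwise `f w λ = 0` for some `w ≠ u, v`, and by
`Ge.quad` `f x λ < 0` for all `x ≠ u, v, w`, so `IsT b g u v w z` and `isT_adj` gives the
adjacency.

Hence every vertex is connected to `D 0`: strong induction on the number of `x` with
`<θ, b x> > <θ, b u>` (`Finset.strongInduction`, or `WellFounded.min` / a maximal element of the
finite set of vertices not reachable to `D 0`: if this set is nonempty choose `u` in it with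
maximal `<θ, b u>` (`Finset.exists_max_image`); its neighbour `v` is reachable, a
contradiction).  `SimpleGraph.connected_iff` (preconnected and nonempty).
-/

set_option autoImplicit false

namespace Pool.Agent.H63.SX

open Pool.Agent.ROT (cr dt rot)

variable {V : Type} [Fintype V] {b y : V → ℝ × ℝ} {g : V → ℝ} {D : Fin 3 → V}

/-- Every vertex which is not an extreme one in direction `θ` has a neighbour further in this
direction. -/
theorem conn_step (hG : Ge b g) (hC : Conf b y g) (θ : ℝ × ℝ) {u t : V}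
    (ht : 0 < dt θ (b t - b u)) : ∃ v, (Gr b g).Adj u v ∧ dt θ (b u) < dt θ (b v) := by
  classical
  set sl : V → ℝ := fun x => dt θ (b x - b u) with hsl
  set f0 : V → ℝ := fun x => ell b g x (y u) - ell b g u (y u) with hf0
  have hf0neg : ∀ x, x ≠ u → f0 x < 0 := by
    intro x hx
    have := hC u x hx
    simp only [hf0]
    linarith
  have hslu : sl u = 0 := by
    simp only [hsl, dt]
    simp
  have hZ : (Finset.univ.filter fun x => 0 < sl x).Nonempty :=
    ⟨t, Finset.mem_filter.2 ⟨Finset.mem_univ _, ht⟩⟩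
  obtain ⟨v, hvZ, hvmin⟩ := Finset.exists_min_image _ (fun x => - f0 x / sl x) hZ
  have hv : 0 < sl v := (Finset.mem_filter.1 hvZ).2
  have hvu : v ≠ u := by
    rintro rfl
    rw [hslu] at hv
    exact lt_irrefl _ hv
  set lam : ℝ := - f0 v / sl v with hlam
  have hlampos : 0 < lam := div_pos (by have := hf0neg v hvu; linarith) hv
  set z : ℝ × ℝ := y u + lam • θ with hz
  have hF : ∀ x, ell b g x z - ell b g u z = f0 x + lam * sl x := by
    intro x
    simp only [hz, hf0, hsl, ell, dt, Prod.fst_add, Prod.snd_add, Prod.smul_fst, Prod.smul_snd,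
      Prod.fst_sub, Prod.snd_sub, smul_eq_mul]
    ring
  have hFv : ell b g u z = ell b g v z := by
    have h1 := hF v
    have h2 : f0 v + lam * sl v = 0 := by
      rw [hlam]
      field_simp
      ring
    linarith
  have hFle : ∀ x, x ≠ u → ell b g x z ≤ ell b g u z := by
    intro x hx
    have h1 := hF x
    by_cases hxs : 0 < sl x
    · have h2 := hvmin x (Finset.mem_filter.2 ⟨Finset.mem_univ _, hxs⟩)
      rw [le_div_iff₀ hxs] at h2
      linarith
    · have h2 := hf0neg x hx
      have h3 : lam * sl x ≤ 0 := mul_nonpos_of_nonneg_of_nonpos hlampos.le (not_lt.1 hxs)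
      linarith
  have hgt : dt θ (b u) < dt θ (b v) := by
    have h1 : dt θ (b v - b u) = dt θ (b v) - dt θ (b u) := Pool.Agent.ROT.dt_sub_right _ _ _
    have h2 : 0 < dt θ (b v - b u) := hv
    linarith
  refine ⟨v, ?_, hgt⟩
  by_cases hw : ∃ w, w ≠ u ∧ w ≠ v ∧ ell b g u z = ell b g w z
  · obtain ⟨w, hwu, hwv, hwe⟩ := hw
    refine isT_adj hG hvu.symm hwv.symm hwu.symm (y := z) ⟨hFv, hwe, ?_⟩
    intro x hxu hxv hxw
    refine lt_of_le_of_ne (hFle x hxu) ?_
    exact fun h => hG.quad u v w x z hvu.symm hwu.symm hxu.symm hwv.symm hxv.symm hxw.symm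
      hFv hwe h.symm
  · push Not at hw
    refine ⟨hvu.symm, z, hFv, ?_⟩
    intro w hwu hwv
    exact lt_of_le_of_ne (hFle w hwu) fun h => hw w hwu hwv h.symm

theorem conn (hG : Ge b g) (hH : Hull D b) (hC : Conf b y g) : (Gr b g).Connected := by
  classical
  set θ : ℝ × ℝ := rot (b (D (0 + 2)) - b (D (0 + 1))) with hθ
  have hdir : ∀ v, v ≠ D 0 → 0 < dt θ (b (D 0) - b v) := fun v hv => hull_dir hH 0 hv
  have hreach : ∀ u, (Gr b g).Reachable u (D 0) := by
    by_contra hcon
    push Not at hcon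
    obtain ⟨u0, hu0⟩ := hcon
    have hne : (Finset.univ.filter fun u => ¬ (Gr b g).Reachable u (D 0)).Nonempty :=
      ⟨u0, Finset.mem_filter.2 ⟨Finset.mem_univ _, hu0⟩⟩
    obtain ⟨u, hu, humax⟩ := Finset.exists_max_image _ (fun x => dt θ (b x)) hne
    have hur : ¬ (Gr b g).Reachable u (D 0) := (Finset.mem_filter.1 hu).2
    have huD : u ≠ D 0 := by
      rintro rfl
      exact hur (SimpleGraph.Reachable.refl _)
    obtain ⟨v, hadj, hlt⟩ := conn_step hG hC θ (hdir u huD)
    have hv : (Gr b g).Reachable v (D 0) := by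
      by_contra hv
      have := humax v (Finset.mem_filter.2 ⟨Finset.mem_univ _, hv⟩)
      linarith
    exact hur (hadj.reachable.trans hv)
  rw [SimpleGraph.connected_iff]
  exact ⟨fun u v => (hreach u).trans (hreach v).symm, ⟨D 0⟩⟩

end Pool.Agent.H63.SX
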