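import Pool.Agent.H63.SX.Defs

/-!
# SX-18: sums over faces and sums over edges

`rk` is an injective ranking of the vertices, `fsum φ τ` is the sum of `φ u v` over all pairs in `τ`
with `rk u < rk v`.

* `fsum_triple`: expand the double sum over `{u, v, w}` (`Finset.sum_insert`,
  `Finset.sum_singleton`) into nine terms; the diagonal terms vanish, and for every pair of
  different vertices exactly one of `rk u < rk v`, `rk v < rk u` holds (`rk_inj`), with the same
  value by symmetry.  Use `rcases lt_trichotomy` for the three pairs and `simp` with `not_lt`.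
* `hs`.  Let `cnt u v` be the number of `τ ∈ U` with `u, v ∈ τ`, and let `L` be the list
  (`Finset.toList`) of the pairs `(u,v)` with `rk u < rk v`, `G.Adj u v` and `cnt u v` odd.
  For a symmetric `φ`: `∑ τ ∈ U, fsum φ τ = ∑_{u,v, rk u < rk v} cnt u v * φ u v`
  (`Finset.sum_comm`; write `∑ u ∈ τ` as `∑ u, if u ∈ τ`), the terms with `¬ G.Adj u v` vanish (if
  `cnt u v ≠ 0` and `u ≠ v` then `G.Adj u v` by `hadj`), and in `ZMod 2` the number `cnt u v` is `1` if
  it is odd and `0` if it is even (`ZMod.natCast_eq_zero_iff_even`, `ZMod.natCast_eq_one_iff_odd`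
  or similar names).  So it is equal to `lsum φ L` (`Finset.sum_toList` or `Finset.sum_map_toList`).
  The bound for the length: the pairs `(u,v)` and `(v,u)`, `(u,v) ∈ L`, are
  `2 * L.length` different elements of the set on the right (`cnt` is symmetric, `rk` separates
  the two halves).
* `hs_all`: take `U = T` in `hs`: all `cnt` are `2`, so `L` is empty.
-/

set_option autoImplicit false

namespace Pool.Agent.H63.SX

variable {V : Type} [Fintype V] [DecidableEq V]

theorem fsum_triple (φ : V → V → ZMod 2) (hφ : ∀ u v, φ u v = φ v u) {u v w : V} (huv : u ≠ v)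
    (hvw : v ≠ w) (huw : u ≠ w) : fsum φ {u, v, w} = φ u v + φ v w + φ u w := by
  have h1 : rk u ≠ rk v := fun h => huv (rk_inj h)
  have h2 : rk v ≠ rk w := fun h => hvw (rk_inj h)
  have h3 : rk u ≠ rk w := fun h => huw (rk_inj h)
  have e1 : ∀ f : V → ZMod 2, ∑ x ∈ ({u, v, w} : Finset V), f x = f u + (f v + f w) := by
    intro f
    rw [Finset.sum_insert, Finset.sum_insert, Finset.sum_singleton]
    · simpa using hvw
    · simp only [Finset.mem_insert, Finset.mem_singleton, not_or]
      exact ⟨huv, huw⟩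
  unfold fsum
  simp only [e1, lt_irrefl, if_false, zero_add, add_zero]
  rcases lt_or_gt_of_ne h1 with a | a <;> rcases lt_or_gt_of_ne h2 with b | b <;>
    rcases lt_or_gt_of_ne h3 with c | c <;>
    simp only [a, b, c, if_true, not_lt.2 a.le, not_lt.2 b.le, not_lt.2 c.le, if_false,
      zero_add, add_zero, hφ v u, hφ w v, hφ w u] <;> ring

theorem hs_cast (k : ℕ) (x : ZMod 2) : (if Odd k then x else 0) = (k : ZMod 2) * x := by
  split_ifs with h
  · rw [ZMod.natCast_eq_one_iff_odd.2 h, one_mul]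
  · rw [Nat.not_odd_iff_even] at h
    rw [ZMod.natCast_eq_zero_iff_even.2 h, zero_mul]

open Classical in
theorem hs (G : SimpleGraph V) (U : Finset (Finset V))
    (hadj : ∀ τ ∈ U, ∀ u ∈ τ, ∀ v ∈ τ, u ≠ v → G.Adj u v) :
    ∃ L : List (V × V),
      (∀ e ∈ L, G.Adj e.1 e.2 ∧ Odd (U.filter fun τ => e.1 ∈ τ ∧ e.2 ∈ τ).card) ∧
      2 * L.length ≤ (Finset.univ.filter fun e : V × V =>
        G.Adj e.1 e.2 ∧ Odd (U.filter fun τ => e.1 ∈ τ ∧ e.2 ∈ τ).card).card ∧
      ∀ φ : V → V → ZMod 2, (∀ u v, φ u v = φ v u) → lsum φ L = ∑ τ ∈ U, fsum φ τ := by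
  set c : V → V → ℕ := fun u v => (U.filter fun τ => u ∈ τ ∧ v ∈ τ).card with hc
  have hcomm : ∀ u v : V, c u v = c v u := by
    intro u v
    show (U.filter fun τ => u ∈ τ ∧ v ∈ τ).card = (U.filter fun τ => v ∈ τ ∧ u ∈ τ).card
    congr 1
    apply Finset.filter_congr
    intro τ _
    exact and_comm
  set S : Finset (V × V) := Finset.univ.filter fun e : V × V =>
    (G.Adj e.1 e.2 ∧ Odd (c e.1 e.2)) ∧ rk e.1 < rk e.2 with hS
  have hmS : ∀ e, e ∈ S ↔ (G.Adj e.1 e.2 ∧ Odd (c e.1 e.2)) ∧ rk e.1 < rk e.2 := by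
    intro e
    simp [hS]
  refine ⟨S.toList, ?_, ?_, ?_⟩
  · intro e he
    rw [Finset.mem_toList, hmS] at he
    exact he.1
  · rw [Finset.length_toList]
    have hdisj : Disjoint S (S.image Prod.swap) := by
      rw [Finset.disjoint_left]
      intro e he he'
      rw [Finset.mem_image] at he'
      obtain ⟨f, hf, rfl⟩ := he'
      rw [hmS] at he hf
      exact absurd he.2 (not_lt.2 hf.2.le)
    have h2 : 2 * S.card = (S ∪ S.image Prod.swap).card := by
      rw [Finset.card_union_of_disjoint hdisj, Finset.card_image_of_injective _ Prod.swap_injective]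
      ring
    rw [h2]
    apply Finset.card_le_card
    intro e he
    rw [Finset.mem_filter]
    refine ⟨Finset.mem_univ _, ?_⟩
    show G.Adj e.1 e.2 ∧ Odd (c e.1 e.2)
    rw [Finset.mem_union, Finset.mem_image] at he
    rcases he with he | ⟨f, hf, rfl⟩
    · exact ((hmS _).1 he).1
    · have h3 := ((hmS _).1 hf).1
      exact ⟨h3.1.symm, by rw [hcomm]; exact h3.2⟩
  · intro φ hφ
    have h1 : lsum φ S.toList = ∑ e ∈ S, φ e.1 e.2 := by
      unfold lsum
      rw [Finset.sum_map_toList]
    rw [h1]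
    have h3 : ∀ τ : Finset V, fsum φ τ = ∑ u : V, ∑ v : V,
        if u ∈ τ ∧ v ∈ τ then (if rk u < rk v then φ u v else 0) else 0 := by
      intro τ
      unfold fsum
      rw [← Finset.sum_subset (Finset.subset_univ τ)]
      · refine Finset.sum_congr rfl fun u hu => ?_
        rw [← Finset.sum_subset (Finset.subset_univ τ)]
        · refine Finset.sum_congr rfl fun v hv => ?_
          rw [if_pos (show u ∈ τ ∧ v ∈ τ from ⟨hu, hv⟩)]
        · intro v _ hv
          exact if_neg fun h => hv h.2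
      · intro u _ hu
        exact Finset.sum_eq_zero fun v _ => if_neg fun h => hu h.1
    have h4 : ∑ e ∈ S, φ e.1 e.2 = ∑ u : V, ∑ v : V,
        ((c u v : ℕ) : ZMod 2) * (if rk u < rk v then φ u v else 0) := by
      rw [← Fintype.sum_prod_type' (f := fun u v =>
        ((c u v : ℕ) : ZMod 2) * (if rk u < rk v then φ u v else 0)), hS, Finset.sum_filter]
      refine Finset.sum_congr rfl fun e _ => ?_
      rw [← hs_cast]
      by_cases hr : rk e.1 < rk e.2
      · by_cases ho : Odd (c e.1 e.2)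
        · have hne : e.1 ≠ e.2 := fun h => by rw [h] at hr; exact lt_irrefl _ hr
          have hadj' : G.Adj e.1 e.2 := by
            have hpos : 0 < c e.1 e.2 := ho.pos
            obtain ⟨τ, hτ⟩ := Finset.card_pos.1 hpos
            rw [Finset.mem_filter] at hτ
            exact hadj τ hτ.1 _ hτ.2.1 _ hτ.2.2 hne
          rw [if_pos ⟨⟨hadj', ho⟩, hr⟩, if_pos ho, if_pos hr]
        · rw [if_neg fun h => ho h.1.2, if_neg ho]
      · rw [if_neg fun h => hr h.2, if_neg hr, ite_self]
    rw [h4]
    simp only [h3]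
    symm
    rw [Finset.sum_comm]
    refine Finset.sum_congr rfl fun u _ => ?_
    rw [Finset.sum_comm]
    refine Finset.sum_congr rfl fun v _ => ?_
    rw [← Finset.sum_filter, Finset.sum_const, nsmul_eq_mul]

theorem hs_all (G : SimpleGraph V) (T : Finset (Finset V))
    (hadj : ∀ τ ∈ T, ∀ u ∈ τ, ∀ v ∈ τ, u ≠ v → G.Adj u v)
    (htwo : ∀ u v, G.Adj u v → (T.filter fun τ => u ∈ τ ∧ v ∈ τ).card = 2)
    (φ : V → V → ZMod 2) (hφ : ∀ u v, φ u v = φ v u) : ∑ τ ∈ T, fsum φ τ = 0 := by
  obtain ⟨L, h1, -, h3⟩ := hs G T hadj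
  have hL : L = [] := by
    rw [List.eq_nil_iff_forall_not_mem]
    intro e he
    obtain ⟨h4, h5⟩ := h1 e he
    rw [htwo _ _ h4] at h5
    exact absurd h5 (by decide)
  rw [← h3 φ hφ, hL]
  rfl

end Pool.Agent.H63.SX
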