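import Pool.Agent.H63.SX.Eps

/-!
# SX-02: winding and faces

`Conf b y g`: `y v` lies in the open cell of `v`.

* `wind_conf`: apply `wind_tri` with `p = y u - y c`, `q = y v - y c`, `e = e - y c`,
  `r = b u - b c`, `s = b v - b c`.
  - `0 < <y u - y c, b u - b c>`: by `Conf` `ell c (y u) < ell u (y u)` and
    `ell u (y c) < ell c (y c)`; subtract: `<y u, b u - b c> > g u - g c > <y c, b u - b c>`.
  - `0 < <e - y c, b u - b c>`: `ell c e ≤ ell u e` gives `<e, b u - b c> ≥ g u - g c`, and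
    `g u - g c > <y c, b u - b c>` as before.
  - the same for `v` (`ell u e = ell v e`).
* `face_conf`: `eps_tri` with `w = z - y c`: `0 < <b u - b c, z - y c>` because
  `ell c z < ell u z` and `ell u (y c) < ell c (y c)`; the same for `v`, `w` (`dt_comm`).
-/

set_option autoImplicit false

namespace Pool.Agent.H63.SX

open Pool.Agent.ROT (cr dt rot)

variable {V : Type} {b y : V → ℝ × ℝ} {g : V → ℝ}

/-- The key inequality. -/
theorem conf_pos (hC : Conf b y g) {u c : V} (hu : u ≠ c) {z : ℝ × ℝ}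
    (hz : ell b g c z ≤ ell b g u z) : 0 < dt (z - y c) (b u - b c) := by
  have h1 := hC c u hu
  simp only [ell, dt, Prod.fst_sub, Prod.snd_sub] at *
  nlinarith

theorem wind_conf (hC : Conf b y g) {u v c : V} {e : ℝ × ℝ} (hu : u ≠ c) (hv : v ≠ c)
    (he : ell b g u e = ell b g v e) (hc : ell b g c e ≤ ell b g u e) :
    eps (y u - y c) (e - y c) + eps (e - y c) (y v - y c) + eps (b u - b c) (b v - b c) =
      eps (y u - y c) (b u - b c) + eps (y v - y c) (b v - b c) := by
  refine wind_tri (conf_pos hC hu (hC u c hu.symm).le) (conf_pos hC hu hc)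
    (conf_pos hC hv ?_) (conf_pos hC hv (hC v c hv.symm).le)
  rw [← he]
  exact hc

theorem face_conf (hC : Conf b y g) {u v w c : V} {z : ℝ × ℝ} (hT : IsT b g u v w z)
    (hu : c ≠ u) (hv : c ≠ v) (hw : c ≠ w) :
    eps (b u - b c) (b v - b c) + eps (b v - b c) (b w - b c) + eps (b u - b c) (b w - b c) = 0 := by
  obtain ⟨h1, h2, h3⟩ := hT
  have hc := (h3 c hu hv hw).le
  refine eps_tri (w := z - y c) ?_ ?_ ?_
  · rw [Pool.Agent.ROT.dt_comm]
    exact conf_pos hC hu.symm hc
  · rw [Pool.Agent.ROT.dt_comm]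
    exact conf_pos hC hv.symm (h1 ▸ hc)
  · rw [Pool.Agent.ROT.dt_comm]
    exact conf_pos hC hw.symm (h2 ▸ hc)

end Pool.Agent.H63.SX
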