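import Pool.Agent.H63.SX.Sparse
import Pool.Agent.H63.SX.Conn
import Pool.Agent.H63.SX.Wind
import Pool.Agent.H63.SX.Hs

/-!
# SX-23: the power diagram is a triangulated sphere with an intersection form

Fields of `Pl` for `G = Gr b g`, `T = insert {D 0, D 1, D 2} (tris b g)`,
`P c u v = eps (b u - b c) (b v - b c)`.
* `inj`: `hH.inj`; `conn`: `conn`.
* The outer triangle `τ0 = {D 0, D 1, D 2}` is not in `tris b g`: let `c` be a vertex different from
  the `D i` (`hne`); if `IsT b g u v w z` with `{u,v,w} = τ0` then `c ≠ u, v, w` and `face_conf`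
  (with `eps_comm`, `fsum_triple`) says `fsum (P c) τ0 = 0`, while `out` says `1`.
* `card3`: `mem_tris`, `Finset.card_eq_three`; for `τ0` injectivity of `D`.
* `adj_of`: triangles in `tris`: `isT_adj` for the permutations of `u, v, w` (`IsT` is symmetric);
  `τ0`: `adj_outer`.
* `two`: if `u` or `v` is not a `D i`: `two_inner` (use the symmetry in `u, v` if necessary), and
  `τ0` does not contain both.  If `u = D i`, `v = D j`: `i ≠ j`, `one_outer` and `τ0` contains both:
  `1 + 1` (`Finset.filter_insert`, `Finset.card_insert_of_notMem`).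
* `symmP`: `eps_comm`.
* `inner`: `face_conf` and `fsum_triple`.
* `out`: `fsum_triple` and `eps_outer` with `hH.ins`.
* `sparse`: `sparse`.
-/

set_option autoImplicit false

namespace Pool.Agent.H63.SX

open Pool.Agent.ROT (cr dt rot)

variable {V : Type} [Fintype V] [DecidableEq V] {b y : V → ℝ × ℝ} {g : V → ℝ} {D : Fin 3 → V}

omit [Fintype V] [DecidableEq V] in
lemma plo_swap12 {u v w : V} {z : ℝ × ℝ} (h : IsT b g u v w z) : IsT b g v u w z := by
  obtain ⟨h1, h2, h3⟩ := h
  exact ⟨h1.symm, h1 ▸ h2, fun x a1 a2 a3 => h1 ▸ h3 x a2 a1 a3⟩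

omit [Fintype V] [DecidableEq V] in
lemma plo_swap23 {u v w : V} {z : ℝ × ℝ} (h : IsT b g u v w z) : IsT b g u w v z := by
  obtain ⟨h1, h2, h3⟩ := h
  exact ⟨h2, h1, fun x a1 a2 a3 => h3 x a1 a3 a2⟩

omit [Fintype V] in
lemma plo_mem_outer {u : V} : u ∈ ({D 0, D 1, D 2} : Finset V) ↔ ∃ i, u = D i := by
  simp only [Finset.mem_insert, Finset.mem_singleton]
  constructor
  · rintro (h | h | h)
    · exact ⟨0, h⟩
    · exact ⟨1, h⟩
    · exact ⟨2, h⟩
  · rintro ⟨i, rfl⟩
    fin_cases i
    · exact Or.inl rfl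
    · exact Or.inr (Or.inl rfl)
    · exact Or.inr (Or.inr rfl)

lemma plo_tri {u v w : V} {τ : Finset V} (huv : u ≠ v) (hvw : v ≠ w) (huw : u ≠ w)
    (hτ : τ = {u, v, w}) (hC : Conf b y g) {z : ℝ × ℝ} (hT : IsT b g u v w z) {c : V}
    (hc : c ∉ τ) : fsum (fun u v => eps (b u - b c) (b v - b c)) τ = 0 := by
  rw [hτ, fsum_triple _ (fun _ _ => eps_comm _ _) huv hvw huw]
  rw [hτ] at hc
  simp only [Finset.mem_insert, Finset.mem_singleton, not_or] at hc
  exact face_conf hC hT hc.1 hc.2.1 hc.2.2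

lemma plo_out (hH : Hull D b) {c : V} (hc : ∀ i, c ≠ D i) :
    fsum (fun u v => eps (b u - b c) (b v - b c)) ({D 0, D 1, D 2} : Finset V) = 1 := by
  have h01 : D 0 ≠ D 1 := fun h => absurd (hH.inj h) (by decide)
  have h12 : D 1 ≠ D 2 := fun h => absurd (hH.inj h) (by decide)
  have h02 : D 0 ≠ D 2 := fun h => absurd (hH.inj h) (by decide)
  rw [fsum_triple _ (fun _ _ => eps_comm _ _) h01 h12 h02]
  obtain ⟨h1, h2, h3⟩ := hH.ins c hc
  exact eps_outer h1 h2 h3

theorem pl_of (hG : Ge b g) (hH : Hull D b) (hC : Conf b y g) (hne : ∃ v, ∀ i, v ≠ D i) :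
    Pl (Gr b g) (insert {D 0, D 1, D 2} (tris b g)) D
      (fun c u v => eps (b u - b c) (b v - b c)) := by
  have h01 : D 0 ≠ D 1 := fun h => absurd (hH.inj h) (by decide)
  have h12 : D 1 ≠ D 2 := fun h => absurd (hH.inj h) (by decide)
  have h02 : D 0 ≠ D 2 := fun h => absurd (hH.inj h) (by decide)
  have hnot : ({D 0, D 1, D 2} : Finset V) ∉ tris b g := by
    intro hm
    obtain ⟨u, v, w, huv, hvw, huw, he, z, hz⟩ := mem_tris.1 hm
    obtain ⟨c, hc⟩ := hne
    have h1 := plo_out hH hc
    have h2 := plo_tri huv hvw huw he hC hz (c := c)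
      (fun hh => by obtain ⟨i, hi⟩ := plo_mem_outer.1 hh; exact hc i hi)
    rw [h1] at h2
    exact absurd h2 (by decide)
  refine ⟨hH.inj, conn hG hH hC, ?_, ?_, ?_, Finset.mem_insert_self _ _,
    fun c u v => eps_comm _ _, ?_, fun c hc => plo_out hH hc, ?_⟩
  · intro τ hτ
    rcases Finset.mem_insert.1 hτ with rfl | hτ
    · rw [Finset.card_eq_three]
      exact ⟨_, _, _, h01, h02, h12, rfl⟩
    · exact spz_card3 hτ
  · intro τ hτ u hu v hv huv
    rcases Finset.mem_insert.1 hτ with rfl | hτ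
    · obtain ⟨i, rfl⟩ := plo_mem_outer.1 hu
      obtain ⟨j, rfl⟩ := plo_mem_outer.1 hv
      exact adj_outer hG hH fun h => huv (by rw [h])
    · obtain ⟨a, a', a'', n1, n2, n3, rfl, z, hz⟩ := mem_tris.1 hτ
      simp only [Finset.mem_insert, Finset.mem_singleton] at hu hv
      have e1 := isT_adj hG n1 n2 n3 hz
      have e2 := isT_adj hG n3 n2.symm n1 (plo_swap23 hz)
      have e3 := isT_adj hG n2 n3.symm n1.symm (plo_swap23 (plo_swap12 hz))
      rcases hu with rfl | rfl | rfl <;> rcases hv with rfl | rfl | rfl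
      · exact absurd rfl huv
      · exact e1
      · exact e2
      · exact e1.symm
      · exact absurd rfl huv
      · exact e3
      · exact e2.symm
      · exact e3.symm
      · exact absurd rfl huv
  · intro u v huv
    rw [Finset.filter_insert]
    by_cases hu : ∀ i, u ≠ D i
    · rw [if_neg (fun h => by obtain ⟨i, hi⟩ := plo_mem_outer.1 h.1; exact hu i hi)]
      have := two_inner hG hH huv hu
      convert this using 2
    · by_cases hv : ∀ i, v ≠ D i
      · rw [if_neg (fun h => by obtain ⟨i, hi⟩ := plo_mem_outer.1 h.2; exact hv i hi)]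
        have := two_inner hG hH huv.symm hv
        rw [← this]
        congr 1
        ext τ
        simp only [Finset.mem_filter]
        tauto
      · push Not at hu hv
        obtain ⟨i, rfl⟩ := hu
        obtain ⟨j, rfl⟩ := hv
        have hij : i ≠ j := fun e => huv.ne (by rw [e])
        rw [if_pos ⟨plo_mem_outer.2 ⟨i, rfl⟩, plo_mem_outer.2 ⟨j, rfl⟩⟩,
          Finset.card_insert_of_notMem (fun h => hnot (Finset.mem_filter.1 h).1)]
        have := one_outer hG hH hij
        have h2 : ((tris b g).filter fun τ => D i ∈ τ ∧ D j ∈ τ).card = 1 := by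
          convert this using 2
        omega
  · intro τ hτ hτ0 c hc hcτ
    rcases Finset.mem_insert.1 hτ with h | hτ
    · exact absurd h hτ0
    · obtain ⟨a, a', a'', n1, n2, n3, he, z, hz⟩ := mem_tris.1 hτ
      exact plo_tri n1 n2 n3 he hC hz hcτ
  · intro W
    have := sparse hG hH W
    convert this using 2

end Pool.Agent.H63.SX
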