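import Mathlib

/-!
# SX-09: strict dual prices of a unique optimal assignment

Let `c : α → α → ℝ` be such that the identity is the unique cheapest permutation.  Then there is
`p : α → ℝ` with `c a a + p a < c a a' + p a'` for all `a' ≠ a`.

Let `W a a' = c a a' - c a a`; so `W a a = 0` and `∑ a, W a (σ a) > 0` for every permutation
`σ ≠ 1`.

Proof A (shortest paths).  There is `ε > 0` with `∑ a, W a (σ a) ≥ ε * N` for all the finitely many
`σ ≠ 1` (`N = card α`); let `W' a a' = W a a' - ε` for `a ≠ a'`, `W' a a = 0`.  So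
`∑ a, W' a (σ a) ≥ 0` for all permutations `σ`.  (1) Every closed walk
`a0, a1, ..., ak = a0` has `∑ W' a_i a_{i+1} ≥ 0`: strong induction on `k`; if the `a_i`, `i < k`, are
distinct this is the sum for the cyclic permutation (`List.formPerm` or a direct definition),
otherwise cut it into two shorter closed walks.  (2) Let `P a` be the infimum of the weights of all
walks that end at `a` (from any start); it is finite: removing closed subwalks does not
increase the weight, so the infimum is attained by one of the finitely many walks without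
repetition.  Call it `P a`.  Then `P a' ≤ P a + W' a a' < P a + W a a'` for `a ≠ a'`;
take `p = - P`: `p a - p a' < W a a'`.

Proof B (separation).  If `α` has at most one element take `p = 0`.  Let
`K = convexHull {(e_{a'} - e_a, W a a') | a ≠ a'} ⊆ (α → ℝ) × ℝ` (compact, a hull of finitely many
points) and `Q = {(0, -s) | s ≥ 0}` (closed, convex).  They are disjoint: let
`∑ y a a' (e_{a'} - e_a) = 0`, `∑ y a a' W a a' = -s ≤ 0` with `y ≥ 0`, `∑ y = 1`.  Then
`M a a' = y a a'` (`a ≠ a'`), `M a a = 1 - ∑_{a' ≠ a} y a a'` is doubly stochastic (row sums are `1`,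
the column sums are `1` because `y` is a circulation; the row sum of `y` is at most `1`), so by
Birkhoff (`exists_eq_sum_perm_of_mem_doublyStochastic` in Mathlib)
`M = ∑ w_σ P_σ`, and `0 ≥ ∑ y W = ∑ M W = ∑_σ w_σ ∑_a W a (σ a) ≥ 0`, hence `w_σ = 0` for all
`σ ≠ 1`, `M = 1`, `y = 0`, a contradiction.  By strict separation of a compact and a closed
convex set (`geometric_hahn_banach_compact_closed`) there are a continuous linear functional
`F = (f, r)` and `u < v` with `F k < u` on `K` and `v < F (0,-s) = - r s` for all `s ≥ 0`.  So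
`v < 0` (take `s = 0`) and `r ≤ 0` (large `s`), and `f (e_{a'} - e_a) + r W a a' < 0` for all
`a ≠ a'`.  If `r = 0` then `f e_{a'} < f e_a` for all `a ≠ a'`, impossible for two elements.  So
`r < 0` and `p a = f e_a / r` satisfies `p a' - p a + W a a' > 0`.

Any other proof is fine as well.
-/

set_option autoImplicit false

namespace Pool.Agent.H63.SX

/-- Birkhoff part: a nonnegative circulation with total weight one, no loops, has positive cost. -/
theorem dual_circ {α : Type} [Fintype α] [DecidableEq α] (c : α → α → ℝ)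
    (hc : ∀ σ : Equiv.Perm α, σ ≠ 1 → ∑ a, c a a < ∑ a, c a (σ a)) (w : α × α → ℝ)
    (hw0 : ∀ p, 0 ≤ w p) (hw1 : ∑ p, w p = 1) (hwd : ∀ a, w (a, a) = 0)
    (hcirc : ∀ b, ∑ a, w (a, b) = ∑ a, w (b, a)) :
    0 < ∑ p : α × α, w p * (c p.1 p.2 - c p.1 p.1) := by
  rw [Fintype.sum_prod_type] at hw1
  have hrow : ∀ a, ∑ b, w (a, b) ≤ 1 := by
    intro a
    rw [← hw1]
    exact Finset.single_le_sum (f := fun a => ∑ b, w (a, b))
      (fun a _ => Finset.sum_nonneg fun b _ => hw0 _) (Finset.mem_univ a)
  let M : Matrix α α ℝ := fun a b => w (a, b) + if a = b then 1 - ∑ b', w (a, b') else 0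
  have hM : M ∈ doublyStochastic ℝ α := by
    rw [mem_doublyStochastic_iff_sum]
    refine ⟨fun a b => ?_, fun a => ?_, fun b => ?_⟩
    · show 0 ≤ w (a, b) + if a = b then 1 - ∑ b', w (a, b') else 0
      have h1 := hw0 (a, b)
      have h2 := hrow a
      split_ifs <;> linarith
    · show ∑ b, (w (a, b) + if a = b then 1 - ∑ b', w (a, b') else 0) = 1
      rw [Finset.sum_add_distrib, Finset.sum_ite_eq, if_pos (Finset.mem_univ a)]
      ring
    · show ∑ a, (w (a, b) + if a = b then 1 - ∑ b', w (a, b') else 0) = 1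
      rw [Finset.sum_add_distrib, Finset.sum_ite_eq', if_pos (Finset.mem_univ b), hcirc b]
      ring
  obtain ⟨y, hy0, hy1, hyM⟩ := exists_eq_sum_perm_of_mem_doublyStochastic hM
  have hent : ∀ a b, M a b = ∑ σ : Equiv.Perm α, y σ * if σ a = b then 1 else 0 := by
    intro a b
    rw [← hyM, Matrix.sum_apply]
    refine Finset.sum_congr rfl fun σ _ => ?_
    rw [Matrix.smul_apply, smul_eq_mul]
    congr 1
    simp [Equiv.Perm.permMatrix, PEquiv.toMatrix_apply, Equiv.toPEquiv_apply, eq_comm]
  have hcost : ∑ a, ∑ b, M a b * c a b = ∑ σ : Equiv.Perm α, y σ * ∑ a, c a (σ a) := by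
    simp only [hent, Finset.sum_mul, Finset.mul_sum]
    rw [Finset.sum_congr rfl fun a _ => Finset.sum_comm, Finset.sum_comm]
    refine Finset.sum_congr rfl fun σ _ => Finset.sum_congr rfl fun a _ => ?_
    rw [Finset.sum_eq_single (σ a)]
    · simp
    · intro b _ hb
      rw [if_neg (Ne.symm hb)]
      ring
    · intro h
      exact absurd (Finset.mem_univ _) h
  have hcost2 : ∑ a, ∑ b, M a b * c a b = ∑ a, c a a +
      ∑ p : α × α, w p * (c p.1 p.2 - c p.1 p.1) := by
    rw [Fintype.sum_prod_type, ← Finset.sum_add_distrib]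
    refine Finset.sum_congr rfl fun a _ => ?_
    show ∑ b, (w (a, b) + if a = b then 1 - ∑ b', w (a, b') else 0) * c a b =
      c a a + ∑ b, w (a, b) * (c a b - c a a)
    have h1 : ∀ b, (w (a, b) + if a = b then 1 - ∑ b', w (a, b') else 0) * c a b =
        w (a, b) * (c a b - c a a) + w (a, b) * c a a +
          (if a = b then (1 - ∑ b', w (a, b')) * c a a else 0) := by
      intro b
      by_cases hab : a = b
      · subst hab
        rw [if_pos rfl, if_pos rfl]
        ring
      · rw [if_neg hab, if_neg hab]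
        ring
    rw [Finset.sum_congr rfl fun b _ => h1 b, Finset.sum_add_distrib, Finset.sum_add_distrib,
      Finset.sum_ite_eq, if_pos (Finset.mem_univ a), ← Finset.sum_mul]
    ring
  by_contra hneg
  push Not at hneg
  have h5 : ∑ σ : Equiv.Perm α, y σ * (∑ a, c a (σ a) - ∑ a, c a a) ≤ 0 := by
    have h6 : ∑ σ : Equiv.Perm α, y σ * (∑ a, c a (σ a) - ∑ a, c a a) =
        ∑ a, ∑ b, M a b * c a b - ∑ a, c a a := by
      rw [hcost]
      simp only [mul_sub, Finset.sum_sub_distrib]
      rw [← Finset.sum_mul, hy1, one_mul]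
    rw [h6, hcost2]
    linarith
  have h7 : ∀ σ ∈ (Finset.univ : Finset (Equiv.Perm α)),
      0 ≤ y σ * (∑ a, c a (σ a) - ∑ a, c a a) := by
    intro σ _
    by_cases hσ : σ = 1
    · subst hσ
      simp
    · exact mul_nonneg (hy0 σ) (by linarith [hc σ hσ])
  have h8 := (Finset.sum_eq_zero_iff_of_nonneg h7).1
    (le_antisymm h5 (Finset.sum_nonneg h7))
  have h9 : ∀ σ : Equiv.Perm α, σ ≠ 1 → y σ = 0 := by
    intro σ hσ
    rcases mul_eq_zero.1 (h8 σ (Finset.mem_univ σ)) with h | h
    · exact h
    · have := hc σ hσ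
      linarith
  have h10 : ∀ a b, a ≠ b → w (a, b) = 0 := by
    intro a b hab
    have h11 : M a b = w (a, b) := by
      show w (a, b) + (if a = b then 1 - ∑ b', w (a, b') else 0) = w (a, b)
      rw [if_neg hab, add_zero]
    rw [← h11, hent]
    refine Finset.sum_eq_zero fun σ _ => ?_
    by_cases hσ : σ = 1
    · subst hσ
      rw [Equiv.Perm.one_apply, if_neg hab, mul_zero]
    · rw [h9 σ hσ, zero_mul]
  have h12 : ∑ a, ∑ b, w (a, b) = 0 := by
    refine Finset.sum_eq_zero fun a _ => Finset.sum_eq_zero fun b _ => ?_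
    by_cases hab : a = b
    · subst hab
      exact hwd a
    · exact h10 a b hab
  rw [h12] at hw1
  exact zero_ne_one hw1

theorem dual {α : Type} [Fintype α] (c : α → α → ℝ)
    (hc : ∀ σ : Equiv.Perm α, σ ≠ 1 → ∑ a, c a a < ∑ a, c a (σ a)) :
    ∃ p : α → ℝ, ∀ a a', a' ≠ a → c a a + p a < c a a' + p a' := by
  classical
  by_cases hsub : Subsingleton α
  · exact ⟨fun _ => 0, fun a a' h => absurd (Subsingleton.elim _ _) h⟩
  have hex : ∃ x y : α, x ≠ y := by
    by_contra hcon
    push Not at hcon
    exact hsub ⟨hcon⟩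
  obtain ⟨x0, y0, hxy⟩ := hex
  let L : (α × α → ℝ) →ₗ[ℝ] (α → ℝ) × ℝ :=
    { toFun := fun w => (fun b => ∑ a, w (a, b) - ∑ a, w (b, a),
        ∑ p : α × α, w p * (c p.1 p.2 - c p.1 p.1))
      map_add' := by
        intro w w'
        ext b
        · simp only [Pi.add_apply, Finset.sum_add_distrib, Prod.fst_add]
          ring
        · simp only [Pi.add_apply, add_mul, Finset.sum_add_distrib, Prod.snd_add]
      map_smul' := by
        intro r w
        ext b
        · simp only [Pi.smul_apply, smul_eq_mul, ← Finset.mul_sum, RingHom.id_apply, Prod.smul_fst]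
          ring
        · simp only [Pi.smul_apply, smul_eq_mul, RingHom.id_apply, Prod.smul_snd, Finset.mul_sum]
          exact Finset.sum_congr rfl fun p _ => by ring }
  have hL1 : ∀ w b, (L w).1 b = ∑ a, w (a, b) - ∑ a, w (b, a) := fun w b => rfl
  have hL2 : ∀ w, (L w).2 = ∑ p : α × α, w p * (c p.1 p.2 - c p.1 p.1) := fun w => rfl
  have hLc : Continuous L := L.continuous_of_finiteDimensional
  let D0 : Set (α × α → ℝ) := stdSimplex ℝ (α × α) ∩ {w | ∀ a, w (a, a) = 0}
  have hD0c : Convex ℝ D0 := by
    refine (convex_stdSimplex ℝ _).inter ?_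
    intro w hw w' hw' r r' _ _ _ a
    simp only [Pi.add_apply, Pi.smul_apply, smul_eq_mul, hw a, hw' a]
    ring
  have hD0k : IsCompact D0 := by
    refine (isCompact_stdSimplex ℝ (α × α)).inter_right ?_
    have : {w : α × α → ℝ | ∀ a, w (a, a) = 0} = ⋂ a, {w | w (a, a) = 0} := by
      ext w
      simp
    rw [this]
    exact isClosed_iInter fun a => isClosed_eq (continuous_apply _) continuous_const
  let Q : Set ((α → ℝ) × ℝ) := {x | x.1 = 0} ∩ {x | x.2 ≤ 0}
  have hQc : Convex ℝ Q := by
    intro x hx y hy r r' hr hr' _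
    refine ⟨?_, ?_⟩
    · show r • x.1 + r' • y.1 = 0
      rw [show x.1 = 0 from hx.1, show y.1 = 0 from hy.1, smul_zero, smul_zero, add_zero]
    · show r • x.2 + r' • y.2 ≤ 0
      have h1 : x.2 ≤ 0 := hx.2
      have h2 : y.2 ≤ 0 := hy.2
      simp only [smul_eq_mul]
      nlinarith
  have hQk : IsClosed Q :=
    (isClosed_eq continuous_fst continuous_const).inter (isClosed_le continuous_snd
      continuous_const)
  have hdisj : Disjoint (L '' D0) Q := by
    rw [Set.disjoint_left]
    rintro _ ⟨w, hw, rfl⟩ hQ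
    obtain ⟨⟨hw0, hw1⟩, hwd⟩ := hw
    have h1 := dual_circ c hc w hw0 hw1 hwd (fun b => by
      have h2 : (L w).1 = 0 := hQ.1
      have h3 := congrFun h2 b
      rw [hL1] at h3
      have h4 : ∑ a, w (a, b) - ∑ a, w (b, a) = 0 := h3
      linarith)
    have h2 : (L w).2 ≤ 0 := hQ.2
    rw [hL2] at h2
    linarith
  obtain ⟨F, u, v, hF1, huv, hF2⟩ := geometric_hahn_banach_compact_closed
    (hD0c.linear_image L) (hD0k.image hLc) hQc hQk hdisj
  set κ : ℝ := F (0, 1) with hκ
  set P : α → ℝ := fun b => F (Pi.single b 1, 0) with hP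
  have hFx : ∀ s : ℝ, F (0, s) = s * κ := by
    intro s
    have : ((0 : α → ℝ), s) = s • ((0 : α → ℝ), (1 : ℝ)) := by simp
    rw [this, map_smul, smul_eq_mul]
  have hv0 : v < 0 := by
    have := hF2 (0, 0) ⟨rfl, show (0 : ℝ) ≤ 0 from le_rfl⟩
    rw [hFx, zero_mul] at this
    exact this
  have hκ0 : κ ≤ 0 := by
    by_contra hcon
    push Not at hcon
    have := hF2 (0, v / κ - 1) ⟨rfl, by
      have : v / κ < 0 := div_neg_of_neg_of_pos hv0 hcon
      show v / κ - 1 ≤ 0
      linarith⟩
    rw [hFx, sub_mul, div_mul_cancel₀ _ hcon.ne'] at this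
    linarith
  have hkey : ∀ a a', a' ≠ a → P a' - P a + (c a a' - c a a) * κ < 0 := by
    intro a a' haa
    have hmem : L (Pi.single (a, a') 1) ∈ L '' D0 := by
      refine ⟨_, ⟨⟨fun p => ?_, ?_⟩, fun b => ?_⟩, rfl⟩
      · by_cases h : p = (a, a')
        · subst h
          simp
        · rw [Pi.single_eq_of_ne h]
      · simp
      · rw [Pi.single_eq_of_ne]
        intro h
        rw [Prod.mk.injEq] at h
        exact haa (h.2.symm.trans h.1)
    have h1 := hF1 _ hmem
    have h2 : L (Pi.single (a, a') 1) =
        (Pi.single a' 1, 0) - (Pi.single a 1, 0) + (0, c a a' - c a a) := by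
      refine Prod.ext (funext fun b => ?_) ?_
      · rw [hL1]
        simp only [Prod.fst_add, Prod.fst_sub, Pi.add_apply, Pi.sub_apply, Pi.zero_apply, add_zero]
        congr 1
        · by_cases hb : b = a'
          · subst hb
            rw [Pi.single_eq_same, Finset.sum_eq_single a]
            · rw [Pi.single_eq_same]
            · intro x _ hx
              rw [Pi.single_eq_of_ne]
              intro h
              exact hx (Prod.mk.inj h).1
            · intro h
              exact absurd (Finset.mem_univ _) h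
          · rw [Pi.single_eq_of_ne hb]
            refine Finset.sum_eq_zero fun x _ => ?_
            rw [Pi.single_eq_of_ne]
            intro h
            exact hb (Prod.mk.inj h).2
        · by_cases hb : b = a
          · subst hb
            rw [Pi.single_eq_same, Finset.sum_eq_single a']
            · rw [Pi.single_eq_same]
            · intro x _ hx
              rw [Pi.single_eq_of_ne]
              intro h
              exact hx (Prod.mk.inj h).2
            · intro h
              exact absurd (Finset.mem_univ _) h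
          · rw [Pi.single_eq_of_ne hb]
            refine Finset.sum_eq_zero fun x _ => ?_
            rw [Pi.single_eq_of_ne]
            intro h
            exact hb (Prod.mk.inj h).1
      · rw [hL2, Finset.sum_eq_single (a, a')]
        · rw [Pi.single_eq_same]
          simp
        · intro x _ hx
          rw [Pi.single_eq_of_ne hx, zero_mul]
        · intro h
          exact absurd (Finset.mem_univ _) h
    rw [h2, map_add, map_sub, hFx] at h1
    have h3 : P a' - P a + (c a a' - c a a) * κ < u := h1
    linarith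
  have hκ1 : κ < 0 := by
    rcases hκ0.lt_or_eq with h | h
    · exact h
    · have h1 := hkey x0 y0 (Ne.symm hxy)
      have h2 := hkey y0 x0 hxy
      rw [h, mul_zero] at h1 h2
      linarith
  refine ⟨fun a => P a / κ, fun a a' haa => ?_⟩
  have h1 := hkey a a' haa
  have h2 : 0 < (P a' - P a + (c a a' - c a a) * κ) / κ := div_pos_of_neg_of_neg h1 hκ1
  have h3 : (P a' - P a + (c a a' - c a a) * κ) / κ = P a' / κ - P a / κ + (c a a' - c a a) := by
    rw [add_div, sub_div, mul_div_assoc, div_self hκ1.ne, mul_one]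
  rw [h3] at h2
  show c a a + P a / κ < c a a' + P a' / κ
  linarith

end Pool.Agent.H63.SX
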