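import Pool.Agent.H63.SX.Defs
import Pool.Agent.H63.SX.Dual

/-!
# SX-10: weights that realise a unique optimal matching

Apply `dual` to `c a a' = h (π a') - <A a - t, B (π a')>`.  For a permutation `σ ≠ 1` of `α` the
embedding `a ↦ π (σ a)` (`σ.toEmbedding.trans π`) is different from `π`, and its value at `t` is
`∑ a, c a (σ a)`, so the hypothesis holds.  Let `g a = h (π a) + p a`.  Then
`ell _ g a' (A a - t) = <A a - t, B (π a')> - h (π a') - p a' = -(c a a' + p a')`.
-/

set_option autoImplicit false

namespace Pool.Agent.H63.SX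

open Pool.Agent.ROT (cr dt rot)

theorem pot {α β : Type} [Fintype α] (A : α → ℝ × ℝ) (B : β → ℝ × ℝ) (h : β → ℝ) {t : ℝ × ℝ}
    {π : α ↪ β} (hU : Uo A B h t π) : ∃ g : α → ℝ, ∀ a a', a' ≠ a →
      ell (fun a => B (π a)) g a' (A a - t) < ell (fun a => B (π a)) g a (A a - t) := by
  obtain ⟨p, hp⟩ := dual (fun a a' => h (π a') - dt (A a - t) (B (π a'))) (fun σ hσ => by
    have hne : σ.toEmbedding.trans π ≠ π := by
      intro he
      apply hσ
      ext a
      exact π.injective (DFunLike.congr_fun he a)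
    exact hU _ hne)
  refine ⟨fun a => h (π a) + p a, fun a a' haa' => ?_⟩
  have := hp a a' haa'
  unfold ell
  simp only at this ⊢
  linarith

end Pool.Agent.H63.SX
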