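import Pool.Agent.H63.SX.Hs

/-!
# SX-20: the cycle in one level

Let `hP : Pl G T D P`, `lev v = G.dist (D 0) v`, `2 ≤ k`.  Facts: `lev (D i) ≤ 1` (the outer
triangle is in `T`, so `D i` is `D 0` or adjacent to it), and adjacent vertices have levels that
differ by at most `1` (`SimpleGraph.Connected.dist_triangle`, `SimpleGraph.dist_eq_one_iff_adj`).

Let `U` be the set of all `τ ∈ T` that contain a vertex of level `> k`.  The outer triangle is not
in `U`.  Take `L` from `hs G U`.
* Let `(u,v) ∈ L`, so `u, v` are adjacent and the number of `τ ∈ U` containing both is odd.  If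
  `lev u > k` then all `τ ∈ T` containing `u`, `v` are in `U`, and their number is `2`
  (`Pl.two`), a contradiction; so `lev u ≤ k`, similarly `lev v ≤ k`.  There is at least one
  `τ ∈ U` with `u, v ∈ τ` (odd number), it contains some `w` with `lev w > k`, different from `u` and
  `v`, hence adjacent to both (`adj_of`), so `lev u ≥ k` and `lev v ≥ k`.
* Length: the set on the right in `hs` is contained in the adjacent pairs of
  `W = {v | lev v = k}`, so `2 * L.length ≤ 12 * (W.card + 3)` by `Pl.sparse`.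
* `Cyc L`: for `η`, the function `φ u v = η u + η v` is symmetric, and `fsum φ τ = 0` for
  every triangle (`fsum_triple`, `card3`: `Finset.card_eq_three`; `2 (...) = 0`).
* Let `c` be a vertex that is not a `D i`.  `lsum (P c) L = ∑ τ ∈ U, fsum (P c) τ`.
  If `lev c < k`: no `τ ∈ U` contains `c` (a vertex of level `> k` is not adjacent to `c`), so all
  summands vanish by `Pl.inner`; the sum is `0`.
  If `lev c > k`: all `τ ∈ T` with `c ∈ τ` are in `U`.  So
  `∑ τ ∈ U = ∑ τ ∈ T with c ∈ τ` (the other summands are `0` by `inner`), and also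
  `∑ τ ∈ T, fsum (P c) τ = ∑ τ ∈ T with c ∈ τ + fsum (P c) outer` (all others are `0`; the
  outer triangle does not contain `c`), where the left side is `0` by `hs_all` and the last term is
  `1` by `Pl.out`.  So the sum over `U` is `-1 = 1`.
-/

set_option autoImplicit false

namespace Pool.Agent.H63.SX

variable {V : Type} [Fintype V] [DecidableEq V]

theorem sep_one {G : SimpleGraph V} {T : Finset (Finset V)} {D : Fin 3 → V}
    {P : V → V → V → ZMod 2} (hP : Pl G T D P) {k : ℕ} (hk : 2 ≤ k) :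
    ∃ L : List (V × V), (∀ e ∈ L, G.Adj e.1 e.2) ∧ Cyc L ∧
      L.length ≤ 6 * ((Finset.univ.filter fun v => G.dist (D 0) v = k).card + 3) ∧
      (∀ e ∈ L, G.dist (D 0) e.1 = k ∧ G.dist (D 0) e.2 = k) ∧
      ∀ c, (∀ i, c ≠ D i) → (k < G.dist (D 0) c → lsum (P c) L = 1) ∧
        (G.dist (D 0) c < k → lsum (P c) L = 0) := by
  classical
  have hadj1 : ∀ u v, G.Adj u v → G.dist (D 0) v ≤ G.dist (D 0) u + 1 := by
    intro u v h
    have h1 := hP.conn.dist_triangle (u := D 0) (v := u) (w := v)
    rwa [SimpleGraph.dist_eq_one_iff_adj.2 h] at h1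
  have hD0 : D 0 ∈ ({D 0, D 1, D 2} : Finset V) := by simp
  have hD : ∀ i, G.dist (D 0) (D i) ≤ 1 := by
    intro i
    by_cases h : i = 0
    · rw [h, SimpleGraph.dist_self]
      exact Nat.zero_le _
    · have h1 : D i ∈ ({D 0, D 1, D 2} : Finset V) := by
        fin_cases i
        · simp
        · simp
        · simp
      have h2 := hP.adj_of _ hP.outer _ hD0 _ h1 (fun h3 => h (hP.inj h3).symm)
      exact (SimpleGraph.dist_eq_one_iff_adj.2 h2).le
  set U := T.filter fun τ => ∃ w ∈ τ, k < G.dist (D 0) w with hU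
  have hUT : ∀ τ ∈ U, τ ∈ T := fun τ h => (Finset.mem_filter.1 h).1
  have houtU : ({D 0, D 1, D 2} : Finset V) ∉ U := by
    intro h
    obtain ⟨-, w, hw, hkw⟩ := Finset.mem_filter.1 h
    have h1 : G.dist (D 0) w ≤ 1 := by
      simp only [Finset.mem_insert, Finset.mem_singleton] at hw
      rcases hw with rfl | rfl | rfl
      · exact hD 0
      · exact hD 1
      · exact hD 2
    omega
  obtain ⟨L, hL1, hL2, hL3⟩ := hs G U (fun τ h => hP.adj_of τ (hUT τ h))
  have hA : ∀ u v, G.Adj u v → Odd (U.filter fun τ => u ∈ τ ∧ v ∈ τ).card →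
      G.dist (D 0) u = k ∧ G.dist (D 0) v = k := by
    intro u v huv hodd
    have hne : (U.filter fun τ => u ∈ τ ∧ v ∈ τ).Nonempty := by
      rw [← Finset.card_pos]
      exact hodd.pos
    obtain ⟨τ, hτ⟩ := hne
    obtain ⟨hτU, huτ, hvτ⟩ := Finset.mem_filter.1 hτ
    obtain ⟨hτT, w, hwτ, hkw⟩ := Finset.mem_filter.1 hτU
    have key : ∀ x, (x = u ∨ x = v) → ¬ k < G.dist (D 0) x := by
      intro x hx hkx
      have h1 : (U.filter fun τ => u ∈ τ ∧ v ∈ τ) = T.filter fun τ => u ∈ τ ∧ v ∈ τ := by
        ext σ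
        simp only [Finset.mem_filter, hU]
        constructor
        · rintro ⟨⟨h2, -⟩, h3⟩
          exact ⟨h2, h3⟩
        · rintro ⟨h2, h3⟩
          refine ⟨⟨h2, x, ?_, hkx⟩, h3⟩
          rcases hx with rfl | rfl
          · exact h3.1
          · exact h3.2
      rw [h1, hP.two u v huv] at hodd
      exact (by decide : ¬ Odd 2) hodd
    have hu := key u (Or.inl rfl)
    have hv := key v (Or.inr rfl)
    have hwu : w ≠ u := fun h => hu (h ▸ hkw)
    have hwv : w ≠ v := fun h => hv (h ▸ hkw)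
    have h1 := hadj1 u w (hP.adj_of τ hτT u huτ w hwτ hwu.symm)
    have h2 := hadj1 v w (hP.adj_of τ hτT v hvτ w hwτ hwv.symm)
    omega
  refine ⟨L, fun e he => (hL1 e he).1, ?_, ?_, fun e he => hA _ _ (hL1 e he).1 (hL1 e he).2, ?_⟩
  · intro η
    rw [hL3 _ (fun u v => add_comm _ _)]
    refine Finset.sum_eq_zero fun τ hτ => ?_
    obtain ⟨a, b, c, hab, hac, hbc, rfl⟩ := Finset.card_eq_three.1 (hP.card3 τ (hUT τ hτ))
    rw [fsum_triple _ (fun u v => add_comm _ _) hab hbc hac]
    have h2 : ∀ x : ZMod 2, x + x = 0 := by decide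
    linear_combination h2 (η a) + h2 (η b) + h2 (η c)
  · have h1 : (Finset.univ.filter fun e : V × V =>
        G.Adj e.1 e.2 ∧ Odd (U.filter fun τ => e.1 ∈ τ ∧ e.2 ∈ τ).card).card ≤
        (((Finset.univ.filter fun v => G.dist (D 0) v = k) ×ˢ
          (Finset.univ.filter fun v => G.dist (D 0) v = k)).filter
            fun e => G.Adj e.1 e.2).card := by
      refine Finset.card_le_card fun e he => ?_
      obtain ⟨-, h2, h3⟩ := Finset.mem_filter.1 he
      obtain ⟨h4, h5⟩ := hA _ _ h2 h3
      simp only [Finset.mem_filter, Finset.mem_product, Finset.mem_univ, true_and]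
      exact ⟨⟨h4, h5⟩, h2⟩
    have h2 := hP.sparse (Finset.univ.filter fun v => G.dist (D 0) v = k)
    omega
  · intro c hc
    rw [hL3 _ (hP.symmP c)]
    constructor
    · intro hkc
      have h0 := hs_all G T hP.adj_of hP.two (P c) (hP.symmP c)
      have hUsub : U ⊆ T := fun τ h => hUT τ h
      rw [← Finset.sum_sdiff hUsub] at h0
      have h1 : ∑ τ ∈ T \ U, fsum (P c) τ = fsum (P c) {D 0, D 1, D 2} := by
        refine Finset.sum_eq_single_of_mem _ (Finset.mem_sdiff.2 ⟨hP.outer, houtU⟩) ?_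
        intro τ hτ hne
        obtain ⟨h2, h3⟩ := Finset.mem_sdiff.1 hτ
        refine hP.inner τ h2 hne c hc fun h4 => h3 ?_
        exact Finset.mem_filter.2 ⟨h2, c, h4, hkc⟩
      rw [h1, hP.out c hc] at h0
      have h2 : ∀ x : ZMod 2, 1 + x = 0 → x = 1 := by decide
      exact h2 _ h0
    · intro hkc
      refine Finset.sum_eq_zero fun τ hτ => ?_
      refine hP.inner τ (hUT τ hτ) (fun h => houtU (h ▸ hτ)) c hc fun h4 => ?_
      obtain ⟨hτT, w, hwτ, hkw⟩ := Finset.mem_filter.1 hτ
      have hwc : w ≠ c := by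
        rintro rfl
        omega
      have h5 := hadj1 c w (hP.adj_of τ hτT c h4 w hwτ hwc.symm)
      omega

end Pool.Agent.H63.SX
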