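import Pool.Agent.H63.SX.Hs

/-!
# SX-21: a balanced fundamental cycle

Let `hP : Pl G T D P`, `m = (real D).card ≥ 12`, and `G.dist (D 0) v ≤ d` for all `v`.

Paths: for every `v` there is a list `Q v` of at most `d` adjacent pairs with
`lsum (fun x y => η x + η y) (Q v) = η (D 0) + η v` for all `η` (the darts of a walk of length
`G.dist (D 0) v` from `D 0` to `v`: `SimpleGraph.Connected.exists_walk_length_eq_dist`,
`SimpleGraph.Walk.darts`; the identity is an induction on the walk).  For adjacent `u, v` let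
`C u v = Q u ++ Q v ++ [(u,v)]`: a cycle (`Cyc`) of at most `2 d + 1` adjacent pairs.  Let
`F u v = {c ∈ real D | lsum (P c) (C u v) = 1}`; it is symmetric in `u, v` (`symmP`,
commutativity).  For three vertices `u, v, w` and every `c`:
`lsum (P c) (C u v) + lsum (P c) (C v w) + lsum (P c) (C u w) = P c u v + P c v w + P c u w`
(the sums over `Q u`, `Q v`, `Q w` occur twice), and for a triangle this is `fsum (P c) {u,v,w}`
(`fsum_triple`): `0` for an inner triangle and `c ∈ real D \ {u,v,w}`, and `1` for the outer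
triangle and all `c ∈ real D`.

Claim: some adjacent pair has `m ≤ 4 |F u v| ≤ 3 m`.  Suppose not; then every adjacent pair is
small (`4 |F u v| < m`) or large (`4 |F u v| > 3 m`).  Let `φ u v = 1` if it is large and `0`
otherwise, a symmetric function.
 - Inner triangle: outside of at most three `c`'s an even number of the three sets `F` contains
   `c`.  So: not exactly one is large (if `F u v` is large and the two others are small:
   `F u v ⊆ F v w ∪ F u w ∪ {u,v,w}`, so `|F u v| < m/4 + m/4 + 3 ≤ 3m/4`, as `m ≥ 12`), and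
   not all three are large (every `c` outside of `{u,v,w}` is missing in at least one of the
   three, so `m ≤ 3 + ∑ (m - |F|) < 3 + 3m/4`, which is false for `m ≥ 12`).  Hence
   `fsum φ τ = 0`.
 - Outer triangle: every `c` lies in one or three of the `F`.  So: not all three are small
   (`m ≤ ∑ |F| < 3m/4`), and not exactly two are large (if `F1`, `F2` are large and `F3` is small,
   then every `c` is missing in `F1` or missing in `F2` or is contained in `F3`:
   `m < m/4 + m/4 + m/4`).  Hence `fsum φ outer = 1`.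
 So `∑ τ ∈ T, fsum φ τ = 1`, which contradicts `hs_all`.
-/

set_option autoImplicit false

namespace Pool.Agent.H63.SX

variable {V : Type} [Fintype V] [DecidableEq V]

/-! ### lists of a walk -/

omit [Fintype V] [DecidableEq V] in
theorem sep2_append (φ : V → V → ZMod 2) (L M : List (V × V)) :
    lsum φ (L ++ M) = lsum φ L + lsum φ M := by
  simp [lsum]

omit [Fintype V] [DecidableEq V] in
theorem sep2_single (φ : V → V → ZMod 2) (u v : V) : lsum φ [(u, v)] = φ u v := by
  simp [lsum]

omit [Fintype V] [DecidableEq V] in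
theorem sep2_walk {G : SimpleGraph V} {a b : V} (p : G.Walk a b) :
    ∃ L : List (V × V), L.length = p.length ∧ (∀ e ∈ L, G.Adj e.1 e.2) ∧
      ∀ η : V → ZMod 2, lsum (fun x y => η x + η y) L = η a + η b := by
  induction p with
  | nil =>
    refine ⟨[], rfl, by simp, fun η => ?_⟩
    simp [lsum, CharTwo.add_self_eq_zero]
  | @cons u v w h p ih =>
    obtain ⟨L, h1, h2, h3⟩ := ih
    refine ⟨(u, v) :: L, by simp [h1], ?_, fun η => ?_⟩
    · intro e he
      rcases List.mem_cons.mp he with rfl | he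
      · exact h
      · exact h2 e he
    · have h4 := h3 η
      have h5 : lsum (fun x y => η x + η y) ((u, v) :: L) =
          (η u + η v) + lsum (fun x y => η x + η y) L := by simp [lsum]
      rw [h5, h4]
      have h6 : η v + η v = 0 := CharTwo.add_self_eq_zero _
      linear_combination h6

/-! ### counting -/

omit [Fintype V] in
theorem sep2_one {R A B E X : Finset V} (hA : A ⊆ R) (hX : X.card ≤ 3)
    (h : ∀ c ∈ R, c ∉ X → c ∈ A → c ∈ B ∨ c ∈ E) : A.card ≤ B.card + E.card + 3 := by
  have h1 : A ⊆ B ∪ E ∪ X := by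
    intro c hc
    by_cases hx : c ∈ X
    · exact Finset.mem_union_right _ hx
    · rcases h c (hA hc) hx hc with h2 | h2
      · exact Finset.mem_union_left _ (Finset.mem_union_left _ h2)
      · exact Finset.mem_union_left _ (Finset.mem_union_right _ h2)
  have h2 := Finset.card_le_card h1
  have h3 := Finset.card_union_le (B ∪ E) X
  have h4 := Finset.card_union_le B E
  omega

omit [Fintype V] in
theorem sep2_three {R A B E X : Finset V} (hA : A ⊆ R) (hB : B ⊆ R) (hE : E ⊆ R)
    (hX : X.card ≤ 3) (h : ∀ c ∈ R, c ∉ X → c ∉ A ∨ c ∉ B ∨ c ∉ E) :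
    R.card + A.card + B.card + E.card ≤ 3 * R.card + 3 := by
  have h1 : R ⊆ (R \ A) ∪ (R \ B) ∪ (R \ E) ∪ X := by
    intro c hc
    by_cases hx : c ∈ X
    · exact Finset.mem_union_right _ hx
    · rcases h c hc hx with h2 | h2 | h2
      · exact Finset.mem_union_left _ (Finset.mem_union_left _ (Finset.mem_union_left _
          (Finset.mem_sdiff.mpr ⟨hc, h2⟩)))
      · exact Finset.mem_union_left _ (Finset.mem_union_left _ (Finset.mem_union_right _
          (Finset.mem_sdiff.mpr ⟨hc, h2⟩)))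
      · exact Finset.mem_union_left _ (Finset.mem_union_right _
          (Finset.mem_sdiff.mpr ⟨hc, h2⟩))
  have h2 := Finset.card_le_card h1
  have h3 := Finset.card_union_le ((R \ A) ∪ (R \ B) ∪ (R \ E)) X
  have h4 := Finset.card_union_le ((R \ A) ∪ (R \ B)) (R \ E)
  have h5 := Finset.card_union_le (R \ A) (R \ B)
  have a1 := Finset.card_sdiff_add_card_eq_card hA
  have a2 := Finset.card_sdiff_add_card_eq_card hB
  have a3 := Finset.card_sdiff_add_card_eq_card hE
  omega

omit [Fintype V] in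
theorem sep2_zero {R A B E : Finset V} (h : ∀ c ∈ R, c ∈ A ∨ c ∈ B ∨ c ∈ E) :
    R.card ≤ A.card + B.card + E.card := by
  have h1 : R ⊆ A ∪ B ∪ E := by
    intro c hc
    rcases h c hc with h2 | h2 | h2
    · exact Finset.mem_union_left _ (Finset.mem_union_left _ h2)
    · exact Finset.mem_union_left _ (Finset.mem_union_right _ h2)
    · exact Finset.mem_union_right _ h2
  have h2 := Finset.card_le_card h1
  have h3 := Finset.card_union_le (A ∪ B) E
  have h4 := Finset.card_union_le A B
  omega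

omit [Fintype V] in
theorem sep2_two {R A B E : Finset V} (hA : A ⊆ R) (hB : B ⊆ R)
    (h : ∀ c ∈ R, c ∉ A ∨ c ∉ B ∨ c ∈ E) :
    R.card + A.card + B.card ≤ 2 * R.card + E.card := by
  have h1 : R ⊆ (R \ A) ∪ (R \ B) ∪ E := by
    intro c hc
    rcases h c hc with h2 | h2 | h2
    · exact Finset.mem_union_left _ (Finset.mem_union_left _ (Finset.mem_sdiff.mpr ⟨hc, h2⟩))
    · exact Finset.mem_union_left _ (Finset.mem_union_right _ (Finset.mem_sdiff.mpr ⟨hc, h2⟩))
    · exact Finset.mem_union_right _ h2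
  have h2 := Finset.card_le_card h1
  have h3 := Finset.card_union_le ((R \ A) ∪ (R \ B)) E
  have h4 := Finset.card_union_le (R \ A) (R \ B)
  have a1 := Finset.card_sdiff_add_card_eq_card hA
  have a2 := Finset.card_sdiff_add_card_eq_card hB
  omega

theorem sep2_z2 (a b e : ZMod 2) (h : a + b + e = 0) :
    (a = 1 → b = 1 ∨ e = 1) ∧ (b = 1 → a = 1 ∨ e = 1) ∧ (e = 1 → a = 1 ∨ b = 1) ∧
      (¬ a = 1 ∨ ¬ b = 1 ∨ ¬ e = 1) := by
  revert a b e
  decide

theorem sep2_z1 (a b e : ZMod 2) (h : a + b + e = 1) :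
    (a = 1 ∨ b = 1 ∨ e = 1) ∧ (¬ a = 1 ∨ ¬ b = 1 ∨ e = 1) ∧ (¬ a = 1 ∨ ¬ e = 1 ∨ b = 1) ∧
      (¬ b = 1 ∨ ¬ e = 1 ∨ a = 1) := by
  revert a b e
  decide

theorem sep_two {G : SimpleGraph V} {T : Finset (Finset V)} {D : Fin 3 → V}
    {P : V → V → V → ZMod 2} (hP : Pl G T D P) {d : ℕ} (hd : ∀ v, G.dist (D 0) v ≤ d)
    (hm : 12 ≤ (real D).card) :
    ∃ L : List (V × V), 1 ≤ L.length ∧ L.length ≤ 2 * d + 1 ∧ (∀ e ∈ L, G.Adj e.1 e.2) ∧ Cyc L ∧
      (real D).card ≤ 4 * ((real D).filter fun c => lsum (P c) L = 1).card ∧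
      4 * ((real D).filter fun c => lsum (P c) L = 1).card ≤ 3 * (real D).card := by
  have hQ : ∀ v, ∃ L : List (V × V), L.length ≤ d ∧ (∀ e ∈ L, G.Adj e.1 e.2) ∧
      ∀ η : V → ZMod 2, lsum (fun x y => η x + η y) L = η (D 0) + η v := by
    intro v
    obtain ⟨p, hp⟩ := hP.conn.exists_walk_length_eq_dist (D 0) v
    obtain ⟨L, h1, h2, h3⟩ := sep2_walk p
    exact ⟨L, by rw [h1, hp]; exact hd v, h2, h3⟩
  choose Q hQ1 hQ2 hQ3 using hQ
  by_contra hno
  -- the value of the cycle
  have hval : ∀ c u v, lsum (P c) (Q u ++ Q v ++ [(u, v)]) =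
      lsum (P c) (Q u) + lsum (P c) (Q v) + P c u v := by
    intro c u v
    rw [sep2_append, sep2_append, sep2_single]
  set F : V → V → Finset V := fun u v =>
    (real D).filter fun c => lsum (P c) (Q u ++ Q v ++ [(u, v)]) = 1 with hF
  have hFs : ∀ u v, F u v = F v u := by
    intro u v
    apply Finset.filter_congr
    intro c _
    rw [hval, hval, hP.symmP c u v, add_comm (lsum (P c) (Q u))]
  have hFR : ∀ u v, F u v ⊆ real D := fun u v => Finset.filter_subset _ _
  have hFm : ∀ u v c, c ∈ real D → (c ∈ F u v ↔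
      lsum (P c) (Q u) + lsum (P c) (Q v) + P c u v = 1) := by
    intro u v c hc
    rw [hF]
    simp only [Finset.mem_filter, hc, true_and]
    rw [hval]
  have hsl : ∀ u v, G.Adj u v → 4 * (F u v).card < (real D).card ∨
      3 * (real D).card < 4 * (F u v).card := by
    intro u v huv
    by_contra hc
    push Not at hc
    apply hno
    refine ⟨Q u ++ Q v ++ [(u, v)], ?_, ?_, ?_, ?_, hc.1, hc.2⟩
    · simp only [List.length_append, List.length_cons, List.length_nil]
      omega
    · have := hQ1 u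
      have := hQ1 v
      simp only [List.length_append, List.length_cons, List.length_nil]
      omega
    · intro e he
      rw [List.mem_append, List.mem_append] at he
      rcases he with (he | he) | he
      · exact hQ2 u e he
      · exact hQ2 v e he
      · rw [List.mem_singleton] at he
        rw [he]
        exact huv
    · intro η
      rw [sep2_append, sep2_append, sep2_single, hQ3, hQ3]
      have h1 : η u + η u = 0 := CharTwo.add_self_eq_zero _
      have h2 : η v + η v = 0 := CharTwo.add_self_eq_zero _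
      have h3 : η (D 0) + η (D 0) = 0 := CharTwo.add_self_eq_zero _
      linear_combination h1 + h2 + h3
  set φ : V → V → ZMod 2 := fun u v => if 3 * (real D).card < 4 * (F u v).card then 1 else 0
    with hφ
  have hφs : ∀ u v, φ u v = φ v u := by
    intro u v
    simp only [hφ]
    rw [hFs]
  have hφ1 : ∀ u v, 3 * (real D).card < 4 * (F u v).card → φ u v = 1 := by
    intro u v h
    simp only [hφ]
    rw [if_pos h]
  have hφ0 : ∀ u v, 4 * (F u v).card < (real D).card → φ u v = 0 := by
    intro u v h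
    simp only [hφ]
    rw [if_neg (by omega)]
  -- the sum of the three values
  have hsum : ∀ c u v w, (lsum (P c) (Q u) + lsum (P c) (Q v) + P c u v) +
      (lsum (P c) (Q v) + lsum (P c) (Q w) + P c v w) +
      (lsum (P c) (Q u) + lsum (P c) (Q w) + P c u w) = P c u v + P c v w + P c u w := by
    intro c u v w
    have h1 : lsum (P c) (Q u) + lsum (P c) (Q u) = 0 := CharTwo.add_self_eq_zero _
    have h2 : lsum (P c) (Q v) + lsum (P c) (Q v) = 0 := CharTwo.add_self_eq_zero _
    have h3 : lsum (P c) (Q w) + lsum (P c) (Q w) = 0 := CharTwo.add_self_eq_zero _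
    linear_combination h1 + h2 + h3
  have hin : ∀ τ ∈ T, τ ≠ {D 0, D 1, D 2} → fsum φ τ = 0 := by
    intro τ hτ hτo
    obtain ⟨u, v, w, huv, huw, hvw, rfl⟩ := Finset.card_eq_three.mp (hP.card3 τ hτ)
    have auv : G.Adj u v := hP.adj_of _ hτ u (by simp) v (by simp) huv
    have avw : G.Adj v w := hP.adj_of _ hτ v (by simp) w (by simp) hvw
    have auw : G.Adj u w := hP.adj_of _ hτ u (by simp) w (by simp) huw
    rw [fsum_triple φ hφs huv hvw huw]
    have hz : ∀ c ∈ real D, c ∉ ({u, v, w} : Finset V) →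
        (lsum (P c) (Q u) + lsum (P c) (Q v) + P c u v) +
        (lsum (P c) (Q v) + lsum (P c) (Q w) + P c v w) +
        (lsum (P c) (Q u) + lsum (P c) (Q w) + P c u w) = 0 := by
      intro c hc hcx
      rw [hsum, ← fsum_triple (P c) (hP.symmP c) huv hvw huw]
      exact hP.inner _ hτ hτo c (mem_real.mp hc) hcx
    have hX : ({u, v, w} : Finset V).card ≤ 3 := Finset.card_le_three
    have k1 : (F u v).card ≤ (F v w).card + (F u w).card + 3 := by
      refine sep2_one (hFR u v) hX ?_
      intro c hc hcx h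
      rw [hFm _ _ _ hc] at h ⊢
      rw [hFm _ _ _ hc]
      exact (sep2_z2 _ _ _ (hz c hc hcx)).1 h
    have k2 : (F v w).card ≤ (F u v).card + (F u w).card + 3 := by
      refine sep2_one (hFR v w) hX ?_
      intro c hc hcx h
      rw [hFm _ _ _ hc] at h ⊢
      rw [hFm _ _ _ hc]
      exact (sep2_z2 _ _ _ (hz c hc hcx)).2.1 h
    have k3 : (F u w).card ≤ (F u v).card + (F v w).card + 3 := by
      refine sep2_one (hFR u w) hX ?_
      intro c hc hcx h
      rw [hFm _ _ _ hc] at h ⊢
      rw [hFm _ _ _ hc]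
      exact (sep2_z2 _ _ _ (hz c hc hcx)).2.2.1 h
    have k4 := sep2_three (hFR u v) (hFR v w) (hFR u w) hX (by
      intro c hc hcx
      rw [hFm _ _ _ hc, hFm _ _ _ hc, hFm _ _ _ hc]
      exact (sep2_z2 _ _ _ (hz c hc hcx)).2.2.2)
    rcases hsl u v auv with c1 | c1 <;> rcases hsl v w avw with c2 | c2 <;>
      rcases hsl u w auw with c3 | c3
    · rw [hφ0 _ _ c1, hφ0 _ _ c2, hφ0 _ _ c3]
      decide
    · omega
    · omega
    · rw [hφ0 _ _ c1, hφ1 _ _ c2, hφ1 _ _ c3]
      decide
    · omega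
    · rw [hφ1 _ _ c1, hφ0 _ _ c2, hφ1 _ _ c3]
      decide
    · rw [hφ1 _ _ c1, hφ1 _ _ c2, hφ0 _ _ c3]
      decide
    · omega
  have hout : fsum φ {D 0, D 1, D 2} = 1 := by
    have h01 : D 0 ≠ D 1 := fun h => by simpa using hP.inj h
    have h12 : D 1 ≠ D 2 := fun h => by simpa using hP.inj h
    have h02 : D 0 ≠ D 2 := fun h => by simpa using hP.inj h
    have a01 : G.Adj (D 0) (D 1) := hP.adj_of _ hP.outer _ (by simp) _ (by simp) h01
    have a12 : G.Adj (D 1) (D 2) := hP.adj_of _ hP.outer _ (by simp) _ (by simp) h12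
    have a02 : G.Adj (D 0) (D 2) := hP.adj_of _ hP.outer _ (by simp) _ (by simp) h02
    rw [fsum_triple φ hφs h01 h12 h02]
    have hz : ∀ c ∈ real D,
        (lsum (P c) (Q (D 0)) + lsum (P c) (Q (D 1)) + P c (D 0) (D 1)) +
        (lsum (P c) (Q (D 1)) + lsum (P c) (Q (D 2)) + P c (D 1) (D 2)) +
        (lsum (P c) (Q (D 0)) + lsum (P c) (Q (D 2)) + P c (D 0) (D 2)) = 1 := by
      intro c hc
      rw [hsum, ← fsum_triple (P c) (hP.symmP c) h01 h12 h02]
      exact hP.out c (mem_real.mp hc)
    have k0 : (real D).card ≤ (F (D 0) (D 1)).card + (F (D 1) (D 2)).card +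
        (F (D 0) (D 2)).card := by
      refine sep2_zero ?_
      intro c hc
      rw [hFm _ _ _ hc, hFm _ _ _ hc, hFm _ _ _ hc]
      exact (sep2_z1 _ _ _ (hz c hc)).1
    have k1 := sep2_two (E := F (D 0) (D 2)) (hFR (D 0) (D 1)) (hFR (D 1) (D 2)) (by
      intro c hc
      rw [hFm _ _ _ hc, hFm _ _ _ hc, hFm _ _ _ hc]
      exact (sep2_z1 _ _ _ (hz c hc)).2.1)
    have k2 := sep2_two (E := F (D 1) (D 2)) (hFR (D 0) (D 1)) (hFR (D 0) (D 2)) (by
      intro c hc
      rw [hFm _ _ _ hc, hFm _ _ _ hc, hFm _ _ _ hc]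
      exact (sep2_z1 _ _ _ (hz c hc)).2.2.1)
    have k3 := sep2_two (E := F (D 0) (D 1)) (hFR (D 1) (D 2)) (hFR (D 0) (D 2)) (by
      intro c hc
      rw [hFm _ _ _ hc, hFm _ _ _ hc, hFm _ _ _ hc]
      exact (sep2_z1 _ _ _ (hz c hc)).2.2.2)
    rcases hsl _ _ a01 with c1 | c1 <;> rcases hsl _ _ a12 with c2 | c2 <;>
      rcases hsl _ _ a02 with c3 | c3
    · omega
    · rw [hφ0 _ _ c1, hφ0 _ _ c2, hφ1 _ _ c3]
      decide
    · rw [hφ0 _ _ c1, hφ1 _ _ c2, hφ0 _ _ c3]
      decide
    · omega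
    · rw [hφ1 _ _ c1, hφ0 _ _ c2, hφ0 _ _ c3]
      decide
    · omega
    · omega
    · rw [hφ1 _ _ c1, hφ1 _ _ c2, hφ1 _ _ c3]
      decide
  have h0 := hs_all G T hP.adj_of (by
    intro u v huv
    have := hP.two u v huv
    convert this) φ hφs
  have h1 : ∑ τ ∈ T, fsum φ τ = 1 := by
    rw [Finset.sum_eq_single_of_mem _ hP.outer (fun τ hτ hne => hin τ hτ hne), hout]
  rw [h0] at h1
  exact zero_ne_one h1

end Pool.Agent.H63.SX
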