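import Pool.Agent.H63.SX.Lev
import Pool.Agent.H63.SX.SepI
import Pool.Agent.H63.SX.SepII

/-!
# SX-22: the separator theorem

Let `m = (real D).card`, `lev v = G.dist (D 0) v`, `d = max lev` (`Finset.exists_max_image`),
`l k = #{v | lev v = k}`.  Since `1000 q < √m` and `q ≥ 1`: `m > 10^6`.  `lev (D i) ≤ 1`, so for
`k ≥ 2` all vertices of level `k` are real, and `l k = #{c ∈ real D | lev c = k}`.  All levels
`k ≤ d` are nonempty (a vertex of level `k + 1` has a neighbour of level `k`: for instance from a
shortest walk; `SimpleGraph.Connected.exists_walk_length_eq_dist` and the first dart, or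
`SimpleGraph.Reachable`..).  For `k ≥ 2` let `N k = #{c ∈ real D | lev c < k}`,
`Z k = #{c ∈ real D | k < lev c}` and `μ k = min (N k) (Z k)`.  Let `ξ = 1000 q / (24 √m) < 1`.

Case I: some `k` with `2 ≤ k ≤ d` has `l k ≤ ξ * μ k`.  Take `L` from `sep_one`.
`L.length ≤ 6 (l k + 3) ≤ 24 l k` as `l k ≥ 1`, so `L.length √m ≤ 24 √m ξ μ k = 1000 q μ k`.
`{c real | lev c > k} ⊆ inside D P L` (the vertices on `L` have level `k`), and
`inside` is disjoint from `{c real | lev c < k}`, so `μ k ≤ (inside D P L).card` and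
`μ k ≤ m - (inside D P L).card`.  `L ≠ []`: `μ k > 0` (since `l k ≥ 1`), so there is `c` with
`lsum (P c) L = 1`.

Case II: otherwise.  If `d ≥ 3`, `levels` applied to the subtype `{c // c ∈ real D}` and `lev` gives
`(1 + ξ)^(d-3) ≤ m²`, so `(d - 3) log (1 + ξ) ≤ 2 log m`, and `log (1 + ξ) ≥ ξ / 2`
(`0 ≤ ξ ≤ 1`; e.g. `Real.add_one_le_exp`: `exp (ξ/2) ≤ 1 + ξ` from `Real.exp_bound` or from
`log (1+ξ) = - log (1/(1+ξ)) ≥ 1 - 1/(1+ξ) = ξ/(1+ξ) ≥ ξ/2`, `Real.log_le_sub_one_of_pos`).
So `d ≤ 3 + 4 log m / ξ ≤ 3 + 4 q² * 24 √m / (1000 q) ≤ 3 + 0.1 q √m` (also true if `d < 3`).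
With `s = L.length ≤ 2 d + 1 ≤ 7 + 0.2 q √m` from `sep_two`:  `q √m ≤ m / 1000`, so
`2 s ≤ 14 + m / 2500 ≤ m / 1000` (as `m > 10^6`).  The set `F = {c real | lsum (P c) L = 1}` has
`m/4 ≤ |F| ≤ 3m/4`, and at most `2 s` real vertices are on `L`, so `inside D P L ⊆ F` has at least
`m/4 - m/1000 ≥ m/5` elements and `m - |inside| ≥ m/4 ≥ m/5`.  Finally
`s √m ≤ (7 + 0.2 q √m) √m = 7 √m + 0.2 q m ≤ 200 q m = 1000 q (m/5)`.
-/

set_option autoImplicit false

namespace Pool.Agent.H63.SX

variable {V : Type} [Fintype V] [DecidableEq V]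

omit [Fintype V] [DecidableEq V] in
theorem sep_step {G : SimpleGraph V} (hc : G.Connected) {r v : V} {k : ℕ}
    (h : G.dist r v = k + 1) : ∃ u, G.dist r u = k := by
  obtain ⟨p, hp⟩ := hc.exists_walk_length_eq_dist v r
  rw [SimpleGraph.dist_comm, h] at hp
  cases p with
  | nil => simp at hp
  | cons hadj p' =>
    rename_i w
    refine ⟨w, ?_⟩
    rw [SimpleGraph.Walk.length_cons] at hp
    have h1 := SimpleGraph.dist_le p'
    have h2 := hc.dist_triangle (u := r) (v := w) (w := v)
    rw [SimpleGraph.dist_comm (u := w) (v := v), SimpleGraph.dist_eq_one_iff_adj.2 hadj, h] at h2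
    rw [SimpleGraph.dist_comm]
    rw [SimpleGraph.dist_comm (u := r) (v := w)] at h2
    omega

omit [Fintype V] [DecidableEq V] in
theorem sep_attained {G : SimpleGraph V} (hc : G.Connected) {r : V} (j : ℕ) :
    ∀ (v : V) (k : ℕ), G.dist r v = k + j → ∃ u, G.dist r u = k := by
  induction j with
  | zero => exact fun v k h => ⟨v, h⟩
  | succ j ih =>
    intro v k h
    obtain ⟨u, hu⟩ := sep_step hc (r := r) (v := v) (k := k + j) (by rw [h]; ring)
    exact ih u k hu

theorem sep_dist_D {G : SimpleGraph V} {T : Finset (Finset V)} {D : Fin 3 → V}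
    {P : V → V → V → ZMod 2} (hP : Pl G T D P) (i : Fin 3) : G.dist (D 0) (D i) ≤ 1 := by
  by_cases hi : D 0 = D i
  · rw [← hi, SimpleGraph.dist_self]
    exact Nat.zero_le _
  · have hmem : ∀ i : Fin 3, D i ∈ ({D 0, D 1, D 2} : Finset V) := by
      intro i
      fin_cases i <;> simp
    exact (SimpleGraph.dist_eq_one_iff_adj.2 (hP.adj_of _ hP.outer _ (hmem 0) _ (hmem i) hi)).le

omit [Fintype V] [DecidableEq V] in
theorem sep_filter (S : Finset V) (p : V → Prop) [DecidablePred p] :
    (Finset.univ.filter fun a : {c // c ∈ S} => p a.1).card = (S.filter p).card := by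
  rw [← Finset.card_map (Function.Embedding.subtype _)]
  congr 1
  ext x
  simp only [Finset.mem_map, Finset.mem_filter, Finset.mem_univ, true_and,
    Function.Embedding.subtype_apply, Subtype.exists, exists_and_left, exists_prop,
    exists_eq_right_right]
  exact and_comm

theorem sep_log {ξ : ℝ} (h0 : 0 < ξ) (h1 : ξ ≤ 1) {m : ℝ} {e : ℕ}
    (h : (1 + ξ) ^ e ≤ m ^ 2) : (e : ℝ) ≤ 4 * Real.log m / ξ := by
  have h2 := Real.log_le_log (by positivity) h
  rw [Real.log_pow, Real.log_pow] at h2
  have h3 : ξ / 2 ≤ Real.log (1 + ξ) := by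
    have h4 := Real.one_sub_inv_le_log_of_pos (x := 1 + ξ) (by linarith)
    have h5 : ξ / 2 ≤ 1 - (1 + ξ)⁻¹ := by
      rw [show 1 - (1 + ξ)⁻¹ = ξ / (1 + ξ) by field_simp; ring]
      exact div_le_div_of_nonneg_left h0.le (by linarith) (by linarith)
    linarith
  rw [le_div_iff₀ h0]
  have h6 : (e : ℝ) * (ξ / 2) ≤ 2 * Real.log m :=
    (mul_le_mul_of_nonneg_left h3 (Nat.cast_nonneg e)).trans (by exact_mod_cast h2)
  linarith

theorem sep {G : SimpleGraph V} {T : Finset (Finset V)} {D : Fin 3 → V}
    {P : V → V → V → ZMod 2} (hP : Pl G T D P) {q : ℝ} (hq : 1 ≤ q)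
    (hlog : 1 + Real.log (real D).card ≤ q ^ 2) (hbig : 1000 * q < √(real D).card) :
    ∃ L : List (V × V), 1 ≤ L.length ∧ (∀ e ∈ L, G.Adj e.1 e.2) ∧ Cyc L ∧
      (L.length : ℝ) * √(real D).card ≤ 1000 * q * (inside D P L).card ∧
      (L.length : ℝ) * √(real D).card ≤ 1000 * q * ((real D).card - (inside D P L).card) := by
  classical
  set m : ℕ := (real D).card with hm
  have hsm : 0 < √(m : ℝ) := by linarith
  have hsq : √(m : ℝ) * √(m : ℝ) = m := Real.mul_self_sqrt (Nat.cast_nonneg m)
  have hm6 : (1000000 : ℝ) ≤ m := by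
    have : (1000 : ℝ) ≤ √(m : ℝ) := by linarith
    nlinarith
  have hm12 : 12 ≤ m := by
    have : (12 : ℝ) ≤ m := by linarith
    exact_mod_cast this
  have hins_sub : ∀ L : List (V × V), (inside D P L) ⊆ real D := fun L => by
    unfold inside
    exact Finset.filter_subset _ _
  -- the maximal level
  obtain ⟨vm, -, hvm⟩ := Finset.exists_max_image (Finset.univ : Finset V)
    (fun v => G.dist (D 0) v) ⟨D 0, Finset.mem_univ _⟩
  set d : ℕ := G.dist (D 0) vm with hd
  have hle : ∀ v, G.dist (D 0) v ≤ d := fun v => hvm v (Finset.mem_univ v)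
  have hatt : ∀ k, k ≤ d → ∃ v, G.dist (D 0) v = k := fun k hk =>
    sep_attained hP.conn (d - k) vm k (by rw [← hd]; omega)
  have hreal : ∀ v, 2 ≤ G.dist (D 0) v → v ∈ real D := by
    intro v hv
    rw [mem_real]
    rintro i rfl
    have := sep_dist_D hP i
    omega
  have hlev : ∀ k, 2 ≤ k → (Finset.univ.filter fun v => G.dist (D 0) v = k) =
      (real D).filter fun v => G.dist (D 0) v = k := by
    intro k hk
    ext v
    simp only [Finset.mem_filter, Finset.mem_univ, true_and]
    constructor
    · intro h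
      exact ⟨hreal v (by omega), h⟩
    · exact fun h => h.2
  have hpos : ∀ k, 2 ≤ k → k ≤ d → 1 ≤ ((real D).filter fun v => G.dist (D 0) v = k).card := by
    intro k hk hkd
    obtain ⟨v, hv⟩ := hatt k hkd
    rw [← hlev k hk]
    exact Finset.card_pos.2 ⟨v, by simpa using hv⟩
  set ξ : ℝ := 1000 * q / (24 * √(m : ℝ)) with hξ
  have hξ0 : 0 < ξ := by positivity
  have hξ1 : ξ ≤ 1 := by
    rw [hξ, div_le_one (by positivity)]
    linarith
  by_cases hI : ∃ k, 2 ≤ k ∧ k ≤ d ∧
      (((real D).filter fun v => G.dist (D 0) v = k).card : ℝ) ≤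
        ξ * (min ((real D).filter fun v => G.dist (D 0) v < k).card
          ((real D).filter fun v => k < G.dist (D 0) v).card : ℕ)
  · obtain ⟨k, hk, hkd, hk3⟩ := hI
    obtain ⟨L, hL1, hL2, hL3, hL4, hL5⟩ := sep_one hP hk
    set mu : ℕ := min ((real D).filter fun v => G.dist (D 0) v < k).card
          ((real D).filter fun v => k < G.dist (D 0) v).card with hmu
    have hl1 := hpos k hk hkd
    rw [hlev k hk] at hL3
    set lk : ℕ := ((real D).filter fun v => G.dist (D 0) v = k).card with hlk
    have hlen : (L.length : ℝ) ≤ 24 * lk := by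
      have : L.length ≤ 24 * lk := by omega
      exact_mod_cast this
    have hmain : (L.length : ℝ) * √(m : ℝ) ≤ 1000 * q * mu := by
      have h1 : (L.length : ℝ) * √(m : ℝ) ≤ 24 * (ξ * mu) * √(m : ℝ) := by
        apply mul_le_mul_of_nonneg_right _ hsm.le
        linarith
      have h2 : 24 * (ξ * mu) * √(m : ℝ) = 1000 * q * mu := by
        rw [hξ]
        field_simp
      linarith
    have hmupos : 0 < mu := by
      by_contra h0
      have h1 : mu = 0 := by omega
      rw [h1] at hk3
      have h2 : (1 : ℝ) ≤ lk := by exact_mod_cast hl1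
      simp at hk3
      linarith
    have hup : ((real D).filter fun v => k < G.dist (D 0) v) ⊆ inside D P L := by
      intro c hc
      rw [Finset.mem_filter] at hc
      unfold inside
      rw [Finset.mem_filter]
      refine ⟨hc.1, fun e he => ⟨?_, ?_⟩, ((hL5 c (mem_real.1 hc.1)).1 hc.2)⟩
      · rintro rfl
        have := (hL4 e he).1
        omega
      · rintro rfl
        have := (hL4 e he).2
        omega
    have hdown : Disjoint (inside D P L) ((real D).filter fun v => G.dist (D 0) v < k) := by
      rw [Finset.disjoint_left]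
      intro c hc hc'
      rw [Finset.mem_filter] at hc'
      unfold inside at hc
      rw [Finset.mem_filter] at hc
      have h1 := (hL5 c (mem_real.1 hc.1)).2 hc'.2
      rw [h1] at hc
      exact absurd hc.2.2 (by decide)
    have h1 : mu ≤ (inside D P L).card :=
      (min_le_right _ _).trans (Finset.card_le_card hup)
    have h2 : mu + (inside D P L).card ≤ m := by
      have h3 : (inside D P L).card +
          ((real D).filter fun v => G.dist (D 0) v < k).card ≤ m := by
        rw [← Finset.card_union_of_disjoint hdown]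
        exact Finset.card_le_card (Finset.union_subset (hins_sub L) (Finset.filter_subset _ _))
      have h4 : mu ≤ ((real D).filter fun v => G.dist (D 0) v < k).card := min_le_left _ _
      omega
    have h1' : (mu : ℝ) ≤ (inside D P L).card := by exact_mod_cast h1
    have h2' : (mu : ℝ) ≤ m - (inside D P L).card := by
      have : (mu : ℝ) + (inside D P L).card ≤ m := by exact_mod_cast h2
      linarith
    have hq0 : 0 ≤ 1000 * q := by linarith
    refine ⟨L, ?_, hL1, hL2, ?_, ?_⟩
    · by_contra h0
      have h3 : L = [] := List.length_eq_zero_iff.1 (by omega)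
      obtain ⟨c, hc⟩ := Finset.card_pos.1 (lt_of_lt_of_le hmupos h1)
      unfold inside at hc
      rw [Finset.mem_filter, h3] at hc
      simp [lsum] at hc
    · exact hmain.trans (mul_le_mul_of_nonneg_left h1' hq0)
    · exact hmain.trans (mul_le_mul_of_nonneg_left h2' hq0)
  · push Not at hI
    obtain ⟨L, hL1, hL2, hL3, hL4, hL5, hL6⟩ := sep_two hP hle hm12
    -- bound for the depth
    have hlogm : 0 ≤ Real.log m := Real.log_nonneg (by linarith)
    have hdepth : (d : ℝ) ≤ 3 + 4 * Real.log m / ξ := by
      by_cases hd3 : 3 ≤ d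
      · have hlv := levels (fun a : {c // c ∈ real D} => G.dist (D 0) a.1) d hd3 ξ hξ0.le
          (by
            intro k hk hkd
            have := hpos k hk hkd
            rwa [← sep_filter] at this)
          (by
            intro k hk hkd
            have := hI k hk hkd
            rw [← sep_filter (real D) (fun v => G.dist (D 0) v < k),
              ← sep_filter (real D) (fun v => k < G.dist (D 0) v),
              ← sep_filter (real D) (fun v => G.dist (D 0) v = k)] at this
            exact this)
        rw [Fintype.card_coe, ← hm] at hlv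
        have h1 := sep_log hξ0 hξ1 hlv
        rw [Nat.cast_sub hd3] at h1
        push_cast at h1
        linarith
      · have h1 : (d : ℝ) ≤ 3 := by
          have : d ≤ 3 := by omega
          exact_mod_cast this
        have : 0 ≤ 4 * Real.log m / ξ := by positivity
        linarith
    have hd2 : 4 * Real.log m / ξ ≤ 0.1 * q * √(m : ℝ) := by
      rw [div_le_iff₀ hξ0, hξ]
      have h1 : 0.1 * q * √(m : ℝ) * (1000 * q / (24 * √(m : ℝ))) = 100 / 24 * q ^ 2 := by
        field_simp
        ring
      rw [h1]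
      nlinarith [sq_nonneg q]
    have hs : (L.length : ℝ) ≤ 7 + 0.2 * q * √(m : ℝ) := by
      have h1 : (L.length : ℝ) ≤ 2 * d + 1 := by exact_mod_cast hL2
      linarith
    have hqm : q * √(m : ℝ) ≤ m / 1000 := by
      have : q ≤ √(m : ℝ) / 1000 := by linarith
      calc q * √(m : ℝ) ≤ √(m : ℝ) / 1000 * √(m : ℝ) := mul_le_mul_of_nonneg_right this hsm.le
        _ = m / 1000 := by rw [div_mul_eq_mul_div, hsq]
    have h2s : 2 * (L.length : ℝ) ≤ m / 1000 := by linarith
    -- the vertices on the cycle
    set F := (real D).filter fun c => lsum (P c) L = 1 with hF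
    have hFm : ((m : ℕ) : ℝ) ≤ 4 * F.card := by exact_mod_cast hL5
    have hFm' : 4 * (F.card : ℝ) ≤ 3 * m := by exact_mod_cast hL6
    have hsub : F ⊆ inside D P L ∪ (L.map fun e => e.1).toFinset ∪
        (L.map fun e => e.2).toFinset := by
      intro c hc
      rw [hF, Finset.mem_filter] at hc
      rw [Finset.mem_union, Finset.mem_union]
      by_cases h1 : ∀ e ∈ L, e.1 ≠ c ∧ e.2 ≠ c
      · left; left
        unfold inside
        rw [Finset.mem_filter]
        exact ⟨hc.1, h1, hc.2⟩
      · push Not at h1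
        obtain ⟨e, he, h1⟩ := h1
        by_cases h3 : e.1 = c
        · left; right
          rw [List.mem_toFinset, List.mem_map]
          exact ⟨e, he, h3⟩
        · right
          rw [List.mem_toFinset, List.mem_map]
          exact ⟨e, he, h1 h3⟩
    have hcardF : F.card ≤ (inside D P L).card + L.length + L.length := by
      refine (Finset.card_le_card hsub).trans ?_
      refine (Finset.card_union_le _ _).trans ?_
      refine add_le_add ((Finset.card_union_le _ _).trans (add_le_add le_rfl ?_)) ?_
      · refine (List.toFinset_card_le _).trans ?_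
        rw [List.length_map]
      · refine (List.toFinset_card_le _).trans ?_
        rw [List.length_map]
    have hin1 : (m : ℝ) / 5 ≤ (inside D P L).card := by
      have h1 : (F.card : ℝ) ≤ (inside D P L).card + L.length + L.length := by
        exact_mod_cast hcardF
      linarith
    have hin2 : (m : ℝ) / 5 ≤ m - (inside D P L).card := by
      have h1 : (inside D P L).card ≤ F.card := by
        apply Finset.card_le_card
        intro c hc
        unfold inside at hc
        rw [Finset.mem_filter] at hc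
        rw [hF, Finset.mem_filter]
        exact ⟨hc.1, hc.2.2⟩
      have h2 : ((inside D P L).card : ℝ) ≤ F.card := by exact_mod_cast h1
      linarith
    have hfin : (L.length : ℝ) * √(m : ℝ) ≤ 1000 * q * (m / 5) := by
      have h1 : (L.length : ℝ) * √(m : ℝ) ≤ (7 + 0.2 * q * √(m : ℝ)) * √(m : ℝ) :=
        mul_le_mul_of_nonneg_right hs hsm.le
      have h2 : (7 + 0.2 * q * √(m : ℝ)) * √(m : ℝ) = 7 * √(m : ℝ) + 0.2 * q * m := by
        rw [add_mul, mul_assoc (0.2 * q), hsq]
      have h3 : √(m : ℝ) ≤ m := by nlinarith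
      have h4 : (m : ℝ) ≤ q * m := by nlinarith
      nlinarith
    have hq0 : 0 ≤ 1000 * q := by linarith
    exact ⟨L, hL1, hL3, hL4, hfin.trans (mul_le_mul_of_nonneg_left hin1 hq0),
      hfin.trans (mul_le_mul_of_nonneg_left hin2 hq0)⟩

end Pool.Agent.H63.SX
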