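import Pool.Agent.H63.SX.TyMem
import Pool.Agent.H63.SX.PlOf
import Pool.Agent.H63.SX.Sep
import Pool.Agent.H63.SX.Pot
import Pool.Agent.H63.SX.GenG

/-!
# SX-26: every unique optimal matching is split by a type

Let `V = α ⊕ Fin 3`, `π' = Sum.map π id : V → β ⊕ Fin 3` (injective), `bb = Sum.elim B D ∘ π'`,
i.e. `bb = Sum.elim (B ∘ π) D`, `Di i = Sum.inr i`, `m = card α ≥ 2`, and
`Y R i = R • rot (D (i+2) - D (i+1))`.

Small case `√m ≤ 1000 q`: `s = 1` and `p = ({a}, {π a})` for any `a` (`mem_fam_single`), for all `R`.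
`√m ≤ 1000 q * 1` and `1 ≤ m - 1`.

Large case.  (1) `pot` gives `g1 : α → ℝ`.  Choose `G0` so large that for
`g0 = Sum.elim g1 (fun _ => G0)` we have
`ell bb g0 (Sum.inr i) (A a - t) < ell bb g0 (Sum.inl a) (A a - t)` for all `a`, `i` (finitely many
lower bounds for `G0`).
(2) `gen_g` with `b = bb` (`hn` for `bb` follows from `hn` for `Sum.elim B D`, `π'` is injective), and
`K` = all triples `(w, Sum.inl a, A a - t)`, `w ≠ Sum.inl a`: gives `g` with `Ge bb g`.
(3) `Hull Di bb` from `hor`, `hin`.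
(4) `far` gives `R0`.  Let `R ≥ R0`, `Y = Y R`, and `y : V → ℝ × ℝ`, `y v = Sum.elim A Y v - t`.
Then `Conf bb y g` (for `Sum.inl a` from (2), for `Sum.inr i` from (4)).
(5) `pl_of`, and `sep` (`real Di` has `m` elements: it is the image of `Sum.inl`) give `L`.  For
every adjacent pair `u, v` choose a point `z u v` with `IsE bb g u v (z u v)`, and
`e u v = z u v + t`.
(6) The hypothesis `hK` of `type_of`: let `a` be not on `L`, `c = Sum.inl a`.  For `(u,v) ∈ L`
`wind_conf` with `e = z u v` (`ell c ≤ ell u` at `z u v` because `c ≠ u, v`) says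
`pat A Y u v (e u v) a + eps (bb u - bb c) (bb v - bb c) = η u + η v` with
`η x = eps (y x - y c) (bb x - bb c)`, since `y u - y c = Sum.elim A Y u - A a` and
`z u v - y c = e u v - A a`.  Sum over `L`: the right side is `0` by `Cyc L`; so the two sums
are equal (`ZMod 2`: `x + x' = 0 → x = x'`).
(7) `type_of` gives `p` with `p.1 = {a | ...}`, which corresponds to `inside Di P L` under `Sum.inl`,
so the cardinalities agree, and `s = L.length`.
-/

set_option autoImplicit false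

namespace Pool.Agent.H63.SX

open Pool.Agent.ROT (cr dt rot)

variable {α β : Type} [Fintype α] [Fintype β]

omit [Fintype β] in
theorem bt_init (A : α → ℝ × ℝ) (B : β → ℝ × ℝ) (D : Fin 3 → ℝ × ℝ) (t : ℝ × ℝ) (π : α ↪ β)
    (g1 : α → ℝ) (hg1 : ∀ a a', a' ≠ a →
      ell (fun a => B (π a)) g1 a' (A a - t) < ell (fun a => B (π a)) g1 a (A a - t)) :
    ∃ g0 : α ⊕ Fin 3 → ℝ, ∀ (a : α) (w : α ⊕ Fin 3), w ≠ Sum.inl a →
      ell (Sum.elim (fun a => B (π a)) D) g0 w (A a - t) <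
        ell (Sum.elim (fun a => B (π a)) D) g0 (Sum.inl a) (A a - t) := by
  obtain ⟨M, hM⟩ := (Set.finite_range (fun p : α × Fin 3 => dt (A p.1 - t) (D p.2) -
    ell (fun a => B (π a)) g1 p.1 (A p.1 - t))).bddAbove
  refine ⟨Sum.elim g1 (fun _ => M + 1), ?_⟩
  rintro a (a' | i) hw
  · have : a' ≠ a := fun h => hw (by rw [h])
    exact hg1 a a' this
  · have := hM ⟨(a, i), rfl⟩
    simp only [ell, Sum.elim_inl, Sum.elim_inr] at this ⊢
    linarith

theorem bt (A : α → ℝ × ℝ) (B : β → ℝ × ℝ) (h : β → ℝ) (D : Fin 3 → ℝ × ℝ)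
    (hn : ∀ i j k : β ⊕ Fin 3, i ≠ j → j ≠ k → i ≠ k →
      cr (Sum.elim B D j - Sum.elim B D i) (Sum.elim B D k - Sum.elim B D i) ≠ 0)
    (hor : 0 < cr (D 1 - D 0) (D 2 - D 0)) (hin : ∀ b, InTri D (B b)) {q : ℝ} (hq : 1 ≤ q)
    (hlog : 1 + Real.log (Fintype.card α) ≤ q ^ 2) (h2 : 2 ≤ Fintype.card α) {t : ℝ × ℝ}
    {π : α ↪ β} (hU : Uo A B h t π) :
    ∃ R0 : ℝ, ∀ R : ℝ, R0 ≤ R → ∃ s : ℕ, 1 ≤ s ∧
      ∃ p ∈ fam A B D (fun i => R • rot (D (i + 2) - D (i + 1))) s, (∀ a, a ∈ p.1 ↔ π a ∈ p.2) ∧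
        (s : ℝ) * √(Fintype.card α) ≤ 1000 * q * p.1.card ∧
        (s : ℝ) * √(Fintype.card α) ≤ 1000 * q * (Fintype.card α - p.1.card) := by
  classical
  have hne : Nonempty α := Fintype.card_pos_iff.1 (by omega)
  obtain ⟨a0⟩ := hne
  obtain hsmall | hbig := le_or_gt (√(Fintype.card α)) (1000 * q)
  · refine ⟨0, fun R _ => ⟨1, le_rfl, ({a0}, {π a0}), mem_fam_single A B D _ 1 a0 (π a0),
      ?_, ?_, ?_⟩⟩
    · intro x
      simp [π.injective.eq_iff]
    · simpa using hsmall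
    · have h3 : (2 : ℝ) ≤ Fintype.card α := by exact_mod_cast h2
      simp only [Nat.cast_one, one_mul, Finset.card_singleton]
      nlinarith
  -- the large case
  obtain ⟨g1, hg1⟩ := pot A B h hU
  obtain ⟨g0, hg0⟩ := bt_init A B D t π g1 hg1
  set bb : α ⊕ Fin 3 → ℝ × ℝ := Sum.elim (fun a => B (π a)) D with hbbdef
  have hbb : ∀ v, bb v = Sum.elim B D (Sum.map π id v) := by
    rintro (a | i) <;> rfl
  have hinjm : Function.Injective (Sum.map π id : α ⊕ Fin 3 → β ⊕ Fin 3) :=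
    π.injective.sumMap Function.injective_id
  have hnb : ∀ i j k, i ≠ j → j ≠ k → i ≠ k → cr (bb j - bb i) (bb k - bb i) ≠ 0 := by
    intro i j k hij hjk hik
    rw [hbb i, hbb j, hbb k]
    exact hn _ _ _ (fun h => hij (hinjm h)) (fun h => hjk (hinjm h)) (fun h => hik (hinjm h))
  obtain ⟨g, hG, hg⟩ := gen_g bb hnb g0
    ((fun p : α × (α ⊕ Fin 3) => (p.2, (Sum.inl p.1 : α ⊕ Fin 3), A p.1 - t)) ''
      {p | p.2 ≠ Sum.inl p.1}) ((Set.toFinite _).image _) (by
      rintro x ⟨p, hp, rfl⟩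
      exact hg0 p.1 p.2 hp)
  have hg' : ∀ (a : α) (w : α ⊕ Fin 3), w ≠ Sum.inl a →
      ell bb g w (A a - t) < ell bb g (Sum.inl a) (A a - t) := fun a w hw =>
    hg _ ⟨(a, w), hw, rfl⟩
  have hH : Hull (fun i : Fin 3 => (Sum.inr i : α ⊕ Fin 3)) bb := by
    refine ⟨Sum.inr_injective, hor, ?_⟩
    rintro (a | i) hv
    · exact hin (π a)
    · exact absurd rfl (hv i)
  obtain ⟨R0, hR0⟩ := far hH g t
  refine ⟨R0, fun R hR => ?_⟩
  set Y : Fin 3 → ℝ × ℝ := fun i => R • rot (D (i + 2) - D (i + 1)) with hY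
  set y : α ⊕ Fin 3 → ℝ × ℝ := fun v => Sum.elim A Y v - t with hy
  have hC : Conf bb y g := by
    rintro (a | i) w hw
    · exact hg' a w hw
    · exact hR0 R hR i w hw
  have hPl := pl_of (D := fun i : Fin 3 => (Sum.inr i : α ⊕ Fin 3)) hG hH hC
    ⟨Sum.inl a0, fun i => by simp⟩
  have hreal : real (fun i : Fin 3 => (Sum.inr i : α ⊕ Fin 3)) =
      (Finset.univ : Finset α).map ⟨Sum.inl, Sum.inl_injective⟩ := by
    ext v
    rw [mem_real]
    rcases v with a | i
    · simp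
    · simp
  have hrc : (real (fun i : Fin 3 => (Sum.inr i : α ⊕ Fin 3))).card = Fintype.card α := by
    rw [hreal, Finset.card_map, Finset.card_univ]
  obtain ⟨L, hL1, hLadj, hLcyc, hs1, hs2⟩ := sep hPl hq (by rw [hrc]; exact hlog)
    (by rw [hrc]; exact hbig)
  rw [hrc] at hs1 hs2
  -- the points on the edges
  have hz : ∀ u v : α ⊕ Fin 3, ∃ z, (Gr bb g).Adj u v → IsE bb g u v z := by
    intro u v
    by_cases huv : (Gr bb g).Adj u v
    · obtain ⟨-, z, hz⟩ := huv
      exact ⟨z, fun _ => hz⟩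
    · exact ⟨0, fun h => absurd h huv⟩
  choose z hz using hz
  obtain ⟨p, hp, hpi, hpc⟩ := type_of A B D Y π L (fun u v => z u v + t) (by
    intro a ha
    have key : ∀ x ∈ L, pat A Y x.1 x.2 (z x.1 x.2 + t) a +
        eps (Sum.elim B D (Sum.map π id x.1) - B (π a))
          (Sum.elim B D (Sum.map π id x.2) - B (π a)) =
        eps (y x.1 - y (Sum.inl a)) (bb x.1 - bb (Sum.inl a)) +
          eps (y x.2 - y (Sum.inl a)) (bb x.2 - bb (Sum.inl a)) := by
      intro x hx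
      have hadj := hLadj x hx
      have hE := hz x.1 x.2 hadj
      have h3 := wind_conf hC (u := x.1) (v := x.2) (c := Sum.inl a) (e := z x.1 x.2)
        (ha x hx).1 (ha x hx).2 hE.1
        (hE.2 _ (Ne.symm (ha x hx).1) (Ne.symm (ha x hx).2)).le
      rw [← h3]
      have e1 : y x.1 - y (Sum.inl a) = Sum.elim A Y x.1 - A a := by
        simp [hy]
      have e2 : y x.2 - y (Sum.inl a) = Sum.elim A Y x.2 - A a := by
        simp [hy]
      have e3 : z x.1 x.2 - y (Sum.inl a) = z x.1 x.2 + t - A a := by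
        simp only [hy, Sum.elim_inl]
        abel
      rw [e1, e2, e3, hbb x.1, hbb x.2, hbb (Sum.inl a)]
      rfl
    have hsum := hLcyc (fun v => eps (y v - y (Sum.inl a)) (bb v - bb (Sum.inl a)))
    have h4 : lsum (fun u v => pat A Y u v (z u v + t) a +
        eps (Sum.elim B D (Sum.map π id u) - B (π a))
          (Sum.elim B D (Sum.map π id v) - B (π a))) L = 0 := by
      rw [← hsum]
      unfold lsum
      congr 1
      exact List.map_congr_left key
    have h5 : ∀ (f f' : α ⊕ Fin 3 → α ⊕ Fin 3 → ZMod 2),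
        lsum (fun u v => f u v + f' u v) L = lsum f L + lsum f' L := by
      intro f f'
      unfold lsum
      rw [← List.sum_map_add]
    rw [h5] at h4
    exact CharTwo.add_eq_zero.1 h4)
  have hcard : p.1.card = (inside (fun i : Fin 3 => (Sum.inr i : α ⊕ Fin 3))
      (fun c u v => eps (bb u - bb c) (bb v - bb c)) L).card := by
    rw [← Finset.card_map (⟨Sum.inl, Sum.inl_injective⟩ : α ↪ α ⊕ Fin 3)]
    congr 1
    ext v
    rw [hpc]
    simp only [inside, Finset.mem_filter, hreal, Finset.mem_map, Finset.mem_univ, true_and,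
      Function.Embedding.coeFn_mk]
    constructor
    · rintro ⟨a, ⟨h1, h2⟩, rfl⟩
      refine ⟨⟨a, rfl⟩, h1, ?_⟩
      rw [← h2]
      unfold lsum
      congr 1
      refine List.map_congr_left fun x _ => ?_
      simp only [hbb]
      rfl
    · rintro ⟨⟨a, rfl⟩, h1, h2⟩
      refine ⟨a, ⟨h1, ?_⟩, rfl⟩
      rw [← h2]
      unfold lsum
      congr 1
      refine List.map_congr_left fun x _ => ?_
      simp only [hbb]
      rfl
  refine ⟨L.length, hL1, p, hp, hpi, ?_, ?_⟩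
  · rw [hcard]
    exact hs1
  · rw [hcard]
    exact hs2

end Pool.Agent.H63.SX
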