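import Pool.Agent.H63.SX.Edge

/-!
# SX-15: at most `2 card V` triangles

If `V` has at most two elements there is no triangle.  Choose a direction `κ : ℝ × ℝ` with
`cr κ (b i - b j) ≠ 0` for all `i ≠ j` (for instance `κ = (1, s)` with `s` outside of a finite
set; `b i ≠ b j` by `Ge.ncol` with a third element).

For a triangle `τ = {u, v, w}` with the point `z` let `Δ = cr (b v - b u) (b w - b u) ≠ 0`,
`x_v = cr κ (b w - b u) / Δ`, `x_w = cr (b v - b u) κ / Δ`, `x_u = -x_v - x_w`.  Then
`κ = x_u b u + x_v b v + x_w b w` (Cramer), `x_u + x_v + x_w = 0`, and all three numbers are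
nonzero (`x_u = 0` would give `κ` parallel to `b v - b w`).  So exactly one of the three, say that of
`u` (rename), has the sign opposite to the two others; let `σ ∈ {1,-1}` be the sign of the
two others, `σ x_v > 0`, `σ x_w > 0`.  For every point `y` with `ell v y ≤ ell u y`,
`ell w y ≤ ell u y`:
`σ <y - z, κ> = σ x_v <y - z, b v - b u> + σ x_w <y - z, b w - b u> ≤ 0`, because
`<y - z, b v - b u> = (ell v y - ell u y) - (ell v z - ell u z) = ell v y - ell u y ≤ 0`; and if
it is `= 0` then `<y - z, b v - b u> = 0 = <y - z, b w - b u>`, so `y = z` (the two vectors are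
independent).
So: for every triangle `τ` with point `z` there are `u ∈ τ` and a sign `σ` such that all `y ≠ z` in
the closed cell of `u` (all `x`: `ell x y ≤ ell u y`) satisfy `σ <y - z, κ> < 0`.  Choose such a pair
`(u, σ)` for every triangle.  The map `τ ↦ (u, σ) ∈ V × Bool` is injective: if `τ, τ'` have the
same `(u, σ)`, then `z' ` is in the closed cell of `u` and `z` too, so if `z ≠ z'`:
`σ <z' - z, κ> < 0` and `σ <z - z', κ> < 0`, a contradiction; so `z = z'`, and both triangles are the
set of all `x` with `ell x z = ell u z` (`IsT`), so `τ = τ'`.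
-/

set_option autoImplicit false

namespace Pool.Agent.H63.SX

open Pool.Agent.ROT (cr dt rot)

variable {V : Type} [Fintype V] [DecidableEq V] {b : V → ℝ × ℝ} {g : V → ℝ}

omit [Fintype V] [DecidableEq V] in
/-- The sign argument at one site. -/
lemma cnt_one {u v w : V} {z κ : ℝ × ℝ} {xv xw σ : ℝ}
    (hΔ : cr (b v - b u) (b w - b u) ≠ 0) (h1 : ell b g u z = ell b g v z)
    (h2 : ell b g u z = ell b g w z) (hκ : κ = xv • (b v - b u) + xw • (b w - b u))
    (hv : 0 < σ * xv) (hw : 0 < σ * xw) {y : ℝ × ℝ} (hy : y ≠ z)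
    (hyv : ell b g v y ≤ ell b g u y) (hyw : ell b g w y ≤ ell b g u y) :
    σ * dt (y - z) κ < 0 := by
  have e1 : dt (y - z) (b v - b u) = ell b g v y - ell b g u y := by
    have : dt (y - z) (b v - b u) =
        (ell b g v y - ell b g u y) - (ell b g v z - ell b g u z) := by
      simp only [ell, dt, Prod.fst_sub, Prod.snd_sub]; ring
    rw [this, h1]; ring
  have e2 : dt (y - z) (b w - b u) = ell b g w y - ell b g u y := by
    have : dt (y - z) (b w - b u) =
        (ell b g w y - ell b g u y) - (ell b g w z - ell b g u z) := by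
      simp only [ell, dt, Prod.fst_sub, Prod.snd_sub]; ring
    rw [this, h2]; ring
  have e3 : σ * dt (y - z) κ =
      (σ * xv) * (ell b g v y - ell b g u y) + (σ * xw) * (ell b g w y - ell b g u y) := by
    rw [hκ, Pool.Agent.ROT.dt_add_right, Pool.Agent.ROT.dt_smul_right,
      Pool.Agent.ROT.dt_smul_right, e1, e2]; ring
  rw [e3]
  by_contra hcon
  push Not at hcon
  have p1 : (σ * xv) * (ell b g v y - ell b g u y) ≤ 0 :=
    mul_nonpos_of_nonneg_of_nonpos hv.le (by linarith)
  have p2 : (σ * xw) * (ell b g w y - ell b g u y) ≤ 0 :=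
    mul_nonpos_of_nonneg_of_nonpos hw.le (by linarith)
  have q1 : (σ * xv) * (ell b g v y - ell b g u y) = 0 := by linarith
  have q2 : (σ * xw) * (ell b g w y - ell b g u y) = 0 := by linarith
  have r1 : dt (y - z) (b v - b u) = 0 := by
    rw [e1]; exact (mul_eq_zero.1 q1).resolve_left hv.ne'
  have r2 : dt (y - z) (b w - b u) = 0 := by
    rw [e2]; exact (mul_eq_zero.1 q2).resolve_left hw.ne'
  apply hy
  have s1 : (y - z).1 * cr (b v - b u) (b w - b u) = 0 := by
    have : (y - z).1 * cr (b v - b u) (b w - b u) =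
        dt (y - z) (b v - b u) * (b w - b u).2 - dt (y - z) (b w - b u) * (b v - b u).2 := by
      simp only [cr, dt]; ring
    rw [this, r1, r2]; ring
  have s2 : (y - z).2 * cr (b v - b u) (b w - b u) = 0 := by
    have : (y - z).2 * cr (b v - b u) (b w - b u) =
        dt (y - z) (b w - b u) * (b v - b u).1 - dt (y - z) (b v - b u) * (b w - b u).1 := by
      simp only [cr, dt]; ring
    rw [this, r1, r2]; ring
  have t1 := (mul_eq_zero.1 s1).resolve_right hΔ
  have t2 := (mul_eq_zero.1 s2).resolve_right hΔ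
  rw [Prod.fst_sub] at t1
  rw [Prod.snd_sub] at t2
  exact Prod.ext (by linarith) (by linarith)

/-- What is recorded for a triangle. -/
def CntSpec (b : V → ℝ × ℝ) (g : V → ℝ) (κ : ℝ × ℝ) (τ : Finset V) (p : V × Bool)
    (z : ℝ × ℝ) : Prop :=
  (∀ x, x ∈ τ ↔ ell b g x z = ell b g p.1 z) ∧ (∀ x, ell b g x z ≤ ell b g p.1 z) ∧
    ∀ y, y ≠ z → (∀ x, ell b g x y ≤ ell b g p.1 y) →
      (if p.2 = true then (1 : ℝ) else -1) * dt (y - z) κ < 0

omit [Fintype V] in
lemma cnt_spec_one {u v w : V} {z κ : ℝ × ℝ} {xv xw : ℝ} {τ : Finset V}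
    (hτ : τ = {u, v, w}) (hT : IsT b g u v w z)
    (hΔ : cr (b v - b u) (b w - b u) ≠ 0)
    (hκ : κ = xv • (b v - b u) + xw • (b w - b u)) (hs : 0 < xv * xw) :
    ∃ p z, CntSpec b g κ τ p z := by
  obtain ⟨h1, h2, h3⟩ := hT
  have hmem : ∀ x, x ∈ τ ↔ ell b g x z = ell b g u z := by
    intro x
    rw [hτ]
    simp only [Finset.mem_insert, Finset.mem_singleton]
    constructor
    · rintro (rfl | rfl | rfl)
      · rfl
      · exact h1.symm
      · exact h2.symm
    · intro hx
      by_contra hne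
      push Not at hne
      exact absurd hx (h3 x hne.1 hne.2.1 hne.2.2).ne
  have hle : ∀ x, ell b g x z ≤ ell b g u z := by
    intro x
    by_cases hx : x ∈ τ
    · exact ((hmem x).1 hx).le
    · rw [hτ] at hx
      simp only [Finset.mem_insert, Finset.mem_singleton, not_or] at hx
      exact (h3 x hx.1 hx.2.1 hx.2.2).le
  rcases pos_and_pos_or_neg_and_neg_of_mul_pos hs with ⟨ha, hb⟩ | ⟨ha, hb⟩
  · refine ⟨(u, true), z, hmem, hle, fun y hy hcell => ?_⟩
    simp only [if_true]
    exact cnt_one hΔ h1 h2 hκ (by linarith) (by linarith) hy (hcell v) (hcell w)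
  · refine ⟨(u, false), z, hmem, hle, fun y hy hcell => ?_⟩
    simp only [Bool.false_eq_true, if_false]
    exact cnt_one hΔ h1 h2 hκ (by linarith) (by linarith) hy (hcell v) (hcell w)

omit [Fintype V] in
lemma cnt_spec (hG : Ge b g) {κ : ℝ × ℝ} (hκ : ∀ i j, i ≠ j → cr κ (b i - b j) ≠ 0)
    {u v w : V} {z : ℝ × ℝ} {τ : Finset V} (huv : u ≠ v) (hvw : v ≠ w) (huw : u ≠ w)
    (hτ : τ = {u, v, w}) (hT : IsT b g u v w z) :
    ∃ p z, CntSpec b g κ τ p z := by
  have hΔ : cr (b v - b u) (b w - b u) ≠ 0 := hG.ncol u v w huv hvw huw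
  set Δ := cr (b v - b u) (b w - b u) with hΔd
  obtain ⟨xv, hxv⟩ : ∃ xv, xv = cr κ (b w - b u) / Δ := ⟨_, rfl⟩
  obtain ⟨xw, hxw⟩ : ∃ xw, xw = cr (b v - b u) κ / Δ := ⟨_, rfl⟩
  obtain ⟨xu, hxu⟩ : ∃ xu, xu = cr κ (b v - b w) / Δ := ⟨_, rfl⟩
  have nv : xv ≠ 0 := by
    rw [hxv]; exact div_ne_zero (hκ w u huw.symm) hΔ
  have nw : xw ≠ 0 := by
    rw [hxw, Pool.Agent.ROT.cr_neg_comm]
    exact div_ne_zero (neg_ne_zero.2 (hκ v u huv.symm)) hΔ
  have nu : xu ≠ 0 := by
    rw [hxu]; exact div_ne_zero (hκ v w hvw) hΔ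
  have hsum : xu + xv + xw = 0 := by
    rw [hxu, hxv, hxw]
    field_simp
    simp only [cr, Prod.fst_sub, Prod.snd_sub]; ring
  have hvΔ : xv * Δ = cr κ (b w - b u) := by rw [hxv]; field_simp
  have hwΔ : xw * Δ = cr (b v - b u) κ := by rw [hxw]; field_simp
  have hκ1 : κ = xv • (b v - b u) + xw • (b w - b u) := by
    have c1 : κ.1 * Δ = (xv * Δ) * (b v - b u).1 + (xw * Δ) * (b w - b u).1 := by
      rw [hvΔ, hwΔ, hΔd]; simp only [cr]; ring
    have c2 : κ.2 * Δ = (xv * Δ) * (b v - b u).2 + (xw * Δ) * (b w - b u).2 := by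
      rw [hvΔ, hwΔ, hΔd]; simp only [cr]; ring
    refine Prod.ext ?_ ?_
    · apply mul_right_cancel₀ hΔ
      rw [c1]; simp only [Prod.fst_add, Prod.smul_fst, smul_eq_mul]; ring
    · apply mul_right_cancel₀ hΔ
      rw [c2]; simp only [Prod.snd_add, Prod.smul_snd, smul_eq_mul]; ring
  have hxu' : xu = - xv - xw := by linarith
  -- two of the three numbers have the same sign
  rcases lt_or_gt_of_ne (mul_ne_zero nv nw).symm with hs | hs
  · exact cnt_spec_one hτ hT hΔ hκ1 hs
  · have hΔ2 : cr (b u - b v) (b w - b v) ≠ 0 := by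
      have : cr (b u - b v) (b w - b v) = - Δ := by
        rw [hΔd]; simp only [cr, Prod.fst_sub, Prod.snd_sub]; ring
      rw [this]; exact neg_ne_zero.2 hΔ
    have hΔ3 : cr (b v - b w) (b u - b w) ≠ 0 := by
      have : cr (b v - b w) (b u - b w) = - Δ := by
        rw [hΔd]; simp only [cr, Prod.fst_sub, Prod.snd_sub]; ring
      rw [this]; exact neg_ne_zero.2 hΔ
    obtain ⟨h1, h2, h3⟩ := hT
    rcases lt_or_gt_of_ne (mul_ne_zero nu nw).symm with hs' | hs'
    · -- base v
      refine cnt_spec_one (u := v) (v := u) (w := w) (z := z) (xv := xu) (xw := xw)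
        ?_ ⟨h1.symm, h1.symm.trans h2, fun x a b c => ?_⟩ hΔ2 ?_ hs'
      · rw [hτ, Finset.insert_comm]
      · rw [← h1]; exact h3 x b a c
      · rw [hκ1, hxu']
        refine Prod.ext ?_ ?_ <;> simp <;> ring
    · -- base w
      have hs'' : 0 < xv * xu := by
        rcases lt_or_gt_of_ne nw with hw | hw
        · have a1 : 0 < xv := by
            by_contra hcon
            push Not at hcon
            nlinarith
          have a2 : 0 < xu := by
            by_contra hcon
            push Not at hcon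
            nlinarith
          exact mul_pos a1 a2
        · have a1 : xv < 0 := by
            by_contra hcon
            push Not at hcon
            nlinarith
          have a2 : xu < 0 := by
            by_contra hcon
            push Not at hcon
            nlinarith
          exact mul_pos_of_neg_of_neg a1 a2
      refine cnt_spec_one (u := w) (v := v) (w := u) (z := z) (xv := xv) (xw := xu)
        ?_ ⟨h2.symm.trans h1, h2.symm, fun x a b c => ?_⟩ hΔ3 ?_ hs''
      · rw [hτ]
        ext x
        simp only [Finset.mem_insert, Finset.mem_singleton]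
        tauto
      · rw [← h2]; exact h3 x c b a
      · rw [hκ1, hxu']
        refine Prod.ext ?_ ?_ <;> simp <;> ring

theorem tris_card (hG : Ge b g) : (tris b g).card ≤ 2 * Fintype.card V := by
  classical
  rcases Finset.eq_empty_or_nonempty (tris b g) with h0 | ⟨τ₀, hτ₀⟩
  · rw [h0]; simp
  obtain ⟨u₀, v₀, w₀, h01, h12, h02, -, -⟩ := mem_tris.1 hτ₀
  -- different sites
  have hb : ∀ i j, i ≠ j → b i - b j ≠ 0 := by
    intro i j hij h
    obtain ⟨k, hki, hkj⟩ : ∃ k, k ≠ i ∧ k ≠ j := by
      by_contra hcon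
      push Not at hcon
      have c1 := hcon u₀
      have c2 := hcon v₀
      have c3 := hcon w₀
      by_cases a : u₀ = i
      · have d2 : v₀ = j := c2 (fun e => h01 (a.trans e.symm))
        have d3 : w₀ = j := c3 (fun e => h02 (a.trans e.symm))
        exact h12 (d2.trans d3.symm)
      · have d1 : u₀ = j := c1 a
        by_cases a2 : v₀ = i
        · have d3 : w₀ = j := c3 (fun e => h12 (a2.trans e.symm))
          exact h02 (d1.trans d3.symm)
        · exact h01 (d1.trans (c2 a2).symm)
    have := hG.ncol j i k hij.symm (Ne.symm hki) (Ne.symm hkj)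
    rw [h] at this
    apply this
    simp [cr]
  obtain ⟨s, hs⟩ := Infinite.exists_notMem_finset
    ((Finset.univ : Finset (V × V)).image fun e => (b e.1 - b e.2).2 / (b e.1 - b e.2).1)
  have hκ : ∀ i j, i ≠ j → cr ((1 : ℝ), s) (b i - b j) ≠ 0 := by
    intro i j hij h
    have h' : (b i - b j).2 - s * (b i - b j).1 = 0 := by
      have : cr ((1 : ℝ), s) (b i - b j) = (b i - b j).2 - s * (b i - b j).1 := by
        simp only [cr]; ring
      rw [← this]; exact h
    by_cases h1 : (b i - b j).1 = 0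
    · apply hb i j hij
      rw [h1] at h'
      exact Prod.ext h1 (by simpa using h')
    · apply hs
      rw [Finset.mem_image]
      refine ⟨(i, j), Finset.mem_univ _, ?_⟩
      simp only
      rw [div_eq_iff h1]
      linarith
  have hex : ∀ τ ∈ tris b g, ∃ p : V × Bool, ∃ z, CntSpec b g (1, s) τ p z := by
    intro τ hτ
    obtain ⟨u, v, w, huv, hvw, huw, he, y, hT⟩ := mem_tris.1 hτ
    exact cnt_spec hG hκ huv hvw huw he hT
  have hne : Nonempty V := ⟨u₀⟩
  choose! f z hfz using hex
  have hinj : Set.InjOn f (tris b g : Set (Finset V)) := by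
    intro τ hτ τ' hτ' hff
    obtain ⟨m1, c1, k1⟩ := hfz τ hτ
    obtain ⟨m2, c2, k2⟩ := hfz τ' hτ'
    have hzz : z τ = z τ' := by
      by_contra hne
      have a1 := k1 (z τ') (Ne.symm hne) (by rw [hff]; exact c2)
      have a2 := k2 (z τ) hne (by rw [← hff]; exact c1)
      rw [← hff] at a2
      have a3 : dt (z τ - z τ') ((1 : ℝ), s) = - dt (z τ' - z τ) ((1 : ℝ), s) := by
        simp only [dt, Prod.fst_sub, Prod.snd_sub]; ring
      rw [a3] at a2
      nlinarith
    ext x
    rw [m1 x, m2 x, hzz, hff]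
  calc (tris b g).card = ((tris b g).image f).card := (Finset.card_image_of_injOn hinj).symm
    _ ≤ (Finset.univ : Finset (V × Bool)).card := Finset.card_le_card (Finset.subset_univ _)
    _ = 2 * Fintype.card V := by
      rw [Finset.card_univ, Fintype.card_prod, Fintype.card_bool, mul_comm]

end Pool.Agent.H63.SX
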