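import Pool.Agent.H63.SX.Rec

/-!
# SX-30: collinear `A`

Let `A a = p0 + s a • v`.

(1) `col_mono`: if `Uo A B h t π` and `s a < s a'` then `<v, B (π a)> < <v, B (π a')>`; and
`s a = s a'` implies `a = a'`.  Proof: let `a ≠ a'` and let `σ` be `π` with the values at `a` and
`a'` exchanged (`(Equiv.swap a a').toEmbedding.trans π`).  Then
`0 < val t σ - val t π = <A a - A a', B (π a) - B (π a')> ... `: only the summands `a`, `a'` change:
`- <A a - t, B (π a')> - <A a' - t, B (π a)> + <A a - t, B (π a)> + <A a' - t, B (π a')>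
= <A a - A a', B (π a) - B (π a')> = (s a - s a') <v, B (π a) - B (π a')>`.
(2) `col_solve`, induction on `k`.  If `card α ≤ 1`: the number of embeddings is at most
`max 1 (card β) ≤ n` (for `card α = 1` the map `π ↦ π a0` is injective), and `n * PP n ≥ 1`.
This covers `k = 0`.
Step: `2 ≤ m = card α ≤ 2^(k+1)`.  If `So A B h` is empty the claim is trivial.  Otherwise `s` is
injective by (1) and `m ≤ card β ≤ n`.  Let `I` be the set of the `m / 2` elements (integer part,
`≥ 1`) with the smallest values of `s`, i.e. `I.card = m / 2` and `s a < s a'` for `a ∈ I`,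
`a' ∉ I` (for example from a monotone enumeration of the image of `s`, or: by induction on `j ≤ m`
there is a set of `j` elements with this property, adding the minimum of the complement).  Let
`a0 ∈ I` have the maximal value of `s` on `I`, and `J b = {b' | <v, B b'> ≤ <v, B b>}`.  For
`π ∈ So A B h`: `a ∈ I ↔ s a ≤ s a0 ↔ π a ∈ J (π a0)` by (1).
Apply `rec_bound` with `F = {(I, J b) | b ∈ β}` (`F.card ≤ n`), `Z = So A B h` and
`X = (n * PP n)^k * n`: the subtypes have `m / 2 ≤ 2^k` and `m - m / 2 ≤ 2^k` elements, and the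
restricted `A` is again on the line.  So the bound is `n * (PP n * X) = (n * PP n)^(k+1) * n`.
-/

set_option autoImplicit false

namespace Pool.Agent.H63.SX

open Pool.Agent.ROT (cr dt rot)

theorem col_mono {α β : Type} [Fintype α] (A : α → ℝ × ℝ) (B : β → ℝ × ℝ) (h : β → ℝ)
    (p0 v : ℝ × ℝ) (s : α → ℝ) (hA : ∀ a, A a = p0 + s a • v) {t : ℝ × ℝ} {π : α ↪ β}
    (hU : Uo A B h t π) {a a' : α} (ha : a ≠ a') :
    s a ≠ s a' ∧ (s a < s a' → dt v (B (π a)) < dt v (B (π a'))) := by
  classical
  have hne : (Equiv.swap a a').toEmbedding.trans π ≠ π := by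
    intro h1
    have h2 := DFunLike.congr_fun h1 a
    have h3 : π (Equiv.swap a a' a) = π a := h2
    rw [Equiv.swap_apply_left] at h3
    exact ha (π.injective h3).symm
  have h1 := hU _ hne
  have h2 : val A B h t ((Equiv.swap a a').toEmbedding.trans π) - val A B h t π =
      (s a - s a') * (dt v (B (π a)) - dt v (B (π a'))) := by
    unfold val
    rw [← Finset.sum_sub_distrib, Fintype.sum_eq_add a a' ha]
    · have e1 : ((Equiv.swap a a').toEmbedding.trans π) a = π a' := by
        show π (Equiv.swap a a' a) = π a'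
        rw [Equiv.swap_apply_left]
      have e2 : ((Equiv.swap a a').toEmbedding.trans π) a' = π a := by
        show π (Equiv.swap a a' a') = π a
        rw [Equiv.swap_apply_right]
      rw [e1, e2, hA a, hA a']
      simp only [dt, Prod.fst_add, Prod.snd_add, Prod.smul_fst, Prod.smul_snd, smul_eq_mul,
        Prod.fst_sub, Prod.snd_sub]
      ring
    · rintro x ⟨hx1, hx2⟩
      have e1 : ((Equiv.swap a a').toEmbedding.trans π) x = π x := by
        show π (Equiv.swap a a' x) = π x
        rw [Equiv.swap_apply_of_ne_of_ne hx1 hx2]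
      rw [e1, sub_self]
  have h3 : 0 < (s a - s a') * (dt v (B (π a)) - dt v (B (π a'))) := by
    rw [← h2]
    linarith
  refine ⟨fun h4 => ?_, fun h4 => ?_⟩
  · rw [h4, sub_self, zero_mul] at h3
    exact lt_irrefl _ h3
  · by_contra h5
    push Not at h5
    have h6 : (s a - s a') * (dt v (B (π a)) - dt v (B (π a'))) ≤ 0 :=
      mul_nonpos_of_nonpos_of_nonneg (by linarith) (by linarith)
    linarith

private lemma Col_low {α : Type} [Fintype α] [DecidableEq α] (s : α → ℝ)
    (hs : Function.Injective s) (j : ℕ) (hj : j ≤ Fintype.card α) :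
    ∃ I : Finset α, I.card = j ∧ ∀ a ∈ I, ∀ a' ∉ I, s a < s a' := by
  induction j with
  | zero => exact ⟨∅, rfl, by simp⟩
  | succ j ih =>
    obtain ⟨I, hI, hI2⟩ := ih (by omega)
    have hne : (Finset.univ \ I).Nonempty := by
      rw [← Finset.card_pos, Finset.card_sdiff_of_subset (Finset.subset_univ _), Finset.card_univ,
        hI]
      omega
    obtain ⟨a0, ha0, ha0m⟩ := Finset.exists_min_image _ s hne
    have ha0I : a0 ∉ I := (Finset.mem_sdiff.1 ha0).2
    refine ⟨insert a0 I, ?_, ?_⟩
    · rw [Finset.card_insert_of_notMem ha0I, hI]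
    · intro a ha a' ha'
      rw [Finset.mem_insert, not_or] at ha'
      rcases Finset.mem_insert.1 ha with rfl | ha
      · refine lt_of_le_of_ne (ha0m a' ?_) fun h1 => ha'.1 (hs h1).symm
        exact Finset.mem_sdiff.2 ⟨Finset.mem_univ _, ha'.2⟩
      · exact hI2 a ha a' ha'.2

theorem col_solve (n : ℕ) (hn : 1 ≤ n) (k : ℕ) :
    ∀ (α β : Type) [Fintype α] [Fintype β] (A : α → ℝ × ℝ) (B : β → ℝ × ℝ) (h : β → ℝ)
      (p0 v : ℝ × ℝ) (s : α → ℝ), (∀ a, A a = p0 + s a • v) → Fintype.card α ≤ 2 ^ k →
      Fintype.card β ≤ n → (So A B h).card ≤ (n * PP n) ^ k * n := by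
  have hPP : 1 ≤ n * PP n := by
    refine Nat.one_le_iff_ne_zero.2 (mul_ne_zero (by omega) ?_)
    unfold PP
    omega
  have small : ∀ (k : ℕ) (α β : Type) [Fintype α] [Fintype β] (A : α → ℝ × ℝ) (B : β → ℝ × ℝ)
      (h : β → ℝ), Fintype.card α ≤ 1 → Fintype.card β ≤ n →
      (So A B h).card ≤ (n * PP n) ^ k * n := by
    intro k α β _ _ A B h hα hβ
    classical
    have h1 : (So A B h).card ≤ Fintype.card (α ↪ β) := Finset.card_le_univ _
    rw [Fintype.card_embedding_eq] at h1
    have h2 : (Fintype.card β).descFactorial (Fintype.card α) ≤ n := by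
      have h3 : Fintype.card α = 0 ∨ Fintype.card α = 1 := by omega
      rcases h3 with h3 | h3
      · rw [h3, Nat.descFactorial_zero]
        exact hn
      · rw [h3, Nat.descFactorial_one]
        exact hβ
    have h4 : 1 ≤ (n * PP n) ^ k := Nat.one_le_pow _ _ hPP
    calc (So A B h).card ≤ n := le_trans h1 h2
      _ = 1 * n := (one_mul n).symm
      _ ≤ (n * PP n) ^ k * n := Nat.mul_le_mul_right _ h4
  induction k with
  | zero =>
    intro α β _ _ A B h p0 v s hA hα hβ
    exact small 0 α β A B h (by simpa using hα) hβ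
  | succ k ih =>
    intro α β _ _ A B h p0 v s hA hα hβ
    classical
    by_cases hm : Fintype.card α ≤ 1
    · exact small (k + 1) α β A B h hm hβ
    rcases Finset.eq_empty_or_nonempty (So A B h) with hemp | ⟨π0, hπ0⟩
    · rw [hemp]
      simp
    obtain ⟨t0, ht0⟩ := mem_So.1 hπ0
    have hs : Function.Injective s := by
      intro a a' haa
      by_contra hne
      exact (col_mono A B h p0 v s hA ht0 hne).1 haa
    have hmn : Fintype.card α ≤ n :=
      le_trans (Fintype.card_le_of_injective π0 π0.injective) hβ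
    obtain ⟨I, hI, hI2⟩ := Col_low s hs (Fintype.card α / 2) (Nat.div_le_self _ _)
    have hIne : I.Nonempty := by
      rw [← Finset.card_pos, hI]
      omega
    obtain ⟨a0, ha0, ha0m⟩ := Finset.exists_max_image I s hIne
    let J : β → Finset β := fun b => Finset.univ.filter fun b' => dt v (B b') ≤ dt v (B b)
    have key := rec_bound A B h n hmn hβ (So A B h) (Finset.Subset.refl _)
      (Finset.univ.image fun b : β => (I, J b)) (((n * PP n) ^ k * n : ℕ) : ℝ) ?_ ?_
    · have hF : (Finset.univ.image fun b : β => (I, J b)).card ≤ n :=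
        le_trans Finset.card_image_le (by rw [Finset.card_univ]; exact hβ)
      have h5 : ((So A B h).card : ℝ) ≤ (n : ℝ) * (PP n * (((n * PP n) ^ k * n : ℕ) : ℝ)) := by
        refine le_trans key (mul_le_mul_of_nonneg_right (by exact_mod_cast hF) ?_)
        positivity
      have h6 : ((So A B h).card : ℝ) ≤ (((n * PP n) ^ (k + 1) * n : ℕ) : ℝ) := by
        refine le_trans h5 (le_of_eq ?_)
        push_cast
        ring
      exact_mod_cast h6
    · intro p hp
      obtain ⟨b, -, rfl⟩ := Finset.mem_image.1 hp
      have c1 : Fintype.card {a // a ∈ I} = Fintype.card α / 2 := by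
        rw [Fintype.card_coe, hI]
      have c2 : Fintype.card {a // a ∉ I} = Fintype.card α - Fintype.card α / 2 := by
        rw [Fintype.card_subtype_compl, c1]
      have c3 : Fintype.card {c // c ∈ J b} ≤ n := le_trans (Fintype.card_subtype_le _) hβ
      have c4 : Fintype.card {c // c ∉ J b} ≤ n := le_trans (Fintype.card_subtype_le _) hβ
      rw [pow_succ] at hα
      constructor
      · exact_mod_cast ih {a // a ∈ I} {c // c ∈ J b} (fun a => A a) (fun c => B c)
          (fun c => h c) p0 v (fun a => s a) (fun a => hA a) (by omega) c3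
      · exact_mod_cast ih {a // a ∉ I} {c // c ∉ J b} (fun a => A a) (fun c => B c)
          (fun c => h c) p0 v (fun a => s a) (fun a => hA a) (by omega) c4
    · intro π hπ
      obtain ⟨t, ht⟩ := mem_So.1 hπ
      refine ⟨(I, J (π a0)), Finset.mem_image.2 ⟨π a0, Finset.mem_univ _, rfl⟩, fun a => ?_⟩
      show a ∈ I ↔ π a ∈ J (π a0)
      simp only [J, Finset.mem_filter, Finset.mem_univ, true_and]
      constructor
      · intro ha
        rcases eq_or_ne a a0 with rfl | hne
        · exact le_rfl
        · have h7 := col_mono A B h p0 v s hA ht hne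
          exact (h7.2 (lt_of_le_of_ne (ha0m a ha) h7.1)).le
      · intro h8
        by_contra ha
        have h9 := hI2 a0 ha0 a ha
        have hne : a0 ≠ a := by
          rintro rfl
          exact lt_irrefl _ h9
        have h10 := (col_mono A B h p0 v s hA ht hne).2 h9
        linarith

end Pool.Agent.H63.SX
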