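import Pool.Agent.H63.SX.Defs

/-!
# SX-13: edges and triangles of a generic power diagram

* `isT_adj`.  Let `y` be the common point of the cells of `u, v, w`.  Let `d = b v - b u`,
  `s = cr d (b w - b u) ≠ 0` (`Ge.ncol`).  Move to `y' = y - ε s • rot d`:
  `ell x y' - ell u y' = ell x y - ell u y - ε s * <rot d, b x - b u>` and
  `<rot d, z> = cr d z` (`dt_rot`): for `x = v` this is `0`, for `x = w` it is `-ε s² < 0`, and
  for the (finitely many) other `x` it is negative for small `ε > 0`.
* `side`.  Let `e` be a point with `IsE b g u v e`, `d = b v - b u ≠ 0` (`Ge.ncol` with `x` as the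
  third element; `x ≠ u`, `x ≠ v` because `cr d (b x - b u) ≠ 0`), `δ = s • rot d`, and for `λ ≥ 0`
  `f z λ = ell z (e + λ δ) - ell u (e + λ δ) = f z 0 + λ * s * cr d (b z - b u)`; `f v λ = 0`,
  `f z 0 < 0` for `z ≠ u, v`.  Let `Z` be the finite set of the `z` with
  `0 < s * cr d (b z - b u)`, nonempty by `hx`.  Let `w ∈ Z` minimise
  `λ z = - f z 0 / (s * cr d (b z - b u)) > 0` and `y = e + λ w • δ`.  For every `z ≠ u, v`:
  `f z (λ w) ≤ 0` (for `z ∈ Z` by minimality, otherwise since the slope is `≤ 0` and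
  `f z 0 < 0`), and `f z (λ w) = 0` for some `z ≠ u, v, w` would contradict `Ge.quad`.  So
  `IsT b g u v w y`.
  Uniqueness: let `w, w' ∈ Z` with points `y, y'`, `w ≠ w'`.  `<y - e, d> = 0 = <y' - e, d>`
  (since `ell u = ell v` at `e`, `y`, `y'`), so `y = e + λ δ`, `y' = e + λ' δ` for some real
  `λ, λ'` (in the plane a vector orthogonal to `d ≠ 0` is a multiple of `rot d`:
  `λ = s * <y - e, rot d> / <d,d>`).  `f w λ = 0 > f w λ'` gives `λ' < λ` (positive slope), and
  `f w' λ' = 0 > f w' λ` gives `λ < λ'`, a contradiction.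
-/

set_option autoImplicit false

namespace Pool.Agent.H63.SX

open Pool.Agent.ROT (cr dt rot)

variable {V : Type} [Fintype V] {b : V → ℝ × ℝ} {g : V → ℝ}

omit [Fintype V] in
theorem edgeX_shift (u x : V) (y d : ℝ × ℝ) (t : ℝ) :
    ell b g x (y + t • rot d) - ell b g u (y + t • rot d)
      = (ell b g x y - ell b g u y) + t * cr d (b x - b u) := by
  simp only [ell, Pool.Agent.ROT.dt_add_left, Pool.Agent.ROT.dt_smul_left,
    Pool.Agent.ROT.dt_rot, Pool.Agent.ROT.cr_sub_right]
  ring

theorem edgeX_eps (f c : V → ℝ) : ∃ ε : ℝ, 0 < ε ∧ ∀ x, 0 < c x → ε * f x < c x := by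
  have h1 : ∀ᶠ ε : ℝ in nhdsWithin 0 (Set.Ioi 0), ∀ x, 0 < c x → ε * f x < c x := by
    rw [Filter.eventually_all]
    intro x
    by_cases hc : 0 < c x
    · have ht : Filter.Tendsto (fun ε : ℝ => ε * f x) (nhdsWithin 0 (Set.Ioi 0)) (nhds 0) := by
        have h2 : Continuous fun ε : ℝ => ε * f x := by fun_prop
        have h3 := h2.tendsto 0
        rw [zero_mul] at h3
        exact h3.mono_left nhdsWithin_le_nhds
      filter_upwards [ht.eventually_lt_const hc] with ε hε _
      exact hε
    · exact Filter.Eventually.of_forall fun ε h => absurd h hc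
  obtain ⟨ε, h2, h3⟩ := (h1.and self_mem_nhdsWithin).exists
  exact ⟨ε, h3, h2⟩

theorem isT_adj (hG : Ge b g) {u v w : V} {y : ℝ × ℝ} (huv : u ≠ v) (hvw : v ≠ w) (huw : u ≠ w)
    (hT : IsT b g u v w y) : (Gr b g).Adj u v := by
  obtain ⟨h1, h2, h3⟩ := hT
  set d := b v - b u with hd
  have hs : cr d (b w - b u) ≠ 0 := hG.ncol u v w huv hvw huw
  obtain ⟨ε, hε, hx⟩ := edgeX_eps (V := V)
    (fun x => -(cr d (b w - b u) * cr d (b x - b u))) (fun x => ell b g u y - ell b g x y)
  refine ⟨huv, y + (-(ε * cr d (b w - b u))) • rot d, ?_, ?_⟩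
  · have e1 := edgeX_shift (b := b) (g := g) u v y d (-(ε * cr d (b w - b u)))
    rw [← hd, Pool.Agent.ROT.cr_self, mul_zero, h1, sub_self, add_zero] at e1
    linarith
  · intro x hxu hxv
    have e1 := edgeX_shift (b := b) (g := g) u x y d (-(ε * cr d (b w - b u)))
    by_cases hxw : x = w
    · subst hxw
      rw [h2, sub_self, zero_add] at e1
      have h4 : 0 < ε * (cr d (b x - b u) * cr d (b x - b u)) :=
        mul_pos hε (mul_self_pos.2 hs)
      nlinarith [e1, h4]
    · have h4 := h3 x hxu hxv hxw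
      have h5 := hx x (by linarith)
      have h6 : ε * -(cr d (b w - b u) * cr d (b x - b u))
          = -(ε * cr d (b w - b u)) * cr d (b x - b u) := by ring
      rw [h6] at h5
      linarith

theorem side (hG : Ge b g) {u v : V} (h : (Gr b g).Adj u v) {s : ℝ} (hs : s = 1 ∨ s = -1) {x : V}
    (hx : 0 < s * cr (b v - b u) (b x - b u)) :
    ∃! w, 0 < s * cr (b v - b u) (b w - b u) ∧ ∃ y, IsT b g u v w y := by
  classical
  obtain ⟨huv, e, he1, he2⟩ := h
  have hss : s * s = 1 := by
    rcases hs with rfl | rfl <;> norm_num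
  set d := b v - b u with hd
  -- the slope and the value at e
  set σ : V → ℝ := fun z => s * cr d (b z - b u) with hσ
  set A : V → ℝ := fun z => ell b g z e - ell b g u e with hA
  have F : ∀ z : V, ∀ l : ℝ, ell b g z (e + (l * s) • rot d) - ell b g u (e + (l * s) • rot d)
      = A z + l * σ z := by
    intro z l
    rw [edgeX_shift]
    simp only [hA, hσ]
    ring
  have σu : σ u = 0 := by simp [hσ, cr]
  have σv : σ v = 0 := by
    simp only [hσ]
    rw [← hd, Pool.Agent.ROT.cr_self, mul_zero]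
  have Av : A v = 0 := by simp only [hA]; linarith
  have Aneg : ∀ z, z ≠ u → z ≠ v → A z < 0 := by
    intro z hz1 hz2
    simp only [hA]
    linarith [he2 z hz1 hz2]
  have ne_u : ∀ z, 0 < σ z → z ≠ u := by
    rintro z hz rfl
    rw [σu] at hz
    exact lt_irrefl _ hz
  have ne_v : ∀ z, 0 < σ z → z ≠ v := by
    rintro z hz rfl
    rw [σv] at hz
    exact lt_irrefl _ hz
  obtain ⟨w, hwZ, hmin⟩ := Finset.exists_min_image
    (Finset.univ.filter fun z => 0 < σ z) (fun z => -A z / σ z) ⟨x, by
      rw [Finset.mem_filter]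
      exact ⟨Finset.mem_univ _, hx⟩⟩
  rw [Finset.mem_filter] at hwZ
  have hw := hwZ.2
  have hwu := ne_u w hw
  have hwv := ne_v w hw
  set l := -A w / σ w with hl
  have hlpos : 0 < l := div_pos (by linarith [Aneg w hwu hwv]) hw
  have Fw : A w + l * σ w = 0 := by
    rw [hl, div_mul_cancel₀ _ (ne_of_gt hw)]
    ring
  have hT : IsT b g u v w (e + (l * s) • rot d) := by
    have e1 : ell b g u (e + (l * s) • rot d) = ell b g v (e + (l * s) • rot d) := by
      have := F v l
      rw [Av, σv] at this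
      linarith
    have e2 : ell b g u (e + (l * s) • rot d) = ell b g w (e + (l * s) • rot d) := by
      have := F w l
      linarith
    refine ⟨e1, e2, ?_⟩
    intro z hz1 hz2 hz3
    have e3 := F z l
    have e4 : A z + l * σ z ≤ 0 := by
      by_cases hz : 0 < σ z
      · have h1 := hmin z (by rw [Finset.mem_filter]; exact ⟨Finset.mem_univ _, hz⟩)
        have h2 : l * σ z ≤ -A z := by
          rw [← div_mul_cancel₀ (-A z) (ne_of_gt hz)]
          exact mul_le_mul_of_nonneg_right h1 hz.le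
        linarith
      · have h1 := Aneg z hz1 hz2
        have h2 : l * σ z ≤ 0 := mul_nonpos_of_nonneg_of_nonpos hlpos.le (not_lt.1 hz)
        linarith
    have e5 := hG.quad u v w z _ huv hwu.symm hz1.symm hwv.symm hz2.symm hz3.symm e1 e2
    rcases lt_or_eq_of_le (show ell b g z (e + (l * s) • rot d) ≤
      ell b g u (e + (l * s) • rot d) by linarith) with h1 | h1
    · exact h1
    · exact absurd h1.symm e5
  refine ⟨w, ⟨hw, _, hT⟩, ?_⟩
  rintro w' ⟨hw', y', hT'⟩
  by_contra hne
  have hw'u := ne_u w' hw'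
  have hw'v := ne_v w' hw'
  -- the point y' is on the line
  have hd0 : dt d d ≠ 0 := by
    intro h0
    have h1 : d.1 * d.1 + d.2 * d.2 = 0 := h0
    have h2 : d.1 = 0 := by nlinarith [mul_self_nonneg d.1, mul_self_nonneg d.2]
    have h3 : d.2 = 0 := by nlinarith [mul_self_nonneg d.1, mul_self_nonneg d.2]
    have h4 : σ w' = 0 := by
      simp only [hσ, cr, h2, h3]
      ring
    have h5 : 0 < σ w' := hw'
    rw [h4] at h5
    exact lt_irrefl _ h5
  have horth : (y'.1 - e.1) * d.1 + (y'.2 - e.2) * d.2 = 0 := by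
    have h1 := hT'.1
    have h2 := he1
    simp only [ell, dt] at h1 h2
    rw [hd]
    simp only [Prod.fst_sub, Prod.snd_sub]
    linarith
  obtain ⟨t', ht'⟩ : ∃ t' : ℝ, y' = e + t' • rot d := by
    obtain ⟨D, hD⟩ : ∃ D, D = dt d d := ⟨_, rfl⟩
    rw [← hD] at hd0
    have hD2 : D = d.1 * d.1 + d.2 * d.2 := hD
    refine ⟨(-(y'.1 - e.1) * d.2 + (y'.2 - e.2) * d.1) / D, ?_⟩
    ext
    · simp only [Prod.fst_add, Prod.smul_fst, rot, smul_eq_mul]
      field_simp
      rw [hD2]
      linear_combination d.1 * horth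
    · simp only [Prod.snd_add, Prod.smul_snd, rot, smul_eq_mul]
      field_simp
      rw [hD2]
      linear_combination d.2 * horth
  have ht2 : y' = e + ((t' * s) * s) • rot d := by
    rw [mul_assoc, hss, mul_one]
    exact ht'
  have f1 := F w (t' * s)
  have f2 := F w' (t' * s)
  rw [← ht2] at f1 f2
  have g1 := hT'.2.2 w hwu hwv (Ne.symm hne)
  have g2 := hT'.2.1
  have g3 := hT.2.2 w' hw'u hw'v hne
  have f3 := F w' l
  have hσw' : 0 < σ w' := hw'
  have k1 : (t' * s) * σ w < l * σ w := by linarith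
  have k2 : l * σ w' < (t' * s) * σ w' := by linarith
  have k3 := lt_of_mul_lt_mul_right k1 hw.le
  have k4 := lt_of_mul_lt_mul_right k2 hσw'.le
  exact lt_asymm k3 k4

end Pool.Agent.H63.SX
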