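import Pool.Agent.H63.SX.Defs

/-!
# SX-01: the crossing parity `eps`

* `eps_half`.  Let `<p,w> > 0` and `<q,w> > 0`.  Then `eps p q = 0` if `p`, `q` are on the same side
  (`0 < p.2 ↔ 0 < q.2`), and otherwise `eps p q = 1` iff `0 < w.1`.  Proof for
  `0 < p.2`, `q.2 ≤ 0`: `p.2 * <q,w> + (-q.2) * <p,w> = w.1 * cr q p` (expand), and the left side is
  `> 0` (first summand `> 0`, second `≥ 0`); so `0 < cr q p ↔ 0 < w.1`.  The other case is the
  mirror image (`eps_comm`).
* `eps_tri`: by `eps_half` each of the three values is `0` or the same constant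
  `c = if 0 < w.1 then 1 else 0` times (side p + side q), so the sum is `2 c (...) = 0`;
  just split into the 8 cases of the signs (`decide` at the end or `ZMod` identities
  `1 + 1 = 0`: `by decide`).
* `eps_outer`: `p`, `q`, `r` with `cr p q, cr q r, cr r p > 0`.  The identity
  `cr q r • p + cr r p • q + cr p q • r = 0` gives
  `cr q r * p.2 + cr r p * q.2 + cr p q * r.2 = 0`, so not all of `p.2, q.2, r.2` are positive and
  if all are `≤ 0` then all are `0`, which gives `cr p q = 0`, a contradiction.  So exactly one or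
  exactly two of the three are positive; in each of the 6 cases exactly two of the three
  pairs are on different sides, and by the signs of the cross products (`cr_neg_comm`) exactly one
  of these two pairs has `eps = 1`: e.g. only `0 < p.2`: `eps q r = 0`, `eps p q`: needs
  `0 < cr q p`, false, so `0`; `eps p r`: `0 < cr r p` true, so `1`.
* `wind_tri`: add `eps_tri` for `(p, e, r)` with `w = r` (`0 < <r,r>` because `r ≠ 0`, since
  `0 < <p,r>`), for `(e, q, s)` with `w = s`, and for `(r, s, e)` with `w = e`; use `eps_comm`,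
  `x + x = 0` in `ZMod 2` (`CharTwo.add_self_eq_zero`).
-/

set_option autoImplicit false

namespace Pool.Agent.H63.SX

open Pool.Agent.ROT (cr dt rot)

theorem eps_comm (p q : ℝ × ℝ) : eps p q = eps q p := by
  unfold eps
  exact if_congr or_comm rfl rfl

theorem Eps_pos_iff {x y : ℝ} (h : 0 < x * y) : 0 < y ↔ 0 < x := by
  rcases pos_and_pos_or_neg_and_neg_of_mul_pos h with ⟨h1, h2⟩ | ⟨h1, h2⟩
  · exact ⟨fun _ => h1, fun _ => h2⟩
  · exact ⟨fun h3 => absurd h3 (not_lt.2 h2.le), fun h3 => absurd h3 (not_lt.2 h1.le)⟩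

open Classical in
theorem eps_half {p q w : ℝ × ℝ} (hp : 0 < dt p w) (hq : 0 < dt q w) :
    eps p q = (if 0 < w.1 then (1 : ZMod 2) else 0) *
      ((if 0 < p.2 then (1 : ZMod 2) else 0) + (if 0 < q.2 then (1 : ZMod 2) else 0)) := by
  have h2 : (1 : ZMod 2) + 1 = 0 := rfl
  by_cases h3 : 0 < p.2
  · by_cases h4 : 0 < q.2
    · rw [eps, if_neg, if_pos h3, if_pos h4, h2, mul_zero]
      rintro (⟨_, h5, _⟩ | ⟨_, h5, _⟩)
      · exact h5 h4
      · exact h5 h3
    · have h5 : 0 < w.1 * cr q p := by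
        have e1 : w.1 * cr q p = p.2 * dt q w + (-q.2) * dt p w := by
          unfold cr dt
          ring
        rw [e1]
        have e2 : 0 < p.2 * dt q w := mul_pos h3 hq
        have e3 : 0 ≤ (-q.2) * dt p w := mul_nonneg (neg_nonneg.2 (not_lt.1 h4)) hp.le
        linarith
      have h6 := Eps_pos_iff h5
      have h7 : eps p q = if 0 < w.1 then (1 : ZMod 2) else 0 := by
        unfold eps
        by_cases h8 : 0 < w.1
        · rw [if_pos (Or.inl ⟨h3, h4, h6.2 h8⟩), if_pos h8]
        · rw [if_neg, if_neg h8]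
          rintro (⟨_, _, h9⟩ | ⟨h9, _, _⟩)
          · exact h8 (h6.1 h9)
          · exact h4 h9
      rw [h7, if_pos h3, if_neg h4, add_zero, mul_one]
  · by_cases h4 : 0 < q.2
    · have h5 : 0 < w.1 * cr p q := by
        have e1 : w.1 * cr p q = q.2 * dt p w + (-p.2) * dt q w := by
          unfold cr dt
          ring
        rw [e1]
        have e2 : 0 < q.2 * dt p w := mul_pos h4 hp
        have e3 : 0 ≤ (-p.2) * dt q w := mul_nonneg (neg_nonneg.2 (not_lt.1 h3)) hq.le
        linarith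
      have h6 := Eps_pos_iff h5
      have h7 : eps p q = if 0 < w.1 then (1 : ZMod 2) else 0 := by
        unfold eps
        by_cases h8 : 0 < w.1
        · rw [if_pos (Or.inr ⟨h4, h3, h6.2 h8⟩), if_pos h8]
        · rw [if_neg, if_neg h8]
          rintro (⟨h9, _, _⟩ | ⟨_, _, h9⟩)
          · exact h3 h9
          · exact h8 (h6.1 h9)
      rw [h7, if_neg h3, if_pos h4, zero_add, mul_one]
    · rw [eps, if_neg, if_neg h3, if_neg h4, add_zero, mul_zero]
      rintro (⟨h5, _, _⟩ | ⟨h5, _, _⟩)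
      · exact h3 h5
      · exact h4 h5

theorem eps_tri {p q r w : ℝ × ℝ} (hp : 0 < dt p w) (hq : 0 < dt q w) (hr : 0 < dt r w) :
    eps p q + eps q r + eps p r = 0 := by
  classical
  have h2 : (2 : ZMod 2) = 0 := rfl
  rw [eps_half hp hq, eps_half hq hr, eps_half hp hr]
  linear_combination ((if 0 < w.1 then (1 : ZMod 2) else 0) *
    ((if 0 < p.2 then (1 : ZMod 2) else 0) + (if 0 < q.2 then (1 : ZMod 2) else 0) +
      (if 0 < r.2 then (1 : ZMod 2) else 0))) * h2

theorem Eps_one {p q : ℝ × ℝ} (hp : 0 < p.2) (hq : ¬ 0 < q.2) (h : 0 < cr q p) :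
    eps p q = 1 ∧ eps q p = 1 := by
  have h1 : eps p q = 1 := by
    unfold eps
    rw [if_pos (Or.inl ⟨hp, hq, h⟩)]
  exact ⟨h1, (eps_comm q p).trans h1⟩

theorem Eps_zero {p q : ℝ × ℝ} (hp : 0 < p.2) (hq : ¬ 0 < q.2) (h : 0 < cr p q) :
    eps p q = 0 ∧ eps q p = 0 := by
  have h1 : eps p q = 0 := by
    unfold eps
    rw [if_neg]
    rintro (⟨_, _, h3⟩ | ⟨h3, _, _⟩)
    · have h4 : cr q p = -cr p q := by
        unfold cr
        ring
      rw [h4] at h3
      linarith
    · exact hq h3
  exact ⟨h1, (eps_comm q p).trans h1⟩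

theorem Eps_same {p q : ℝ × ℝ} (h : 0 < p.2 ↔ 0 < q.2) : eps p q = 0 := by
  unfold eps
  rw [if_neg]
  rintro (⟨h1, h2, _⟩ | ⟨h1, h2, _⟩)
  · exact h2 (h.1 h1)
  · exact h2 (h.2 h1)

theorem eps_outer {p q r : ℝ × ℝ} (h1 : 0 < cr p q) (h2 : 0 < cr q r) (h3 : 0 < cr r p) :
    eps p q + eps q r + eps p r = 1 := by
  have key : cr q r * p.2 + cr r p * q.2 + cr p q * r.2 = 0 := by
    unfold cr
    ring
  by_cases hp : 0 < p.2
  · by_cases hq : 0 < q.2
    · by_cases hr : 0 < r.2
      · exfalso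
        have e1 := mul_pos h2 hp
        have e2 := mul_pos h3 hq
        have e3 := mul_pos h1 hr
        linarith
      · rw [Eps_same (p := p) (q := q) ⟨fun _ => hq, fun _ => hp⟩, (Eps_zero hq hr h2).1,
          (Eps_one hp hr h3).1]
        rfl
    · by_cases hr : 0 < r.2
      · rw [(Eps_zero hp hq h1).1, (Eps_one hr hq h2).2,
          Eps_same (p := p) (q := r) ⟨fun _ => hr, fun _ => hp⟩]
        rfl
      · rw [(Eps_zero hp hq h1).1, Eps_same (p := q) (q := r)
          ⟨fun h => absurd h hq, fun h => absurd h hr⟩, (Eps_one hp hr h3).1]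
        rfl
  · by_cases hq : 0 < q.2
    · by_cases hr : 0 < r.2
      · rw [(Eps_one hq hp h1).2, Eps_same (p := q) (q := r) ⟨fun _ => hr, fun _ => hq⟩,
          (Eps_zero hr hp h3).2]
        rfl
      · rw [(Eps_one hq hp h1).2, (Eps_zero hq hr h2).1, Eps_same (p := p) (q := r)
          ⟨fun h => absurd h hp, fun h => absurd h hr⟩]
        rfl
    · by_cases hr : 0 < r.2
      · rw [Eps_same (p := p) (q := q) ⟨fun h => absurd h hp, fun h => absurd h hq⟩,
          (Eps_one hr hq h2).2, (Eps_zero hr hp h3).2]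
        rfl
      · exfalso
        have e1 : cr q r * p.2 ≤ 0 := mul_nonpos_of_nonneg_of_nonpos h2.le (not_lt.1 hp)
        have e2 : cr r p * q.2 ≤ 0 := mul_nonpos_of_nonneg_of_nonpos h3.le (not_lt.1 hq)
        have e3 : cr p q * r.2 ≤ 0 := mul_nonpos_of_nonneg_of_nonpos h1.le (not_lt.1 hr)
        have e4 : cr q r * p.2 = 0 := by linarith
        have e5 : cr r p * q.2 = 0 := by linarith
        have e6 : p.2 = 0 := (mul_eq_zero.1 e4).resolve_left h2.ne'
        have e7 : q.2 = 0 := (mul_eq_zero.1 e5).resolve_left h3.ne'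
        have e8 : cr p q = 0 := by
          unfold cr
          rw [e6, e7]
          ring
        linarith

theorem Eps_dt_self {p r : ℝ × ℝ} (h : 0 < dt p r) : 0 < dt r r := by
  by_contra hcon
  have h1 : r.1 * r.1 + r.2 * r.2 ≤ 0 := not_lt.1 hcon
  have h2 : r.1 = 0 := by
    have : r.1 * r.1 = 0 := le_antisymm (by nlinarith [mul_self_nonneg r.2]) (mul_self_nonneg _)
    exact mul_self_eq_zero.1 this
  have h3 : r.2 = 0 := by
    have : r.2 * r.2 = 0 := le_antisymm (by nlinarith [mul_self_nonneg r.1]) (mul_self_nonneg _)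
    exact mul_self_eq_zero.1 this
  have h4 : dt p r = 0 := by
    unfold dt
    rw [h2, h3]
    ring
  linarith

theorem Eps_dt_comm (p q : ℝ × ℝ) : dt p q = dt q p := by
  unfold dt
  ring

theorem wind_tri {p q e r s : ℝ × ℝ} (hp : 0 < dt p r) (he : 0 < dt e r) (he' : 0 < dt e s)
    (hq : 0 < dt q s) : eps p e + eps e q + eps r s = eps p r + eps q s := by
  have h2 : (2 : ZMod 2) = 0 := rfl
  have t1 := eps_tri hp he (Eps_dt_self hp)
  have t2 := eps_tri he' hq (Eps_dt_self hq)
  have t3 := eps_tri (p := r) (q := s) (r := e) (w := e) (by rw [Eps_dt_comm]; exact he)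
    (by rw [Eps_dt_comm]; exact he') (Eps_dt_self (p := r) (by rw [Eps_dt_comm]; exact he))
  rw [eps_comm e r] at t1
  rw [eps_comm e s] at t2
  linear_combination t1 + t2 + t3 - (eps p r + eps q s + eps r e + eps s e) * h2

end Pool.Agent.H63.SX
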