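import Pool.Agent.H63.SX.Defs

/-!
# SX-29: general position of `B` and of the outer triangle

(1) There is a triangle `D0` with `0 < cr (D0 1 - D0 0) (D0 2 - D0 0)` and `InTri D0 (B b)` for all
`b`: for instance `D0 = ((-3 r, -3 r), (3 r, -3 r)..)`: take `D0 0 = (-4 r, -2 r)`,
`D0 1 = (4 r, -2 r)`, `D0 2 = (0, 4 r)` with `r > 0` such that `|(B b).1|, |(B b).2| < r` for all `b`
(check the three cross products with `nlinarith`; any other big triangle is fine).
(2) For every `π ∈ So A B h` choose a point `t π` with `Uo A B h (t π) π`.  The finitely many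
inequalities `val A B h (t π) π < val A B h (t π) σ` (`σ ≠ π`) and those for `D0` in (1) are strict
and both sides are continuous in `(B, D)`; so they hold for all `(B', D')` in a neighbourhood of
`(B, D0)`, where `h` is kept fixed.  In particular `So A B h ⊆ So A B' h`.
(3) The set of `x : β ⊕ Fin 3 → ℝ × ℝ` with no three collinear points is dense: write
`x' = x + ε z`, where `z v = (s_v, s_v²)` with `s_v = ` the (real) number of `v` in an enumeration:
`cr (z j - z i) (z k - z i) = (s_j - s_i) (s_k - s_i) (s_k - s_j) ≠ 0` for distinct `i j k`.  For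
fixed distinct `i, j, k` the number `cr (x' j - x' i) (x' k - x' i)` is a polynomial in `ε` of
degree `2` with leading coefficient `≠ 0`, so it vanishes for at most two values of `ε`; so for
arbitrarily small `ε > 0` all of them are nonzero.
-/

set_option autoImplicit false

namespace Pool.Agent.H63.SX

open Pool.Agent.ROT (cr dt rot)

/-- The big triangle. -/
def bigT (r : ℝ) : Fin 3 → ℝ × ℝ := ![(-4 * r, -2 * r), (4 * r, -2 * r), (0, 4 * r)]

lemma bigT_ori {r : ℝ} (hr : 0 < r) : 0 < cr (bigT r 1 - bigT r 0) (bigT r 2 - bigT r 0) := by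
  have e : cr (bigT r 1 - bigT r 0) (bigT r 2 - bigT r 0) = 48 * (r * r) := by
    simp [bigT, cr]; ring
  rw [e]
  positivity

lemma bigT_in {r : ℝ} (hr : 0 < r) (p : ℝ × ℝ) (h1 : |p.1| < r) (h2 : |p.2| < r) :
    InTri (bigT r) p := by
  obtain ⟨a1, a2⟩ := abs_lt.1 h1
  obtain ⟨b1, b2⟩ := abs_lt.1 h2
  have e1 : cr (bigT r 0 - p) (bigT r 1 - p) = 8 * (r * (2 * r + p.2)) := by
    simp [bigT, cr]; ring
  have e2 : cr (bigT r 1 - p) (bigT r 2 - p) = r * (16 * r - 4 * p.2 - 6 * p.1) := by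
    simp [bigT, cr]; ring
  have e3 : cr (bigT r 2 - p) (bigT r 0 - p) = r * (16 * r + 6 * p.1 - 4 * p.2) := by
    simp [bigT, cr]; ring
  refine ⟨?_, ?_, ?_⟩
  · rw [e1]
    have := mul_pos hr (by linarith : 0 < 2 * r + p.2)
    linarith
  · rw [e2]
    exact mul_pos hr (by linarith)
  · rw [e3]
    exact mul_pos hr (by linarith)

lemma quad_finite (a b c : ℝ) (hc : c ≠ 0) : {ε : ℝ | a + b * ε + c * ε ^ 2 = 0}.Finite := by
  have hp : (Polynomial.C a + Polynomial.C b * Polynomial.X +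
      Polynomial.C c * Polynomial.X ^ 2 : Polynomial ℝ) ≠ 0 := by
    intro h0
    have := congrArg (fun p => Polynomial.coeff p 2) h0
    simp at this
    exact hc this
  apply (Polynomial.finite_setOfPred_isRoot hp).subset
  intro ε hε
  simpa [Polynomial.IsRoot] using hε

theorem pert_B {α β : Type} [Fintype α] [Fintype β] (A : α → ℝ × ℝ) (B : β → ℝ × ℝ) (h : β → ℝ) :
    ∃ (B' : β → ℝ × ℝ) (D : Fin 3 → ℝ × ℝ),
      (∀ i j k : β ⊕ Fin 3, i ≠ j → j ≠ k → i ≠ k →
        cr (Sum.elim B' D j - Sum.elim B' D i) (Sum.elim B' D k - Sum.elim B' D i) ≠ 0) ∧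
      0 < cr (D 1 - D 0) (D 2 - D 0) ∧ (∀ b, InTri D (B' b)) ∧
      (So A B h).card ≤ (So A B' h).card := by
  classical
  obtain ⟨r, hr, hB⟩ : ∃ r : ℝ, 0 < r ∧ ∀ b, |(B b).1| < r ∧ |(B b).2| < r := by
    refine ⟨1 + ∑ b, (|(B b).1| + |(B b).2|), ?_, fun b => ?_⟩
    · have : 0 ≤ ∑ b, (|(B b).1| + |(B b).2|) := Finset.sum_nonneg fun b _ => by positivity
      linarith
    · have := Finset.single_le_sum (f := fun b => |(B b).1| + |(B b).2|)
        (fun b _ => by positivity) (Finset.mem_univ b)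
      have h1 := abs_nonneg (B b).1
      have h2 := abs_nonneg (B b).2
      constructor <;> linarith
  let e := Fintype.equivFin (β ⊕ Fin 3)
  let s : β ⊕ Fin 3 → ℝ := fun v => ((e v).val : ℝ)
  have hs : ∀ u v, u ≠ v → s u - s v ≠ 0 := by
    intro u v huv h0
    apply huv
    apply e.injective
    apply Fin.val_injective
    have h1 : ((e u).val : ℝ) = ((e v).val : ℝ) := sub_eq_zero.1 h0
    exact Nat.cast_injective h1
  let x0 : β ⊕ Fin 3 → ℝ × ℝ := Sum.elim B (bigT r)
  let x : ℝ → β ⊕ Fin 3 → ℝ × ℝ := fun ε v => x0 v + (ε * s v, ε * s v ^ 2)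
  have xc : ∀ v, Continuous fun ε => x ε v := by
    intro v
    simp only [x]
    fun_prop
  have xc1 : ∀ v, Continuous fun ε => (x ε v).1 := fun v => (xc v).fst
  have xc2 : ∀ v, Continuous fun ε => (x ε v).2 := fun v => (xc v).snd
  have x00 : ∀ v, x 0 v = x0 v := by
    intro v
    simp [x]
  have crc : ∀ u v w, Continuous fun ε => cr (x ε v - x ε u) (x ε w - x ε u) := by
    intro u v w
    have h1 := xc1 u
    have h2 := xc2 u
    have h3 := xc1 v
    have h4 := xc2 v
    have h5 := xc1 w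
    have h6 := xc2 w
    simp only [Pool.Agent.ROT.cr, Prod.fst_sub, Prod.snd_sub]
    fun_prop
  -- a choice of witnesses
  have ht : ∀ π : α ↪ β, ∃ t, π ∈ So A B h → Uo A B h t π := by
    intro π
    by_cases hπ : π ∈ So A B h
    · obtain ⟨t, ht⟩ := mem_So.1 hπ
      exact ⟨t, fun _ => ht⟩
    · exact ⟨0, fun h => absurd h hπ⟩
  choose t ht using ht
  have valc : ∀ (π : α ↪ β) (p : ℝ × ℝ), Continuous fun ε =>
      val A (fun b => x ε (Sum.inl b)) h p π := by
    intro π p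
    simp only [val]
    refine continuous_finsetSum _ fun a _ => ?_
    have h1 := xc1 (Sum.inl (π a))
    have h2 := xc2 (Sum.inl (π a))
    simp only [Pool.Agent.ROT.dt]
    fun_prop
  have E1 : ∀ᶠ ε in nhds (0 : ℝ),
      0 < cr (x ε (Sum.inr 1) - x ε (Sum.inr 0)) (x ε (Sum.inr 2) - x ε (Sum.inr 0)) := by
    apply (continuous_const.continuousAt).eventually_lt
      (crc (Sum.inr 0) (Sum.inr 1) (Sum.inr 2)).continuousAt
    simpa [x00, x0] using bigT_ori hr
  have E2 : ∀ᶠ ε in nhds (0 : ℝ), ∀ b : β,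
      InTri (fun i => x ε (Sum.inr i)) (x ε (Sum.inl b)) := by
    rw [Filter.eventually_all]
    intro b
    obtain ⟨g1, g2, g3⟩ := bigT_in hr (B b) (hB b).1 (hB b).2
    have k1 := (continuous_const (y := (0 : ℝ))).continuousAt.eventually_lt
      (crc (Sum.inl b) (Sum.inr 0) (Sum.inr 1)).continuousAt (x₀ := 0)
      (by simpa [x00, x0] using g1)
    have k2 := (continuous_const (y := (0 : ℝ))).continuousAt.eventually_lt
      (crc (Sum.inl b) (Sum.inr 1) (Sum.inr 2)).continuousAt (x₀ := 0)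
      (by simpa [x00, x0] using g2)
    have k3 := (continuous_const (y := (0 : ℝ))).continuousAt.eventually_lt
      (crc (Sum.inl b) (Sum.inr 2) (Sum.inr 0)).continuousAt (x₀ := 0)
      (by simpa [x00, x0] using g3)
    filter_upwards [k1, k2, k3] with ε l1 l2 l3
    exact ⟨l1, l2, l3⟩
  have E3 : ∀ᶠ ε in nhds (0 : ℝ), ∀ π : α ↪ β, π ∈ So A B h → ∀ σ : α ↪ β, σ ≠ π →
      val A (fun b => x ε (Sum.inl b)) h (t π) π < val A (fun b => x ε (Sum.inl b)) h (t π) σ := by
    rw [Filter.eventually_all]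
    intro π
    rw [Filter.eventually_imp_distrib_left]
    intro hπ
    rw [Filter.eventually_all]
    intro σ
    rw [Filter.eventually_imp_distrib_left]
    intro hσ
    apply (valc π (t π)).continuousAt.eventually_lt (valc σ (t π)).continuousAt
    simpa [x00, x0] using ht π hπ σ hσ
  have E := E1.and (E2.and E3)
  rw [Metric.eventually_nhds_iff] at E
  obtain ⟨δ, hδ, E⟩ := E
  have hbad : (⋃ q : {q : (β ⊕ Fin 3) × (β ⊕ Fin 3) × (β ⊕ Fin 3) //
      q.1 ≠ q.2.1 ∧ q.2.1 ≠ q.2.2 ∧ q.1 ≠ q.2.2},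
      {ε : ℝ | cr (x ε q.1.2.1 - x ε q.1.1) (x ε q.1.2.2 - x ε q.1.1) = 0}).Finite := by
    apply Set.finite_iUnion
    rintro ⟨⟨i, j, k⟩, h1, h2, h3⟩
    simp only at h1 h2 h3 ⊢
    have hc : (s j - s i) * (s k - s i) * (s k - s j) ≠ 0 :=
      mul_ne_zero (mul_ne_zero (hs _ _ h1.symm) (hs _ _ h3.symm)) (hs _ _ h2.symm)
    apply (quad_finite (cr (x0 j - x0 i) (x0 k - x0 i))
      (((x0 j).1 - (x0 i).1) * (s k ^ 2 - s i ^ 2) + (s j - s i) * ((x0 k).2 - (x0 i).2) -
        ((x0 j).2 - (x0 i).2) * (s k - s i) - (s j ^ 2 - s i ^ 2) * ((x0 k).1 - (x0 i).1))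
      _ hc).subset
    intro ε hε
    simp only [Set.mem_ofPred_eq] at hε ⊢
    rw [← hε]
    simp only [Pool.Agent.ROT.cr, Prod.fst_sub, Prod.snd_sub, x, Prod.fst_add, Prod.snd_add]
    ring
  obtain ⟨ε, hε⟩ := ((Set.Ioo_infinite hδ).sdiff hbad).nonempty
  have hdist : dist ε 0 < δ := by
    rw [Real.dist_eq, sub_zero, abs_of_pos hε.1.1]
    exact hε.1.2
  obtain ⟨F1, F2, F3⟩ := E hdist
  have hel : Sum.elim (fun b => x ε (Sum.inl b)) (fun i => x ε (Sum.inr i)) = x ε := by
    funext v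
    cases v <;> rfl
  refine ⟨fun b => x ε (Sum.inl b), fun i => x ε (Sum.inr i), ?_, F1, F2, ?_⟩
  · intro i j k h1 h2 h3 h0
    rw [hel] at h0
    apply hε.2
    rw [Set.mem_iUnion]
    exact ⟨⟨(i, j, k), h1, h2, h3⟩, h0⟩
  · apply Finset.card_le_card
    intro π hπ
    exact mem_So.2 ⟨t π, fun σ hσ => F3 π hπ σ hσ⟩

end Pool.Agent.H63.SX
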