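import Pool.Agent.H63.SX.Num
import Pool.Agent.H63.SX.NearR
import Pool.Agent.H63.SX.PertB
import Pool.Agent.H63.SX.Col

/-!
# SX-32: the two bounds
-/

set_option autoImplicit false

namespace Pool.Agent.H63.SX

open Pool.Agent.ROT (cr dt rot)

theorem bound_gen {α β : Type} [Fintype α] [Fintype β] (A : α → ℝ × ℝ) (B : β → ℝ × ℝ)
    (h : β → ℝ) (h1 : 1 ≤ Fintype.card α) (h2 : Fintype.card α ≤ Fintype.card β) :
    ((So A B h).card : ℝ) ≤ (Fintype.card β : ℝ) ^ 4 *
      Real.exp (50000 * √(Fintype.card α * (1 + Real.log (Fintype.card α)) ^ 3)) := by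
  classical
  obtain ⟨B', D, hn, hor, hin, hle⟩ := pert_B A B h
  have hm : (1 : ℝ) ≤ Fintype.card α := by exact_mod_cast h1
  have hlog : 0 ≤ Real.log (Fintype.card α) := Real.log_nonneg hm
  have hq : 1 ≤ √(1 + Real.log (Fintype.card α)) := by
    rw [show (1 : ℝ) = √1 by simp]
    exact Real.sqrt_le_sqrt (by simpa using hlog)
  have key := near_red A B' h h1
    (Real.exp (Lam (Fintype.card α ^ 2) * √(1 + Real.log (Fintype.card α)) *
      √(Fintype.card α))) (by
    intro J hJ
    refine solve (Fintype.card α ^ 2) _ hq D hor (Fintype.card α) α _ A _ _ rfl ?_ ?_ ?_ ?_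
    · rw [Fintype.card_coe]
      exact hJ
    · rw [Real.sq_sqrt (by linarith)]
    · intro i j k hij hjk hik
      have := hn (Sum.map (fun b : {b // b ∈ J} => b.1) id i)
        (Sum.map (fun b : {b // b ∈ J} => b.1) id j) (Sum.map (fun b : {b // b ∈ J} => b.1) id k)
        ?_ ?_ ?_
      · rcases i with i | i <;> rcases j with j | j <;> rcases k with k | k <;> exact this
      all_goals
        intro he
        have hinj : Function.Injective (Sum.map (fun b : {b // b ∈ J} => b.1)
          (id : Fin 3 → Fin 3)) := Subtype.val_injective.sumMap Function.injective_id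
        first
          | exact hij (hinj he)
          | exact hjk (hinj he)
          | exact hik (hinj he)
    · intro b
      exact hin b.1)
  calc ((So A B h).card : ℝ) ≤ ((So A B' h).card : ℝ) := by exact_mod_cast hle
    _ ≤ _ := key
    _ ≤ _ := num_gen h1 h2

theorem bound_col {α β : Type} [Fintype α] [Fintype β] (A : α → ℝ × ℝ) (B : β → ℝ × ℝ)
    (h : β → ℝ) (h1 : 1 ≤ Fintype.card α) (h2 : Fintype.card α ≤ Fintype.card β)
    (p0 v : ℝ × ℝ) (s : α → ℝ) (hA : ∀ a, A a = p0 + s a • v) :
    ((So A B h).card : ℝ) ≤ (Fintype.card β : ℝ) ^ 4 *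
      Real.exp (20 * (1 + Real.log (Fintype.card α)) ^ 2) := by
  classical
  have key := near_red A B h h1
    ((((Fintype.card α) ^ 2 * PP ((Fintype.card α) ^ 2)) ^ (Nat.clog 2 (Fintype.card α)) *
      (Fintype.card α) ^ 2 : ℕ) : ℝ) (by
    intro J hJ
    have := col_solve (Fintype.card α ^ 2) (Nat.one_le_pow _ _ h1) (Nat.clog 2 (Fintype.card α))
      α {b // b ∈ J} A (fun b : {b // b ∈ J} => B b) (fun b : {b // b ∈ J} => h b) p0 v s hA
      (Nat.le_pow_clog one_lt_two _) (by rw [Fintype.card_coe]; exact hJ)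
    exact_mod_cast this)
  exact key.trans (num_col h1 h2)

end Pool.Agent.H63.SX
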