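import Mathlib

/-!
# SX-19: growth of levels

For a function `f : α → ℕ` let `l k = #{a | f a = k}`, `N k = #{a | f a < k}`,
`Z k = #{a | k < f a}`.  Then `N (k+1) = N k + l k` and `Z (k-1) = Z k + l k` (`k ≥ 1`), `N` is
nondecreasing and `Z` is nonincreasing, all are at most `m = card α`.  Assume for all `2 ≤ k ≤ d`:
`1 ≤ l k` and `ξ * min (N k) (Z k) < l k`, where `ξ ≥ 0`, `d ≥ 3`.

(A) For `3 ≤ k ≤ d + 1`: if `N (k-1) ≤ Z (k-1)` then `(1+ξ)^(k-3) ≤ N k`.  Induction on `k`: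
`k = 3`: `N 3 ≥ l 2 ≥ 1`.  Step: assume `N k ≤ Z k` (`k ≤ d`).  Then
`N (k-1) ≤ N k ≤ Z k ≤ Z (k-1)`, so `(1+ξ)^(k-3) ≤ N k`, and
`N (k+1) = N k + l k ≥ N k + ξ N k`.
(B) For `1 ≤ k ≤ d - 1`: if `Z (k+1) ≤ N (k+1)` then `(1+ξ)^(d-1-k) ≤ Z k`.  Induction downwards:
`k = d-1`: `Z (d-1) ≥ l d ≥ 1`.  Step from `k` to `k - 1 ≥ 1`: assume `Z k ≤ N k`; then
`Z (k+1) ≤ N (k+1)`, so `(1+ξ)^(d-1-k) ≤ Z k` and `Z (k-1) = Z k + l k ≥ (1+ξ) Z k`.

Conclusion: if no `k` with `2 ≤ k ≤ d` has `N k ≤ Z k`, then (B) for `k = 1` gives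
`(1+ξ)^(d-2) ≤ m`.  Otherwise let `k` be the largest such number: (A) gives
`(1+ξ)^(k-2) ≤ N (k+1) ≤ m`; if `k = d` we are done, and if `k < d` then `Z (k+1) < N (k+1)` and (B)
gives `(1+ξ)^(d-1-k) ≤ Z k ≤ m`; multiply: `(1+ξ)^(d-3) ≤ m²`.
(`m ≥ 1`, so `m ≤ m²`; `1 ≤ 1 + ξ` for the monotonicity of the power.)
-/

set_option autoImplicit false

namespace Pool.Agent.H63.SX

theorem lev_aux (N Z l : ℕ → ℕ) (m d : ℕ) (hd : 3 ≤ d) (ξ : ℝ) (hξ : 0 ≤ ξ)
    (hN : ∀ k, N (k + 1) = N k + l k) (hZ : ∀ k, Z k = Z (k + 1) + l (k + 1))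
    (hNm : ∀ k, N k ≤ m) (hZm : ∀ k, Z k ≤ m) (h1 : ∀ k, 2 ≤ k → k ≤ d → 1 ≤ l k)
    (h2 : ∀ k, 2 ≤ k → k ≤ d → ξ * (min (N k) (Z k) : ℕ) < (l k : ℝ)) :
    (1 + ξ) ^ (d - 3) ≤ (m : ℝ) ^ 2 := by
  have hNr : ∀ k, (N (k + 1) : ℝ) = N k + l k := fun k => by exact_mod_cast hN k
  have hZr : ∀ k, (Z k : ℝ) = Z (k + 1) + l (k + 1) := fun k => by exact_mod_cast hZ k
  have hA : ∀ j, j + 3 ≤ d + 1 → N (j + 2) ≤ Z (j + 2) → (1 + ξ) ^ j ≤ (N (j + 3) : ℝ) := by
    intro j
    induction j with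
    | zero =>
      intro _ _
      have h3 := h1 2 le_rfl (by omega)
      have h4 : N 3 = N 2 + l 2 := hN 2
      rw [pow_zero]
      exact_mod_cast (by omega : 1 ≤ N 3)
    | succ j ih =>
      intro hj hle
      have h3 : N (j + 3) = N (j + 2) + l (j + 2) := hN (j + 2)
      have h4 : Z (j + 2) = Z (j + 3) + l (j + 3) := hZ (j + 2)
      have hle' : N (j + 3) ≤ Z (j + 3) := hle
      have h5 := ih (by omega) (by omega)
      have h6 := h2 (j + 3) (by omega) (by omega)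
      rw [min_eq_left hle'] at h6
      have h7 : (N (j + 4) : ℝ) = N (j + 3) + l (j + 3) := hNr (j + 3)
      have h8 : j + 1 + 3 = j + 4 := by omega
      rw [h8, h7, pow_succ]
      nlinarith
  have hB : ∀ j k, 1 ≤ k → k + 1 + j = d → Z (k + 1) ≤ N (k + 1) → (1 + ξ) ^ j ≤ (Z k : ℝ) := by
    intro j
    induction j with
    | zero =>
      intro k hk hkd _
      have h3 := h1 (k + 1) (by omega) (by omega)
      have h4 := hZ k
      rw [pow_zero]
      exact_mod_cast (by omega : 1 ≤ Z k)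
    | succ j ih =>
      intro k hk hkd hle
      have h3 : N (k + 2) = N (k + 1) + l (k + 1) := hN (k + 1)
      have h4 : Z (k + 1) = Z (k + 2) + l (k + 2) := hZ (k + 1)
      have h5 := ih (k + 1) (by omega) (by omega)
        (by show Z (k + 2) ≤ N (k + 2); omega)
      have h6 := h2 (k + 1) (by omega) (by omega)
      rw [min_eq_right hle] at h6
      rw [hZr k, pow_succ]
      nlinarith
  have hm1 : 1 ≤ m := by
    have h3 := h1 2 le_rfl (by omega)
    have h4 := hNm 3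
    have h5 : N 3 = N 2 + l 2 := hN 2
    omega
  have hmm : (m : ℝ) ≤ (m : ℝ) ^ 2 := by
    have h3 : (1 : ℝ) ≤ m := by exact_mod_cast hm1
    nlinarith
  have hpow : (1 + ξ) ^ (d - 3) ≤ (1 + ξ) ^ (d - 2) :=
    pow_le_pow_right₀ (by linarith) (by omega)
  by_cases hex : ∃ k, k ≤ d ∧ 2 ≤ k ∧ N k ≤ Z k
  · obtain ⟨k0, hk0, hP0⟩ := hex
    classical
    obtain ⟨K, hK⟩ : ∃ K, K = Nat.findGreatest (fun k => 2 ≤ k ∧ N k ≤ Z k) d := ⟨_, rfl⟩
    have hKP : 2 ≤ K ∧ N K ≤ Z K := by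
      rw [hK]
      exact Nat.findGreatest_spec (P := fun k => 2 ≤ k ∧ N k ≤ Z k) hk0 hP0
    have hKd : K ≤ d := by
      rw [hK]
      exact Nat.findGreatest_le d
    have hA' := hA (K - 2) (by omega) (by
      rw [show K - 2 + 2 = K by omega]
      exact hKP.2)
    have hA2 : (1 + ξ) ^ (K - 2) ≤ (m : ℝ) := hA'.trans (by exact_mod_cast hNm _)
    rcases hKd.eq_or_lt with h | h
    · rw [h] at hA2
      linarith
    · have h3 : ¬ (2 ≤ K + 1 ∧ N (K + 1) ≤ Z (K + 1)) := by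
        refine Nat.findGreatest_is_greatest (P := fun k => 2 ≤ k ∧ N k ≤ Z k) (n := d) ?_ (by omega)
        rw [← hK]
        omega
      have h4 : Z (K + 1) ≤ N (K + 1) := by
        by_contra h5
        exact h3 ⟨by omega, by omega⟩
      have hB' := hB (d - 1 - K) K (by omega) (by omega) h4
      have hB2 : (1 + ξ) ^ (d - 1 - K) ≤ (m : ℝ) := hB'.trans (by exact_mod_cast hZm _)
      have h5 : (1 + ξ) ^ (d - 3) = (1 + ξ) ^ (K - 2) * (1 + ξ) ^ (d - 1 - K) := by
        rw [← pow_add]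
        congr 1
        omega
      rw [h5, pow_two]
      exact mul_le_mul hA2 hB2 (by positivity) (by positivity)
  · push Not at hex
    have h3 := hB (d - 2) 1 le_rfl (by omega) (hex 2 (by omega) le_rfl).le
    have h4 : (Z 1 : ℝ) ≤ m := by exact_mod_cast hZm 1
    linarith

theorem levels {α : Type} [Fintype α] (f : α → ℕ) (d : ℕ) (hd : 3 ≤ d) (ξ : ℝ) (hξ : 0 ≤ ξ)
    (h1 : ∀ k, 2 ≤ k → k ≤ d → 1 ≤ (Finset.univ.filter fun a => f a = k).card)
    (h2 : ∀ k, 2 ≤ k → k ≤ d →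
      ξ * (min (Finset.univ.filter fun a => f a < k).card
        (Finset.univ.filter fun a => k < f a).card : ℕ) <
        ((Finset.univ.filter fun a => f a = k).card : ℝ)) :
    (1 + ξ) ^ (d - 3) ≤ (Fintype.card α : ℝ) ^ 2 := by
  classical
  refine lev_aux (fun k => (Finset.univ.filter fun a => f a < k).card)
    (fun k => (Finset.univ.filter fun a => k < f a).card)
    (fun k => (Finset.univ.filter fun a => f a = k).card) (Fintype.card α) d hd ξ hξ ?_ ?_ ?_ ?_
    h1 h2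
  · intro k
    show (Finset.univ.filter fun a => f a < k + 1).card =
      (Finset.univ.filter fun a => f a < k).card + (Finset.univ.filter fun a => f a = k).card
    rw [← Finset.card_union_of_disjoint]
    · congr 1
      ext a
      simp only [Finset.mem_filter, Finset.mem_univ, true_and, Finset.mem_union]
      omega
    · rw [Finset.disjoint_left]
      intro a ha hb
      simp only [Finset.mem_filter, Finset.mem_univ, true_and] at ha hb
      omega
  · intro k
    show (Finset.univ.filter fun a => k < f a).card =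
      (Finset.univ.filter fun a => k + 1 < f a).card +
        (Finset.univ.filter fun a => f a = k + 1).card
    rw [← Finset.card_union_of_disjoint]
    · congr 1
      ext a
      simp only [Finset.mem_filter, Finset.mem_univ, true_and, Finset.mem_union]
      omega
    · rw [Finset.disjoint_left]
      intro a ha hb
      simp only [Finset.mem_filter, Finset.mem_univ, true_and] at ha hb
      omega
  · intro k
    exact Finset.card_le_univ _
  · intro k
    exact Finset.card_le_univ _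

end Pool.Agent.H63.SX
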