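import Pool.Agent.H63.SX.PathB

/-!
# SX-04: on a line there are at most `m n + 1` unique optimal matchings

Let `m = card α`, `n = card β`.  Write `val t π = C π + <t, S π>` with
`C π = ∑ a, (h (π a) - <A a, B (π a)>)` and `S π = ∑ a, B (π a)`.
Let `r : β → ℕ`, `r b = #{b' | <v, B b'> < <v, B b>}` (so `r b < n`, and
`<v, B b> < <v, B b'>` implies `r b < r b'`: strict inclusion of filters) and
`ρ π = ∑ a, r (π a) ≤ m n`.

Claim: if `Uo (p + x v) π`, `Uo (p + x' v) σ`, `x < x'` and `π ≠ σ` then `ρ σ < ρ π`.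
Proof.  (1) `range π ≠ range σ`: otherwise `S π = S σ` (both are the sum of `B` over the range:
`Finset.sum_map` / an equivalence), so `val t π - val t σ` does not depend on `t`, while it is
`< 0` at the first point and `> 0` at the second one.
(2) Let `b ∈ range π \ range σ` and let `μ`, `π'`, `σ'` be as in `path_bij π σ`.
`C π' + C σ' = C π + C σ` (termwise exchange), `S π' - S π = B (μ b) - B b` and
`S σ' - S σ = B b - B (μ b)` (again from the ranges; or: `S π' + S σ' = S π + S σ` by termwise
exchange and only one of the two from the ranges).  `π' ≠ π` and `σ' ≠ σ` (the ranges are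
different), so `val π' > val π` at `p + x v` and `val σ' > val σ` at `p + x' v`.  Adding:
`x <v, B (μ b) - B b> + x' <v, B b - B (μ b)> > 0` (the contributions of `p` cancel), i.e.
`(x' - x) <v, B b - B (μ b)> > 0`, so `r (μ b) < r b`.
(3) `ρ π - ρ σ = ∑ over range π \ range σ of r - ∑ over range σ \ range π of r`.  `μ` is
injective from the first set into the second one, which have the same cardinality, so it is a
bijection (`Finset.surjOn_of_injOn_of_card_le` or via `Finset.image μ`), and the difference is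
`∑_{b ∈ range π \ range σ} (r b - r (μ b)) > 0`; the first set is nonempty by (1) (same
cardinality).  (Use `Finset.univ.map π` for the ranges.)

For every `π` in the set on the left choose a parameter `x π`.  If `x π = x σ` then `π = σ` by
uniqueness; so `ρ` is injective on the set, with values in `range (m n + 1)`
(`Finset.card_le_card_of_injOn`).
-/

set_option autoImplicit false

namespace Pool.Agent.H63.SX

open Pool.Agent.ROT (cr dt rot)

lemma val_split {α β : Type} [Fintype α] (A : α → ℝ × ℝ) (B : β → ℝ × ℝ)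
    (h : β → ℝ) (t : ℝ × ℝ) (π : α ↪ β) :
    val A B h t π = ∑ a, (h (π a) - dt (A a) (B (π a))) + ∑ a, dt t (B (π a)) := by
  unfold val
  rw [← Finset.sum_add_distrib]
  refine Finset.sum_congr rfl fun a _ => ?_
  simp only [dt, Prod.fst_sub, Prod.snd_sub]
  ring

open Classical in
lemma map_of_range {α β : Type} [Fintype α] {π π' : α ↪ β} {x y : β}
    (hr : ∀ z, z ∈ Set.range π' ↔ z = y ∨ (z ∈ Set.range π ∧ z ≠ x)) :
    Finset.univ.map π' = insert y ((Finset.univ.map π).erase x) := by
  ext z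
  have := hr z
  simp only [Set.mem_range] at this
  simp only [Finset.mem_map, Finset.mem_univ, true_and, Finset.mem_insert, Finset.mem_erase]
  rw [this]
  tauto

open Classical in
lemma sum_of_range {α β : Type} [Fintype α] {π π' : α ↪ β} {x y : β}
    (hr : ∀ z, z ∈ Set.range π' ↔ z = y ∨ (z ∈ Set.range π ∧ z ≠ x))
    (hx : x ∈ Set.range π) (hy : y ∉ Set.range π) (f : β → ℝ) :
    ∑ a, f (π' a) = ∑ a, f (π a) + f y - f x := by
  have h1 : ∑ a, f (π' a) = ∑ b ∈ Finset.univ.map π', f b := by rw [Finset.sum_map]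
  have h2 : ∑ a, f (π a) = ∑ b ∈ Finset.univ.map π, f b := by rw [Finset.sum_map]
  have hx' : x ∈ Finset.univ.map π := by
    obtain ⟨a, ha⟩ := hx
    simp only [Finset.mem_map, Finset.mem_univ, true_and]
    exact ⟨a, ha⟩
  have hy' : y ∉ Finset.univ.map π := by
    intro hh
    simp only [Finset.mem_map, Finset.mem_univ, true_and] at hh
    exact hy hh
  rw [h1, h2, map_of_range hr, Finset.sum_insert (fun hh => hy' (Finset.mem_of_mem_erase hh)),
    ← Finset.sum_erase_add _ _ hx']
  ring

open Classical in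
lemma rho_lt {α β : Type} [Fintype α] [Fintype β] (A : α → ℝ × ℝ) (B : β → ℝ × ℝ)
    (h : β → ℝ) (p v : ℝ × ℝ) {x x' : ℝ} (hx : x < x') {π σ : α ↪ β} (hne : π ≠ σ)
    (h1 : Uo A B h (p + x • v) π) (h2 : Uo A B h (p + x' • v) σ) :
    ∑ a, (Finset.univ.filter fun b' => dt v (B b') < dt v (B (σ a))).card <
      ∑ a, (Finset.univ.filter fun b' => dt v (B b') < dt v (B (π a))).card := by
  obtain ⟨r, hr⟩ : ∃ r : β → ℕ, r = fun b => (Finset.univ.filter fun b' =>
    dt v (B b') < dt v (B b)).card := ⟨_, rfl⟩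
  have hr1 : ∀ b b', dt v (B b) < dt v (B b') → r b < r b' := by
    intro b b' hbb
    rw [hr]
    refine Finset.card_lt_card ?_
    rw [Finset.ssubset_iff_of_subset]
    · exact ⟨b, by simpa using hbb, by simp⟩
    · intro c hc
      simp only [Finset.mem_filter, Finset.mem_univ, true_and] at hc ⊢
      exact hc.trans hbb
  have hg1 : ∑ a, (Finset.univ.filter fun b' => dt v (B b') < dt v (B (σ a))).card =
      ∑ b ∈ Finset.univ.map σ, r b := by rw [Finset.sum_map, hr]
  have hg2 : ∑ a, (Finset.univ.filter fun b' => dt v (B b') < dt v (B (π a))).card =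
      ∑ b ∈ Finset.univ.map π, r b := by rw [Finset.sum_map, hr]
  rw [hg1, hg2]
  obtain ⟨P, hP⟩ : ∃ P : Finset β, P = Finset.univ.map π := ⟨_, rfl⟩
  obtain ⟨Q, hQ⟩ : ∃ Q : Finset β, Q = Finset.univ.map σ := ⟨_, rfl⟩
  have hcard : P.card = Q.card := by rw [hP, hQ, Finset.card_map, Finset.card_map]
  have hcd : (P \ Q).card = (Q \ P).card := by
    have e1 := Finset.card_sdiff_add_card_inter P Q
    have e2 := Finset.card_sdiff_add_card_inter Q P
    rw [Finset.inter_comm] at e2
    omega
  have hmP : ∀ z, z ∈ P ↔ z ∈ Set.range π := by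
    intro z
    rw [hP]
    simp
  have hmQ : ∀ z, z ∈ Q ↔ z ∈ Set.range σ := by
    intro z
    rw [hQ]
    simp
  have s1 := h1 σ hne.symm
  have s2 := h2 π hne
  have hdt : ∀ b c : ℝ × ℝ, dt (p + x • v) b + dt (p + x' • v) c =
      dt p (b + c) + x * dt v b + x' * dt v c := by
    intro b c
    simp only [dt, Prod.fst_add, Prod.snd_add, Prod.smul_fst, Prod.smul_snd, smul_eq_mul]
    ring
  have hnem : (P \ Q).Nonempty := by
    rw [Finset.nonempty_iff_ne_empty]
    intro he
    have hsub : P ⊆ Q := Finset.sdiff_eq_empty_iff_subset.1 he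
    have hPQ : P = Q := Finset.eq_of_subset_of_card_le hsub hcard.ge
    have hs : ∀ f : β → ℝ, ∑ a, f (π a) = ∑ a, f (σ a) := by
      intro f
      have e1 : ∑ a, f (π a) = ∑ b ∈ P, f b := by rw [hP, Finset.sum_map]
      have e2 : ∑ a, f (σ a) = ∑ b ∈ Q, f b := by rw [hQ, Finset.sum_map]
      rw [e1, e2, hPQ]
    rw [val_split, val_split] at s1 s2
    have e1 := hs fun b => dt (p + x • v) (B b)
    have e2 := hs fun b => dt (p + x' • v) (B b)
    linarith
  obtain ⟨μ, hμi, hμ⟩ := path_bij π σ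
  have hμ2 : ∀ b ∈ P \ Q, μ b ∈ Q \ P ∧ r (μ b) < r b := by
    intro b hb
    rw [Finset.mem_sdiff, hmP, hmQ] at hb
    obtain ⟨m1, m2, π', σ', r1, r2, ex⟩ := hμ b hb.1 hb.2
    refine ⟨by rw [Finset.mem_sdiff, hmP, hmQ]; exact ⟨m1, m2⟩, hr1 _ _ ?_⟩
    have n1 : π' ≠ π := by
      intro hh
      have := (r1 (μ b)).2 (Or.inl rfl)
      rw [hh] at this
      exact m2 this
    have n2 : σ' ≠ σ := by
      intro hh
      have := (r2 b).2 (Or.inl rfl)
      rw [hh] at this
      exact hb.2 this
    have t1 := h1 π' n1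
    have t2 := h2 σ' n2
    rw [val_split, val_split] at t1 t2
    have c1 : ∑ a, (h (π' a) - dt (A a) (B (π' a))) + ∑ a, (h (σ' a) - dt (A a) (B (σ' a))) =
        ∑ a, (h (π a) - dt (A a) (B (π a))) + ∑ a, (h (σ a) - dt (A a) (B (σ a))) := by
      rw [← Finset.sum_add_distrib, ← Finset.sum_add_distrib]
      refine Finset.sum_congr rfl fun a _ => ?_
      rcases ex a with ⟨e1, e2⟩ | ⟨e1, e2⟩
      · rw [e1, e2]
      · rw [e1, e2]; ring
    have c2 := sum_of_range r1 hb.1 m2 fun b => dt (p + x • v) (B b)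
    have c3 := sum_of_range r2 m1 hb.2 fun b => dt (p + x' • v) (B b)
    have c4 : 0 < dt (p + x • v) (B (μ b)) - dt (p + x • v) (B b) +
      (dt (p + x' • v) (B b) - dt (p + x' • v) (B (μ b))) := by linarith
    have c5 : dt (p + x • v) (B (μ b)) - dt (p + x • v) (B b) +
      (dt (p + x' • v) (B b) - dt (p + x' • v) (B (μ b))) =
        (x' - x) * (dt v (B b) - dt v (B (μ b))) := by
      simp only [dt, Prod.fst_add, Prod.snd_add, Prod.smul_fst, Prod.smul_snd, smul_eq_mul]
      ring
    rw [c5] at c4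
    have c6 := (mul_pos_iff_of_pos_left (sub_pos.2 hx)).1 c4
    linarith
  have himg : (P \ Q).image μ = Q \ P := by
    refine Finset.eq_of_subset_of_card_le ?_ ?_
    · intro z hz
      obtain ⟨b, hb, rfl⟩ := Finset.mem_image.1 hz
      exact (hμ2 b hb).1
    · rw [Finset.card_image_of_injOn, hcd]
      intro b hb c hc hbc
      have hb' := Finset.mem_coe.1 hb
      have hc' := Finset.mem_coe.1 hc
      rw [Finset.mem_sdiff, hmP, hmQ] at hb' hc'
      exact hμi hb' hc' hbc
  have hinj : Set.InjOn μ (P \ Q : Finset β) := by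
    intro b hb c hc hbc
    have hb' := Finset.mem_coe.1 hb
    have hc' := Finset.mem_coe.1 hc
    rw [Finset.mem_sdiff, hmP, hmQ] at hb' hc'
    exact hμi hb' hc' hbc
  have hsum : ∑ b ∈ Q \ P, r b = ∑ b ∈ P \ Q, r (μ b) := by
    rw [← himg, Finset.sum_image hinj]
  rw [← hP, ← hQ, ← Finset.sum_inter_add_sum_sdiff Q P, ← Finset.sum_inter_add_sum_sdiff P Q,
    Finset.inter_comm Q P, hsum]
  refine Nat.add_lt_add_left ?_ _
  exact Finset.sum_lt_sum_of_nonempty hnem fun b hb => (hμ2 b hb).2

open Classical in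
theorem line_count {α β : Type} [Fintype α] [Fintype β] (A : α → ℝ × ℝ) (B : β → ℝ × ℝ)
    (h : β → ℝ) (p v : ℝ × ℝ) :
    ((So A B h).filter fun π => ∃ x : ℝ, Uo A B h (p + x • v) π).card ≤
      Fintype.card α * Fintype.card β + 1 := by
  have key : ∀ π ∈ ((So A B h).filter fun π => ∃ x : ℝ, Uo A B h (p + x • v) π),
      ∃ x : ℝ, Uo A B h (p + x • v) π := fun π hπ => (Finset.mem_filter.1 hπ).2
  rw [← Finset.card_range (Fintype.card α * Fintype.card β + 1)]
  refine Finset.card_le_card_of_injOn (fun π : α ↪ β => ∑ a, (Finset.univ.filter fun b' =>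
    dt v (B b') < dt v (B (π a))).card) ?_ ?_
  · intro π _
    simp only [Finset.coe_range, Set.mem_Iio]
    refine Nat.lt_succ_of_le ?_
    refine (Finset.sum_le_card_nsmul _ _ (Fintype.card β) fun a _ => ?_).trans ?_
    · exact Finset.card_le_univ _
    · rw [smul_eq_mul, Finset.card_univ]
  · intro π hπ σ hσ he
    by_contra hne
    obtain ⟨x, h1⟩ := key π hπ
    obtain ⟨x', h2⟩ := key σ hσ
    simp only at he
    rcases lt_trichotomy x x' with hx | hx | hx
    · have := rho_lt A B h p v hx hne h1 h2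
      omega
    · subst hx
      exact lt_asymm (h1 σ (Ne.symm hne)) (h2 π hne)
    · have := rho_lt A B h p v hx (Ne.symm hne) h2 h1
      omega

end Pool.Agent.H63.SX
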