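import Pool.Agent.H63.SX.PathB

/-!
# SX-05: local optimality: the region of a matching is given by `m n` linear inequalities

Write `val t π = C π + <t, S π>` with `C π = ∑ a, (h (π a) - <A a, B (π a)>)`,
`S π = ∑ a, B (π a)`.  Let `π ∈ So`, `Uo t0 π`.  For `(a, b)` with `b ∈ range π` let `c = 1`,
`w = 0`.  Otherwise let `F (a,b)` be the (finite, nonempty: change the value at `a` to `b`) set of
all `σ : α ↪ β` with `range σ = range π - π a + b`, let `c (a,b)` be the minimum of `C σ - C π`
over `σ ∈ F (a,b)`, and `w (a,b) = B b - B (π a)` (`= S σ - S π` for all `σ ∈ F (a,b)`).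

`→`: if `Uo t π` and `σ ∈ F (a,b)` attains the minimum, then `σ ≠ π`, and
`0 < val t σ - val t π = c (a,b) + <t, w (a,b)>`.

`←`: let all inequalities hold at `t`.  (i) If `σ ≠ π` and `range σ = range π` then
`S σ = S π`, so `val t σ - val t π = val t0 σ - val t0 π > 0`.
(ii) Suppose that some `σ ≠ π` has `val t σ ≤ val t π`, and let `R` minimise `val t` over all
embeddings different from `π` (finite set).  So `val t R ≤ val t π` and `range R ≠ range π` by
(i); as both have `card α` elements there is `x = π a ∈ range π \ range R`.  Take `μ`, `π'`, `R'`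
from `path_bij π R` at `x`: `π' ∈ F (a, μ x)` and `μ x ∉ range π`, so
`val t π' - val t π ≥ c (a, μ x) + <t, w (a, μ x)> > 0`, and
`val t π' + val t R' = val t π + val t R` (termwise exchange), so `val t R' < val t R`.
If `R' ≠ π` this contradicts the choice of `R`, and if `R' = π` then
`val t π < val t R ≤ val t π`.
-/

set_option autoImplicit false

namespace Pool.Agent.H63.SX

open Pool.Agent.ROT (cr dt rot)

private lemma dt_sum_right {ι : Type} (s : Finset ι) (t : ℝ × ℝ) (f : ι → ℝ × ℝ) :
    dt t (∑ i ∈ s, f i) = ∑ i ∈ s, dt t (f i) := by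
  classical
  induction s using Finset.induction_on with
  | empty => simp [dt]
  | insert a s ha ih => rw [Finset.sum_insert ha, Finset.sum_insert ha, Pool.Agent.ROT.dt_add_right, ih]

private lemma val_eq {α β : Type} [Fintype α] (A : α → ℝ × ℝ) (B : β → ℝ × ℝ)
    (h : β → ℝ) (t : ℝ × ℝ) (π : α ↪ β) :
    val A B h t π = val A B h 0 π + dt t (∑ a, B (π a)) := by
  unfold val
  rw [dt_sum_right, ← Finset.sum_add_distrib]
  apply Finset.sum_congr rfl
  intro a _
  simp only [dt, sub_zero, Prod.fst_sub, Prod.snd_sub]
  ring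

private lemma sum_swap {α β : Type} [Fintype α] (B : β → ℝ × ℝ) (π σ : α ↪ β) (a : α) (b : β)
    (hb : b ∉ Set.range π)
    (hσ : ∀ z, z ∈ Set.range σ ↔ z = b ∨ (z ∈ Set.range π ∧ z ≠ π a)) :
    ∑ i, B (σ i) = ∑ i, B (π i) + (B b - B (π a)) := by
  classical
  have h1 : ∀ τ : α ↪ β, ∑ i, B (τ i) = ∑ z ∈ Finset.univ.map τ, B z := by
    intro τ
    rw [Finset.sum_map]
  have h2 : Finset.univ.map σ = insert b ((Finset.univ.map π).erase (π a)) := by
    ext z
    have := hσ z
    simp only [Set.mem_range] at this
    simp only [Finset.mem_map, Finset.mem_univ, true_and, Finset.mem_insert, Finset.mem_erase]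
    rw [this]
    tauto
  rw [h1 σ, h1 π, h2, Finset.sum_insert, ← Finset.add_sum_erase (Finset.univ.map π) B
    (a := π a) (by simp)]
  · abel
  · simp only [Finset.mem_erase, Finset.mem_map, Finset.mem_univ, true_and, not_and]
    intro _ hx
    exact hb (by simpa using hx)

private lemma sum_same {α β : Type} [Fintype α] (B : β → ℝ × ℝ) (π σ : α ↪ β)
    (hσ : ∀ z, z ∈ Set.range σ ↔ z ∈ Set.range π) :
    ∑ i, B (σ i) = ∑ i, B (π i) := by
  classical
  have h1 : ∀ τ : α ↪ β, ∑ i, B (τ i) = ∑ z ∈ Finset.univ.map τ, B z := by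
    intro τ
    rw [Finset.sum_map]
  have h2 : Finset.univ.map σ = Finset.univ.map π := by
    ext z
    have := hσ z
    simp only [Set.mem_range] at this
    simp only [Finset.mem_map, Finset.mem_univ, true_and]
    exact this
  rw [h1 σ, h1 π, h2]

theorem local_ineq {α β : Type} [Fintype α] [Fintype β] (A : α → ℝ × ℝ) (B : β → ℝ × ℝ)
    (h : β → ℝ) {π : α ↪ β} (hπ : ∃ t, Uo A B h t π) :
    ∃ (c : α × β → ℝ) (w : α × β → ℝ × ℝ), ∀ t, Uo A B h t π ↔ ∀ k, 0 < c k + dt t (w k) := by
  classical
  obtain ⟨t0, ht0⟩ := hπ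
  have key : ∀ k : α × β, ∃ p : ℝ × (ℝ × ℝ),
      (k.2 ∈ Set.range π ∧ p.1 = 1 ∧ p.2 = 0) ∨
      (k.2 ∉ Set.range π ∧ p.2 = B k.2 - B (π k.1) ∧
        (∀ σ : α ↪ β, (∀ z, z ∈ Set.range σ ↔ z = k.2 ∨ (z ∈ Set.range π ∧ z ≠ π k.1)) →
          p.1 ≤ val A B h 0 σ - val A B h 0 π) ∧
        ∃ σ : α ↪ β, (∀ z, z ∈ Set.range σ ↔ z = k.2 ∨ (z ∈ Set.range π ∧ z ≠ π k.1)) ∧
          p.1 = val A B h 0 σ - val A B h 0 π) := by
    rintro ⟨a, b⟩
    by_cases hb : b ∈ Set.range π
    · exact ⟨(1, 0), Or.inl ⟨hb, rfl, rfl⟩⟩
    · let F : Finset (α ↪ β) := Finset.univ.filter fun σ : α ↪ β =>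
        ∀ z, z ∈ Set.range σ ↔ z = b ∨ (z ∈ Set.range π ∧ z ≠ π a)
      have hF : F.Nonempty := by
        have hinj : Function.Injective (Function.update π a b) := by
          intro x y hxy
          by_cases hx : x = a
          · by_cases hy : y = a
            · rw [hx, hy]
            · exfalso
              rw [hx, Function.update_self, Function.update_of_ne hy] at hxy
              exact hb ⟨y, hxy.symm⟩
          · by_cases hy : y = a
            · exfalso
              rw [hy, Function.update_self, Function.update_of_ne hx] at hxy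
              exact hb ⟨x, hxy⟩
            · rw [Function.update_of_ne hx, Function.update_of_ne hy] at hxy
              exact π.injective hxy
        refine ⟨⟨Function.update π a b, hinj⟩, ?_⟩
        simp only [F, Finset.mem_filter, Finset.mem_univ, true_and]
        intro z
        constructor
        · rintro ⟨x, hx⟩
          simp only [Function.Embedding.coeFn_mk] at hx
          by_cases hxa : x = a
          · left
            rw [hxa, Function.update_self] at hx
            exact hx.symm
          · right
            rw [Function.update_of_ne hxa] at hx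
            refine ⟨⟨x, hx⟩, ?_⟩
            rintro rfl
            exact hxa (π.injective hx)
        · rintro (rfl | ⟨⟨x, rfl⟩, hx⟩)
          · exact ⟨a, by simp⟩
          · refine ⟨x, ?_⟩
            simp only [Function.Embedding.coeFn_mk]
            rw [Function.update_of_ne]
            rintro rfl
            exact hx rfl
      obtain ⟨σ, hσ, hmin⟩ := Finset.exists_min_image F
        (fun σ => val A B h 0 σ - val A B h 0 π) hF
      refine ⟨(val A B h 0 σ - val A B h 0 π, B b - B (π a)), Or.inr ⟨hb, rfl, ?_, σ, ?_, rfl⟩⟩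
      · intro σ' hσ'
        exact hmin σ' (by simpa [F] using hσ')
      · simpa [F] using hσ
  choose p hp using key
  refine ⟨fun k => (p k).1, fun k => (p k).2, fun t => ⟨?_, ?_⟩⟩
  · intro hU k
    rcases hp k with ⟨_, h1, h2⟩ | ⟨hb, hw, _, σ, hσ, hc⟩
    · show 0 < (p k).1 + dt t (p k).2
      rw [h1, h2]
      simp [dt]
    · show 0 < (p k).1 + dt t (p k).2
      have hne : σ ≠ π := by
        rintro rfl
        exact hb ((hσ k.2).2 (Or.inl rfl))
      have h1 := hU σ hne
      rw [val_eq A B h t σ, val_eq A B h t π, sum_swap B π σ k.1 k.2 hb hσ,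
        Pool.Agent.ROT.dt_add_right] at h1
      rw [hw, hc]
      linarith
  · intro hk
    by_contra hU
    unfold Uo at hU
    push Not at hU
    obtain ⟨σ0, hσ0, hle0⟩ := hU
    obtain ⟨R, hR, hmin⟩ := Finset.exists_min_image
      (Finset.univ.filter fun σ : α ↪ β => σ ≠ π) (fun σ => val A B h t σ)
      ⟨σ0, by simpa using hσ0⟩
    have hRne : R ≠ π := by simpa using hR
    have hRle : val A B h t R ≤ val A B h t π :=
      le_trans (hmin σ0 (by simpa using hσ0)) hle0
    have hrange : ∃ a, π a ∉ Set.range R := by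
      by_contra hcon
      push Not at hcon
      have hsub : Finset.univ.map π ⊆ Finset.univ.map R := by
        intro z hz
        simp only [Finset.mem_map, Finset.mem_univ, true_and] at hz ⊢
        obtain ⟨a, rfl⟩ := hz
        exact hcon a
      have heq : Finset.univ.map π = Finset.univ.map R :=
        Finset.eq_of_subset_of_card_le hsub (by simp)
      have hsame : ∀ z, z ∈ Set.range R ↔ z ∈ Set.range π := by
        intro z
        have : z ∈ Finset.univ.map π ↔ z ∈ Finset.univ.map R := by rw [heq]
        simp only [Finset.mem_map, Finset.mem_univ, true_and] at this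
        simp only [Set.mem_range]
        exact this.symm
      have h1 := ht0 R hRne
      rw [val_eq A B h t0 R, val_eq A B h t0 π, sum_same B π R hsame] at h1
      rw [val_eq A B h t R, val_eq A B h t π, sum_same B π R hsame] at hRle
      linarith
    obtain ⟨a, ha⟩ := hrange
    obtain ⟨μ, _, hμ⟩ := path_bij π R
    obtain ⟨_, hμ2, π', R', hπ', _, hex⟩ := hμ (π a) ⟨a, rfl⟩ ha
    rcases hp (a, μ (π a)) with ⟨h1, _, _⟩ | ⟨hb, hw, hc, _⟩
    · exact hμ2 h1
    · have h2 := hc π' hπ'
      have h3 : 0 < (p (a, μ (π a))).1 + dt t (p (a, μ (π a))).2 := hk (a, μ (π a))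
      have h4 : val A B h t π < val A B h t π' := by
        rw [val_eq A B h t π, val_eq A B h t π', sum_swap B π π' a (μ (π a)) hμ2 hπ',
          Pool.Agent.ROT.dt_add_right]
        rw [hw] at h3
        simp only at h3
        linarith
      have h5 : val A B h t π' + val A B h t R' = val A B h t π + val A B h t R := by
        unfold val
        rw [← Finset.sum_add_distrib, ← Finset.sum_add_distrib]
        apply Finset.sum_congr rfl
        intro i _
        rcases hex i with ⟨e1, e2⟩ | ⟨e1, e2⟩
        · rw [e1, e2]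
        · rw [e1, e2]
          ring
      by_cases hR' : R' = π
      · rw [hR'] at h5
        linarith
      · have h6 := hmin R' (by simpa using hR')
        linarith

end Pool.Agent.H63.SX
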