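import Pool.Agent.H63.SX.Solve

/-!
# SX-31: numerical estimates

`PP n = 2 n² (n² + 1) + 1`, `KK n = (n+3)^4 (1 + 5 n + (5n)²) + n²`,
`Lam n = 2000 log (4 PP n KK n)`.  Let `m ≥ 1`, `M = m²`, `n ≥ m`, `x = 1 + log m ≥ 1`.

* `PP M ≤ 5 m^8`, `KK M ≤ (4 m²)^4 * 31 m^4 + m^4 ≤ 8000 m^12`, so `4 PP M KK M ≤ 160000 m^20` and
  `log (...) ≤ 12 + 20 log m ≤ 20 x` (`160000 ≤ exp 12`; `Real.exp_one_gt_d9`, `2.7^12 > 160000`;
  or use a cruder constant in `num_gen`: any explicit constant is fine, the constant `50000` leaves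
  room), so `Lam M ≤ 40000 x`.
* `L = m n²`: `1 + L + L.choose 2 ≤ 3 m² n⁴` (`Nat.choose_two_right` or `Nat.choose_le_pow_div`;
  `L ≥ 1`: `1 + L + L²/2 ≤ 3 L²`), and `3 m² ≤ exp (2 x)` (`3 ≤ exp 2`, `m = exp (log m)`).
* `num_gen`: the product is at most `n⁴ exp (2 x + 40000 x √x √m)`, and
  `√(m x³) = √m x √x` (`√m ≥ 1`, `√x ≥ 1`), so `2 x ≤ 2 √(m x³)`; `40002 ≤ 50000`.
* `num_col`: let `k = Nat.clog 2 m`; `k ≤ 1 + log m / log 2` (for `m ≥ 2`: `2^(k-1) < m`,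
  `Nat.pow_pred_clog_lt_self`; `m = 1`: `k = 0`), so `k ≤ 1.45 x` (`log 2 ≥ 0.69`,
  `Real.log_two_gt_d9`: `1 + 1.45 log m ≤ 1.45 x`).
  `M * PP M ≤ 5 m^10 = exp (log 5 + 10 log m) ≤ exp (10 x)`, so
  `(M PP M)^k * M ≤ exp (14.5 x² + 2 x) ≤ exp (16.5 x²)`; with the prefactor
  `3 m² n⁴ ≤ n⁴ exp (2 x)`: total `≤ n⁴ exp (18.5 x²)`.
-/

set_option autoImplicit false

namespace Pool.Agent.H63.SX

theorem Num_pre {m n : ℕ} (hm : 1 ≤ m) (hn : m ≤ n) :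
    ((1 + m * n ^ 2 + (m * n ^ 2).choose 2 : ℕ) : ℝ) ≤
      (n : ℝ) ^ 4 * Real.exp (2 * (1 + Real.log m)) := by
  have hm' : (1 : ℝ) ≤ m := by exact_mod_cast hm
  have hn' : (m : ℝ) ≤ n := by exact_mod_cast hn
  have hL : (1 : ℝ) ≤ (m : ℝ) * (n : ℝ) ^ 2 := by nlinarith
  have h1 : ((1 + m * n ^ 2 + (m * n ^ 2).choose 2 : ℕ) : ℝ) ≤
      3 * ((m : ℝ) * (n : ℝ) ^ 2) ^ 2 := by
    push_cast
    rw [Nat.cast_choose_two]
    push_cast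
    nlinarith
  have h2 : (3 : ℝ) * (m : ℝ) ^ 2 ≤ Real.exp (2 * (1 + Real.log m)) := by
    have h3 : Real.exp (2 * (1 + Real.log m)) = Real.exp 1 ^ 2 * (m : ℝ) ^ 2 := by
      have h4 : 2 * (1 + Real.log m) = 1 + 1 + (Real.log m + Real.log m) := by ring
      rw [h4, Real.exp_add, Real.exp_add, Real.exp_add, Real.exp_log (by linarith)]
      ring
    rw [h3]
    have h5 := Real.exp_one_gt_d9
    have h6 : (3 : ℝ) ≤ Real.exp 1 ^ 2 := by nlinarith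
    have h7 : (0 : ℝ) ≤ (m : ℝ) ^ 2 := by positivity
    nlinarith
  calc ((1 + m * n ^ 2 + (m * n ^ 2).choose 2 : ℕ) : ℝ) ≤ 3 * ((m : ℝ) * (n : ℝ) ^ 2) ^ 2 := h1
    _ = (n : ℝ) ^ 4 * (3 * (m : ℝ) ^ 2) := by ring
    _ ≤ (n : ℝ) ^ 4 * Real.exp (2 * (1 + Real.log m)) :=
        mul_le_mul_of_nonneg_left h2 (by positivity)

theorem Num_PP {m : ℕ} (hm : 1 ≤ m) : (PP (m ^ 2) : ℝ) ≤ 5 * (m : ℝ) ^ 8 := by
  have hm' : (1 : ℝ) ≤ m := by exact_mod_cast hm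
  unfold PP
  push_cast
  have h4 : (1 : ℝ) ≤ (m : ℝ) ^ 4 := one_le_pow₀ hm'
  have e1 : ((m : ℝ) ^ 2) ^ 2 = (m : ℝ) ^ 4 := by ring
  have e2 : (m : ℝ) ^ 8 = (m : ℝ) ^ 4 * (m : ℝ) ^ 4 := by ring
  rw [e1, e2]
  nlinarith

theorem Num_KK {m : ℕ} (hm : 1 ≤ m) : (KK (m ^ 2) : ℝ) ≤ 8000 * (m : ℝ) ^ 12 := by
  have hm' : (1 : ℝ) ≤ m := by exact_mod_cast hm
  unfold KK
  push_cast
  have h2 : (1 : ℝ) ≤ (m : ℝ) ^ 2 := one_le_pow₀ hm'
  have h4 : (1 : ℝ) ≤ (m : ℝ) ^ 4 := one_le_pow₀ hm'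
  have h8 : (1 : ℝ) ≤ (m : ℝ) ^ 8 := one_le_pow₀ hm'
  have a1 : ((m : ℝ) ^ 2 + 3) ^ 4 ≤ (4 * (m : ℝ) ^ 2) ^ 4 := by
    apply pow_le_pow_left₀ (by positivity)
    linarith
  have a2 : 1 + 5 * (m : ℝ) ^ 2 + (5 * (m : ℝ) ^ 2) ^ 2 ≤ 31 * (m : ℝ) ^ 4 := by
    have e1 : (5 * (m : ℝ) ^ 2) ^ 2 = 25 * (m : ℝ) ^ 4 := by ring
    have e2 : (m : ℝ) ^ 4 = (m : ℝ) ^ 2 * (m : ℝ) ^ 2 := by ring
    rw [e1]
    nlinarith
  have a3 : ((m : ℝ) ^ 2 + 3) ^ 4 * (1 + 5 * (m : ℝ) ^ 2 + (5 * (m : ℝ) ^ 2) ^ 2) ≤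
      (4 * (m : ℝ) ^ 2) ^ 4 * (31 * (m : ℝ) ^ 4) :=
    mul_le_mul a1 a2 (by positivity) (by positivity)
  have e3 : (4 * (m : ℝ) ^ 2) ^ 4 * (31 * (m : ℝ) ^ 4) = 7936 * (m : ℝ) ^ 12 := by ring
  have e4 : ((m : ℝ) ^ 2) ^ 2 = (m : ℝ) ^ 4 := by ring
  have e5 : (m : ℝ) ^ 12 = (m : ℝ) ^ 4 * (m : ℝ) ^ 8 := by ring
  have a5 : (m : ℝ) ^ 4 ≤ (m : ℝ) ^ 12 := by
    rw [e5]
    nlinarith
  rw [e4]
  rw [e3] at a3
  linarith

theorem Num_exp12 : (160000 : ℝ) ≤ Real.exp 12 := by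
  have h5 := Real.exp_one_gt_d9
  have h1 : Real.exp 12 = Real.exp 1 ^ 12 := by
    rw [← Real.exp_nat_mul]
    norm_num
  rw [h1]
  calc (160000 : ℝ) ≤ (2.718 : ℝ) ^ 12 := by norm_num
    _ ≤ Real.exp 1 ^ 12 := pow_le_pow_left₀ (by norm_num) (by linarith) 12

theorem Num_Lam {m : ℕ} (hm : 1 ≤ m) : Lam (m ^ 2) ≤ 40000 * (1 + Real.log m) := by
  have hm' : (1 : ℝ) ≤ m := by exact_mod_cast hm
  have hm0 : (0 : ℝ) < m := by linarith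
  unfold Lam
  have hP0 : (1 : ℝ) ≤ PP (m ^ 2) := by
    have : 1 ≤ PP (m ^ 2) := by unfold PP; omega
    exact_mod_cast this
  have hK0 : (1 : ℝ) ≤ KK (m ^ 2) := by
    have : 1 ≤ KK (m ^ 2) := by
      unfold KK
      have : 0 < (m ^ 2 + 3) ^ 4 * (1 + 5 * m ^ 2 + (5 * m ^ 2) ^ 2) := by positivity
      omega
    exact_mod_cast this
  have h1 : 4 * (PP (m ^ 2) : ℝ) * (KK (m ^ 2) : ℝ) ≤ 160000 * (m : ℝ) ^ 20 := by
    have h2 : (PP (m ^ 2) : ℝ) * (KK (m ^ 2) : ℝ) ≤ (5 * (m : ℝ) ^ 8) * (8000 * (m : ℝ) ^ 12) :=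
      mul_le_mul (Num_PP hm) (Num_KK hm) (by linarith) (by positivity)
    have h3 : (5 * (m : ℝ) ^ 8) * (8000 * (m : ℝ) ^ 12) = 40000 * (m : ℝ) ^ 20 := by ring
    rw [h3] at h2
    linarith
  have h4 : Real.log (4 * (PP (m ^ 2) : ℝ) * (KK (m ^ 2) : ℝ)) ≤
      Real.log (160000 * (m : ℝ) ^ 20) :=
    Real.log_le_log (by positivity) h1
  have h5 : Real.log (160000 * (m : ℝ) ^ 20) = Real.log 160000 + 20 * Real.log m := by
    rw [Real.log_mul (by norm_num) (by positivity), Real.log_pow]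
    norm_num
  have h6 : Real.log 160000 ≤ 12 := by
    rw [Real.log_le_iff_le_exp (by norm_num)]
    exact Num_exp12
  have h7 : 0 ≤ Real.log m := Real.log_nonneg hm'
  linarith

theorem num_gen {m n : ℕ} (hm : 1 ≤ m) (hn : m ≤ n) :
    ((1 + m * n ^ 2 + (m * n ^ 2).choose 2 : ℕ) : ℝ) *
      Real.exp (Lam (m ^ 2) * √(1 + Real.log m) * √m) ≤
      (n : ℝ) ^ 4 * Real.exp (50000 * √(m * (1 + Real.log m) ^ 3)) := by
  have hm' : (1 : ℝ) ≤ m := by exact_mod_cast hm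
  have h7 : 0 ≤ Real.log m := Real.log_nonneg hm'
  set x : ℝ := 1 + Real.log m with hx
  have hx1 : 1 ≤ x := by linarith
  have hs : √(m * x ^ 3) = √m * (x * √x) := by
    rw [Real.sqrt_mul (by linarith)]
    congr 1
    have h8 : x ^ 3 = x ^ 2 * x := by ring
    rw [h8, Real.sqrt_mul (by positivity), Real.sqrt_sq (by linarith)]
  have hsm : 1 ≤ √(m : ℝ) := Real.one_le_sqrt.2 hm'
  have hsx : 1 ≤ √x := Real.one_le_sqrt.2 hx1
  have h9 : x ≤ √m * (x * √x) := by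
    have h10 : x ≤ x * √x := by nlinarith
    have h11 : x * √x ≤ √m * (x * √x) := by
      have : 0 ≤ x * √x := by positivity
      nlinarith
    linarith
  have h12 : Lam (m ^ 2) * √x * √m ≤ 40000 * (√m * (x * √x)) := by
    have h13 : Lam (m ^ 2) * (√x * √m) ≤ 40000 * x * (√x * √m) :=
      mul_le_mul_of_nonneg_right (Num_Lam hm) (by positivity)
    calc Lam (m ^ 2) * √x * √m = Lam (m ^ 2) * (√x * √m) := by ring
      _ ≤ 40000 * x * (√x * √m) := h13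
      _ = 40000 * (√m * (x * √x)) := by ring
  calc ((1 + m * n ^ 2 + (m * n ^ 2).choose 2 : ℕ) : ℝ) * Real.exp (Lam (m ^ 2) * √x * √m)
      ≤ ((n : ℝ) ^ 4 * Real.exp (2 * x)) * Real.exp (40000 * (√m * (x * √x))) :=
        mul_le_mul (Num_pre hm hn) (Real.exp_le_exp.2 h12) (Real.exp_pos _).le (by positivity)
    _ = (n : ℝ) ^ 4 * Real.exp (2 * x + 40000 * (√m * (x * √x))) := by
        rw [Real.exp_add]; ring
    _ ≤ (n : ℝ) ^ 4 * Real.exp (50000 * √(m * x ^ 3)) := by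
        apply mul_le_mul_of_nonneg_left _ (by positivity)
        apply Real.exp_le_exp.2
        rw [hs]
        linarith

theorem Num_clog {m : ℕ} (hm : 1 ≤ m) : (Nat.clog 2 m : ℝ) ≤ 1.45 * (1 + Real.log m) := by
  have hm' : (1 : ℝ) ≤ m := by exact_mod_cast hm
  have h7 : 0 ≤ Real.log m := Real.log_nonneg hm'
  rcases Nat.lt_or_ge 1 m with h1 | h1
  · have hk : 0 < Nat.clog 2 m := Nat.clog_pos (by norm_num) h1
    have h2 : 2 ^ (Nat.clog 2 m).pred < m := Nat.pow_pred_clog_lt_self (by norm_num) h1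
    have h3 : (2 : ℝ) ^ (Nat.clog 2 m).pred ≤ m := by exact_mod_cast h2.le
    have h4 := Real.log_le_log (by positivity) h3
    rw [Real.log_pow] at h4
    have h5 : ((Nat.clog 2 m).pred : ℝ) = (Nat.clog 2 m : ℝ) - 1 := by
      have : Nat.clog 2 m = (Nat.clog 2 m).pred + 1 := (Nat.succ_pred_eq_of_pos hk).symm
      rw [this]
      push_cast
      simp
    rw [h5] at h4
    have h6 := Real.log_two_gt_d9
    have h8 : (0 : ℝ) ≤ (Nat.clog 2 m : ℝ) - 1 := by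
      have : (1 : ℝ) ≤ (Nat.clog 2 m : ℝ) := by exact_mod_cast hk
      linarith
    nlinarith
  · have h2 : m = 1 := by omega
    subst h2
    simp only [Nat.clog_one_right, Nat.cast_zero, Nat.cast_one, Real.log_one]
    norm_num

theorem num_col {m n : ℕ} (hm : 1 ≤ m) (hn : m ≤ n) :
    ((1 + m * n ^ 2 + (m * n ^ 2).choose 2 : ℕ) : ℝ) *
      (((m ^ 2 * PP (m ^ 2)) ^ (Nat.clog 2 m) * m ^ 2 : ℕ) : ℝ) ≤
      (n : ℝ) ^ 4 * Real.exp (20 * (1 + Real.log m) ^ 2) := by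
  have hm' : (1 : ℝ) ≤ m := by exact_mod_cast hm
  have hm0 : (0 : ℝ) < m := by linarith
  have h7 : 0 ≤ Real.log m := Real.log_nonneg hm'
  have hc := Num_clog hm
  set k := Nat.clog 2 m with hk
  set x : ℝ := 1 + Real.log m with hx
  have hx1 : 1 ≤ x := by linarith
  have hmx : (m : ℝ) ≤ Real.exp x := by
    rw [hx, Real.exp_add, Real.exp_log hm0]
    have h5 := Real.exp_one_gt_d9
    nlinarith
  have h1 : ((m ^ 2 * PP (m ^ 2) : ℕ) : ℝ) ≤ Real.exp (10 * x) := by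
    push_cast
    have h2 : (m : ℝ) ^ 2 * (PP (m ^ 2) : ℝ) ≤ (m : ℝ) ^ 2 * (5 * (m : ℝ) ^ 8) :=
      mul_le_mul_of_nonneg_left (Num_PP hm) (by positivity)
    have h3 : Real.exp (10 * x) = Real.exp 10 * (m : ℝ) ^ 10 := by
      have h4 : 10 * x = 10 + ((10 : ℕ) : ℝ) * Real.log m := by rw [hx]; push_cast; ring
      rw [h4, Real.exp_add, Real.exp_nat_mul, Real.exp_log hm0]
    rw [h3]
    have h5 : (5 : ℝ) ≤ Real.exp 10 := by
      have := Real.add_one_le_exp (10 : ℝ)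
      linarith
    have h6 : (0 : ℝ) ≤ (m : ℝ) ^ 10 := by positivity
    calc (m : ℝ) ^ 2 * (PP (m ^ 2) : ℝ) ≤ (m : ℝ) ^ 2 * (5 * (m : ℝ) ^ 8) := h2
      _ = 5 * (m : ℝ) ^ 10 := by ring
      _ ≤ Real.exp 10 * (m : ℝ) ^ 10 := mul_le_mul_of_nonneg_right h5 h6
  have h8 : (((m ^ 2 * PP (m ^ 2)) ^ k * m ^ 2 : ℕ) : ℝ) ≤ Real.exp (16.5 * x ^ 2) := by
    have e1 : (((m ^ 2 * PP (m ^ 2)) ^ k * m ^ 2 : ℕ) : ℝ) =
        ((m ^ 2 * PP (m ^ 2) : ℕ) : ℝ) ^ k * (m : ℝ) ^ 2 := by push_cast; ring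
    rw [e1]
    have h9 : ((m ^ 2 * PP (m ^ 2) : ℕ) : ℝ) ^ k ≤ Real.exp (10 * x) ^ k :=
      pow_le_pow_left₀ (by positivity) h1 k
    have h10 : Real.exp (10 * x) ^ k = Real.exp ((k : ℝ) * (10 * x)) :=
      (Real.exp_nat_mul _ _).symm
    have h11 : (m : ℝ) ^ 2 ≤ Real.exp (2 * x) := by
      have h12 : Real.exp (2 * x) = Real.exp x ^ 2 := by
        rw [← Real.exp_nat_mul]; norm_num
      rw [h12]
      exact pow_le_pow_left₀ (by linarith) hmx 2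
    calc ((m ^ 2 * PP (m ^ 2) : ℕ) : ℝ) ^ k * (m : ℝ) ^ 2
        ≤ Real.exp ((k : ℝ) * (10 * x)) * Real.exp (2 * x) := by
          rw [← h10]
          exact mul_le_mul h9 h11 (by positivity) (by positivity)
      _ = Real.exp ((k : ℝ) * (10 * x) + 2 * x) := (Real.exp_add _ _).symm
      _ ≤ Real.exp (16.5 * x ^ 2) := by
          apply Real.exp_le_exp.2
          have h13 : (k : ℝ) * (10 * x) ≤ 1.45 * x * (10 * x) :=
            mul_le_mul_of_nonneg_right hc (by positivity)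
          nlinarith
  calc ((1 + m * n ^ 2 + (m * n ^ 2).choose 2 : ℕ) : ℝ) *
      (((m ^ 2 * PP (m ^ 2)) ^ k * m ^ 2 : ℕ) : ℝ)
      ≤ ((n : ℝ) ^ 4 * Real.exp (2 * x)) * Real.exp (16.5 * x ^ 2) :=
        mul_le_mul (Num_pre hm hn) h8 (by positivity) (by positivity)
    _ = (n : ℝ) ^ 4 * Real.exp (2 * x + 16.5 * x ^ 2) := by rw [Real.exp_add]; ring
    _ ≤ (n : ℝ) ^ 4 * Real.exp (20 * x ^ 2) := by
        apply mul_le_mul_of_nonneg_left _ (by positivity)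
        apply Real.exp_le_exp.2
        nlinarith

end Pool.Agent.H63.SX
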