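import Pool.Agent.H63.SX.Line
import Pool.Agent.H63.SX.Loc

/-!
# SX-06: the overlay of two problems

Let `N1 = card α1 * card β1`, `N2 = card α2 * card β2`, `X = So A1 B1 h1`, `Y = So A2 B2 h2`, and
`reg x = {t | Uo .. t x}`.  For every `x ∈ X` choose `c x`, `w x` from `local_ineq` (functions on
`α1 × β1`), and similarly for `y ∈ Y`.  A region is convex: it is an intersection of half planes.

Let `(x,y)` be in the set on the left, with the point `p`.
 (a) If some `q ∈ reg y \ reg x` exists: there is `k` with `c x k + <q, w x k> ≤ 0` and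
     `c x k + <p, w x k> > 0`; so at some point `r = (1-θ) p + θ q`, `0 < θ ≤ 1`, this affine
     function vanishes, and `r ∈ reg y` by convexity (all inequalities of `y` hold at `p` and
     at `q`).  Also `w x k ≠ 0`.  So `y` belongs to
     `L x k = {y ∈ Y | ∃ r, r ∈ reg y ∧ c x k + <r, w x k> = 0}` where `w x k ≠ 0`.
     The points of the line `c x k + <r, w x k> = 0` are `p0 + z v` with a fixed point `p0` of the
     line and `v = rot (w x k)`, `z : ℝ`; so `(L x k).card ≤ N2 + 1` by `line_count`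
     (if the line has no point then `L x k` is empty).
     The number of pairs of this kind is `≤ ∑_{x ∈ X} ∑_k (N2 + 1) = X.card * (N1 * (N2 + 1))`.
 (b) If some `q ∈ reg x \ reg y` exists: in the same way at most `Y.card * (N2 * (N1 + 1))` pairs.
 (c) Otherwise `reg x = reg y`; the map `(x,y) ↦ x` is injective on these pairs: if
     `reg y = reg x = reg y'` then at a common point both `y` and `y'` are the unique optimum, so
     `y = y'`.  So there are at most `X.card` pairs.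
-/

set_option autoImplicit false

namespace Pool.Agent.H63.SX

open Pool.Agent.ROT (cr dt rot)

theorem pairs_param {c : ℝ} {w r : ℝ × ℝ} (hw : w ≠ 0) (hr : c + dt r w = 0) :
    ∃ z : ℝ, r = (-c / dt w w) • w + z • rot w := by
  have hpos : 0 < dt w w := by
    unfold dt
    rcases eq_or_ne w.1 0 with h1 | h1
    · have h2 : w.2 ≠ 0 := fun h2 => hw (Prod.ext h1 h2)
      have := mul_self_pos.2 h2
      rw [h1]
      linarith
    · have := mul_self_pos.2 h1
      have := mul_self_nonneg w.2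
      linarith
  refine ⟨dt r (rot w) / dt w w, ?_⟩
  have hc : -c = dt r w := by linarith
  rw [hc]
  have hne : w.1 * w.1 + w.2 * w.2 ≠ 0 := hpos.ne'
  ext
  · simp only [dt, rot, Prod.fst_add, Prod.smul_fst, smul_eq_mul]
    rw [div_mul_eq_mul_div, div_mul_eq_mul_div, ← add_div, eq_div_iff hne]
    ring
  · simp only [dt, rot, Prod.snd_add, Prod.smul_snd, smul_eq_mul]
    rw [div_mul_eq_mul_div, div_mul_eq_mul_div, ← add_div, eq_div_iff hne]
    ring

open Classical in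
theorem pairs_half {κ α2 β2 : Type} [Fintype κ] [Fintype α2] [Fintype β2]
    (A2 : α2 → ℝ × ℝ) (B2 : β2 → ℝ × ℝ) (h2 : β2 → ℝ) (c : κ → ℝ) (w : κ → ℝ × ℝ) :
    ((So A2 B2 h2).filter fun y => ∃ k : κ, w k ≠ 0 ∧ ∃ r, c k + dt r (w k) = 0 ∧
      Uo A2 B2 h2 r y).card ≤ Fintype.card κ * (Fintype.card α2 * Fintype.card β2 + 1) := by
  have hsub : ((So A2 B2 h2).filter fun y => ∃ k : κ, w k ≠ 0 ∧ ∃ r, c k + dt r (w k) = 0 ∧
      Uo A2 B2 h2 r y) ⊆ Finset.univ.biUnion fun k : κ => (So A2 B2 h2).filter fun y =>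
        ∃ z : ℝ, Uo A2 B2 h2 ((-c k / dt (w k) (w k)) • w k + z • rot (w k)) y := by
    intro y hy
    rw [Finset.mem_filter] at hy
    obtain ⟨hy1, k, hk, r, hr, hU⟩ := hy
    rw [Finset.mem_biUnion]
    refine ⟨k, Finset.mem_univ _, ?_⟩
    rw [Finset.mem_filter]
    obtain ⟨z, hz⟩ := pairs_param hk hr
    exact ⟨hy1, z, by rw [← hz]; exact hU⟩
  refine (Finset.card_le_card hsub).trans (Finset.card_biUnion_le.trans ?_)
  refine (Finset.sum_le_sum fun k _ => line_count A2 B2 h2 _ _).trans ?_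
  rw [Finset.sum_const, Finset.card_univ, smul_eq_mul]

/-- crossing: if `x` is optimal at `p` but not at `q`, and `y` at both, then `y` meets a line of
`x`. -/
theorem pairs_cross {κ κ' : Type} {c : κ → ℝ} {w : κ → ℝ × ℝ} {c' : κ' → ℝ}
    {w' : κ' → ℝ × ℝ} {p q : ℝ × ℝ} (hp : ∀ k, 0 < c k + dt p (w k))
    (hq : ¬ ∀ k, 0 < c k + dt q (w k)) (hp' : ∀ k, 0 < c' k + dt p (w' k))
    (hq' : ∀ k, 0 < c' k + dt q (w' k)) :
    ∃ k, w k ≠ 0 ∧ ∃ r, c k + dt r (w k) = 0 ∧ ∀ k', 0 < c' k' + dt r (w' k') := by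
  push Not at hq
  obtain ⟨k, hk⟩ := hq
  have h1 := hp k
  set a := c k + dt p (w k) with ha
  set b := c k + dt q (w k) with hb
  have hab : 0 < a - b := by linarith
  set θ := a / (a - b) with hθ
  have h0 : 0 < θ := div_pos h1 hab
  have h01 : θ ≤ 1 := by
    rw [hθ, div_le_one hab]
    linarith
  have haff : ∀ (C : ℝ) (W : ℝ × ℝ), C + dt ((1 - θ) • p + θ • q) W =
      (1 - θ) * (C + dt p W) + θ * (C + dt q W) := by
    intro C W
    simp only [dt, Prod.fst_add, Prod.snd_add, Prod.smul_fst, Prod.smul_snd, smul_eq_mul]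
    ring
  refine ⟨k, ?_, (1 - θ) • p + θ • q, ?_, fun k' => ?_⟩
  · intro hw
    rw [hw] at ha hb
    have e1 : dt p (0 : ℝ × ℝ) = 0 := by simp [dt]
    have e2 : dt q (0 : ℝ × ℝ) = 0 := by simp [dt]
    rw [e1] at ha
    rw [e2] at hb
    linarith
  · rw [haff, ← ha, ← hb, hθ]
    field_simp
    ring
  · rw [haff]
    have h3 := hp' k'
    have h4 := hq' k'
    have h5 : 0 ≤ (1 - θ) * (c' k' + dt p (w' k')) := mul_nonneg (by linarith) h3.le
    have h6 : 0 < θ * (c' k' + dt q (w' k')) := mul_pos h0 h4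
    linarith

open Classical in
theorem pairs_card {α1 β1 α2 β2 : Type} [Fintype α1] [Fintype β1] [Fintype α2] [Fintype β2]
    (A1 : α1 → ℝ × ℝ) (B1 : β1 → ℝ × ℝ) (h1 : β1 → ℝ)
    (A2 : α2 → ℝ × ℝ) (B2 : β2 → ℝ × ℝ) (h2 : β2 → ℝ) :
    ((So A1 B1 h1 ×ˢ So A2 B2 h2).filter fun x =>
        ∃ t, Uo A1 B1 h1 t x.1 ∧ Uo A2 B2 h2 t x.2).card ≤
      (So A1 B1 h1).card * (Fintype.card α1 * Fintype.card β1 *
        (Fintype.card α2 * Fintype.card β2 + 1) + 1) +
      (So A2 B2 h2).card * (Fintype.card α2 * Fintype.card β2 *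
        (Fintype.card α1 * Fintype.card β1 + 1)) := by
  have hl1 : ∀ x : α1 ↪ β1, ∃ (c : α1 × β1 → ℝ) (w : α1 × β1 → ℝ × ℝ), x ∈ So A1 B1 h1 →
      ∀ t, Uo A1 B1 h1 t x ↔ ∀ k, 0 < c k + dt t (w k) := by
    intro x
    by_cases hx : x ∈ So A1 B1 h1
    · obtain ⟨c, w, hcw⟩ := local_ineq A1 B1 h1 (mem_So.1 hx)
      exact ⟨c, w, fun _ => hcw⟩
    · exact ⟨0, 0, fun h => absurd h hx⟩
  have hl2 : ∀ x : α2 ↪ β2, ∃ (c : α2 × β2 → ℝ) (w : α2 × β2 → ℝ × ℝ), x ∈ So A2 B2 h2 →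
      ∀ t, Uo A2 B2 h2 t x ↔ ∀ k, 0 < c k + dt t (w k) := by
    intro x
    by_cases hx : x ∈ So A2 B2 h2
    · obtain ⟨c, w, hcw⟩ := local_ineq A2 B2 h2 (mem_So.1 hx)
      exact ⟨c, w, fun _ => hcw⟩
    · exact ⟨0, 0, fun h => absurd h hx⟩
  choose c1 w1 hc1 using hl1
  choose c2 w2 hc2 using hl2
  set S1 := So A1 B1 h1 with hS1
  set S2 := So A2 B2 h2 with hS2
  set L1 : (α1 ↪ β1) → Finset (α2 ↪ β2) := fun x => S2.filter fun y =>
    ∃ k : α1 × β1, w1 x k ≠ 0 ∧ ∃ r, c1 x k + dt r (w1 x k) = 0 ∧ Uo A2 B2 h2 r y with hL1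
  set L2 : (α2 ↪ β2) → Finset (α1 ↪ β1) := fun y => S1.filter fun x =>
    ∃ k : α2 × β2, w2 y k ≠ 0 ∧ ∃ r, c2 y k + dt r (w2 y k) = 0 ∧ Uo A1 B1 h1 r x with hL2
  have hL1c : ∀ x, (L1 x).card ≤ Fintype.card α1 * Fintype.card β1 *
      (Fintype.card α2 * Fintype.card β2 + 1) := by
    intro x
    have := pairs_half A2 B2 h2 (c1 x) (w1 x)
    rw [Fintype.card_prod] at this
    exact this
  have hL2c : ∀ y, (L2 y).card ≤ Fintype.card α2 * Fintype.card β2 *
      (Fintype.card α1 * Fintype.card β1 + 1) := by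
    intro y
    have := pairs_half A1 B1 h1 (c2 y) (w2 y)
    rw [Fintype.card_prod] at this
    exact this
  set R3 := (S1 ×ˢ S2).filter fun x => (∃ t, Uo A1 B1 h1 t x.1 ∧ Uo A2 B2 h2 t x.2) ∧
    ∀ t, Uo A1 B1 h1 t x.1 ↔ Uo A2 B2 h2 t x.2 with hR3
  have hR3c : R3.card ≤ S1.card := by
    refine Finset.card_le_card_of_injOn Prod.fst ?_ ?_
    · intro x hx
      rw [Finset.mem_coe, hR3, Finset.mem_filter, Finset.mem_product] at hx
      exact hx.1.1
    · intro x hx y hy hxy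
      rw [Finset.mem_coe, hR3, Finset.mem_filter, Finset.mem_product] at hx hy
      obtain ⟨-, ⟨t, ht1, ht2⟩, hx3⟩ := hx
      obtain ⟨-, -, hy3⟩ := hy
      have h5 : Uo A2 B2 h2 t y.2 := (hy3 t).1 (hxy ▸ ht1)
      refine Prod.ext hxy ?_
      by_contra hne
      have a1 := ht2 y.2 (Ne.symm hne)
      have a2 := h5 x.2 hne
      linarith
  have hsub : ((S1 ×ˢ S2).filter fun x => ∃ t, Uo A1 B1 h1 t x.1 ∧ Uo A2 B2 h2 t x.2) ⊆
      (S1.biUnion fun x => (L1 x).image fun y => (x, y)) ∪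
        (S2.biUnion fun y => (L2 y).image fun x => (x, y)) ∪ R3 := by
    rintro ⟨x, y⟩ hxy
    rw [Finset.mem_filter, Finset.mem_product] at hxy
    obtain ⟨⟨hx, hy⟩, p, hp1, hp2⟩ := hxy
    dsimp only at hx hy hp1 hp2
    rw [Finset.mem_union, Finset.mem_union]
    by_cases hA : ∃ q, Uo A2 B2 h2 q y ∧ ¬ Uo A1 B1 h1 q x
    · left; left
      obtain ⟨q, hq2, hq1⟩ := hA
      rw [hc1 x hx] at hp1 hq1
      have hp2' := (hc2 y hy p).1 hp2
      have hq2' := (hc2 y hy q).1 hq2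
      obtain ⟨k, hk, r, hr, hr2⟩ := pairs_cross hp1 hq1 hp2' hq2'
      rw [Finset.mem_biUnion]
      refine ⟨x, hx, Finset.mem_image.2 ⟨y, ?_, rfl⟩⟩
      rw [hL1, Finset.mem_filter]
      exact ⟨hy, k, hk, r, hr, (hc2 y hy r).2 hr2⟩
    · by_cases hB : ∃ q, Uo A1 B1 h1 q x ∧ ¬ Uo A2 B2 h2 q y
      · left; right
        obtain ⟨q, hq1, hq2⟩ := hB
        rw [hc2 y hy] at hp2 hq2
        have hp1' := (hc1 x hx p).1 hp1
        have hq1' := (hc1 x hx q).1 hq1
        obtain ⟨k, hk, r, hr, hr2⟩ := pairs_cross hp2 hq2 hp1' hq1'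
        rw [Finset.mem_biUnion]
        refine ⟨y, hy, Finset.mem_image.2 ⟨x, ?_, rfl⟩⟩
        rw [hL2, Finset.mem_filter]
        exact ⟨hx, k, hk, r, hr, (hc1 x hx r).2 hr2⟩
      · right
        rw [hR3, Finset.mem_filter, Finset.mem_product]
        refine ⟨⟨hx, hy⟩, ⟨p, hp1, hp2⟩, fun t => ⟨fun h => ?_, fun h => ?_⟩⟩
        · by_contra hcon
          exact hB ⟨t, h, hcon⟩
        · by_contra hcon
          exact hA ⟨t, h, hcon⟩
  refine (Finset.card_le_card hsub).trans ((Finset.card_union_le _ _).trans ?_)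
  have b1 : (S1.biUnion fun x => (L1 x).image fun y => (x, y)).card ≤
      S1.card * (Fintype.card α1 * Fintype.card β1 *
        (Fintype.card α2 * Fintype.card β2 + 1)) := by
    refine Finset.card_biUnion_le.trans ?_
    refine (Finset.sum_le_sum fun x _ => Finset.card_image_le.trans (hL1c x)).trans ?_
    rw [Finset.sum_const, smul_eq_mul]
  have b2 : (S2.biUnion fun y => (L2 y).image fun x => (x, y)).card ≤
      S2.card * (Fintype.card α2 * Fintype.card β2 *
        (Fintype.card α1 * Fintype.card β1 + 1)) := by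
    refine Finset.card_biUnion_le.trans ?_
    refine (Finset.sum_le_sum fun x _ => Finset.card_image_le.trans (hL2c x)).trans ?_
    rw [Finset.sum_const, smul_eq_mul]
  have b3 := (Finset.card_union_le (S1.biUnion fun x => (L1 x).image fun y => (x, y))
    (S2.biUnion fun y => (L2 y).image fun x => (x, y)))
  rw [mul_add, mul_one]
  omega

end Pool.Agent.H63.SX
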