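import Pool.Agent.H63.SX.Defs

/-!
# SX-03: the bijection given by the alternating paths of two matchings

Let `π, σ : α ↪ β` (`α` finite).  Let `R a a' := π a' = σ a` (deterministic in both directions,
since `π` and `σ` are injective).  For `x = π a0` outside of the range of `σ` let
`P = {a | ReflTransGen R a0 a}`.
The file `Pool/Agent/ROT/Mat.lean` contains the proof (theorem `exch_maps`, for `Fin m`, `Fin n`
and with `Finset` images) that there is `y` in the range of `σ` and not of `π` and that the maps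
`π'` (`= σ` on `P`, `π` off `P`) and `σ'` (`= π` on `P`, `σ` off `P`) are injective, with ranges
`range π - x + y` and `range σ - y + x`.  Moreover `y = σ a` with `a ∈ P`.  Copy this proof for
general finite `α` (in Mat.lean `Finset` cardinalities of images are used: `im π = univ.map π`
works for every finite `α`, with `open Classical`), and let `μ x = y`.

Injectivity of `μ`: let `x1 = π a1`, `x2 = π a2` be outside of the range of `σ` with
`μ x1 = μ x2`, i.e. `σ a = σ a'` with `a ∈ P1`, `a' ∈ P2`, so `a = a' ∈ P1 ∩ P2`.  Claim: if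
`a ∈ P1 ∩ P2` then `a1 = a2`.  Induction on `ReflTransGen R a1 a` (head fixed, last step):
 - `a = a1`: if `a1 ≠ a2` then `a1 ∈ P2` has a predecessor `c`, `π a1 = σ c`, so
   `x1` is in the range of `σ`, contradiction.
 - `R c a` with `c ∈ P1`: if `a = a2` then `x2 = π a = σ c`, contradiction; otherwise `a ∈ P2`
   has a predecessor `c' ∈ P2`, `π a = σ c'`, so `σ c' = σ c`, `c' = c ∈ P1 ∩ P2`, and the
   induction hypothesis applies.
-/

set_option autoImplicit false

namespace Pool.Agent.H63.SX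

/-- the successor relation of the alternating paths -/
def PathBRel {α β : Type} (π σ : α ↪ β) (a a' : α) : Prop := π a' = σ a

theorem PathB_end {α β : Type} [Fintype α] (π σ : α ↪ β) (a0 : α)
    (h0 : π a0 ∉ Set.range σ) :
    ∃ t, Relation.ReflTransGen (PathBRel π σ) a0 t ∧ σ t ∉ Set.range π := by
  by_contra hcon
  push Not at hcon
  have hf : ∀ a : {a // Relation.ReflTransGen (PathBRel π σ) a0 a},
      ∃ b : {a // Relation.ReflTransGen (PathBRel π σ) a0 a}, π b.1 = σ a.1 := by
    rintro ⟨a, ha⟩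
    obtain ⟨b, hb⟩ := hcon a ha
    exact ⟨⟨b, ha.tail hb⟩, hb⟩
  choose f hf using hf
  have hinj : Function.Injective f := by
    intro a b hab
    have h1 := hf a
    have h2 := hf b
    rw [hab, h2] at h1
    exact Subtype.ext (σ.injective h1.symm)
  have hsur : Function.Surjective f := Finite.surjective_of_injective hinj
  obtain ⟨a, ha⟩ := hsur ⟨a0, Relation.ReflTransGen.refl⟩
  have h1 := hf a
  rw [ha] at h1
  exact h0 ⟨a.1, h1.symm⟩

theorem PathB_right {α β : Type} (π σ : α ↪ β) : Relator.RightUnique (PathBRel π σ) := by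
  intro a b c hab hac
  exact π.injective (hab.trans hac.symm)

theorem PathB_unique {α β : Type} (π σ : α ↪ β) (a0 t t' : α)
    (ht : Relation.ReflTransGen (PathBRel π σ) a0 t) (hy : σ t ∉ Set.range π)
    (ht' : Relation.ReflTransGen (PathBRel π σ) a0 t') (hy' : σ t' ∉ Set.range π) : t' = t := by
  rcases Relation.ReflTransGen.total_of_right_unique (PathB_right π σ) ht ht' with h | h
  · rcases h.cases_head with h | ⟨c, hc, -⟩
    · exact h.symm
    · exact absurd ⟨c, hc⟩ hy
  · rcases h.cases_head with h | ⟨c, hc, -⟩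
    · exact h
    · exact absurd ⟨c, hc⟩ hy'

theorem PathB_start {α β : Type} (π σ : α ↪ β) (a1 a2 t : α)
    (h1 : Relation.ReflTransGen (PathBRel π σ) a1 t) (h01 : π a1 ∉ Set.range σ)
    (h2 : Relation.ReflTransGen (PathBRel π σ) a2 t) (h02 : π a2 ∉ Set.range σ) : a1 = a2 := by
  have hr : Relator.RightUnique (Function.swap (PathBRel π σ)) := by
    intro a b c hab hac
    have e1 : π a = σ b := hab
    have e2 : π a = σ c := hac
    exact σ.injective (e1.symm.trans e2)
  rcases Relation.ReflTransGen.total_of_right_unique hr h1.swap h2.swap with h | h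
  · rcases h.cases_head with h | ⟨c, hc, -⟩
    · exact h
    · exact absurd ⟨c, (show π a1 = σ c from hc).symm⟩ h01
  · rcases h.cases_head with h | ⟨c, hc, -⟩
    · exact h.symm
    · exact absurd ⟨c, (show π a2 = σ c from hc).symm⟩ h02

theorem PathB_pred {α β : Type} (π σ : α ↪ β) (a0 i : α)
    (hi : Relation.ReflTransGen (PathBRel π σ) a0 i) (hne : i ≠ a0) :
    ∃ c, Relation.ReflTransGen (PathBRel π σ) a0 c ∧ π i = σ c := by
  rcases hi.cases_tail with h | ⟨c, hc, hci⟩
  · exact absurd h hne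
  · exact ⟨c, hc, hci⟩

theorem PathB_exch {α β : Type} (π σ : α ↪ β) (a0 t : α)
    (h0 : π a0 ∉ Set.range σ)
    (ht : Relation.ReflTransGen (PathBRel π σ) a0 t) (hy : σ t ∉ Set.range π) :
    ∃ π' σ' : α ↪ β, (∀ z, z ∈ Set.range π' ↔ z = σ t ∨ (z ∈ Set.range π ∧ z ≠ π a0)) ∧
        (∀ z, z ∈ Set.range σ' ↔ z = π a0 ∨ (z ∈ Set.range σ ∧ z ≠ σ t)) ∧
        ∀ i, (π' i = π i ∧ σ' i = σ i) ∨ (π' i = σ i ∧ σ' i = π i) := by
  classical
  let P : α → Prop := fun a => Relation.ReflTransGen (PathBRel π σ) a0 a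
  have hinj1 : Function.Injective (fun i => if P i then σ i else π i) := by
    intro i j hij
    by_cases hi : P i <;> by_cases hj : P j
    · simp only [hi, hj, if_true] at hij
      exact σ.injective hij
    · simp only [hi, hj, if_true, if_false] at hij
      exact absurd (Relation.ReflTransGen.tail hi hij.symm) hj
    · simp only [hi, hj, if_true, if_false] at hij
      exact absurd (Relation.ReflTransGen.tail hj hij) hi
    · simp only [hi, hj, if_false] at hij
      exact π.injective hij
  have key : ∀ i j, P i → ¬ P j → π i = σ j → False := by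
    intro i j hi hj hij
    by_cases h : i = a0
    · subst h
      exact h0 ⟨j, hij.symm⟩
    · obtain ⟨c, hc, hic⟩ := PathB_pred π σ a0 i hi h
      have : c = j := σ.injective (hic.symm.trans hij)
      exact hj (this ▸ hc)
  have hinj2 : Function.Injective (fun i => if P i then π i else σ i) := by
    intro i j hij
    by_cases hi : P i <;> by_cases hj : P j
    · simp only [hi, hj, if_true] at hij
      exact π.injective hij
    · simp only [hi, hj, if_true, if_false] at hij
      exact (key i j hi hj hij).elim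
    · simp only [hi, hj, if_true, if_false] at hij
      exact (key j i hj hi hij.symm).elim
    · simp only [hi, hj, if_false] at hij
      exact σ.injective hij
  have hP0 : P a0 := Relation.ReflTransGen.refl
  have hPt : P t := ht
  have hsucc : ∀ i, P i → i ≠ t → ∃ a', P a' ∧ π a' = σ i := by
    intro i hi hne
    by_contra hcon
    refine hne (PathB_unique π σ a0 t i ht hy hi ?_)
    rintro ⟨a', ha'⟩
    exact hcon ⟨a', Relation.ReflTransGen.tail hi ha', ha'⟩
  refine ⟨⟨_, hinj1⟩, ⟨_, hinj2⟩, ?_, ?_, ?_⟩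
  · intro z
    constructor
    · rintro ⟨i, rfl⟩
      simp only [Function.Embedding.coeFn_mk]
      by_cases hi : P i
      · rw [if_pos hi]
        by_cases hit : i = t
        · left; rw [hit]
        · right
          obtain ⟨a', -, ha'⟩ := hsucc i hi hit
          exact ⟨⟨a', ha'⟩, fun h => h0 ⟨i, h⟩⟩
      · rw [if_neg hi]
        right
        refine ⟨⟨i, rfl⟩, fun h => hi ?_⟩
        exact (π.injective h) ▸ hP0
    · rintro (rfl | ⟨⟨i, rfl⟩, hne⟩)
      · exact ⟨t, by simp only [Function.Embedding.coeFn_mk]; rw [if_pos hPt]⟩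
      · by_cases hi : P i
        · have hia : i ≠ a0 := fun h => hne (by rw [h])
          obtain ⟨c, hc, hic⟩ := PathB_pred π σ a0 i hi hia
          exact ⟨c, by simp only [Function.Embedding.coeFn_mk]; rw [if_pos hc, hic]⟩
        · exact ⟨i, by simp only [Function.Embedding.coeFn_mk]; rw [if_neg hi]⟩
  · intro z
    constructor
    · rintro ⟨i, rfl⟩
      simp only [Function.Embedding.coeFn_mk]
      by_cases hi : P i
      · rw [if_pos hi]
        by_cases hia : i = a0
        · left; rw [hia]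
        · right
          obtain ⟨c, -, hic⟩ := PathB_pred π σ a0 i hi hia
          exact ⟨⟨c, hic.symm⟩, fun h => hy ⟨i, h⟩⟩
      · rw [if_neg hi]
        right
        refine ⟨⟨i, rfl⟩, fun h => hi ?_⟩
        exact (σ.injective h) ▸ hPt
    · rintro (rfl | ⟨⟨i, rfl⟩, hne⟩)
      · exact ⟨a0, by simp only [Function.Embedding.coeFn_mk]; rw [if_pos hP0]⟩
      · by_cases hi : P i
        · have hit : i ≠ t := fun h => hne (by rw [h])
          obtain ⟨a', hPa, ha'⟩ := hsucc i hi hit
          exact ⟨a', by simp only [Function.Embedding.coeFn_mk]; rw [if_pos hPa, ha']⟩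
        · exact ⟨i, by simp only [Function.Embedding.coeFn_mk]; rw [if_neg hi]⟩
  · intro i
    simp only [Function.Embedding.coeFn_mk]
    by_cases hi : P i
    · right
      rw [if_pos hi, if_pos hi]
      exact ⟨rfl, rfl⟩
    · left
      rw [if_neg hi, if_neg hi]
      exact ⟨rfl, rfl⟩

theorem path_bij {α β : Type} [Fintype α] (π σ : α ↪ β) : ∃ μ : β → β,
    Set.InjOn μ {x | x ∈ Set.range π ∧ x ∉ Set.range σ} ∧
    ∀ x, x ∈ Set.range π → x ∉ Set.range σ → μ x ∈ Set.range σ ∧ μ x ∉ Set.range π ∧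
      ∃ π' σ' : α ↪ β, (∀ z, z ∈ Set.range π' ↔ z = μ x ∨ (z ∈ Set.range π ∧ z ≠ x)) ∧
        (∀ z, z ∈ Set.range σ' ↔ z = x ∨ (z ∈ Set.range σ ∧ z ≠ μ x)) ∧
        ∀ i, (π' i = π i ∧ σ' i = σ i) ∨ (π' i = σ i ∧ σ' i = π i) := by
  have hex : ∀ x : β, ∃ y : β, x ∈ Set.range π → x ∉ Set.range σ → ∃ a0 t : α,
      π a0 = x ∧ σ t = y ∧ Relation.ReflTransGen (PathBRel π σ) a0 t ∧ y ∉ Set.range π := by
    intro x
    by_cases hx : x ∈ Set.range π ∧ x ∉ Set.range σ
    · obtain ⟨⟨a0, ha0⟩, hx2⟩ := hx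
      obtain ⟨t, ht, hy⟩ := PathB_end π σ a0 (by rw [ha0]; exact hx2)
      exact ⟨σ t, fun _ _ => ⟨a0, t, ha0, rfl, ht, hy⟩⟩
    · exact ⟨x, fun h1 h2 => absurd ⟨h1, h2⟩ hx⟩
  choose μ hμ using hex
  refine ⟨μ, ?_, ?_⟩
  · rintro x1 ⟨hx1, hx1'⟩ x2 ⟨hx2, hx2'⟩ h12
    obtain ⟨a1, t1, ha1, ht1, hr1, -⟩ := hμ x1 hx1 hx1'
    obtain ⟨a2, t2, ha2, ht2, hr2, -⟩ := hμ x2 hx2 hx2'
    have htt : t1 = t2 := σ.injective (by rw [ht1, ht2, h12])
    subst htt
    have := PathB_start π σ a1 a2 t1 hr1 (by rw [ha1]; exact hx1') hr2 (by rw [ha2]; exact hx2')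
    rw [← ha1, ← ha2, this]
  · intro x hx hx'
    obtain ⟨a0, t, ha0, ht, hr, hy⟩ := hμ x hx hx'
    refine ⟨⟨t, ht⟩, hy, ?_⟩
    rw [← ht, ← ha0]
    exact PathB_exch π σ a0 t (by rw [ha0]; exact hx') hr (by rw [ht]; exact hy)

end Pool.Agent.H63.SX
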