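import Pool.Agent.H63.SX.Defs

/-!
# SX-07: restriction of a unique optimal matching

`restr π p q` is the restriction `{a // p a} ↪ {b // q b}` of `π`.

`uo_restr`.  Let `p a ↔ q (π a)` for all `a`.  Let `σ : {a // p a} ↪ {b // q b}` be different from
the restriction `ρ` of `π`.  Let `τ a = σ a` if `p a` and `τ a = π a` otherwise.  `τ` is injective:
the values of `σ` satisfy `q`, the values `π a` with `¬ p a` do not.  `τ ≠ π`.  So
`val t π < val t τ`; both sums over `α` split into the sum over `p a` and the sum over `¬ p a`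
(`Fintype.sum_subtype_add_sum_subtype` or `Finset.sum_filter_add_sum_filter_not` with
`Finset.sum_subtype`), the second parts agree.  (The `Fintype` instance on the subtype is
arbitrary: use `Finset.sum_subtype`, or `convert` with `Subsingleton.elim`.)

`restr_inj`: if `π` and `σ` have the same restriction to `p` and the same restriction to `¬ p`, then
they are equal.
-/

set_option autoImplicit false

namespace Pool.Agent.H63.SX

open Pool.Agent.ROT (cr dt rot)

variable {α β : Type}

/-- Restriction of a matching. -/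
def restr (π : α ↪ β) (p : α → Prop) (q : β → Prop) (h : ∀ a, p a → q (π a)) :
    {a // p a} ↪ {b // q b} :=
  ⟨fun a => ⟨π a.1, h a.1 a.2⟩, fun a b hab =>
    Subtype.ext (π.injective (congrArg Subtype.val hab))⟩

theorem uo_restr [Fintype α] (A : α → ℝ × ℝ) (B : β → ℝ × ℝ) (h : β → ℝ) (t : ℝ × ℝ) (π : α ↪ β)
    (p : α → Prop) (q : β → Prop) [Fintype {a // p a}] (hpq : ∀ a, p a ↔ q (π a))
    (hU : Uo A B h t π) :
    Uo (fun a : {a // p a} => A a) (fun b : {b // q b} => B b) (fun b : {b // q b} => h b) t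
      (restr π p q fun a => (hpq a).1) := by
  classical
  intro σ hσ
  obtain ⟨τ, hτ1, hτ2⟩ : ∃ τ : α ↪ β, (∀ a : {a // p a}, τ a.1 = (σ a).1) ∧
      ∀ a, ¬ p a → τ a = π a := by
    refine ⟨⟨fun a => if ha : p a then (σ ⟨a, ha⟩).1 else π a, ?_⟩, ?_, ?_⟩
    · intro a b hab
      by_cases ha : p a
      · by_cases hb : p b
        · simp only [dif_pos ha, dif_pos hb] at hab
          exact congrArg Subtype.val (σ.injective (Subtype.ext hab))
        · simp only [dif_pos ha, dif_neg hb] at hab
          exact absurd ((hpq b).mpr (hab ▸ (σ ⟨a, ha⟩).2)) hb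
      · by_cases hb : p b
        · simp only [dif_neg ha, dif_pos hb] at hab
          exact absurd ((hpq a).mpr (hab ▸ (σ ⟨b, hb⟩).2)) ha
        · simp only [dif_neg ha, dif_neg hb] at hab
          exact π.injective hab
    · intro a
      exact dif_pos a.2
    · intro a ha
      exact dif_neg ha
  have hne : τ ≠ π := by
    intro h1
    apply hσ
    apply DFunLike.ext
    intro a
    apply Subtype.ext
    rw [← hτ1 a, h1]
    rfl
  have key := hU τ hne
  have hsum : ∀ f : α → ℝ, ∑ a, f a = ∑ a : {a // p a}, f a.1 +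
      ∑ a ∈ Finset.univ.filter (fun a => ¬ p a), f a := by
    intro f
    rw [← Finset.sum_filter_add_sum_filter_not Finset.univ p f,
      Finset.sum_subtype (p := p) (Finset.univ.filter p) (by simp) f]
  unfold val at key ⊢
  rw [hsum, hsum (fun a => h (τ a) - dt (A a - t) (B (τ a)))] at key
  have h2 : ∑ a ∈ Finset.univ.filter (fun a => ¬ p a), (h (τ a) - dt (A a - t) (B (τ a))) =
      ∑ a ∈ Finset.univ.filter (fun a => ¬ p a), (h (π a) - dt (A a - t) (B (π a))) := by
    refine Finset.sum_congr rfl fun a ha => ?_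
    rw [hτ2 a (Finset.mem_filter.mp ha).2]
  rw [h2] at key
  have h3 := lt_of_add_lt_add_right key
  have h4 : ∑ a : {a // p a}, (h (τ a.1) - dt (A a.1 - t) (B (τ a.1))) =
      ∑ a : {a // p a}, (h (σ a).1 - dt (A a.1 - t) (B (σ a).1)) := by
    refine Finset.sum_congr rfl fun a _ => ?_
    rw [hτ1 a]
  rw [h4] at h3
  exact h3

theorem restr_inj (π σ : α ↪ β) (p : α → Prop) (q : β → Prop) (h1 : ∀ a, p a → q (π a))
    (h2 : ∀ a, p a → q (σ a)) (h3 : ∀ a, ¬ p a → ¬ q (π a)) (h4 : ∀ a, ¬ p a → ¬ q (σ a))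
    (e1 : restr π p q h1 = restr σ p q h2)
    (e2 : restr π (fun a => ¬ p a) (fun b => ¬ q b) h3 =
      restr σ (fun a => ¬ p a) (fun b => ¬ q b) h4) : π = σ := by
  apply DFunLike.ext
  intro a
  by_cases ha : p a
  · exact congrArg Subtype.val (DFunLike.congr_fun e1 ⟨a, ha⟩)
  · exact congrArg Subtype.val (DFunLike.congr_fun e2 ⟨a, ha⟩)

end Pool.Agent.H63.SX
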