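import Pool.Agent.H63.SX.Pairs
import Pool.Agent.H63.SX.Split

/-!
# SX-08: one step of the recursion

For every `π ∈ Z` choose `p π = (I, J) ∈ F` with `a ∈ I ↔ π a ∈ J`.  For fixed `(I,J) ∈ F` the
matchings `π ∈ Z` with `p π = (I,J)` are mapped injectively (`restr_inj`) by
`π ↦ (restr π (· ∈ I) (· ∈ J), restr π (· ∉ I) (· ∉ J))` into the set of `pairs_card` (by
`uo_restr`, with the same `t`), whose cardinality is at most
`X (N1 (N2 + 1) + 1) + X (N2 (N1 + 1)) ≤ (2 n² (n² + 1) + 1) X` where `N1, N2 ≤ n²` are the products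
of the cardinalities of the subtypes (`Fintype.card_subtype_le`).  Sum over `F`
(`Finset.card_eq_sum_card_fiberwise`, or `Finset.card_le_mul_card_image`).
-/

set_option autoImplicit false

namespace Pool.Agent.H63.SX

open Pool.Agent.ROT (cr dt rot)

/-- The factor lost in every step of the recursion. -/
def PP (n : ℕ) : ℕ := 2 * n ^ 2 * (n ^ 2 + 1) + 1

theorem rec_bound {α β : Type} [Fintype α] [Fintype β] [DecidableEq α] [DecidableEq β]
    (A : α → ℝ × ℝ) (B : β → ℝ × ℝ) (h : β → ℝ) (n : ℕ) (hα : Fintype.card α ≤ n)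
    (hβ : Fintype.card β ≤ n) (Z : Finset (α ↪ β)) (hZ : Z ⊆ So A B h)
    (F : Finset (Finset α × Finset β)) (X : ℝ)
    (hX : ∀ p ∈ F,
      ((So (fun a : {a // a ∈ p.1} => A a) (fun b : {b // b ∈ p.2} => B b)
        (fun b : {b // b ∈ p.2} => h b)).card : ℝ) ≤ X ∧
      ((So (fun a : {a // a ∉ p.1} => A a) (fun b : {b // b ∉ p.2} => B b)
        (fun b : {b // b ∉ p.2} => h b)).card : ℝ) ≤ X)
    (hF : ∀ π ∈ Z, ∃ p ∈ F, ∀ a, a ∈ p.1 ↔ π a ∈ p.2) :
    (Z.card : ℝ) ≤ F.card * (PP n * X) := by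
  classical
  choose! p hpF hp using hF
  have hfib : ∀ b ∈ F, ((Z.filter fun π => p π = b).card : ℝ) ≤ PP n * X := by
    intro b hb
    obtain ⟨hX1, hX2⟩ := hX b hb
    have hX0 : 0 ≤ X := le_trans (Nat.cast_nonneg _) hX1
    have hcond : ∀ π ∈ Z.filter (fun π => p π = b), ∀ a, a ∈ b.1 ↔ π a ∈ b.2 := by
      intro π hπ a
      rw [Finset.mem_filter] at hπ
      have := hp π hπ.1 a
      rwa [hπ.2] at this
    have key := pairs_card (fun a : {a // a ∈ b.1} => A a) (fun c : {c // c ∈ b.2} => B c)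
      (fun c : {c // c ∈ b.2} => h c) (fun a : {a // a ∉ b.1} => A a)
      (fun c : {c // c ∉ b.2} => B c) (fun c : {c // c ∉ b.2} => h c)
    have hle : (Z.filter fun π => p π = b).card ≤
        ((So (fun a : {a // a ∈ b.1} => A a) (fun c : {c // c ∈ b.2} => B c)
          (fun c : {c // c ∈ b.2} => h c) ×ˢ So (fun a : {a // a ∉ b.1} => A a)
          (fun c : {c // c ∉ b.2} => B c) (fun c : {c // c ∉ b.2} => h c)).filter fun x =>
          ∃ t, Uo (fun a : {a // a ∈ b.1} => A a) (fun c : {c // c ∈ b.2} => B c)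
            (fun c : {c // c ∈ b.2} => h c) t x.1 ∧
            Uo (fun a : {a // a ∉ b.1} => A a) (fun c : {c // c ∉ b.2} => B c)
            (fun c : {c // c ∉ b.2} => h c) t x.2).card := by
      rw [← Finset.card_attach]
      refine Finset.card_le_card_of_injOn
        (fun π => (restr π.1 (fun a => a ∈ b.1) (fun c => c ∈ b.2)
            (fun a => (hcond π.1 π.2 a).1),
          restr π.1 (fun a => a ∉ b.1) (fun c => c ∉ b.2)
            (fun a => (not_congr (hcond π.1 π.2 a)).1))) ?_ ?_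
      · intro π _
        have hπ := π.2
        rw [Finset.mem_filter] at hπ
        obtain ⟨t, ht⟩ := mem_So.1 (hZ hπ.1)
        have u1 := uo_restr A B h t π.1 (fun a => a ∈ b.1) (fun c => c ∈ b.2)
          (hcond π.1 π.2) ht
        have u2 := uo_restr A B h t π.1 (fun a => a ∉ b.1) (fun c => c ∉ b.2)
          (fun a => not_congr (hcond π.1 π.2 a)) ht
        simp only [Finset.coe_filter, Finset.mem_product, Set.mem_ofPred_eq]
        exact ⟨⟨mem_So.2 ⟨t, u1⟩, mem_So.2 ⟨t, u2⟩⟩, t, u1, u2⟩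
      · intro π _ σ _ hπσ
        simp only [Prod.mk.injEq] at hπσ
        exact Subtype.ext (restr_inj π.1 σ.1 _ _ _ _ _ _ hπσ.1 hπσ.2)
    have hkey := le_trans hle key
    have c1 : Fintype.card {a // a ∈ b.1} ≤ n := le_trans (Fintype.card_subtype_le _) hα
    have c2 : Fintype.card {c // c ∈ b.2} ≤ n := le_trans (Fintype.card_subtype_le _) hβ
    have c3 : Fintype.card {a // a ∉ b.1} ≤ n := le_trans (Fintype.card_subtype_le _) hα
    have c4 : Fintype.card {c // c ∉ b.2} ≤ n := le_trans (Fintype.card_subtype_le _) hβ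
    have m1 : Fintype.card {a // a ∈ b.1} * Fintype.card {c // c ∈ b.2} ≤ n ^ 2 := by
      rw [pow_two]; exact Nat.mul_le_mul c1 c2
    have m2 : Fintype.card {a // a ∉ b.1} * Fintype.card {c // c ∉ b.2} ≤ n ^ 2 := by
      rw [pow_two]; exact Nat.mul_le_mul c3 c4
    have k1 : Fintype.card {a // a ∈ b.1} * Fintype.card {c // c ∈ b.2} *
        (Fintype.card {a // a ∉ b.1} * Fintype.card {c // c ∉ b.2} + 1) + 1 ≤
        n ^ 2 * (n ^ 2 + 1) + 1 := by
      have := Nat.mul_le_mul m1 (Nat.add_le_add_right m2 1)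
      omega
    have k2 : Fintype.card {a // a ∉ b.1} * Fintype.card {c // c ∉ b.2} *
        (Fintype.card {a // a ∈ b.1} * Fintype.card {c // c ∈ b.2} + 1) ≤
        n ^ 2 * (n ^ 2 + 1) := Nat.mul_le_mul m2 (Nat.add_le_add_right m1 1)
    have hkey2 : (Z.filter fun π => p π = b).card ≤
        (So (fun a : {a // a ∈ b.1} => A a) (fun c : {c // c ∈ b.2} => B c)
          (fun c : {c // c ∈ b.2} => h c)).card * (n ^ 2 * (n ^ 2 + 1) + 1) +
        (So (fun a : {a // a ∉ b.1} => A a) (fun c : {c // c ∉ b.2} => B c)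
          (fun c : {c // c ∉ b.2} => h c)).card * (n ^ 2 * (n ^ 2 + 1)) :=
      le_trans hkey (Nat.add_le_add (Nat.mul_le_mul_left _ k1) (Nat.mul_le_mul_left _ k2))
    have hR : ((Z.filter fun π => p π = b).card : ℝ) ≤
        ((So (fun a : {a // a ∈ b.1} => A a) (fun c : {c // c ∈ b.2} => B c)
          (fun c : {c // c ∈ b.2} => h c)).card : ℝ) * ((n : ℝ) ^ 2 * ((n : ℝ) ^ 2 + 1) + 1) +
        ((So (fun a : {a // a ∉ b.1} => A a) (fun c : {c // c ∉ b.2} => B c)
          (fun c : {c // c ∉ b.2} => h c)).card : ℝ) * ((n : ℝ) ^ 2 * ((n : ℝ) ^ 2 + 1)) := by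
      exact_mod_cast hkey2
    have hn0 : (0 : ℝ) ≤ (n : ℝ) ^ 2 * ((n : ℝ) ^ 2 + 1) := by positivity
    calc ((Z.filter fun π => p π = b).card : ℝ) ≤ _ := hR
      _ ≤ X * ((n : ℝ) ^ 2 * ((n : ℝ) ^ 2 + 1) + 1) +
          X * ((n : ℝ) ^ 2 * ((n : ℝ) ^ 2 + 1)) :=
        add_le_add (mul_le_mul_of_nonneg_right hX1 (by positivity))
          (mul_le_mul_of_nonneg_right hX2 hn0)
      _ = PP n * X := by
        unfold PP
        push_cast
        ring
  have h1 : (Z.card : ℝ) = ∑ b ∈ F, ((Z.filter fun π => p π = b).card : ℝ) := by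
    rw [Finset.card_eq_sum_card_fiberwise (f := p) (t := F) hpF]
    push_cast
    rfl
  rw [h1]
  calc ∑ b ∈ F, ((Z.filter fun π => p π = b).card : ℝ) ≤ ∑ _b ∈ F, (PP n * X) :=
        Finset.sum_le_sum hfib
    _ = F.card * (PP n * X) := by simp

end Pool.Agent.H63.SX
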