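import Pool.Agent.H63.SX.TyDefs

/-!
# SX-24: the number of types

* `pat_card`: for fixed `u, v` the set of all patterns `pat A Y u v e`, `e ∈ ℝ²`, has at most
  `1 + 5 m + (5 m).choose 2` elements, `m = card α`.  Apply `Pool.Agent.ROT.vc` with
  `ι = α × Fin 5`, `κ = α → ZMod 2`, `T` = the finite set of the patterns, `t f` = a point `e` with
  `f = pat A Y u v e`, and for `a : α` the five affine functions of `e`
  (`x u = Sum.elim A Y u - A a`, `x v = Sum.elim A Y v - A a`):
  `(e - A a).2`, `cr (x u) (e - A a)`, `- cr (x u) (e - A a)`, `cr (x v) (e - A a)`,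
  `- cr (x v) (e - A a)`, each of the form `c + dt e w` (`cr x (e - A a) = dt e (rot' x) - ...`: take
  `w = (-x.2, x.1)`: `dt e w = x.1 * e.2 - x.2 * e.1 = cr x e`).  If two points `e, e'` have the
  same five signs (`0 < ...`) for some `a`, then the patterns agree at `a`, since `eps x (e - A a)`
  depends only on `x`, on `0 < (e - A a).2` and on the signs of `cr x (e - A a)` and
  `cr (e - A a) x = - cr x (e - A a)`.  So different patterns are separated.
* `ets_card`: the data are determined by `(u, v)`, by the two sites, and by one of the patterns for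
  `(u,v)`: at most `(m+3)^2 (n+3)^2 (1 + 5 m + (5m).choose 2)`
  (`Finset.card_le_mul_card_image` or an injection into a sigma type / `biUnion` over
  `(u, v, p, q)` of the image of the patterns); use `m ≤ N`, `n ≤ N`,
  `(5m).choose 2 ≤ (5m)^2` (`Nat.choose_le_pow`).
* `fam_card`: with `E = (N+3)^4 (1 + 5N + (5N)^2)`: `card ≤ E^s + N^2 ≤ (E + N^2)^s`
  for `s ≥ 1` (`Fintype.card_piFinset`, `Finset.card_image_le`; `E ≥ 1`; induction on `s` or
  `E^s + N² ≤ E^(s-1) * E + E^(s-1) N² ≤ (E + N²)^(s-1) (E + N²)`).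
-/

set_option autoImplicit false

namespace Pool.Agent.H63.SX

open Pool.Agent.ROT (cr dt rot)

variable {α β : Type} [Fintype α] [Fintype β]

omit [Fintype α] [Fintype β] in
lemma eps_congr_right {p q q' : ℝ × ℝ} (h1 : 0 < q.2 ↔ 0 < q'.2)
    (h2 : 0 < cr p q ↔ 0 < cr p q') (h3 : 0 < cr q p ↔ 0 < cr q' p) : eps p q = eps p q' := by
  unfold eps
  simp only [h1, h2, h3]

omit [Fintype α] [Fintype β] in
lemma eps_congr_left {p q q' : ℝ × ℝ} (h1 : 0 < q.2 ↔ 0 < q'.2)
    (h2 : 0 < cr p q ↔ 0 < cr p q') (h3 : 0 < cr q p ↔ 0 < cr q' p) : eps q p = eps q' p := by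
  unfold eps
  simp only [h1, h2, h3]

/-- The constants of the affine functions. -/
noncomputable def cof (A : α → ℝ × ℝ) (Y : Fin 3 → ℝ × ℝ) (u v : α ⊕ Fin 3) :
    α × Fin 5 → ℝ := fun i =>
  ![-(A i.1).2, -(cr (Sum.elim A Y u - A i.1) (A i.1)), cr (Sum.elim A Y u - A i.1) (A i.1),
    -(cr (Sum.elim A Y v - A i.1) (A i.1)), cr (Sum.elim A Y v - A i.1) (A i.1)] i.2

/-- The linear parts of the affine functions. -/
noncomputable def vof (A : α → ℝ × ℝ) (Y : Fin 3 → ℝ × ℝ) (u v : α ⊕ Fin 3) :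
    α × Fin 5 → ℝ × ℝ := fun i =>
  ![((0 : ℝ), (1 : ℝ)), rot (Sum.elim A Y u - A i.1), -rot (Sum.elim A Y u - A i.1),
    rot (Sum.elim A Y v - A i.1), -rot (Sum.elim A Y v - A i.1)] i.2

open Classical in
lemma pat_card (A : α → ℝ × ℝ) (Y : Fin 3 → ℝ × ℝ) (u v : α ⊕ Fin 3) :
    (Finset.univ.filter fun f : α → ZMod 2 => ∃ e, f = pat A Y u v e).card ≤
      1 + 5 * Fintype.card α + (5 * Fintype.card α).choose 2 := by
  have hc : Fintype.card (α × Fin 5) = 5 * Fintype.card α := by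
    simp [Fintype.card_prod, mul_comm]
  have h := Pool.Agent.ROT.vc (cof A Y u v) (vof A Y u v)
    (Finset.univ.filter fun f : α → ZMod 2 => ∃ e, f = pat A Y u v e)
    (fun f => if h : ∃ e, f = pat A Y u v e then h.choose else 0) ?_
  · rwa [hc] at h
  intro x hx y hy hxy
  simp only [Finset.mem_filter, Finset.mem_univ, true_and] at hx hy
  simp only [hx, hy, dif_pos]
  have ex := hx.choose_spec
  have ey := hy.choose_spec
  set e := hx.choose
  set e' := hy.choose
  by_contra hcon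
  push Not at hcon
  apply hxy
  rw [ex, ey]
  funext a
  have h0 := hcon (a, 0)
  have h1 := hcon (a, 1)
  have h2 := hcon (a, 2)
  have h3 := hcon (a, 3)
  have h4 := hcon (a, 4)
  have k0 : ∀ e : ℝ × ℝ, cof A Y u v (a, 0) + dt e (vof A Y u v (a, 0)) = (e - A a).2 := by
    intro e
    simp [cof, vof, dt]
    ring
  have k1 : ∀ e : ℝ × ℝ, cof A Y u v (a, 1) + dt e (vof A Y u v (a, 1)) =
      cr (Sum.elim A Y u - A a) (e - A a) := by
    intro e
    simp [cof, vof, dt, cr, rot]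
    ring
  have k2 : ∀ e : ℝ × ℝ, cof A Y u v (a, 2) + dt e (vof A Y u v (a, 2)) =
      cr (e - A a) (Sum.elim A Y u - A a) := by
    intro e
    simp [cof, vof, dt, cr, rot]
    ring
  have k3 : ∀ e : ℝ × ℝ, cof A Y u v (a, 3) + dt e (vof A Y u v (a, 3)) =
      cr (Sum.elim A Y v - A a) (e - A a) := by
    intro e
    simp [cof, vof, dt, cr, rot]
    ring
  have k4 : ∀ e : ℝ × ℝ, cof A Y u v (a, 4) + dt e (vof A Y u v (a, 4)) =
      cr (e - A a) (Sum.elim A Y v - A a) := by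
    intro e
    simp [cof, vof, dt, cr, rot]
    ring
  simp only [k0] at h0
  simp only [k1] at h1
  simp only [k2] at h2
  simp only [k3] at h3
  simp only [k4] at h4
  unfold pat
  rw [eps_congr_right h0 h1 h2, eps_congr_left h0 h3 h4]

theorem ets_card (A : α → ℝ × ℝ) (Y : Fin 3 → ℝ × ℝ) {N : ℕ} (hα : Fintype.card α ≤ N)
    (hβ : Fintype.card β ≤ N) :
    (ets A Y : Finset (ET α β)).card ≤ (N + 3) ^ 4 * (1 + 5 * N + (5 * N) ^ 2) := by
  classical
  have hsub : (ets A Y : Finset (ET α β)) ⊆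
      (Finset.univ : Finset (((α ⊕ Fin 3) × (α ⊕ Fin 3)) × ((β ⊕ Fin 3) × (β ⊕ Fin 3)))).biUnion
        fun x => (Finset.univ.filter fun f : α → ZMod 2 => ∃ e, f = pat A Y x.1.1 x.1.2 e).image
          fun f => ((x.1, x.2, f) : ET α β) := by
    intro x hx
    simp only [ets, Finset.mem_filter, Finset.mem_univ, true_and] at hx
    simp only [Finset.mem_biUnion, Finset.mem_univ, true_and, Finset.mem_image,
      Finset.mem_filter]
    exact ⟨(x.1, x.2.1), x.2.2, hx, rfl⟩
  have h1 : (ets A Y : Finset (ET α β)).card ≤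
      Fintype.card (((α ⊕ Fin 3) × (α ⊕ Fin 3)) × ((β ⊕ Fin 3) × (β ⊕ Fin 3))) *
        (1 + 5 * Fintype.card α + (5 * Fintype.card α).choose 2) := by
    refine (Finset.card_le_card hsub).trans ?_
    refine (Finset.card_biUnion_le_card_mul _ _
      (1 + 5 * Fintype.card α + (5 * Fintype.card α).choose 2) ?_).trans ?_
    · intro x _
      exact Finset.card_image_le.trans (pat_card A Y x.1.1 x.1.2)
    · simp [Finset.card_univ]
  refine h1.trans ?_
  have h2 : Fintype.card (((α ⊕ Fin 3) × (α ⊕ Fin 3)) × ((β ⊕ Fin 3) × (β ⊕ Fin 3))) ≤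
      (N + 3) ^ 4 := by
    simp only [Fintype.card_prod, Fintype.card_sum, Fintype.card_fin]
    calc (Fintype.card α + 3) * (Fintype.card α + 3) *
          ((Fintype.card β + 3) * (Fintype.card β + 3))
        ≤ (N + 3) * (N + 3) * ((N + 3) * (N + 3)) := by gcongr
      _ = (N + 3) ^ 4 := by ring
  have h3 : (5 * Fintype.card α).choose 2 ≤ (5 * N) ^ 2 :=
    (Nat.choose_le_pow _ _).trans (by gcongr)
  gcongr

theorem fam_card (A : α → ℝ × ℝ) (B : β → ℝ × ℝ) (D Y : Fin 3 → ℝ × ℝ) {N : ℕ}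
    (hα : Fintype.card α ≤ N) (hβ : Fintype.card β ≤ N) {s : ℕ} (hs : 1 ≤ s) :
    (fam A B D Y s).card ≤ KK N ^ s := by
  classical
  have h1 : (fam A B D Y s).card ≤ ((ets A Y : Finset (ET α β)).card) ^ s + N ^ 2 := by
    unfold fam
    refine (Finset.card_union_le _ _).trans ?_
    gcongr
    · refine Finset.card_image_le.trans ?_
      simp [Fintype.card_piFinset]
    · refine Finset.card_image_le.trans ?_
      simp only [Finset.card_univ, Fintype.card_prod]
      nlinarith [Nat.zero_le (Fintype.card α), Nat.zero_le (Fintype.card β)]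
  have h2 := ets_card (β := β) A Y hα hβ
  set E := (N + 3) ^ 4 * (1 + 5 * N + (5 * N) ^ 2) with hE
  have hE1 : 1 ≤ E := by
    rw [hE]
    exact Nat.one_le_iff_ne_zero.mpr (by positivity)
  have h3 : (fam A B D Y s).card ≤ E ^ s + N ^ 2 := h1.trans (by gcongr)
  refine h3.trans ?_
  have hK : KK N = E + N ^ 2 := rfl
  rw [hK]
  obtain ⟨k, rfl⟩ : ∃ k, s = k + 1 := ⟨s - 1, by omega⟩
  have h4 : E ^ k ≤ (E + N ^ 2) ^ k := Nat.pow_le_pow_left (by omega) k
  have h5 : 1 ≤ (E + N ^ 2) ^ k := Nat.one_le_pow _ _ (by omega)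
  calc E ^ (k + 1) + N ^ 2 = E ^ k * E + 1 * N ^ 2 := by ring
    _ ≤ (E + N ^ 2) ^ k * E + (E + N ^ 2) ^ k * N ^ 2 := by gcongr
    _ = (E + N ^ 2) ^ (k + 1) := by ring

end Pool.Agent.H63.SX
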