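import Pool.Agent.H63.SX.BT
import Pool.Agent.H63.SX.TyCard
import Pool.Agent.H63.SX.Rec

/-!
# SX-27: solution of the recursion

Let `P = PP n ≥ 1`, `K = KK n ≥ 1`, `Λ = 2000 * log (4 P K) > 0`.  Claim: for all finite types
`α`, `β` with `card β ≤ n` etc. `(So A B h).card ≤ exp (Λ q √(card α))`.
Strong induction on `m = card α` (over all types).  If `So A B h` is empty the claim is trivial;
otherwise `m ≤ card β ≤ n`.
* `m = 0`: there is at most one embedding, and `exp 0 = 1`.
* `m = 1`: the number of embeddings is at most `card β ≤ n ≤ exp Λ ≤ exp (Λ q)` (`n ≤ 4 P K`,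
  `2000 log x ≥ log x`), e.g. by the injection `π ↦ π a0`.
* `m ≥ 2`.  For `π ∈ So A B h` choose `t` and `R0 π` from `bt`, and let `R` be a common upper bound
  (finite set).  So for every `π ∈ So A B h` there are `s π ≥ 1` and `p π ∈ fam A B D Y (s π)`
  (`Y` for this `R`) as in `bt`.  Let `S` be an upper bound of the `s π`.  For `1 ≤ s ≤ S` let
  `Z s = {π ∈ So | s π = s}` and
  `F s = {p ∈ fam A B D Y s | s √m ≤ 1000 q p.1.card ∧ s √m ≤ 1000 q (m - p.1.card)}`.
  For `p ∈ F s`: the subtype `{a // a ∈ p.1}` has `m1 = p.1.card` elements,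
  `m - m1 ≥ s √m / (1000 q) > 0`, and `{a // a ∉ p.1}` has `m - m1` elements,
  `m - (m - m1) = m1 ≥ s √m / (1000 q) > 0`.  Both numbers `m'` satisfy `m' < m`,
  `m - m' ≥ s √m / (1000 q)`, so
  `√m' ≤ √m - (m - m') / (2 √m) ≤ √m - s / (2000 q)` (`√m - √m' = (m - m') / (√m + √m')`), and
  `Λ q √m' ≤ Λ q √m - Λ s / 2000 = Λ q √m - s log (4 P K)`.
  The induction hypothesis applies to the restricted problems (the conditions `hn`, `hin` are
  inherited, for `Sum.elim (B restricted) D`; `1 + log m' ≤ 1 + log m ≤ q²`, with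
  `Real.log 0 = 0`; the cardinality of the subtype of `β` is at most `n`), so `rec_bound` with
  `X = exp (Λ q √m) * (4 P K)^(-s)` gives
  `|Z s| ≤ |F s| P X ≤ K^s * P * exp (Λ q √m) * (4 P K)^(-s) ≤ exp (Λ q √m) * 4^(-s)`
  (`fam_card`; `P * P^(-s) ≤ 1`).  Sum over `1 ≤ s ≤ S`: `∑ 4^(-s) ≤ 1/3 ≤ 1`.
-/

set_option autoImplicit false

namespace Pool.Agent.H63.SX

open Pool.Agent.ROT (cr dt rot)

/-- The constant in the exponent. -/
noncomputable def Lam (n : ℕ) : ℝ := 2000 * Real.log (4 * (PP n : ℝ) * (KK n : ℝ))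

private lemma one_le_PP (n : ℕ) : (1 : ℝ) ≤ PP n := by
  have : 1 ≤ PP n := by unfold PP; omega
  exact_mod_cast this

private lemma one_le_KK (n : ℕ) : (1 : ℝ) ≤ KK n := by
  have : 1 ≤ KK n := by
    unfold KK
    have h1 : 1 ≤ (n + 3) ^ 4 * (1 + 5 * n + (5 * n) ^ 2) :=
      Nat.one_le_iff_ne_zero.2 (by positivity)
    omega
  exact_mod_cast this

private lemma le_KK (n : ℕ) : (n : ℝ) ≤ KK n := by
  have : n ≤ KK n := by
    unfold KK
    have h0 : n + 3 ≤ (n + 3) ^ 4 := Nat.le_self_pow (by norm_num) _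
    have h1 : (n + 3) ^ 4 ≤ (n + 3) ^ 4 * (1 + 5 * n + (5 * n) ^ 2) :=
      Nat.le_mul_of_pos_right _ (by positivity)
    omega
  exact_mod_cast this

private lemma four_le (n : ℕ) : (4 : ℝ) ≤ 4 * (PP n : ℝ) * (KK n : ℝ) := by
  have h1 := one_le_PP n
  have h2 := one_le_KK n
  nlinarith [mul_nonneg (sub_nonneg.2 h1) (sub_nonneg.2 h2)]

private lemma logc_nonneg (n : ℕ) : 0 ≤ Real.log (4 * (PP n : ℝ) * (KK n : ℝ)) :=
  Real.log_nonneg (by have := four_le n; linarith)

private lemma Lam_nonneg (n : ℕ) : 0 ≤ Lam n := by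
  unfold Lam
  have := logc_nonneg n
  positivity

private lemma le_exp_Lam (n : ℕ) : (n : ℝ) ≤ Real.exp (Lam n) := by
  have h4 := four_le n
  have h0 := logc_nonneg n
  have h1 := one_le_PP n
  have h2 := one_le_KK n
  have h3 := le_KK n
  have hn : (n : ℝ) ≤ 4 * (PP n : ℝ) * (KK n : ℝ) := by
    nlinarith [mul_nonneg (sub_nonneg.2 h1) (by linarith : (0 : ℝ) ≤ KK n)]
  refine hn.trans ?_
  calc 4 * (PP n : ℝ) * (KK n : ℝ)
      = Real.exp (Real.log (4 * (PP n : ℝ) * (KK n : ℝ))) := (Real.exp_log (by linarith)).symm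
    _ ≤ Real.exp (Lam n) := by
        apply Real.exp_le_exp.2
        unfold Lam
        linarith

/-- The numerical inequality of the recursion. -/
private lemma num_step (n : ℕ) (q : ℝ) (hq : 1 ≤ q) (m m1 : ℝ) (hm : 0 < m)
    (hm1 : 0 ≤ m1) (s : ℝ) (hs : s * √m ≤ 1000 * q * (m - m1))
    (hle : m1 ≤ m) :
    Lam n * q * √m1 ≤ Lam n * q * √m - s * Real.log (4 * (PP n : ℝ) * (KK n : ℝ)) := by
  have hL := logc_nonneg n
  set L := Real.log (4 * (PP n : ℝ) * (KK n : ℝ)) with hLdef
  have hLam : Lam n = 2000 * L := rfl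
  have hsm : 0 < √m := Real.sqrt_pos.2 hm
  have hle2 : √m1 ≤ √m := Real.sqrt_le_sqrt hle
  have e1 : √m * √m = m := Real.mul_self_sqrt hm.le
  have e2 : √m1 * √m1 = m1 := Real.mul_self_sqrt hm1
  have hq0 : 0 ≤ q := by linarith
  have key : s * √m ≤ (2000 * q * (√m - √m1)) * √m := by
    have h1 : m - m1 = (√m - √m1) * (√m + √m1) := by
      nlinarith
    have h2 : (√m - √m1) * (√m + √m1) ≤ (√m - √m1) * (2 * √m) :=
      mul_le_mul_of_nonneg_left (by linarith) (by linarith)
    calc s * √m ≤ 1000 * q * (m - m1) := hs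
      _ = 1000 * q * ((√m - √m1) * (√m + √m1)) := by rw [h1]
      _ ≤ 1000 * q * ((√m - √m1) * (2 * √m)) :=
          mul_le_mul_of_nonneg_left h2 (by positivity)
      _ = (2000 * q * (√m - √m1)) * √m := by ring
  have key2 : s ≤ 2000 * q * (√m - √m1) := le_of_mul_le_mul_right key hsm
  have key3 : s * L ≤ (2000 * q * (√m - √m1)) * L := mul_le_mul_of_nonneg_right key2 hL
  rw [hLam]
  nlinarith

private lemma sum_quarter (T : Finset ℕ) (hT : ∀ k ∈ T, 1 ≤ k) :
    ∑ k ∈ T, ((1 : ℝ) / 4) ^ k ≤ 1 := by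
  have h1 : ∀ k ∈ T, ((1 : ℝ) / 4) ^ k ≤ (1 / 2) * (1 / 2) ^ k := by
    intro k hk
    have e : ((1 : ℝ) / 4) ^ k = (1 / 2) ^ k * (1 / 2) ^ k := by
      rw [← mul_pow]; norm_num
    rw [e]
    apply mul_le_mul_of_nonneg_right _ (by positivity)
    have : ((1 : ℝ) / 2) ^ k ≤ (1 / 2) ^ 1 :=
      pow_le_pow_of_le_one (by norm_num) (by norm_num) (hT k hk)
    simpa using this
  calc ∑ k ∈ T, ((1 : ℝ) / 4) ^ k ≤ ∑ k ∈ T, (1 / 2 : ℝ) * (1 / 2) ^ k := Finset.sum_le_sum h1
    _ = (1 / 2) * ∑ k ∈ T, ((1 : ℝ) / 2) ^ k := by rw [Finset.mul_sum]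
    _ ≤ (1 / 2) * 2 := by
        apply mul_le_mul_of_nonneg_left _ (by norm_num)
        exact (Summable.sum_le_tsum T (fun _ _ => by positivity)
          summable_geometric_two).trans_eq tsum_geometric_two
    _ = 1 := by norm_num

theorem solve (n : ℕ) (q : ℝ) (hq : 1 ≤ q) (D : Fin 3 → ℝ × ℝ)
    (hor : 0 < cr (D 1 - D 0) (D 2 - D 0)) (m : ℕ) :
    ∀ (α β : Type) [Fintype α] [Fintype β] (A : α → ℝ × ℝ) (B : β → ℝ × ℝ) (h : β → ℝ),
      Fintype.card α = m → Fintype.card β ≤ n → 1 + Real.log m ≤ q ^ 2 →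
      (∀ i j k : β ⊕ Fin 3, i ≠ j → j ≠ k → i ≠ k →
        cr (Sum.elim B D j - Sum.elim B D i) (Sum.elim B D k - Sum.elim B D i) ≠ 0) →
      (∀ b, InTri D (B b)) →
      ((So A B h).card : ℝ) ≤ Real.exp (Lam n * q * √m) := by
  classical
  induction m using Nat.strong_induction_on with
  | _ m ih =>
  intro α β _ _ A B h hα hβ hlog hn hin
  have hLam := Lam_nonneg n
  have hq0 : 0 ≤ q := by linarith
  rcases Nat.lt_or_ge m 2 with hm2 | hm2
  · interval_cases m
    · -- at most one embedding
      have : IsEmpty α := Fintype.card_eq_zero_iff.1 hα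
      have h1 : (So A B h).card ≤ 1 := Finset.card_le_one_of_subsingleton _
      have h2 : ((So A B h).card : ℝ) ≤ 1 := by exact_mod_cast h1
      refine h2.trans ?_
      apply Real.one_le_exp
      positivity
    · -- one point
      obtain ⟨a0, ha0⟩ := Fintype.card_eq_one_iff.1 hα
      have h1 : (So A B h).card ≤ Fintype.card β := by
        rw [← Finset.card_univ]
        apply Finset.card_le_card_of_injOn (fun π => π a0) (fun _ _ => Finset.mem_univ _)
        intro π _ σ _ hπσ
        apply Function.Embedding.ext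
        intro a
        rw [ha0 a]
        exact hπσ
      have h2 : ((So A B h).card : ℝ) ≤ n := by exact_mod_cast h1.trans hβ
      refine h2.trans ((le_exp_Lam n).trans ?_)
      apply Real.exp_le_exp.2
      have : √(((1 : ℕ)) : ℝ) = 1 := by simp
      rw [this, mul_one]
      nlinarith
  -- the main case
  have hm0 : (0 : ℝ) < m := by
    have : 0 < m := by omega
    exact_mod_cast this
  rcases (So A B h).eq_empty_or_nonempty with hemp | hne
  · rw [hemp]
    simp only [Finset.card_empty, Nat.cast_zero]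
    positivity
  obtain ⟨π0, hπ0⟩ := hne
  have hmn : m ≤ n := by
    rw [← hα]
    exact (Fintype.card_le_of_injective π0 π0.injective).trans hβ
  subst hα
  have hbt : ∀ π ∈ So A B h, ∃ R0 : ℝ, ∀ R : ℝ, R0 ≤ R → ∃ s : ℕ, 1 ≤ s ∧
      ∃ p ∈ fam A B D (fun i => R • rot (D (i + 2) - D (i + 1))) s, (∀ a, a ∈ p.1 ↔ π a ∈ p.2) ∧
        (s : ℝ) * √(Fintype.card α) ≤ 1000 * q * p.1.card ∧
        (s : ℝ) * √(Fintype.card α) ≤ 1000 * q * (Fintype.card α - p.1.card) := by
    intro π hπ
    obtain ⟨t, ht⟩ := mem_So.1 hπ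
    exact bt A B h D hn hor hin hq hlog hm2 ht
  choose! R0 hR0 using hbt
  set R : ℝ := ∑ π : α ↪ β, |R0 π| with hR
  have hRge : ∀ π, R0 π ≤ R := fun π =>
    (le_abs_self _).trans (Finset.single_le_sum (f := fun π => |R0 π|)
      (fun _ _ => abs_nonneg _) (Finset.mem_univ π))
  have h3 : ∀ π ∈ So A B h, ∃ s : ℕ, ∃ p : Finset α × Finset β, 1 ≤ s ∧
      p ∈ fam A B D (fun i => R • rot (D (i + 2) - D (i + 1))) s ∧ (∀ a, a ∈ p.1 ↔ π a ∈ p.2) ∧
        (s : ℝ) * √(Fintype.card α) ≤ 1000 * q * p.1.card ∧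
        (s : ℝ) * √(Fintype.card α) ≤ 1000 * q * (Fintype.card α - p.1.card) := by
    intro π hπ
    obtain ⟨s, hs, p, hp, h1, h2, h3⟩ := hR0 π hπ R (hRge π)
    exact ⟨s, p, hs, hp, h1, h2, h3⟩
  choose! s p hs hp hap hc1 hc2 using h3
  set Y : Fin 3 → ℝ × ℝ := fun i => R • rot (D (i + 2) - D (i + 1)) with hY
  set E : ℝ := Real.exp (Lam n * q * √(Fintype.card α)) with hE
  have hE0 : 0 < E := Real.exp_pos _
  -- one value of s
  have hZ : ∀ k, 1 ≤ k → (((So A B h).filter fun π => s π = k).card : ℝ) ≤ E * (1 / 4) ^ k := by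
    intro k hk
    set F : Finset (Finset α × Finset β) := (fam A B D Y k).filter fun p =>
      (k : ℝ) * √(Fintype.card α) ≤ 1000 * q * p.1.card ∧
        (k : ℝ) * √(Fintype.card α) ≤ 1000 * q * (Fintype.card α - p.1.card) with hFdef
    set X : ℝ := Real.exp (Lam n * q * √(Fintype.card α) -
      k * Real.log (4 * (PP n : ℝ) * (KK n : ℝ))) with hX
    have hsq : 0 < √(Fintype.card α : ℝ) := Real.sqrt_pos.2 hm0
    have hk0 : (1 : ℝ) ≤ k := by exact_mod_cast hk
    have hks : 0 < (k : ℝ) * √(Fintype.card α) := by positivity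
    -- restriction
    have hres : ∀ (α' β' : Type) (_ : Fintype α') (_ : Fintype β') (i : α' → α) (j : β' → β),
        Function.Injective j → Fintype.card α' < Fintype.card α →
        (k : ℝ) * √(Fintype.card α) ≤ 1000 * q * (Fintype.card α - Fintype.card α') →
        ((So (fun a => A (i a)) (fun b => B (j b)) (fun b => h (j b))).card : ℝ) ≤ X := by
      intro α' β' _ _ i j hj hlt hkk
      have hβ' : Fintype.card β' ≤ n := (Fintype.card_le_of_injective j hj).trans hβ
      have hlog' : 1 + Real.log (Fintype.card α' : ℝ) ≤ q ^ 2 := by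
        refine le_trans ?_ hlog
        rcases Nat.eq_zero_or_pos (Fintype.card α') with h0 | h0
        · rw [h0]
          simp only [Nat.cast_zero, Real.log_zero]
          have : 0 ≤ Real.log (Fintype.card α : ℝ) := Real.log_natCast_nonneg _
          linarith
        · have h0' : (0 : ℝ) < Fintype.card α' := by exact_mod_cast h0
          have : Real.log (Fintype.card α' : ℝ) ≤ Real.log (Fintype.card α : ℝ) :=
            Real.log_le_log h0' (by exact_mod_cast hlt.le)
          linarith
      have hmap : Function.Injective (Sum.map j (id : Fin 3 → Fin 3)) :=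
        Function.Injective.sumMap hj Function.injective_id
      have helim : ∀ x : β' ⊕ Fin 3, Sum.elim (fun b => B (j b)) D x =
          Sum.elim B D (Sum.map j id x) := by
        intro x
        cases x <;> rfl
      have := ih (Fintype.card α') hlt α' β' (fun a => A (i a)) (fun b => B (j b))
        (fun b => h (j b)) rfl hβ' hlog'
        (by
          intro x y z hxy hyz hxz
          rw [helim x, helim y, helim z]
          exact hn _ _ _ (fun hh => hxy (hmap hh)) (fun hh => hyz (hmap hh))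
            (fun hh => hxz (hmap hh)))
        (fun b => hin (j b))
      refine this.trans ?_
      apply Real.exp_le_exp.2
      exact num_step n q hq _ _ hm0 (by positivity) k hkk (by exact_mod_cast hlt.le)
    have hrb := rec_bound A B h n hmn hβ ((So A B h).filter fun π => s π = k)
      (Finset.filter_subset _ _) F X
      (by
        intro p' hp'
        obtain ⟨_, h1, h2⟩ := (Finset.mem_filter.1 hp')
        have hpos : (0 : ℝ) < 1000 * q := by positivity
        have hc1' : (0 : ℝ) < p'.1.card := by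
          by_contra hcon
          have : 1000 * q * (p'.1.card : ℝ) ≤ 0 :=
            mul_nonpos_of_nonneg_of_nonpos hpos.le (not_lt.1 hcon)
          linarith
        have hc2' : (0 : ℝ) < Fintype.card α - p'.1.card := by
          by_contra hcon
          have : 1000 * q * ((Fintype.card α : ℝ) - p'.1.card) ≤ 0 :=
            mul_nonpos_of_nonneg_of_nonpos hpos.le (not_lt.1 hcon)
          linarith
        have hc3 : 0 < p'.1.card := by exact_mod_cast hc1'
        have hc4 : p'.1.card < Fintype.card α := by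
          have : (p'.1.card : ℝ) < Fintype.card α := by linarith
          exact_mod_cast this
        constructor
        · apply hres _ _ _ _ (fun a : {a // a ∈ p'.1} => a.1) (fun b : {b // b ∈ p'.2} => b.1)
            Subtype.val_injective
          · rw [Fintype.card_coe]
            exact hc4
          · rw [Fintype.card_coe]
            exact h2
        · have hcc : Fintype.card {a // a ∉ p'.1} = Fintype.card α - p'.1.card := by
            rw [Fintype.card_subtype_compl, Fintype.card_coe]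
          apply hres _ _ _ _ (fun a : {a // a ∉ p'.1} => a.1) (fun b : {b // b ∉ p'.2} => b.1)
            Subtype.val_injective
          · rw [hcc]
            omega
          · rw [hcc, Nat.cast_sub hc4.le]
            have : ((Fintype.card α : ℝ) - ((Fintype.card α : ℝ) - (p'.1.card : ℝ))) =
              p'.1.card := by ring
            rw [this]
            exact h1)
      (by
        intro π hπ
        obtain ⟨hπ1, hπ2⟩ := Finset.mem_filter.1 hπ
        refine ⟨p π, ?_, hap π hπ1⟩
        rw [hFdef, Finset.mem_filter, ← hπ2]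
        exact ⟨hp π hπ1, hc1 π hπ1, hc2 π hπ1⟩)
    refine hrb.trans ?_
    have hFc : (F.card : ℝ) ≤ (KK n : ℝ) ^ k := by
      have : F.card ≤ KK n ^ k :=
        (Finset.card_filter_le _ _).trans (fam_card A B D Y hmn hβ hk)
      exact_mod_cast this
    have hP := one_le_PP n
    have hK := one_le_KK n
    have hXe : X = E * ((4 * (PP n : ℝ) * (KK n : ℝ)) ^ k)⁻¹ := by
      rw [hX, Real.exp_sub, hE, div_eq_mul_inv]
      congr 2
      rw [mul_comm, Real.exp_mul, Real.exp_log (by have := four_le n; linarith),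
        Real.rpow_natCast]
    have hPk : (PP n : ℝ) ≤ (PP n : ℝ) ^ k := le_self_pow₀ hP (by omega)
    have hX0 : 0 ≤ X := (Real.exp_pos _).le
    have hK0 : (0 : ℝ) < (KK n : ℝ) ^ k := by positivity
    have hP0 : (0 : ℝ) < (PP n : ℝ) ^ k := by positivity
    calc (F.card : ℝ) * (PP n * X) ≤ (KK n : ℝ) ^ k * ((PP n : ℝ) ^ k * X) := by
          apply mul_le_mul hFc _ (by positivity) hK0.le
          exact mul_le_mul_of_nonneg_right hPk hX0
      _ = E * (1 / 4) ^ k := by
          rw [hXe, mul_pow, mul_pow, one_div, inv_pow]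
          field_simp
  -- summation
  have hcard : ((So A B h).card : ℝ) =
      ∑ k ∈ (So A B h).image s, (((So A B h).filter fun π => s π = k).card : ℝ) := by
    rw [Finset.card_eq_sum_card_image s (So A B h)]
    push_cast
    rfl
  rw [hcard]
  calc ∑ k ∈ (So A B h).image s, (((So A B h).filter fun π => s π = k).card : ℝ)
      ≤ ∑ k ∈ (So A B h).image s, E * (1 / 4) ^ k := by
        apply Finset.sum_le_sum
        intro k hk
        obtain ⟨π, hπ, rfl⟩ := Finset.mem_image.1 hk
        exact hZ _ (hs π hπ)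
    _ = E * ∑ k ∈ (So A B h).image s, ((1 : ℝ) / 4) ^ k := by rw [Finset.mul_sum]
    _ ≤ E * 1 := by
        apply mul_le_mul_of_nonneg_left _ hE0.le
        apply sum_quarter
        intro k hk
        obtain ⟨π, hπ, rfl⟩ := Finset.mem_image.1 hk
        exact hs π hπ
    _ = E := mul_one _

end Pool.Agent.H63.SX
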