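import Pool.Agent.H63.SX.Two
import Pool.Agent.H63.SX.Cnt

/-!
# SX-16: few edges inside of a set of vertices

Let `V' = {v // v ∈ W ∨ ∃ i, v = D i}` with the restricted `b' = b ∘ val`, `g' = g ∘ val`, and
`D' i = ⟨D i, _⟩`.  `Ge b' g'` and `Hull D' b'` are inherited.  If `u, v ∈ W` are adjacent in
`Gr b g` then they are adjacent in `Gr b' g'` (the same point `y`; `ell` is the same).
In `V'` every adjacent pair is contained in at least one triangle: `two_inner` if `u` or `v` is not
a `D' i` (use the symmetry of the pair), otherwise `one_outer`.  So mapping an adjacent ordered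
pair `(u,v)` of `V'` to a triangle containing `u` and `v`, every triangle is hit at most `9` times;
to get the constant: a triangle `{x,y,z}` contains exactly `6` ordered pairs of different elements
(`Finset.offDiag_card`, `3 * 3 - 3`), so the number of adjacent ordered pairs of `V'` is at most
`6 * (tris b' g').card ≤ 12 * card V' ≤ 12 * (W.card + 3)`
(`Finset.card_le_mul_card_image` or `card_biUnion_le` over the triangles `τ` of `τ.offDiag`).
`card V' ≤ W.card + 3`: `V'` injects into `W ∪ univ.image D` (`Finset.card_union_le`,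
`Finset.card_image_le`), or `Fintype.card_subtype`.
-/

set_option autoImplicit false

namespace Pool.Agent.H63.SX

open Pool.Agent.ROT (cr dt rot)

variable {V : Type} [Fintype V] [DecidableEq V] {b : V → ℝ × ℝ} {g : V → ℝ} {D : Fin 3 → V}

omit [Fintype V] [DecidableEq V] in
lemma spz_Ge (hG : Ge b g) (p : V → Prop) :
    Ge (fun v : {v // p v} => b v.1) (fun v : {v // p v} => g v.1) := by
  constructor
  · intro i j k h1 h2 h3
    exact hG.ncol i.1 j.1 k.1 (fun h => h1 (Subtype.ext h)) (fun h => h2 (Subtype.ext h))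
      (fun h => h3 (Subtype.ext h))
  · intro i j k l y h1 h2 h3 h4 h5 h6 e1 e2
    exact hG.quad i.1 j.1 k.1 l.1 y (fun h => h1 (Subtype.ext h)) (fun h => h2 (Subtype.ext h))
      (fun h => h3 (Subtype.ext h)) (fun h => h4 (Subtype.ext h)) (fun h => h5 (Subtype.ext h))
      (fun h => h6 (Subtype.ext h)) e1 e2

omit [Fintype V] [DecidableEq V] in
lemma spz_Hull (hH : Hull D b) (p : V → Prop) (hp : ∀ i, p (D i)) :
    Hull (fun i => (⟨D i, hp i⟩ : {v // p v})) (fun v : {v // p v} => b v.1) := by
  constructor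
  · intro i j h
    exact hH.inj (congrArg Subtype.val h)
  · exact hH.ori
  · intro v hv
    exact hH.ins v.1 fun i h => hv i (Subtype.ext h)

omit [Fintype V] [DecidableEq V] in
lemma spz_adj (p : V → Prop) {u v : {v // p v}} (h : (Gr b g).Adj u.1 v.1) :
    (Gr (fun v : {v // p v} => b v.1) (fun v : {v // p v} => g v.1)).Adj u v := by
  obtain ⟨hne, y, h1, h2⟩ := h
  exact ⟨fun e => hne (congrArg Subtype.val e), y, h1, fun w hw hw' =>
    h2 w.1 (fun e => hw (Subtype.ext e)) (fun e => hw' (Subtype.ext e))⟩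

/-- every adjacent pair is contained in a triangle -/
lemma spz_tri (hG : Ge b g) (hH : Hull D b) {u v : V} (h : (Gr b g).Adj u v) :
    ∃ τ ∈ tris b g, u ∈ τ ∧ v ∈ τ := by
  classical
  by_cases hu : ∀ i, u ≠ D i
  · have h2 := two_inner hG hH h hu
    obtain ⟨τ, hτ⟩ := Finset.card_pos.1 (by rw [h2]; norm_num)
    rw [Finset.mem_filter] at hτ
    exact ⟨τ, hτ.1, hτ.2⟩
  · by_cases hv : ∀ i, v ≠ D i
    · have h2 := two_inner hG hH h.symm hv
      obtain ⟨τ, hτ⟩ := Finset.card_pos.1 (by rw [h2]; norm_num)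
      rw [Finset.mem_filter] at hτ
      exact ⟨τ, hτ.1, hτ.2.2, hτ.2.1⟩
    · push Not at hu hv
      obtain ⟨i, rfl⟩ := hu
      obtain ⟨j, rfl⟩ := hv
      have hij : i ≠ j := fun e => h.ne (by rw [e])
      have h2 := one_outer hG hH hij
      obtain ⟨τ, hτ⟩ := Finset.card_pos.1 (by rw [h2]; norm_num)
      rw [Finset.mem_filter] at hτ
      exact ⟨τ, hτ.1, hτ.2⟩

lemma spz_card3 {τ : Finset V} (h : τ ∈ tris b g) : τ.card = 3 := by
  obtain ⟨u, v, w, h1, h2, h3, h4, -⟩ := mem_tris.1 h
  rw [Finset.card_eq_three]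
  exact ⟨u, v, w, h1, h3, h2, h4⟩

open Classical in
/-- the bound for all adjacent pairs -/
lemma spz_all (hG : Ge b g) (hH : Hull D b) :
    ((Finset.univ : Finset (V × V)).filter fun e => (Gr b g).Adj e.1 e.2).card ≤
      12 * Fintype.card V := by
  have hsub : ((Finset.univ : Finset (V × V)).filter fun e => (Gr b g).Adj e.1 e.2) ⊆
      (tris b g).biUnion fun τ => τ.offDiag := by
    intro e he
    rw [Finset.mem_filter] at he
    obtain ⟨τ, hτ, h1, h2⟩ := spz_tri hG hH he.2
    rw [Finset.mem_biUnion]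
    exact ⟨τ, hτ, Finset.mem_offDiag.2 ⟨h1, h2, he.2.ne⟩⟩
  have h1 := Finset.card_le_card hsub
  have h2 : ((tris b g).biUnion fun τ => τ.offDiag).card ≤ (tris b g).card * 6 := by
    refine Finset.card_biUnion_le_card_mul _ _ _ fun τ hτ => ?_
    rw [Finset.offDiag_card, spz_card3 hτ]
  have h3 := tris_card hG
  omega

open Classical in
theorem sparse (hG : Ge b g) (hH : Hull D b) (W : Finset V) :
    ((W ×ˢ W).filter fun e => (Gr b g).Adj e.1 e.2).card ≤ 12 * (W.card + 3) := by
  set p : V → Prop := fun v => v ∈ W ∨ ∃ i, v = D i with hp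
  have hD : ∀ i, p (D i) := fun i => Or.inr ⟨i, rfl⟩
  have h1 := spz_all (spz_Ge hG p) (spz_Hull hH p hD)
  have hcard : Fintype.card {v // p v} ≤ W.card + 3 := by
    rw [Fintype.card_subtype]
    have hsub : (Finset.univ.filter fun v => p v) ⊆ W ∪ Finset.univ.image D := by
      intro v hv
      rw [Finset.mem_filter] at hv
      rcases hv.2 with h | ⟨i, h⟩
      · exact Finset.mem_union_left _ h
      · exact Finset.mem_union_right _ (Finset.mem_image.2 ⟨i, Finset.mem_univ i, h.symm⟩)
    have h2 := Finset.card_le_card hsub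
    have h3 := Finset.card_union_le W (Finset.univ.image D)
    have h4 : (Finset.univ.image D).card ≤ 3 := by
      refine Finset.card_image_le.trans ?_
      simp
    omega
  have hsub : ((W ×ˢ W).filter fun e => (Gr b g).Adj e.1 e.2) ⊆
      ((Finset.univ : Finset ({v // p v} × {v // p v})).filter fun e =>
        (Gr (fun v : {v // p v} => b v.1) (fun v : {v // p v} => g v.1)).Adj e.1 e.2).image
        fun e => (e.1.1, e.2.1) := by
    intro e he
    rw [Finset.mem_filter, Finset.mem_product] at he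
    rw [Finset.mem_image]
    refine ⟨(⟨e.1, Or.inl he.1.1⟩, ⟨e.2, Or.inl he.1.2⟩), ?_, rfl⟩
    rw [Finset.mem_filter]
    exact ⟨Finset.mem_univ _, spz_adj p he.2⟩
  have h5 := (Finset.card_le_card hsub).trans Finset.card_image_le
  omega

end Pool.Agent.H63.SX
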