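import Pool.Agent.H63.SX.Edge

/-!
# SX-14: every edge is in two triangles (the outer edges in one)

Let `d = b v - b u`.  For an adjacent pair `u, v` (more generally `u ≠ v`) the map
`w ↦ {u, v, w}` is a bijection from `{w | w ≠ u ∧ w ≠ v ∧ ∃ y, IsT b g u v w y}` to the triangles
containing `u` and `v` (`mem_tris`; `IsT` is invariant under permutations of the three vertices:
9 cases or a small lemma).  For `w ≠ u, v` we have `cr d (b w - b u) ≠ 0` (`Ge.ncol`), so these `w`
are divided into those with `cr d (b w - b u) > 0` and `< 0`; by `side` (`s = 1`, `s = -1`) each of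
the two classes has exactly one element if there is some `x` with `cr d (b x - b u) > 0`
(`< 0`), and otherwise it is empty.

* `two_inner`.  `u` is not a `D i`, so with `q i = b (D i) - b u` the cross products
  `cr (q 0) (q 1)`, `cr (q 1) (q 2)`, `cr (q 2) (q 0)` are positive (`Hull.ins`), and
  `cr (q 1) (q 2) * cr d (q 0) + cr (q 2) (q 0) * cr d (q 1) + cr (q 0) (q 1) * cr d (q 2) = 0`.
  `cr d (q 0) = cr d (q 1) = 0` is impossible for `d ≠ 0` (then `cr (q 0) (q 1) = 0`); so some
  `cr d (q i)` is positive and some is negative.  Both classes are nonempty: card = 2.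
* `adj_outer`.  `i ≠ j`.  Let `u = D i`, `v = D j`, `k` the third index.  All `x ≠ u, v` have
  `cr d (b x - b u)` of the same sign: for `x = D k` it is `± cr (d1 - d0) (d2 - d0)` (`Hull.ori`),
  for `x` not among the `D`'s: `cr (d j - d i) (b x - d i) = cr (q i) (q j)` with
  `q = d - b x` (expand), whose sign is given by `Hull.ins`; both signs are `+` if `j = i + 1`
  and `-` if `i = j + 1`.  Take a point `y0` with `ell u y0 = ell v y0` (exists, `b u ≠ b v`:
  `y0 = ((g v - g u) / <d,d>) • d`) and move in the direction `∓ rot d`: for large `λ` all other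
  functions are smaller.  So `IsE`.
* `one_outer`: by the same computation one of the two classes is empty, and the other one
  contains `D k` as candidate `x` for `side`; card = 1.
-/

set_option autoImplicit false

namespace Pool.Agent.H63.SX

open Pool.Agent.ROT (cr dt rot)

variable {V : Type} [Fintype V] [DecidableEq V] {b : V → ℝ × ℝ} {g : V → ℝ} {D : Fin 3 → V}

omit [Fintype V] [DecidableEq V] in
theorem Two_perm1 {u v w : V} {y : ℝ × ℝ} (h : IsT b g u v w y) : IsT b g v u w y :=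
  ⟨h.1.symm, h.1.symm.trans h.2.1, fun x h1 h2 h3 => by
    rw [← h.1]
    exact h.2.2 x h2 h1 h3⟩

omit [Fintype V] [DecidableEq V] in
theorem Two_perm2 {u v w : V} {y : ℝ × ℝ} (h : IsT b g u v w y) : IsT b g u w v y :=
  ⟨h.2.1, h.1, fun x h1 h2 h3 => h.2.2 x h1 h3 h2⟩

theorem Two_mem1 {u : V} {τ : Finset V} (hτ : τ ∈ tris b g) (hu : u ∈ τ) :
    ∃ v w, u ≠ v ∧ v ≠ w ∧ u ≠ w ∧ τ = {u, v, w} ∧ ∃ y, IsT b g u v w y := by
  rw [mem_tris] at hτ
  obtain ⟨p, q, r, h1, h2, h3, rfl, y, hy⟩ := hτ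
  rw [Finset.mem_insert, Finset.mem_insert, Finset.mem_singleton] at hu
  rcases hu with rfl | rfl | rfl
  · exact ⟨q, r, h1, h2, h3, rfl, y, hy⟩
  · exact ⟨p, r, h1.symm, h3, h2, Finset.insert_comm _ _ _, y, Two_perm1 hy⟩
  · refine ⟨p, q, h3.symm, h1, h2.symm, ?_, y, Two_perm1 (Two_perm2 hy)⟩
    ext z
    simp only [Finset.mem_insert, Finset.mem_singleton]
    tauto

theorem Two_mem2 {u v : V} {τ : Finset V} (hτ : τ ∈ tris b g) (huv : u ≠ v) (hu : u ∈ τ)
    (hv : v ∈ τ) : ∃ w, w ≠ u ∧ w ≠ v ∧ τ = {u, v, w} ∧ ∃ y, IsT b g u v w y := by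
  obtain ⟨q, r, h1, h2, h3, rfl, y, hy⟩ := Two_mem1 hτ hu
  rw [Finset.mem_insert, Finset.mem_insert, Finset.mem_singleton] at hv
  rcases hv with rfl | rfl | rfl
  · exact absurd rfl huv
  · exact ⟨r, h3.symm, h2.symm, rfl, y, hy⟩
  · refine ⟨q, h1.symm, h2, ?_, y, Two_perm2 hy⟩
    rw [Finset.pair_comm]

omit [Fintype V] [DecidableEq V] in
theorem Two_ne {u v w : V} {s : ℝ} (h : 0 < s * cr (b v - b u) (b w - b u)) : w ≠ u ∧ w ≠ v := by
  constructor
  · rintro rfl
    have h1 : s * cr (b v - b w) (b w - b w) = 0 := by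
      rw [sub_self]
      unfold cr
      simp
    rw [h1] at h
    exact lt_irrefl _ h
  · rintro rfl
    rw [Pool.Agent.ROT.cr_self, mul_zero] at h
    exact lt_irrefl _ h

open Classical in
theorem Two_card (hG : Ge b g) {u v : V} (huv : u ≠ v) :
    ((tris b g).filter fun τ => u ∈ τ ∧ v ∈ τ).card =
    (Finset.univ.filter fun w => 0 < 1 * cr (b v - b u) (b w - b u) ∧
      ∃ y, IsT b g u v w y).card +
    (Finset.univ.filter fun w => 0 < -1 * cr (b v - b u) (b w - b u) ∧
      ∃ y, IsT b g u v w y).card := by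
  rw [← Finset.card_union_of_disjoint]
  · symm
    apply Finset.card_bij (fun w _ => ({u, v, w} : Finset V))
    · intro w hw
      rw [Finset.mem_union, Finset.mem_filter, Finset.mem_filter] at hw
      have h1 : w ≠ u ∧ w ≠ v := by
        rcases hw with h | h
        · exact Two_ne h.2.1
        · exact Two_ne h.2.1
      have h2 : ∃ y, IsT b g u v w y := by
        rcases hw with h | h
        · exact h.2.2
        · exact h.2.2
      rw [Finset.mem_filter, mem_tris]
      exact ⟨⟨u, v, w, huv, h1.2.symm, h1.1.symm, rfl, h2⟩, by simp, by simp⟩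
    · intro w hw w' hw' he
      have hne : ∀ z, z ∈ (Finset.univ.filter fun w => 0 < 1 * cr (b v - b u) (b w - b u) ∧
          ∃ y, IsT b g u v w y) ∪ (Finset.univ.filter fun w => 0 < -1 * cr (b v - b u) (b w - b u) ∧
          ∃ y, IsT b g u v w y) → z ≠ u ∧ z ≠ v := by
        intro z hz
        rw [Finset.mem_union, Finset.mem_filter, Finset.mem_filter] at hz
        rcases hz with h | h
        · exact Two_ne h.2.1
        · exact Two_ne h.2.1
      have h1 : w ∈ ({u, v, w'} : Finset V) := by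
        have he' : ({u, v, w} : Finset V) = {u, v, w'} := he
        rw [← he']
        simp
      rw [Finset.mem_insert, Finset.mem_insert, Finset.mem_singleton] at h1
      rcases h1 with h1 | h1 | h1
      · exact absurd h1 (hne w hw).1
      · exact absurd h1 (hne w hw).2
      · exact h1
    · intro τ hτ
      rw [Finset.mem_filter] at hτ
      obtain ⟨w, h1, h2, h3, h4⟩ := Two_mem2 hτ.1 huv hτ.2.1 hτ.2.2
      refine ⟨w, ?_, h3.symm⟩
      rw [Finset.mem_union, Finset.mem_filter, Finset.mem_filter]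
      have h5 := hG.ncol u v w huv h2.symm h1.symm
      rcases lt_or_gt_of_ne h5 with h6 | h6
      · exact Or.inr ⟨Finset.mem_univ _, by linarith, h4⟩
      · exact Or.inl ⟨Finset.mem_univ _, by linarith, h4⟩
  · rw [Finset.disjoint_left]
    intro w h1 h2
    rw [Finset.mem_filter] at h1 h2
    linarith [h1.2.1, h2.2.1]

open Classical in
theorem Two_side1 (hG : Ge b g) {u v : V} (h : (Gr b g).Adj u v) {s : ℝ} (hs : s = 1 ∨ s = -1)
    {x : V} (hx : 0 < s * cr (b v - b u) (b x - b u)) :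
    (Finset.univ.filter fun w => 0 < s * cr (b v - b u) (b w - b u) ∧
      ∃ y, IsT b g u v w y).card = 1 := by
  obtain ⟨w, hw, hu⟩ := side hG h hs hx
  rw [Finset.card_eq_one]
  refine ⟨w, ?_⟩
  ext z
  rw [Finset.mem_filter, Finset.mem_singleton]
  constructor
  · intro hz
    exact hu z hz.2
  · rintro rfl
    exact ⟨Finset.mem_univ _, hw⟩

theorem Two_q {q : Fin 3 → ℝ × ℝ} {d : ℝ × ℝ} (h1 : 0 < cr (q 0) (q 1)) (h2 : 0 < cr (q 1) (q 2))
    (h3 : 0 < cr (q 2) (q 0)) (hd : d ≠ 0) : ∃ i, 0 < cr d (q i) := by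
  by_contra hcon
  push Not at hcon
  have key : cr (q 1) (q 2) * cr d (q 0) + cr (q 2) (q 0) * cr d (q 1) +
      cr (q 0) (q 1) * cr d (q 2) = 0 := by
    unfold cr
    ring
  have e1 : cr (q 1) (q 2) * cr d (q 0) ≤ 0 := mul_nonpos_of_nonneg_of_nonpos h2.le (hcon 0)
  have e2 : cr (q 2) (q 0) * cr d (q 1) ≤ 0 := mul_nonpos_of_nonneg_of_nonpos h3.le (hcon 1)
  have e3 : cr (q 0) (q 1) * cr d (q 2) ≤ 0 := mul_nonpos_of_nonneg_of_nonpos h1.le (hcon 2)
  have e4 : cr (q 1) (q 2) * cr d (q 0) = 0 := by linarith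
  have e5 : cr (q 2) (q 0) * cr d (q 1) = 0 := by linarith
  have e6 : cr d (q 0) = 0 := (mul_eq_zero.1 e4).resolve_left h2.ne'
  have e7 : cr d (q 1) = 0 := (mul_eq_zero.1 e5).resolve_left h3.ne'
  apply hd
  have f1 : cr (q 0) (q 1) * d.1 = 0 := by
    have : cr (q 0) (q 1) * d.1 = (q 0).1 * cr d (q 1) - (q 1).1 * cr d (q 0) := by
      unfold cr
      ring
    rw [this, e6, e7]
    ring
  have f2 : cr (q 0) (q 1) * d.2 = 0 := by
    have : cr (q 0) (q 1) * d.2 = (q 0).2 * cr d (q 1) - (q 1).2 * cr d (q 0) := by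
      unfold cr
      ring
    rw [this, e6, e7]
    ring
  exact Prod.ext ((mul_eq_zero.1 f1).resolve_left h1.ne') ((mul_eq_zero.1 f2).resolve_left h1.ne')

omit [Fintype V] [DecidableEq V] in
theorem Two_d_ne {u v x : V} (h : cr (b v - b u) (b x - b u) ≠ 0) : b v - b u ≠ 0 := by
  intro h0
  apply h
  rw [h0]
  unfold cr
  simp

theorem two_inner (hG : Ge b g) (hH : Hull D b) {u v : V} (h : (Gr b g).Adj u v)
    (hu : ∀ i, u ≠ D i) : ((tris b g).filter fun τ => u ∈ τ ∧ v ∈ τ).card = 2 := by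
  have hd : b v - b u ≠ 0 := by
    by_cases h0 : D 0 = v
    · have h1 : D 1 ≠ v := by
        intro h1
        have h2 := hH.inj (h0.trans h1.symm)
        exact absurd h2 (by decide)
      exact Two_d_ne (hG.ncol u v (D 1) h.1 h1.symm (hu 1))
    · exact Two_d_ne (hG.ncol u v (D 0) h.1 (Ne.symm h0) (hu 0))
  obtain ⟨h1, h2, h3⟩ := hH.ins u hu
  obtain ⟨i, hi⟩ := Two_q (q := fun i => b (D i) - b u) h1 h2 h3 hd
  obtain ⟨j, hj⟩ := Two_q (q := fun i => b (D i) - b u) (d := -(b v - b u)) h1 h2 h3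
    (neg_ne_zero.2 hd)
  have hi' : 0 < 1 * cr (b v - b u) (b (D i) - b u) := by
    rw [one_mul]
    exact hi
  have hj' : 0 < -1 * cr (b v - b u) (b (D j) - b u) := by
    have e : cr (-(b v - b u)) (b (D j) - b u) = -1 * cr (b v - b u) (b (D j) - b u) := by
      unfold cr
      simp only [Prod.fst_neg, Prod.snd_neg]
      ring
    rw [← e]
    exact hj
  rw [Two_card hG h.1, Two_side1 hG h (Or.inl rfl) hi', Two_side1 hG h (Or.inr rfl) hj']

omit [Fintype V] [DecidableEq V] in
theorem Two_ori (hH : Hull D b) (i : Fin 3) :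
    0 < cr (b (D (i + 1)) - b (D i)) (b (D (i + 2)) - b (D i)) := by
  have h := hH.ori
  fin_cases i
  · exact h
  · show 0 < cr (b (D 2) - b (D 1)) (b (D 0) - b (D 1))
    have e : cr (b (D 2) - b (D 1)) (b (D 0) - b (D 1)) =
        cr (b (D 1) - b (D 0)) (b (D 2) - b (D 0)) := by
      unfold cr
      simp only [Prod.fst_sub, Prod.snd_sub]
      ring
    rw [e]
    exact h
  · show 0 < cr (b (D 0) - b (D 2)) (b (D 1) - b (D 2))
    have e : cr (b (D 0) - b (D 2)) (b (D 1) - b (D 2)) =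
        cr (b (D 1) - b (D 0)) (b (D 2) - b (D 0)) := by
      unfold cr
      simp only [Prod.fst_sub, Prod.snd_sub]
      ring
    rw [e]
    exact h

omit [Fintype V] [DecidableEq V] in
theorem Two_ins (hH : Hull D b) (i : Fin 3) {x : V} (hx : ∀ k, x ≠ D k) :
    0 < cr (b (D i) - b x) (b (D (i + 1)) - b x) := by
  obtain ⟨h1, h2, h3⟩ := hH.ins x hx
  fin_cases i
  · exact h1
  · exact h2
  · exact h3

omit [Fintype V] [DecidableEq V] in
theorem Two_out (hH : Hull D b) (i : Fin 3) {x : V} (h1 : x ≠ D i) (h2 : x ≠ D (i + 1)) :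
    0 < cr (b (D (i + 1)) - b (D i)) (b x - b (D i)) := by
  by_cases h3 : x = D (i + 2)
  · rw [h3]
    exact Two_ori hH i
  · have h4 : ∀ k, x ≠ D k := by
      intro k
      have h5 : k = i ∨ k = i + 1 ∨ k = i + 2 :=
        (by decide : ∀ i k : Fin 3, k = i ∨ k = i + 1 ∨ k = i + 2) i k
      rcases h5 with rfl | rfl | rfl
      · exact h1
      · exact h2
      · exact h3
    have h5 := Two_ins hH i h4
    have e : cr (b (D (i + 1)) - b (D i)) (b x - b (D i)) =
        cr (b (D i) - b x) (b (D (i + 1)) - b x) := by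
      unfold cr
      simp only [Prod.fst_sub, Prod.snd_sub]
      ring
    rw [e]
    exact h5

omit [DecidableEq V] in
theorem Two_adj {u v : V} (huv : u ≠ v) (hd : b v - b u ≠ 0)
    (h : ∀ x, x ≠ u → x ≠ v → 0 < cr (b v - b u) (b x - b u)) : (Gr b g).Adj u v := by
  refine ⟨huv, ?_⟩
  have hdd : dt (b v - b u) (b v - b u) ≠ 0 := by
    intro h0
    apply hd
    have e1 : (b v - b u).1 * (b v - b u).1 + (b v - b u).2 * (b v - b u).2 = 0 := h0
    have e2 := mul_self_nonneg (b v - b u).1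
    have e3 := mul_self_nonneg (b v - b u).2
    have e4 : (b v - b u).1 * (b v - b u).1 = 0 := by linarith
    have e5 : (b v - b u).2 * (b v - b u).2 = 0 := by linarith
    exact Prod.ext (mul_self_eq_zero.1 e4) (mul_self_eq_zero.1 e5)
  obtain ⟨y0, hy0⟩ : ∃ y0 : ℝ × ℝ, dt y0 (b v - b u) = g v - g u := by
    refine ⟨((g v - g u) / dt (b v - b u) (b v - b u)) • (b v - b u), ?_⟩
    rw [Pool.Agent.ROT.dt_smul_left, div_mul_cancel₀ _ hdd]
  have hev : ∀ᶠ μ in (Filter.atBot : Filter ℝ), ∀ x, x ≠ u → x ≠ v →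
      (ell b g x y0 - ell b g u y0) + μ * cr (b v - b u) (b x - b u) < 0 := by
    rw [Filter.eventually_all]
    intro x
    by_cases hxu : x = u
    · exact Filter.Eventually.of_forall fun μ h1 => absurd hxu h1
    · by_cases hxv : x = v
      · exact Filter.Eventually.of_forall fun μ _ h1 => absurd hxv h1
      · have hc := h x hxu hxv
        filter_upwards [Filter.eventually_lt_atBot
          (-(ell b g x y0 - ell b g u y0) / cr (b v - b u) (b x - b u))] with μ hμ _ _
        rw [lt_div_iff₀ hc] at hμ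
        linarith
  obtain ⟨μ, hμ⟩ := hev.exists
  have hdiff : ∀ x, ell b g x (y0 + μ • rot (b v - b u)) - ell b g u (y0 + μ • rot (b v - b u)) =
      (ell b g x y0 - ell b g u y0) + μ * cr (b v - b u) (b x - b u) := by
    intro x
    unfold ell
    rw [← Pool.Agent.ROT.dt_rot, Pool.Agent.ROT.dt_add_left, Pool.Agent.ROT.dt_add_left,
      Pool.Agent.ROT.dt_smul_left, Pool.Agent.ROT.dt_smul_left, Pool.Agent.ROT.dt_sub_right]
    ring
  refine ⟨y0 + μ • rot (b v - b u), ?_, ?_⟩
  · have h1 := hdiff v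
    rw [Pool.Agent.ROT.cr_self, mul_zero, add_zero] at h1
    have h2 : ell b g v y0 - ell b g u y0 = 0 := by
      unfold ell
      rw [Pool.Agent.ROT.dt_sub_right] at hy0
      linarith
    linarith
  · intro w hw hw'
    have h1 := hdiff w
    have h2 := hμ w hw hw'
    linarith

omit [DecidableEq V] in
theorem Two_adj_succ (hH : Hull D b) (i : Fin 3) : (Gr b g).Adj (D i) (D (i + 1)) := by
  have h1 : D i ≠ D (i + 1) := by
    intro h
    exact (by decide : ∀ i : Fin 3, i ≠ i + 1) i (hH.inj h)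
  exact Two_adj h1 (Two_d_ne (Two_ori hH i).ne') fun x hx hx' => Two_out hH i hx hx'

theorem Two_cyc (i j : Fin 3) (hij : i ≠ j) : j = i + 1 ∨ i = j + 1 := by
  revert i j
  decide

omit [DecidableEq V] in
theorem adj_outer (hG : Ge b g) (hH : Hull D b) {i j : Fin 3} (hij : i ≠ j) :
    (Gr b g).Adj (D i) (D j) := by
  rcases Two_cyc i j hij with rfl | rfl
  · exact Two_adj_succ hH i
  · exact (Two_adj_succ hH j).symm

theorem Two_one_succ (hG : Ge b g) (hH : Hull D b) (i : Fin 3) :
    ((tris b g).filter fun τ => D i ∈ τ ∧ D (i + 1) ∈ τ).card = 1 := by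
  classical
  have hadj := Two_adj_succ (g := g) hH i
  have h1 : 0 < 1 * cr (b (D (i + 1)) - b (D i)) (b (D (i + 2)) - b (D i)) := by
    rw [one_mul]
    exact Two_ori hH i
  have h2 : (Finset.univ.filter fun w => 0 < -1 * cr (b (D (i + 1)) - b (D i)) (b w - b (D i)) ∧
      ∃ y, IsT b g (D i) (D (i + 1)) w y).card = 0 := by
    rw [Finset.card_eq_zero, Finset.filter_eq_empty_iff]
    rintro w - ⟨h3, -⟩
    obtain ⟨h4, h5⟩ := Two_ne h3
    have h6 := Two_out hH i h4 h5
    linarith
  rw [Two_card hG hadj.1, Two_side1 hG hadj (Or.inl rfl) h1, h2]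

theorem one_outer (hG : Ge b g) (hH : Hull D b) {i j : Fin 3} (hij : i ≠ j) :
    ((tris b g).filter fun τ => D i ∈ τ ∧ D j ∈ τ).card = 1 := by
  rcases Two_cyc i j hij with rfl | rfl
  · exact Two_one_succ hG hH i
  · rw [← Two_one_succ hG hH j]
    congr 1
    ext τ
    rw [Finset.mem_filter, Finset.mem_filter]
    tauto

end Pool.Agent.H63.SX
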