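import Pool.Agent.H63.SX.Defs

/-!
# SX: types of separating cycles (definitions)
-/

set_option autoImplicit false

namespace Pool.Agent.H63.SX

open Pool.Agent.ROT (cr dt rot)

variable {α β : Type}

/-- The crossing pattern of the broken edge `u - e - v`, as seen from the points of `A`. -/
noncomputable def pat (A : α → ℝ × ℝ) (Y : Fin 3 → ℝ × ℝ) (u v : α ⊕ Fin 3) (e : ℝ × ℝ) :
    α → ZMod 2 :=
  fun a => eps (Sum.elim A Y u - A a) (e - A a) + eps (e - A a) (Sum.elim A Y v - A a)

/-- Data of an edge: two vertices, their two sites, the crossing pattern. -/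
abbrev ET (α β : Type) : Type :=
  ((α ⊕ Fin 3) × (α ⊕ Fin 3)) × ((β ⊕ Fin 3) × (β ⊕ Fin 3)) × (α → ZMod 2)

open Classical in
/-- The possible data of edges. -/
noncomputable def ets [Fintype α] [Fintype β] (A : α → ℝ × ℝ) (Y : Fin 3 → ℝ × ℝ) :
    Finset (ET α β) :=
  Finset.univ.filter fun x => ∃ e, x.2.2 = pat A Y x.1.1 x.1.2 e

open Classical in
/-- The points of `A` inside of the cycle with the data `l`. -/
noncomputable def Iof [Fintype α] (l : List (ET α β)) : Finset α :=
  Finset.univ.filter fun a =>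
    (∀ x ∈ l, x.1.1 ≠ Sum.inl a ∧ x.1.2 ≠ Sum.inl a) ∧ (l.map fun x => x.2.2 a).sum = 1

open Classical in
/-- The points of `B` inside of the polygon with the data `l`. -/
noncomputable def Jof [Fintype β] (B : β → ℝ × ℝ) (D : Fin 3 → ℝ × ℝ) (l : List (ET α β)) :
    Finset β :=
  Finset.univ.filter fun b =>
    (∀ x ∈ l, x.2.1.1 ≠ Sum.inl b ∧ x.2.1.2 ≠ Sum.inl b) ∧
      (l.map fun x => eps (Sum.elim B D x.2.1.1 - B b) (Sum.elim B D x.2.1.2 - B b)).sum = 1

open Classical in
/-- The pairs (points of `A` inside, points of `B` inside) for all cycles with `s` edges, and the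
pairs of singletons. -/
noncomputable def fam [Fintype α] [Fintype β] (A : α → ℝ × ℝ) (B : β → ℝ × ℝ)
    (D Y : Fin 3 → ℝ × ℝ) (s : ℕ) : Finset (Finset α × Finset β) :=
  ((Fintype.piFinset fun _ : Fin s => (ets A Y : Finset (ET α β))).image fun f =>
      (Iof (List.ofFn f), Jof B D (List.ofFn f))) ∪
    Finset.univ.image fun p : α × β => ({p.1}, {p.2})

/-- Bound for the number of data of one edge (and of pairs of points). -/
def KK (n : ℕ) : ℕ := (n + 3) ^ 4 * (1 + 5 * n + (5 * n) ^ 2) + n ^ 2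

end Pool.Agent.H63.SX
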