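import Pool.Agent.H63.SX.TyDefs

/-!
# SX-25: membership in the family of types

* `mem_fam_list`: `l = List.ofFn f` with `f i = l.get i` (`List.ofFn_get`); be careful with the
  length (`subst`).
* `mem_fam_single`: the second part of the union.
* `type_of`.  Let `L` be a list of pairs of vertices of `V = α ⊕ Fin 3`, `π : α ↪ β`, and for every
  pair a point `e u v`.  Let `π' = Sum.map π id : V → β ⊕ Fin 3` (injective) and let
  `l = L.map (fun (u,v) => ((u, v), (π' u, π' v), pat A Y u v (e u v)))`.  Its length is that of `L`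
  and all members are in `ets A Y`.  Let `K a = ∑_{(u,v) ∈ L} pat A Y u v (e u v) a` and
  `Q a = ∑_{(u,v) ∈ L} eps (Sum.elim B D (π' u) - B (π a)) (Sum.elim B D (π' v) - B (π a))`
  and assume (`hK`) `K a = Q a` for all `a` that are not on `L`.  Then
  `Iof l = {a | a not on L, Q a = 1}` and `a ∈ Iof l ↔ π a ∈ Jof B D l`: `π a` is on
  the sites of `l` iff `a` is on `L` by injectivity of `π'`.
-/

set_option autoImplicit false

namespace Pool.Agent.H63.SX

open Pool.Agent.ROT (cr dt rot)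

variable {α β : Type} [Fintype α] [Fintype β]

theorem mem_fam_list (A : α → ℝ × ℝ) (B : β → ℝ × ℝ) (D Y : Fin 3 → ℝ × ℝ) (l : List (ET α β))
    (hl : ∀ x ∈ l, x ∈ ets A Y) : (Iof l, Jof B D l) ∈ fam A B D Y l.length := by
  classical
  unfold fam
  refine Finset.mem_union_left _ (Finset.mem_image.2 ⟨l.get, ?_, ?_⟩)
  · rw [Fintype.mem_piFinset]
    intro i
    exact hl _ (List.get_mem l i)
  · rw [List.ofFn_get]

theorem mem_fam_single (A : α → ℝ × ℝ) (B : β → ℝ × ℝ) (D Y : Fin 3 → ℝ × ℝ) (s : ℕ) (a : α)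
    (b : β) : ({a}, {b}) ∈ fam A B D Y s := by
  classical
  unfold fam
  exact Finset.mem_union_right _ (Finset.mem_image.2 ⟨(a, b), Finset.mem_univ _, rfl⟩)

theorem TyMem_inl {α β : Type} (π : α ↪ β) (x : α ⊕ Fin 3) (a : α) :
    Sum.map π (id : Fin 3 → Fin 3) x = Sum.inl (π a) ↔ x = Sum.inl a := by
  rcases x with x | x
  · simp
  · simp

/-- the data of the list -/
noncomputable def TyMemL {α β : Type} (A : α → ℝ × ℝ) (Y : Fin 3 → ℝ × ℝ) (π : α ↪ β)
    (L : List ((α ⊕ Fin 3) × (α ⊕ Fin 3))) (e : α ⊕ Fin 3 → α ⊕ Fin 3 → ℝ × ℝ) :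
    List (ET α β) :=
  L.map fun x => ((x.1, x.2), (Sum.map π id x.1, Sum.map π id x.2), pat A Y x.1 x.2 (e x.1 x.2))

theorem TyMem_I {α β : Type} [Fintype α] (A : α → ℝ × ℝ) (Y : Fin 3 → ℝ × ℝ) (π : α ↪ β)
    (L : List ((α ⊕ Fin 3) × (α ⊕ Fin 3))) (e : α ⊕ Fin 3 → α ⊕ Fin 3 → ℝ × ℝ) (a : α) :
    a ∈ Iof (TyMemL A Y π L e) ↔ (∀ x ∈ L, x.1 ≠ Sum.inl a ∧ x.2 ≠ Sum.inl a) ∧
      lsum (fun u v => pat A Y u v (e u v) a) L = 1 := by
  classical
  unfold Iof TyMemL lsum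
  simp only [Finset.mem_filter, Finset.mem_univ, true_and, List.map_map, List.mem_map,
    forall_exists_index, and_imp, forall_apply_eq_imp_iff₂]
  exact Iff.rfl

theorem TyMem_J {α β : Type} [Fintype β] (A : α → ℝ × ℝ) (B : β → ℝ × ℝ)
    (D Y : Fin 3 → ℝ × ℝ) (π : α ↪ β)
    (L : List ((α ⊕ Fin 3) × (α ⊕ Fin 3))) (e : α ⊕ Fin 3 → α ⊕ Fin 3 → ℝ × ℝ) (a : α) :
    π a ∈ Jof B D (TyMemL A Y π L e) ↔ (∀ x ∈ L, x.1 ≠ Sum.inl a ∧ x.2 ≠ Sum.inl a) ∧
      lsum (fun u v => eps (Sum.elim B D (Sum.map π id u) - B (π a))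
          (Sum.elim B D (Sum.map π id v) - B (π a))) L = 1 := by
  classical
  unfold Jof TyMemL lsum
  simp only [Finset.mem_filter, Finset.mem_univ, true_and, List.map_map, List.mem_map,
    forall_exists_index, and_imp, forall_apply_eq_imp_iff₂, ne_eq, TyMem_inl]
  exact Iff.rfl

open Classical in
theorem type_of (A : α → ℝ × ℝ) (B : β → ℝ × ℝ) (D Y : Fin 3 → ℝ × ℝ) (π : α ↪ β)
    (L : List ((α ⊕ Fin 3) × (α ⊕ Fin 3))) (e : α ⊕ Fin 3 → α ⊕ Fin 3 → ℝ × ℝ)
    (hK : ∀ a : α, (∀ x ∈ L, x.1 ≠ Sum.inl a ∧ x.2 ≠ Sum.inl a) →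
      lsum (fun u v => pat A Y u v (e u v) a) L =
        lsum (fun u v => eps (Sum.elim B D (Sum.map π id u) - B (π a))
          (Sum.elim B D (Sum.map π id v) - B (π a))) L) :
    ∃ p ∈ fam A B D Y L.length, (∀ a, a ∈ p.1 ↔ π a ∈ p.2) ∧
      p.1 = Finset.univ.filter fun a => (∀ x ∈ L, x.1 ≠ Sum.inl a ∧ x.2 ≠ Sum.inl a) ∧
        lsum (fun u v => eps (Sum.elim B D (Sum.map π id u) - B (π a))
          (Sum.elim B D (Sum.map π id v) - B (π a))) L = 1 := by
  refine ⟨(Iof (TyMemL A Y π L e), Jof B D (TyMemL A Y π L e)), ?_, ?_, ?_⟩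
  · have h := mem_fam_list A B D Y (TyMemL A Y π L e) ?_
    · have hlen : (TyMemL A Y π L e).length = L.length := by
        unfold TyMemL
        rw [List.length_map]
      rw [hlen] at h
      exact h
    · intro x hx
      unfold TyMemL at hx
      obtain ⟨y, hy, rfl⟩ := List.mem_map.1 hx
      unfold ets
      exact Finset.mem_filter.2 ⟨Finset.mem_univ _, _, rfl⟩
  · intro a
    rw [TyMem_I, TyMem_J]
    refine and_congr_right fun ha => ?_
    rw [hK a ha]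
  · ext a
    rw [TyMem_I, Finset.mem_filter]
    constructor
    · rintro ⟨h1, h2⟩
      exact ⟨Finset.mem_univ _, h1, by rw [← hK a h1]; exact h2⟩
    · rintro ⟨-, h1, h2⟩
      exact ⟨h1, by rw [hK a h1]; exact h2⟩

end Pool.Agent.H63.SX
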